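import Mathlib
import Pool.Agent.Lib.UP.U14

/-!
# T4 (surface groups): the functor `ES R p W = Ext^p_R(W, R)` (left modules by the involution)
-/

set_option autoImplicit false
set_option linter.unusedSectionVars false

open CategoryTheory CategoryTheory.Abelian Pool.Agent.UP

namespace Pool.Agent.PLS

universe u

section
variable {R : Type u} [Ring R] [StarRing R] {W W' W'' : Type u} [AddCommGroup W] [Module R W]
  [AddCommGroup W'] [Module R W'] [AddCommGroup W''] [Module R W'']

/-- functoriality of `Ext` -/
noncomputable def esMap (p : ℕ) (f : W →ₗ[R] W') : ES R p W' →ₗ[R] ES R p W where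
  toFun x := Pool.UP.EP.map p f x
  map_add' x y := (Pool.UP.EP.map p f).map_add x y
  map_smul' r x := (Pool.UP.EP.map p f).map_smul _ x

theorem esMap_comp (p : ℕ) (f : W →ₗ[R] W') (g : W' →ₗ[R] W'') (x : ES R p W'') :
    esMap p (g.comp f) x = esMap p f (esMap p g x) := Pool.UP.EP.map_comp f g x

theorem esMap_id (p : ℕ) (x : ES R p W) : esMap p LinearMap.id x = x := Pool.UP.EP.map_id x

theorem esMap_add (p : ℕ) (f g : W →ₗ[R] W') (x : ES R p W') :
    esMap p (f + g) x = esMap p f x + esMap p g x := Pool.UP.EP.map_add f g x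

theorem esMap_zero (p : ℕ) (x : ES R p W') : esMap p (0 : W →ₗ[R] W') x = 0 :=
  Pool.UP.EP.map_zero x

theorem esMap_neg (p : ℕ) (f : W →ₗ[R] W') (x : ES R p W') :
    esMap p (-f) x = - esMap p f x := by
  have h : esMap p (-f + f) x = esMap p (-f) x + esMap p f x := esMap_add p _ _ x
  rw [neg_add_cancel, esMap_zero] at h
  exact (neg_eq_of_add_eq_zero_left h.symm).symm

theorem esMap_sub (p : ℕ) (f g : W →ₗ[R] W') (x : ES R p W') :
    esMap p (f - g) x = esMap p f x - esMap p g x := by
  rw [sub_eq_add_neg, esMap_add, esMap_neg, sub_eq_add_neg]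

/-- the connecting homomorphism of `0 → N → K → Q → 0` -/
noncomputable def esDelta (l : ℕ) (f : W →ₗ[R] W') (g : W' →ₗ[R] W'') (hf : Function.Injective f)
    (hg : Function.Surjective g) (h : Function.Exact f g) : ES R l W →ₗ[R] ES R (l + 1) W'' where
  toFun x := Pool.UP.EP.delta l f g hf hg h x
  map_add' x y := (Pool.UP.EP.delta l f g hf hg h).map_add x y
  map_smul' r x := (Pool.UP.EP.delta l f g hf hg h).map_smul _ x

variable (f : W →ₗ[R] W') (g : W' →ₗ[R] W'') (hf : Function.Injective f)
    (hg : Function.Surjective g) (h : Function.Exact f g)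

include hf hg h in
theorem es_exact_mid (l : ℕ) : Function.Exact (esMap l g) (esMap l f) :=
  Pool.UP.EP.exact_mid f g hf hg h l

theorem es_exact_left (l : ℕ) : Function.Exact (esMap l f) (esDelta l f g hf hg h) :=
  Pool.UP.EP.exact_left f g hf hg h l

theorem es_exact_right (l : ℕ) : Function.Exact (esDelta l f g hf hg h) (esMap (l + 1) g) :=
  Pool.UP.EP.exact_right f g hf hg h l

include hg in
theorem esMap_zero_injective : Function.Injective (esMap 0 g) :=
  Pool.UP.EP.map_zero_injective g hg

end

end Pool.Agent.PLS
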