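import Mathlib
import Pool.Agent.Lib.PLS.EsApi
import Pool.Agent.Lib.UP25.Fam
import Pool.Agent.Lib.UP25.TDefs

/-!
# T4: edge groups inside surface groups. Definitions

`H` acts freely with finitely many orbits on the vertices, edges and faces of a plane.
-/

set_option autoImplicit false
set_option linter.unusedSectionVars false
set_option linter.unusedVariables false

open MonoidAlgebra Pool.Agent.UP Pool.Agent.UPV Pool.Agent.UP25

namespace Pool.Agent.PLS

universe u v w

/-! ## Planes -/

/-- A cell structure of a plane with a free cocompact action of `H`: the sets `V`, `E`, `F` of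
vertices, edges and faces, the ends `o e`, `t e` and the sides `l e`, `r e` of an edge, a sign `s e`
(the orientations of the two sides).  The chain complex `ℤ[F] → ℤ[E] → ℤ[V] → ℤ` is exact at
`ℤ[E]`, `ℤ[V]` and `ℤ`, and the plane is connected through its edges. -/
structure PlaneCx (H : Type u) [Group H] (V E F : Type u) [MulAction H V] [MulAction H E]
    [MulAction H F] where
  o : E → V
  t : E → V
  l : E → F
  r : E → F
  s : E → ℤˣ
  ho : ∀ (h : H) (e : E), o (h • e) = h • o e
  ht : ∀ (h : H) (e : E), t (h • e) = h • t e
  hl : ∀ (h : H) (e : E), l (h • e) = h • l e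
  hr : ∀ (h : H) (e : E), r (h • e) = h • r e
  hs : ∀ (h : H) (e : E), s (h • e) = s e
  freeV : ∀ (h : H) (x : V), h • x = x → h = 1
  freeE : ∀ (h : H) (x : E), h • x = x → h = 1
  freeF : ∀ (h : H) (x : F), h • x = x → h = 1
  finV : Finite (MulAction.orbitRel.Quotient H V)
  finE : Finite (MulAction.orbitRel.Quotient H E)
  finF : Finite (MulAction.orbitRel.Quotient H F)
  ne : Nonempty V
  /-- exactness at the vertices -/
  ex0 : ∀ f : V →₀ ℤ, (f.sum fun _ n => n) = 0 →
    ∃ g : E →₀ ℤ, g.mapDomain t - g.mapDomain o = f
  /-- exactness at the edges -/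
  ex1 : ∀ g : E →₀ ℤ, g.mapDomain t = g.mapDomain o →
    ∃ c : F →₀ ℤ, ∀ e, g e = c (l e) - (s e : ℤ) * c (r e)
  /-- the boundary of a boundary is zero -/
  bd : ∀ (c : F →₀ ℤ) (g : E →₀ ℤ), (∀ e, g e = c (l e) - (s e : ℤ) * c (r e)) →
    g.mapDomain t = g.mapDomain o
  /-- two faces are connected by a chain of faces, neighbours have a common edge -/
  connF : ∀ S : Set F, S.Nonempty → (∀ e, l e ∈ S ↔ r e ∈ S) → S = Set.univ

/-! ## Trees with coherent vertex groups and Noetherian edge groups -/

/-- `H` acts by automorphisms on a tree with an invariant orientation of the edges and finitely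
many orbits -/
structure WAct (H : Type u) [Group H] (X : Type u) [MulAction H X] where
  Γ : SimpleGraph X
  tree : Γ.IsTree
  adj : ∀ (h : H) (x y : X), Γ.Adj x y → Γ.Adj (h • x) (h • y)
  or : Orient Γ
  orP : ∀ (h : H) (x y : X), or.P x y → or.P (h • x) (h • y)
  finV : Finite (MulAction.orbitRel.Quotient H X)

namespace WAct

variable {H : Type u} [Group H] {X : Type u} [MulAction H X] (T : WAct H X)

/-- the oriented edges -/
abbrev E : Type u := T.or.E

instance : MulAction H T.E where
  smul h e := ⟨(h • e.1.1, h • e.1.2), T.adj h _ _ e.2.1, T.orP h _ _ e.2.2⟩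
  one_smul e := Subtype.ext (Prod.ext (one_smul H _) (one_smul H _))
  mul_smul g h e := Subtype.ext (Prod.ext (mul_smul g h _) (mul_smul g h _))

theorem smul_fst (h : H) (e : T.E) : (h • e : T.E).1.1 = h • e.1.1 := rfl

theorem smul_snd (h : H) (e : T.E) : (h • e : T.E).1.2 = h • e.1.2 := rfl

end WAct

/-- `H` is infinite, acts freely and cocompactly on a plane, and acts with finitely many orbits on
a tree such that the stabilisers of the edges are virtually poly-`ℤ` of length `≤ d` and the
stabilisers of the vertices are finitely generated, torsion-free and act virtually on locally finite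
trees with virtually poly-`ℤ` stabilisers of length `≤ d` -/
def Surf (d : ℕ) (H : Type u) [Group H] : Prop :=
  Infinite H ∧
  (∃ (V E F : Type u) (_ : MulAction H V) (_ : MulAction H E) (_ : MulAction H F),
    Nonempty (PlaneCx H V E F)) ∧
  ∃ (X : Type u) (_ : MulAction H X) (T : WAct H X), Finite (MulAction.orbitRel.Quotient H T.E) ∧
    (∀ e : T.E, VPZ d (MulAction.stabilizer H e)) ∧
    ∀ x : X, Group.FG (MulAction.stabilizer H x) ∧ VTd d (MulAction.stabilizer H x)

/-- `H` embeds in a group `Surf d` -/
def PSd (d : ℕ) (H : Type u) [Group H] : Prop :=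
  ∃ (H₀ : Type u) (_ : Group H₀) (φ : H →* H₀), Function.Injective φ ∧ Surf d H₀

/-- `H` embeds in a surface group -/
def IsPS (H : Type u) [Group H] : Prop := ∃ d, PSd d H

/-! ## Restriction to the coefficients -/

/-- an `A[H]`-module as an `A`-module -/
def Ra (_H : Type u) (K : Type u) : Type u := K

instance (H K : Type u) [AddCommGroup K] : AddCommGroup (Ra H K) :=
  inferInstanceAs (AddCommGroup K)

section
variable {A H : Type u} [CommRing A] [Group H]

noncomputable instance (K : Type u) [AddCommGroup K] [Module A[H] K] : Module A (Ra H K) :=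
  Module.compHom K (singleOneRingHom : A →+* A[H])

/-- the identity -/
def toRa (H : Type u) (K : Type u) [AddCommGroup K] : K ≃+ Ra H K := AddEquiv.refl K

variable {K K' : Type u} [AddCommGroup K] [Module A[H] K] [AddCommGroup K'] [Module A[H] K']

theorem toRa_smul (a : A) (k : K) : a • toRa H K k = toRa H K ((single 1 a : A[H]) • k) := rfl

/-- restriction of a linear map -/
noncomputable def raMap (f : K →ₗ[A[H]] K') : Ra H K →ₗ[A] Ra H K' where
  toFun k := toRa H K' (f ((toRa H K).symm k))
  map_add' a b := by rw [map_add, map_add, map_add]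
  map_smul' r k := by
    change toRa H K' (f ((single 1 r : A[H]) • (toRa H K).symm k)) = _
    rw [map_smul]
    rfl

theorem raMap_apply (f : K →ₗ[A[H]] K') (k : K) : raMap f (toRa H K k) = toRa H K' (f k) := rfl

/-- all finitely generated `A`-submodules `N` of `K` satisfy `Ext^l(N, A) = 0` for `l < q` -/
def GQ (A H : Type u) [CommRing A] [Group H] (q : ℕ) (K : Type u) [AddCommGroup K]
    [Module A[H] K] : Prop := Loc A q (Ra H K)

end

/-! ## Induced modules -/

/-- `A[H] ⊗ U`: finitely supported functions on `H` with values in `U` -/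
def Ind (H U : Type u) [AddCommGroup U] : Type u := H →₀ U

noncomputable instance (H U : Type u) [AddCommGroup U] : AddCommGroup (Ind H U) :=
  inferInstanceAs (AddCommGroup (H →₀ U))

section
variable {A H : Type u} [CommRing A] [Group H] {U U' : Type u} [AddCommGroup U] [Module A U]
  [AddCommGroup U'] [Module A U']

/-- the element `h ⊗ w` -/
noncomputable def Ind.mk (H : Type u) {U : Type u} [AddCommGroup U] (h : H) (w : U) : Ind H U :=
  Finsupp.single h w

/-- the value at `h` -/
noncomputable def Ind.val {H U : Type u} [AddCommGroup U] (h : H) : Ind H U →+ U :=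
  Finsupp.applyAddHom h

/-- left multiplication -/
noncomputable def indRep (A H U : Type u) [CommRing A] [Group H] [AddCommGroup U] [Module A U] :
    H →* Module.End A (H →₀ U) where
  toFun h := Finsupp.lmapDomain U A (h * ·)
  map_one' := by
    refine LinearMap.ext fun f => ?_
    change Finsupp.mapDomain (fun x => 1 * x) f = f
    simp only [one_mul]
    exact Finsupp.mapDomain_id
  map_mul' g h := by
    refine LinearMap.ext fun f => ?_
    change Finsupp.mapDomain (fun x => g * h * x) f =
      Finsupp.mapDomain (fun x => g * x) (Finsupp.mapDomain (fun x => h * x) f)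
    rw [← Finsupp.mapDomain_comp]
    congr 1
    funext x
    exact mul_assoc g h x

noncomputable instance : Module A[H] (Ind H U) :=
  Module.compHom (H →₀ U) ((MonoidAlgebra.lift A (Module.End A (H →₀ U)) H
    (indRep A H U)).toRingHom : A[H] →+* Module.End A (H →₀ U))

theorem Ind.single_smul (g : H) (a : A) (h : H) (w : U) :
    (single g a : A[H]) • Ind.mk H h w = Ind.mk H (g * h) (a • w) := by
  change (MonoidAlgebra.lift A (Module.End A (H →₀ U)) H (indRep A H U) (single g a))
    (Finsupp.single h w) = Finsupp.single (g * h) (a • w)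
  rw [MonoidAlgebra.lift_single]
  change a • (Finsupp.mapDomain (fun x => g * x) (Finsupp.single h w)) = _
  rw [Finsupp.mapDomain_single, Finsupp.smul_single]

/-- additive maps which agree on the elements `h ⊗ w` are equal -/
theorem Ind.addHom_ext {N : Type*} [AddCommGroup N] {f g : Ind H U →+ N}
    (h : ∀ (x : H) (w : U), f (Ind.mk H x w) = g (Ind.mk H x w)) : f = g :=
  Finsupp.addHom_ext h

/-- the additive map `h ⊗ w ↦ h • φ w` -/
noncomputable def indLiftAdd {N : Type u} [AddCommGroup N] [Module A[H] N]
    (φ : U →ₗ[A] Ra H N) : Ind H U →+ N :=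
  (Finsupp.liftAddHom fun h : H =>
    ((DistribSMul.toAddMonoidHom N (single h 1 : A[H])).comp
      ((toRa H N).symm.toAddMonoidHom.comp φ.toAddMonoidHom) : U →+ N) : (H →₀ U) →+ N)

theorem indLiftAdd_mk {N : Type u} [AddCommGroup N] [Module A[H] N] (φ : U →ₗ[A] Ra H N) (h : H)
    (w : U) : indLiftAdd φ (Ind.mk H h w) = (single h 1 : A[H]) • (toRa H N).symm (φ w) :=
  Finsupp.liftAddHom_apply_single _ h w

/-- the linear map `h ⊗ w ↦ h • φ w` -/
noncomputable def indLift {N : Type u} [AddCommGroup N] [Module A[H] N] (φ : U →ₗ[A] Ra H N) :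
    Ind H U →ₗ[A[H]] N where
  toFun := indLiftAdd φ
  map_add' := map_add _
  map_smul' r z := by
    rw [RingHom.id_apply]
    induction r using MonoidAlgebra.induction_linear with
    | zero => rw [zero_smul, zero_smul, map_zero]
    | add p q hp hq => rw [add_smul, add_smul, ← hp, ← hq, map_add]
    | single g a =>
      have h : (indLiftAdd φ).comp (DistribSMul.toAddMonoidHom (Ind H U) (single g a : A[H])) =
          (DistribSMul.toAddMonoidHom N (single g a : A[H])).comp (indLiftAdd φ) := by
        refine Ind.addHom_ext fun h w => ?_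
        change indLiftAdd φ ((single g a : A[H]) • Ind.mk H h w) =
          (single g a : A[H]) • indLiftAdd φ (Ind.mk H h w)
        rw [Ind.single_smul, indLiftAdd_mk, indLiftAdd_mk]
        change (single (g * h) 1 : A[H]) • (toRa H N).symm (φ (a • w)) =
          (single g a : A[H]) • ((single h 1 : A[H]) • (toRa H N).symm (φ w))
        rw [map_smul, smul_smul, single_mul_single, mul_one]
        change (single (g * h) 1 : A[H]) • ((single 1 a : A[H]) • (toRa H N).symm (φ w)) = _
        rw [smul_smul, single_mul_single, mul_one, one_mul]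
      exact DFunLike.congr_fun h z

theorem indLift_mk {N : Type u} [AddCommGroup N] [Module A[H] N] (φ : U →ₗ[A] Ra H N) (h : H)
    (w : U) : indLift φ (Ind.mk H h w) = (single h 1 : A[H]) • (toRa H N).symm (φ w) :=
  indLiftAdd_mk φ h w

/-- the map `h ⊗ w ↦ h k ⊗ i w` -/
noncomputable def indMap (k : H) (i : U →ₗ[A] U') : Ind H U →ₗ[A[H]] Ind H U' :=
  indLift (N := Ind H U')
    { toFun := fun w => toRa H (Ind H U') (Ind.mk H k (i w))
      map_add' := fun w w' => by
        rw [map_add]
        exact Finsupp.single_add k (i w) (i w')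
      map_smul' := fun a w => by
        rw [map_smul, RingHom.id_apply, toRa_smul, Ind.single_smul, one_mul] }

theorem indMap_mk (k : H) (i : U →ₗ[A] U') (h : H) (w : U) :
    indMap k i (Ind.mk H h w) = Ind.mk H (h * k) (i w) := by
  unfold indMap
  rw [indLift_mk]
  change (single h 1 : A[H]) • Ind.mk H k (i w) = _
  rw [Ind.single_smul, one_smul]

end

end Pool.Agent.PLS
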