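import Mathlib
import Pool.Agent.Lib.PLS.Defs

/-!
# T4: statements of the rows
-/

set_option autoImplicit false
set_option linter.unusedSectionVars false
set_option linter.unusedVariables false

open MonoidAlgebra Pool.Agent.UP Pool.Agent.UPV Pool.Agent.UP25

namespace Pool.Agent.PLS

universe u v w

attribute [local instance] starMA

/-- **ROW N (naturality of the connecting homomorphism)** -/
def RowN (R : Type u) [Ring R] [StarRing R] : Prop :=
  ∀ {N K Q N' K' Q' : Type u} [AddCommGroup N] [Module R N] [AddCommGroup K] [Module R K]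
    [AddCommGroup Q] [Module R Q] [AddCommGroup N'] [Module R N'] [AddCommGroup K'] [Module R K']
    [AddCommGroup Q'] [Module R Q']
    (f : N →ₗ[R] K) (g : K →ₗ[R] Q) (hf : Function.Injective f) (hg : Function.Surjective g)
    (h : Function.Exact f g)
    (f' : N' →ₗ[R] K') (g' : K' →ₗ[R] Q') (hf' : Function.Injective f')
    (hg' : Function.Surjective g') (h' : Function.Exact f' g')
    (a : N →ₗ[R] N') (b : K →ₗ[R] K') (c : Q →ₗ[R] Q'), f'.comp a = b.comp f →
    g'.comp b = c.comp g → ∀ (l : ℕ) (x : ES R l N'),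
      esMap (l + 1) c (esDelta l f' g' hf' hg' h' x) = esDelta l f g hf hg h (esMap l a x)

/-- **ROW I: the structure of `Ext^q(A[H] ⊗ U, A[H])` for finitely generated `U`**: the maps `ind`
and the coefficients `cf h` -/
structure IndData (A H : Type u) [CommRing A] [StarRing A] [Group H] (q : ℕ) where
  ind : ∀ (U : Type u) [AddCommGroup U] [Module A U] [Module.Finite A U],
    ES A q U →ₗ[A] Ra H (ES A[H] q (Ind H U))
  cf : ∀ (U : Type u) [AddCommGroup U] [Module A U] [Module.Finite A U],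
    H → (Ra H (ES A[H] q (Ind H U)) →ₗ[A] ES A q U)
  fin : ∀ (U : Type u) [AddCommGroup U] [Module A U] [Module.Finite A U]
    (x : ES A[H] q (Ind H U)), {h | cf U h x ≠ 0}.Finite
  ext : ∀ (U : Type u) [AddCommGroup U] [Module A U] [Module.Finite A U]
    (x : ES A[H] q (Ind H U)), (∀ h, cf U h x = 0) → x = 0
  cf_ind : ∀ (U : Type u) [AddCommGroup U] [Module A U] [Module.Finite A U] (c : ES A q U),
    cf U 1 (ind U c) = c
  cf_ind_ne : ∀ (U : Type u) [AddCommGroup U] [Module A U] [Module.Finite A U] (c : ES A q U)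
    (h : H), h ≠ 1 → cf U h (ind U c) = 0
  /-- `h' ⊗ w ↦ h' k ⊗ i w` shifts the coefficients -/
  cf_map : ∀ (U U' : Type u) [AddCommGroup U] [Module A U] [Module.Finite A U] [AddCommGroup U']
    [Module A U'] [Module.Finite A U'] (k : H) (i : U →ₗ[A] U') (h : H)
    (x : ES A[H] q (Ind H U')), cf U h (esMap q (indMap k i) x) = esMap q i (cf U' (h * k) x)
  cf_single : ∀ (U : Type u) [AddCommGroup U] [Module A U] [Module.Finite A U] (g h : H)
    (x : ES A[H] q (Ind H U)), cf U h ((single g 1 : A[H]) • x) = cf U (g⁻¹ * h) x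

/-- **ROW I** -/
def RowI (A H : Type u) [CommRing A] [StarRing A] [Group H] : Prop :=
  IsNoetherianRing A → ∀ q : ℕ, Nonempty (IndData A H q)

/-- **ROW IL**: the classes `G_q` for induced modules -/
def RowIL (A H : Type u) [CommRing A] [StarRing A] [Group H] : Prop :=
  IsNoetherianRing A → AR A → ∀ (q : ℕ) (U : Type u) [AddCommGroup U] [Module A U]
    [Module.Finite A U], GQ A H q (ES A[H] q (Ind H U)) ∧ (Loc A q U → GQ A H q (Ind H U))

/-- **ROW C (Claim 1)** -/
def RowC (A H : Type u) [CommRing A] [StarRing A] [Group H] : Prop :=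
  IsNoetherianRing A → AR A → CohT A[H] → ∀ (q : ℕ) (N : Type u) [AddCommGroup N] [Module A[H] N]
    [Module.FinitePresentation A[H] N], GQ A H q N → GE A[H] q N

/-- **ROW S (the support argument)** -/
def RowS (A H : Type u) [CommRing A] [StarRing A] [Group H] : Prop :=
  IsNoetherianRing A → AR A → CohT A[H] → Infinite H → ∀ (q : ℕ) (N : Type u) [AddCommGroup N]
    [Module A[H] N] [Module.FinitePresentation A[H] N] (L : Submodule A (Ra H N)), L.FG →
    GQ A H q N → Loc A (q + 1) (Ra H N ⧸ L) → GE A[H] (q + 1) N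

/-- **ROW X (exactness with coefficients in an abelian group)** -/
def RowX {H V E F : Type u} [Group H] [MulAction H V] [MulAction H E] [MulAction H F]
    (P : PlaneCx H V E F) : Prop :=
  ∀ (K : Type u) [AddCommGroup K],
    (∀ f : V →₀ K, (f.sum fun _ n => n) = 0 → ∃ g : E →₀ K, g.mapDomain P.t - g.mapDomain P.o = f) ∧
    (∀ g : E →₀ K, g.mapDomain P.t = g.mapDomain P.o →
      ∃ c : F →₀ K, ∀ e, g e = c (P.l e) - (P.s e : ℤ) • c (P.r e)) ∧
    (∀ (c : F →₀ K) (g : E →₀ K), (∀ e, g e = c (P.l e) - (P.s e : ℤ) • c (P.r e)) →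
      g.mapDomain P.t = g.mapDomain P.o) ∧
    (Infinite H → ∀ c : F →₀ K, (∀ e, c (P.l e) - (P.s e : ℤ) • c (P.r e) = 0) → c = 0)

section maps
variable (A : Type u) {H V E F : Type u} [CommRing A] [Group H] [MulAction H V] [MulAction H E]
  [MulAction H F] (P : PlaneCx H V E F) (W : Type u) [AddCommGroup W] [Module A[H] W]

/-- the data of the chain complex of the plane with coefficients in `W` -/
structure PMaps where
  ε : Tw A H V W →ₗ[A[H]] W
  d1 : Tw A H E W →ₗ[A[H]] Tw A H V W
  d2 : Tw A H F W →ₗ[A[H]] Tw A H E W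
  hε : ∀ (x : V) (w : W), ε (Tw.mk A H x w) = w
  hd1 : ∀ (e : E) (w : W), d1 (Tw.mk A H e w) = Tw.mk A H (P.t e) w - Tw.mk A H (P.o e) w
  hd2 : ∀ (c : Tw A H F W) (e : E), val e (d2 c) = val (P.l e) c - (P.s e : ℤ) • val (P.r e) c

/-- **ROW M (the maps exist)** -/
def RowM : Prop := Nonempty (PMaps A P W)

/-- **ROW E (exactness of the complex of `A[H]`-modules)** -/
def RowE : Prop := Infinite H → ∀ m : PMaps A P W, Function.Surjective m.ε ∧
  (∀ x, m.ε x = 0 ↔ ∃ y, m.d1 y = x) ∧ (∀ x, m.d1 x = 0 ↔ ∃ y, m.d2 y = x) ∧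
  Function.Injective m.d2

end maps

section tot
variable {A H X : Type u} [CommRing A] [StarRing A] [Group H] [MulAction H X] {W : Type u}
  [AddCommGroup W] [Module A[H] W]

/-- the member `U x` of a family as an `A`-module -/
noncomputable def fib (F : EqFam A H X W) (x : X) : Submodule A (Ra H W) where
  carrier := {k | (toRa H W).symm k ∈ F.U x}
  add_mem' := fun ha hb => (F.U x).add_mem ha hb
  zero_mem' := (F.U x).zero_mem
  smul_mem' := fun a k hk => by
    have h1 := F.mem 1 a x _ hk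
    rwa [one_smul] at h1

/-- **ROW T: the total module of a family of finitely generated `A`-modules over a free `H`-set
with finitely many orbits is the direct sum of the induced modules of representatives; `ev x` are
the projections** -/
structure TotData (F : EqFam A H X W) where
  ev : ∀ x : X, F.tot →ₗ[A[H]] Ind H (fib F x)
  /-- the value at `h` of `ev x c` is `h⁻¹ • c (h • x)` -/
  ev_val : ∀ (x : X) (c : F.tot) (h : H), ((Ind.val h (ev x c) : fib F x) : Ra H W) =
    toRa H W ((single h⁻¹ 1 : A[H]) • val (h • x) c.1)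
  fp : Module.FinitePresentation A[H] F.tot
  /-- every class is a sum of classes which come from the projections -/
  gen : ∀ (q : ℕ) (ξ : ES A[H] q F.tot), ∃ (n : ℕ) (x : Fin n → X)
    (η : ∀ i, ES A[H] q (Ind H (fib F (x i)))), ξ = ∑ i, esMap q (ev (x i)) (η i)

/-- **ROW T** -/
def RowT (A H X W : Type u) [CommRing A] [StarRing A] [Group H] [MulAction H X] [AddCommGroup W]
    [Module A[H] W] : Prop :=
  IsNoetherianRing A → CohT A[H] → (∀ (h : H) (x : X), h • x = x → h = 1) →
    Finite (MulAction.orbitRel.Quotient H X) → ∀ F : EqFam A H X W,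
    (∀ x, (fib F x).FG) → Nonempty (TotData F)

end tot

/-- **ROW L (lattices)**: for a finite set of elements of the three chain groups there are lattices
which contain them -/
structure Latt (A : Type u) {H V E F : Type u} [CommRing A] [Group H] [MulAction H V]
    [MulAction H E] [MulAction H F] (P : PlaneCx H V E F) (W : Type u) [AddCommGroup W]
    [Module A[H] W] where
  fV : EqFam A H V W
  fE : EqFam A H E W
  fF : EqFam A H F W
  fgV : ∀ x, (fib fV x).FG
  fgE : ∀ x, (fib fE x).FG
  fgF : ∀ x, (fib fF x).FG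
  lo : ∀ e, fE.U e ≤ fV.U (P.o e)
  lt : ∀ e, fE.U e ≤ fV.U (P.t e)
  ll : ∀ e, fF.U (P.l e) ≤ fE.U e
  lr : ∀ e, fF.U (P.r e) ≤ fE.U e

/-- larger lattices -/
def Latt.Le {A : Type u} {H V E F : Type u} [CommRing A] [Group H] [MulAction H V]
    [MulAction H E] [MulAction H F] {P : PlaneCx H V E F} {W : Type u} [AddCommGroup W]
    [Module A[H] W] (L L' : Latt A P W) : Prop :=
  (∀ x, L.fV.U x ≤ L'.fV.U x) ∧ (∀ x, L.fE.U x ≤ L'.fE.U x) ∧ ∀ x, L.fF.U x ≤ L'.fF.U x

/-- **ROW L** -/
def RowL (A : Type u) {H V E F : Type u} [CommRing A] [StarRing A] [Group H] [MulAction H V]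
    [MulAction H E] [MulAction H F] (P : PlaneCx H V E F) (W : Type u) [AddCommGroup W]
    [Module A[H] W] : Prop :=
  IsNoetherianRing A → Infinite H → Nonempty (Latt A P W) ∧
    ∀ (L : Latt A P W) (sV : Finset (Tw A H V W)) (sE : Finset (Tw A H E W))
      (sF : Finset (Tw A H F W)), ∃ L' : Latt A P W, L.Le L' ∧ (∀ x ∈ sV, x ∈ L'.fV.tot) ∧
        (∀ x ∈ sE, x ∈ L'.fE.tot) ∧ ∀ x ∈ sF, x ∈ L'.fF.tot

/-- **ROW P (the map `Φ`, abstract)**: `S` any ring with involution, `C0 ≤ C0'' ≤ T0`,
`C1' ≤ C1'' ≤ T1`, `C2'' ≤ T2`; `G` is any class of `A[H]`-modules which is closed under isomorphism,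
submodules, quotients and extensions -/
def RowP (R : Type u) [Ring R] [StarRing R] : Prop :=
  ∀ (G : ∀ (M : Type u) [AddCommGroup M] [Module R M], Prop),
    (∀ (M M' : Type u) [AddCommGroup M] [Module R M] [AddCommGroup M'] [Module R M']
      (f : M →ₗ[R] M'), Function.Injective f → G M' → G M) →
    (∀ (M M' : Type u) [AddCommGroup M] [Module R M] [AddCommGroup M'] [Module R M']
      (f : M →ₗ[R] M'), Function.Surjective f → G M → G M') →
    (∀ (M M' M'' : Type u) [AddCommGroup M] [Module R M] [AddCommGroup M'] [Module R M']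
      [AddCommGroup M''] [Module R M''] (f : M →ₗ[R] M') (g : M' →ₗ[R] M''),
      Function.Exact f g → G M → G M'' → G M') →
    ∀ (T0 T1 T2 W : Type u) [AddCommGroup T0] [Module R T0] [AddCommGroup T1] [Module R T1]
      [AddCommGroup T2] [Module R T2] [AddCommGroup W] [Module R W]
      (ε : T0 →ₗ[R] W) (d1 : T1 →ₗ[R] T0) (d2 : T2 →ₗ[R] T1)
      (C0 C0'' : Submodule R T0) (C1' C1'' : Submodule R T1) (C2'' : Submodule R T2)
      (q : ℕ) (h2 : ∀ x ∈ C2'', d2 x ∈ C1''),
      (∀ x, ε (d1 x) = 0) → (∀ x, d1 (d2 x) = 0) → Function.Injective d2 →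
      C0 ≤ C0'' → C1' ≤ C1'' → (∀ w, ∃ x ∈ C0, ε x = w) → (∀ x ∈ C1'', d1 x ∈ C0'') →
      (∀ x ∈ C0, ε x = 0 → ∃ y ∈ C1', d1 y = x) → (∀ x ∈ C1', d1 x = 0 → ∃ y ∈ C2'', d2 y = x) →
      G (ES R (q + 2) C0'') → G (ES R (q + 1) C1'') →
      ∃ Φ : ES R q C2'' →ₗ[R] ES R (q + 2) W,
        (∀ y : ES R q C1'', Φ (esMap q (d2.restrict h2) y) = 0) ∧
        G (ES R (q + 2) W ⧸ LinearMap.range Φ)

/-- **ROW A (adjacency)**: `Φ` vanishes on the classes which come from the edges; then the image of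
`Φ` is a finitely generated `A`-module modulo `G_(q+1)` -/
def RowA (A : Type u) {H V E F : Type u} [CommRing A] [StarRing A] [Group H] [MulAction H V]
    [MulAction H E] [MulAction H F] (P : PlaneCx H V E F) (W : Type u) [AddCommGroup W]
    [Module A[H] W] : Prop :=
  IsNoetherianRing A → AR A → CohT A[H] → Infinite H → ∀ (m : PMaps A P W) (L : Latt A P W)
    (h2 : ∀ x ∈ L.fF.tot, m.d2 x ∈ L.fE.tot) (q : ℕ) (M : Type u) [AddCommGroup M] [Module A[H] M]
    (Φ : ES A[H] q L.fF.tot →ₗ[A[H]] M),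
    (∀ y : ES A[H] q L.fE.tot, Φ (esMap q (m.d2.restrict h2) y) = 0) →
    ∃ L₀ : Submodule A (Ra H M), L₀.FG ∧ L₀ ≤ LinearMap.range (raMap Φ) ∧
      Loc A (q + 1) (LinearMap.range (raMap Φ) ⧸ L₀.comap (LinearMap.range (raMap Φ)).subtype)

/-- **ROW R (the lattice of `Ext^(q+2)`)** -/
def RowR (A H : Type u) [CommRing A] [StarRing A] [Group H] : Prop :=
  IsNoetherianRing A → AR A → CohT A[H] → Infinite H → ∀ (V E F : Type u) [MulAction H V]
    [MulAction H E] [MulAction H F] (P : PlaneCx H V E F) (W : Type u) [AddCommGroup W]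
    [Module A[H] W] [Module.FinitePresentation A[H] W] (q : ℕ),
    GQ A H q (ES A[H] (q + 2) W) ∧ ∃ L : Submodule A (Ra H (ES A[H] (q + 2) W)), L.FG ∧
      Loc A (q + 1) (Ra H (ES A[H] (q + 2) W) ⧸ L)

/-- **ROW AR** -/
def RowAR (A H : Type u) [CommRing A] [StarRing A] [Group H] : Prop :=
  IsNoetherianRing A → AR A → CohT A[H] → Infinite H → ∀ (V E F : Type u) [MulAction H V]
    [MulAction H E] [MulAction H F] (P : PlaneCx H V E F), AR1 A[H]

/-- **ROW G (global dimension)** -/
def RowG (A H : Type u) [CommRing A] [Group H] : Prop :=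
  ∀ (n : ℕ), GD A n → Infinite H → ∀ (V E F : Type u) [MulAction H V] [MulAction H E]
    [MulAction H F] (P : PlaneCx H V E F), GD A[H] (n + 2)

/-- **ROW W (Waldhausen): coherence** -/
def RowW (A H : Type u) [CommRing A] [Group H] : Prop :=
  ∀ (X : Type u) [MulAction H X] (T : WAct H X), Finite (MulAction.orbitRel.Quotient H T.E) →
    (∀ e : T.E, IsNoetherianRing A[MulAction.stabilizer H e]) →
    (∀ x : X, CohT A[MulAction.stabilizer H x]) → CohT A[H]

/-- **ROW SC: coherence of the group rings of subgroups** -/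
def RowSC (A H K : Type u) [CommRing A] [Group H] [Group K] : Prop :=
  ∀ φ : K →* H, Function.Injective φ → CohT A[H] → CohT A[K]

/-- **ROW SF: finite dimension of the group rings of subgroups** -/
def RowSF (A H K : Type u) [CommRing A] [Group H] [Group K] : Prop :=
  ∀ φ : K →* H, Function.Injective φ → ∀ g, FL A[H] g → FL A[K] g

/-- **ROW SA: the condition `AR1` of the group rings of subgroups** -/
def RowSA (A H K : Type u) [CommRing A] [StarRing A] [Group H] [Group K] : Prop :=
  ∀ φ : K →* H, Function.Injective φ → CohT A[H] → AR1 A[H] → AR1 A[K]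

/-- **ROW F: the facts for the class `PSd d`** -/
def RowF (A : Type u) [CommRing A] [StarRing A] : Prop :=
  IsNoetherianRing A → AR A → ∀ g, FL A g → ∀ (d : ℕ) (H : Type u) [Group H], PSd d H →
    Facts4 A[H] (g + d + 4)

end Pool.Agent.PLS
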