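import Mathlib
import Pool.Agent.Lib.PLS.Rows
import Pool.Agent.Lib.UP.U3a
import Pool.Agent.Lib.UP25.S1a

/-!
# T4, row A: adjacency (helper36)

The image of `Φ` is the sum of the finitely generated `A`-modules `B_f`, `f` a face; the two sides of
an edge give `B_l`, `B_r` which agree modulo `G_(q+1)`.
-/

set_option autoImplicit false
set_option linter.unusedSectionVars false
set_option linter.unusedVariables false

open MonoidAlgebra Pool.Agent.UP Pool.Agent.UPV Pool.Agent.UP25

namespace Pool.Agent.PLS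

universe u

attribute [local instance] starMA

namespace Ax

/-! ### Generalities on `Loc` -/

section loc
variable {R : Type u} [Ring R] [IsNoetherianRing R] {p : ℕ}

/-- an extension step: `g` maps `E₀` into `N`, `E / E₀` and `N` are `Loc` -/
theorem loc_range_step {E Y : Type u} [AddCommGroup E] [Module R E] [AddCommGroup Y] [Module R Y]
    (g : E →ₗ[R] Y) (E₀ : Submodule R E) (N : Submodule R Y) (h0 : ∀ x ∈ E₀, g x ∈ N)
    (h1 : Loc R p (E ⧸ E₀)) (h2 : Loc R p N) : Loc R p (LinearMap.range g) := by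
  let f : (N ⊓ LinearMap.range g : Submodule R Y) →ₗ[R] LinearMap.range g :=
    Submodule.inclusion inf_le_right
  have hN : Loc R p (N ⊓ LinearMap.range g : Submodule R Y) :=
    Loc.of_injective (Submodule.inclusion inf_le_left) (Submodule.inclusion_injective _) h2
  refine Loc.of_exact f (LinearMap.range f).mkQ ?_ hN ?_
  · rw [Submodule.ker_mkQ]
  · refine Loc.of_surjective (E₀.liftQ ((LinearMap.range f).mkQ.comp g.rangeRestrict) ?_) ?_ h1
    · intro x hx
      rw [LinearMap.mem_ker, LinearMap.comp_apply, Submodule.mkQ_apply,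
        Submodule.Quotient.mk_eq_zero]
      exact ⟨⟨g x, h0 x hx, ⟨x, rfl⟩⟩, rfl⟩
    · intro y
      obtain ⟨⟨_, ⟨x, rfl⟩⟩, rfl⟩ := Submodule.mkQ_surjective _ y
      refine ⟨E₀.mkQ x, ?_⟩
      rw [Submodule.mkQ_apply, Submodule.liftQ_apply]
      rfl

/-- a submodule modulo `L`, covered by `Loc` pieces -/
theorem loc_quot_iSup {X : Type u} [AddCommGroup X] [Module R X] (L B : Submodule R X)
    {I : Type u} (Q : I → Submodule R (X ⧸ L)) (hQ : ∀ i, Loc R p (Q i))
    {M' : Type u} [AddCommGroup M'] [Module R M'] (h0 : Loc R p M')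
    (hB : ∀ x ∈ B, L.mkQ x ∈ ⨆ i, Q i) : Loc R p (B ⧸ L.comap B.subtype) := by
  intro K hK
  have hj : Function.Injective (Submodule.mapQ (L.comap B.subtype) L B.subtype le_rfl) := by
    rw [← LinearMap.ker_eq_bot, Submodule.ker_mapQ, eq_bot_iff]
    rintro _ ⟨x, hx, rfl⟩
    rw [Submodule.mem_bot, Submodule.mkQ_apply, Submodule.Quotient.mk_eq_zero]
    exact hx
  refine GE.congr (Submodule.equivMapOfInjective _ hj K).symm ?_
  refine ge_of_le_iSup Q hQ h0 _ (hK.map _) ?_
  rintro _ ⟨x, _, rfl⟩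
  obtain ⟨⟨b, hb⟩, rfl⟩ := Submodule.mkQ_surjective _ x
  exact hB b hb

end loc

section es
variable {R : Type u} [Ring R] [StarRing R]

theorem es_subsingleton {M : Type u} [AddCommGroup M] [Module R M] [Subsingleton M] (q : ℕ) :
    Subsingleton (ES R q M) := by
  have h0 : (LinearMap.id : M →ₗ[R] M) = 0 := LinearMap.ext fun x => Subsingleton.elim _ _
  have h1 : ∀ x : ES R q M, x = 0 := fun x => by
    rw [← esMap_id q x, h0, esMap_zero]
  exact ⟨fun a b => by rw [h1 a, h1 b]⟩

theorem loc_subsingleton {M : Type u} [AddCommGroup M] [Module R M] [Subsingleton M] (q : ℕ) :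
    Loc R q M := fun N _ l _ => (es_subsingleton (R := R) (M := N) l : _)

theorem es_finite [IsNoetherianRing R] {U : Type u} [AddCommGroup U] [Module R U]
    [Module.Finite R U] (q : ℕ) : Module.Finite R (ES R q U) := by
  obtain ⟨T, ⟨P⟩⟩ := exists_res (R := R) U
  exact Module.Finite.of_surjective (tCls P q) (tCls_surj P q)

/-- the cokernel of the restriction to a submodule is in `G_(q+1)` -/
theorem loc_coker [IsNoetherianRing R] (h : AR R) {U U' : Type u} [AddCommGroup U] [Module R U]
    [Module.Finite R U] [AddCommGroup U'] [Module R U'] (i : U' →ₗ[R] U)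
    (hi : Function.Injective i) (q : ℕ) :
    Loc R (q + 1) (ES R q U' ⧸ LinearMap.range (esMap q i)) := by
  have hex : Function.Exact i (LinearMap.range i).mkQ := LinearMap.exact_map_mkQ_range i
  have hsur := Submodule.mkQ_surjective (LinearMap.range i)
  obtain ⟨T, ⟨P⟩⟩ := exists_res (R := R) (U ⧸ LinearMap.range i)
  refine Loc.of_injective ((LinearMap.range (esMap q i)).liftQ
    (esDelta q i (LinearMap.range i).mkQ hi hsur hex) ?_) ?_ (loc_es h P q)
  · rintro _ ⟨y, rfl⟩
    exact (es_exact_left i _ hi hsur hex q _).2 ⟨y, rfl⟩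
  · rw [← LinearMap.ker_eq_bot, Submodule.ker_liftQ, eq_bot_iff]
    rintro _ ⟨x, hx, rfl⟩
    rw [Submodule.mem_bot, Submodule.mkQ_apply, Submodule.Quotient.mk_eq_zero]
    exact (es_exact_left i _ hi hsur hex q x).1 hx

end es

/-! ### Induced modules -/

section ind
variable {A H : Type u} [CommRing A] [Group H] {U U' : Type u} [AddCommGroup U] [Module A U]
  [AddCommGroup U'] [Module A U']

theorem ind_ext {z z' : Ind H U} (h : ∀ g, Ind.val g z = Ind.val g z') : z = z' := Finsupp.ext h

theorem val_indMap (k : H) (i : U →ₗ[A] U') (h : H) (z : Ind H U) :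
    Ind.val h (indMap k i z) = i (Ind.val (h * k⁻¹) z) := by
  have e : (Ind.val h).comp (indMap k i : Ind H U →ₗ[A[H]] Ind H U').toAddMonoidHom =
      (i.toAddMonoidHom).comp (Ind.val (h * k⁻¹)) := by
    refine Ind.addHom_ext fun x w => ?_
    change Ind.val h (indMap k i (Ind.mk H x w)) = i (Ind.val (h * k⁻¹) (Ind.mk H x w))
    rw [indMap_mk]
    classical
    change (Finsupp.single (x * k) (i w)) h = i ((Finsupp.single x w) (h * k⁻¹))
    by_cases hx : x * k = h
    · subst hx
      rw [Finsupp.single_eq_same, mul_inv_cancel_right, Finsupp.single_eq_same]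
    · rw [Finsupp.single_eq_of_ne (fun h' => hx h'.symm), Finsupp.single_eq_of_ne, map_zero]
      intro h'
      exact hx (by rw [← h', inv_mul_cancel_right])
  exact DFunLike.congr_fun e z

end ind

section data
variable {A H : Type u} [CommRing A] [StarRing A] [Group H] {q : ℕ} (D : IndData A H q)
  (U U' : Type u) [AddCommGroup U] [Module A U] [Module.Finite A U] [AddCommGroup U'] [Module A U']
  [Module.Finite A U']

/-- the class `ind c` as an element of `Ext` -/
noncomputable def idn (c : ES A q U) : ES A[H] q (Ind H U) := (toRa H _).symm (D.ind U c)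

theorem cf_smul_idn (g h : H) (c : ES A q U) :
    D.cf U h ((single g 1 : A[H]) • idn D U c : ES A[H] q (Ind H U)) = D.cf U (g⁻¹ * h) (D.ind U c) :=
  D.cf_single U g h (idn D U c)

theorem cf_ind_if [DecidableEq H] (h : H) (c : ES A q U) :
    D.cf U h (D.ind U c) = if h = 1 then c else 0 := by
  by_cases h1 : h = 1
  · rw [if_pos h1, h1]
    exact D.cf_ind U c
  · rw [if_neg h1]
    exact D.cf_ind_ne U c h h1

theorem idn_sum (x : ES A[H] q (Ind H U)) : ∃ (s : Finset H) (c : H → ES A q U),
    x = ∑ g ∈ s, (single g 1 : A[H]) • idn D U (c g) := by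
  classical
  refine ⟨(D.fin U x).toFinset, fun g => D.cf U g x, ?_⟩
  rw [← sub_eq_zero]
  refine D.ext U _ fun h => ?_
  have e : D.cf U h (∑ g ∈ (D.fin U x).toFinset, (single g 1 : A[H]) • idn D U (D.cf U g x) :
      ES A[H] q (Ind H U)) = ∑ g ∈ (D.fin U x).toFinset, D.cf U (g⁻¹ * h) (D.ind U (D.cf U g x)) := by
    rw [← Finset.sum_congr rfl fun g _ => cf_smul_idn D U g h (D.cf U g x)]
    exact map_sum (D.cf U h) _ _
  have e2 : D.cf U h (x - ∑ g ∈ (D.fin U x).toFinset, (single g 1 : A[H]) •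
      idn D U (D.cf U g x) : ES A[H] q (Ind H U)) = D.cf U h x -
      D.cf U h (∑ g ∈ (D.fin U x).toFinset, (single g 1 : A[H]) • idn D U (D.cf U g x) :
        ES A[H] q (Ind H U)) := map_sub (D.cf U h) _ _
  rw [e2, e, sub_eq_zero]
  by_cases hh : D.cf U h x = 0
  · rw [hh]
    symm
    refine Finset.sum_eq_zero fun g hg => ?_
    rw [cf_ind_if]
    by_cases hgh : g⁻¹ * h = 1
    · rw [if_pos hgh]
      have : g = h := inv_mul_eq_one.1 hgh
      rw [this]
      exact hh
    · rw [if_neg hgh]
  · rw [Finset.sum_eq_single h]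
    · rw [cf_ind_if, if_pos (inv_mul_cancel h)]
    · intro g _ hg
      rw [cf_ind_if, if_neg fun h' => hg (inv_mul_eq_one.1 h')]
    · intro h'
      exact absurd ((D.fin U x).mem_toFinset.2 hh) h'

theorem esMap_idn (k : H) (i : U →ₗ[A] U') (c : ES A q U') :
    esMap q (indMap k i) (idn D U' c) = (single k⁻¹ 1 : A[H]) • idn D U (esMap q i c) := by
  classical
  rw [← sub_eq_zero]
  refine D.ext U _ fun h => ?_
  have e2 : D.cf U h (esMap q (indMap k i) (idn D U' c) - (single k⁻¹ 1 : A[H]) •
      idn D U (esMap q i c) : ES A[H] q (Ind H U)) =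
      D.cf U h (esMap q (indMap k i) (idn D U' c)) -
      D.cf U h ((single k⁻¹ 1 : A[H]) • idn D U (esMap q i c) : ES A[H] q (Ind H U)) :=
    map_sub (D.cf U h) _ _
  rw [e2, cf_smul_idn, D.cf_map U U' k i h (idn D U' c), inv_inv]
  change esMap q i (D.cf U' (h * k) (D.ind U' c)) - _ = 0
  rw [cf_ind_if, cf_ind_if]
  by_cases hk : h * k = 1
  · rw [if_pos hk, if_pos (mul_eq_one_comm.1 hk), sub_self]
  · rw [if_neg hk, if_neg fun h' => hk (mul_eq_one_comm.1 h'), map_zero, sub_self]

end data

/-! ### The pieces `B_x` -/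

section pieces
variable {A H X : Type u} [CommRing A] [StarRing A] [Group H] [MulAction H X] {W : Type u}
  [AddCommGroup W] [Module A[H] W]

/-- multiplication by `g` from `U x` to `U (g • x)` -/
noncomputable def fibMul (F : EqFam A H X W) (g : H) (x : X) : fib F x →ₗ[A] fib F (g • x) where
  toFun w := ⟨toRa H W ((single g 1 : A[H]) • (toRa H W).symm w.1), F.mem g 1 x _ w.2⟩
  map_add' w w' := by
    refine Subtype.ext ?_
    change (single g 1 : A[H]) • ((toRa H W).symm (w.1 + w'.1)) = _
    rw [map_add, smul_add]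
    rfl
  map_smul' a w := by
    refine Subtype.ext ?_
    change (single g 1 : A[H]) • ((single 1 a : A[H]) • (toRa H W).symm w.1) =
      (single 1 a : A[H]) • ((single g 1 : A[H]) • (toRa H W).symm w.1)
    rw [smul_smul, smul_smul, single_mul_single, single_mul_single, mul_one, one_mul, mul_one,
      one_mul]

/-- multiplication by `g⁻¹` from `U (g • x)` to `U x` -/
noncomputable def fibInv (F : EqFam A H X W) (g : H) (x : X) : fib F (g • x) →ₗ[A] fib F x where
  toFun w := ⟨toRa H W ((single g⁻¹ 1 : A[H]) • (toRa H W).symm w.1), F.mem_inv g w.2⟩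
  map_add' w w' := by
    refine Subtype.ext ?_
    change (single g⁻¹ 1 : A[H]) • ((toRa H W).symm (w.1 + w'.1)) = _
    rw [map_add, smul_add]
    rfl
  map_smul' a w := by
    refine Subtype.ext ?_
    change (single g⁻¹ 1 : A[H]) • ((single 1 a : A[H]) • (toRa H W).symm w.1) =
      (single 1 a : A[H]) • ((single g⁻¹ 1 : A[H]) • (toRa H W).symm w.1)
    rw [smul_smul, smul_smul, single_mul_single, single_mul_single, mul_one, one_mul, mul_one,
      one_mul]

theorem fibInv_fibMul (F : EqFam A H X W) (g : H) (x : X) :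
    (fibInv F g x).comp (fibMul F g x) = LinearMap.id := by
  refine LinearMap.ext fun w => Subtype.ext ?_
  change (single g⁻¹ 1 : A[H]) • ((single g 1 : A[H]) • (toRa H W).symm w.1) = w.1
  rw [smul_smul, single_mul_single, inv_mul_cancel, mul_one]
  exact one_smul A[H] _

/-- the inclusion of fibres -/
noncomputable def fibInc {Y : Type u} [MulAction H Y] (F : EqFam A H X W) (G : EqFam A H Y W)
    (x : X) (y : Y) (h : F.U x ≤ G.U y) : fib F x →ₗ[A] fib G y :=
  Submodule.inclusion (p := fib F x) (p' := fib G y) fun _ hk => h hk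

theorem fibInc_injective {Y : Type u} [MulAction H Y] (F : EqFam A H X W) (G : EqFam A H Y W)
    (x : X) (y : Y) (h : F.U x ≤ G.U y) : Function.Injective (fibInc F G x y h) :=
  Submodule.inclusion_injective _

theorem ev_smul {F : EqFam A H X W} (t : TotData F) (g : H) (x : X) :
    t.ev (g • x) = (indMap g⁻¹ (fibMul F g x)).comp (t.ev x) := by
  refine LinearMap.ext fun c => ind_ext fun h => Subtype.ext ?_
  rw [LinearMap.comp_apply, val_indMap, t.ev_val]
  change _ = toRa H W ((single g 1 : A[H]) • (toRa H W).symm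
    ((Ind.val (h * g⁻¹⁻¹) (t.ev x c) : fib F x) : Ra H W))
  rw [t.ev_val, inv_inv, mul_smul]
  have key : ∀ w : W, (single h⁻¹ 1 : A[H]) • w =
      (single g 1 : A[H]) • ((single (h * g)⁻¹ 1 : A[H]) • w) := fun w => by
    rw [smul_smul, single_mul_single, mul_one, mul_inv_rev, mul_inv_cancel_left]
  exact congrArg (toRa H W) (key _)

variable {q : ℕ} {M : Type u} [AddCommGroup M] [Module A[H] M] (D : IndData A H q)
  {F : EqFam A H X W} (t : TotData F) (Φ : ES A[H] q F.tot →ₗ[A[H]] M)

/-- `λ ↦ Φ (ev_x^* ind λ)` -/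
noncomputable def beta (x : X) [Module.Finite A (fib F x)] : ES A q (fib F x) →ₗ[A] Ra H M :=
  (raMap Φ).comp ((raMap (esMap q (t.ev x))).comp (D.ind (fib F x)))

theorem beta_apply (x : X) [Module.Finite A (fib F x)] (c : ES A q (fib F x)) :
    beta D t Φ x c = toRa H M (Φ (esMap q (t.ev x) (idn D (fib F x) c))) := rfl

theorem beta_range_le (x : X) [Module.Finite A (fib F x)] :
    LinearMap.range (beta D t Φ x) ≤ LinearMap.range (raMap Φ) :=
  LinearMap.range_comp_le_range _ _

theorem smul_beta (g : H) (x : X) [Module.Finite A (fib F x)] [Module.Finite A (fib F (g • x))]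
    (c : ES A q (fib F x)) :
    toRa H M ((single g 1 : A[H]) • (toRa H M).symm (beta D t Φ x c)) =
      beta D t Φ (g • x) (esMap q (fibInv F g x) c) := by
  rw [beta_apply, beta_apply, ev_smul, esMap_comp, esMap_idn, inv_inv, ← esMap_comp,
    fibInv_fibMul, esMap_id, (esMap q (t.ev x)).map_smul, Φ.map_smul]
  rfl

theorem range_le_iSup (hfg : ∀ x, Module.Finite A (fib F x)) :
    ∀ y ∈ LinearMap.range (raMap Φ), y ∈ ⨆ x : X, LinearMap.range (beta D t Φ x) := by
  rintro _ ⟨ξ, rfl⟩
  obtain ⟨n, x, η, hξ⟩ := t.gen q ((toRa H _).symm ξ)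
  have h1 : raMap Φ ξ = ∑ i, toRa H M (Φ (esMap q (t.ev (x i)) (η i))) := by
    change toRa H M (Φ ((toRa H _).symm ξ)) = _
    rw [hξ, map_sum, map_sum]
  rw [h1]
  refine Submodule.sum_mem _ fun i _ => ?_
  obtain ⟨s, c, hc⟩ := idn_sum D (fib F (x i)) (η i)
  rw [hc, map_sum, map_sum, map_sum]
  refine Submodule.sum_mem _ fun g _ => ?_
  have h2 : toRa H M (Φ (esMap q (t.ev (x i)) ((single g 1 : A[H]) •
      idn D (fib F (x i)) (c g)))) = beta D t Φ (g • x i) (esMap q (fibInv F g (x i)) (c g)) := by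
    rw [(esMap q (t.ev (x i))).map_smul, Φ.map_smul, ← smul_beta]
    rfl
  rw [h2]
  exact Submodule.mem_iSup_of_mem (g • x i) ⟨_, rfl⟩

end pieces

/-! ### Values -/

section cv
variable {A H X : Type u} [CommRing A] [StarRing A] [Group H] [MulAction H X] {W : Type u}
  [AddCommGroup W] [Module A[H] W]

/-- the value at `h` as an element of `W` -/
noncomputable def cv (F : EqFam A H X W) (x : X) (h : H) : Ind H (fib F x) →+ W :=
  (toRa H W).symm.toAddMonoidHom.comp ((fib F x).subtype.toAddMonoidHom.comp (Ind.val h))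

theorem cv_ext (F : EqFam A H X W) (x : X) {z z' : Ind H (fib F x)}
    (h : ∀ g, cv F x g z = cv F x g z') : z = z' := ind_ext fun g => Subtype.ext (h g)

theorem cv_ev {F : EqFam A H X W} (t : TotData F) (x : X) (h : H) (c : F.tot) :
    cv F x h (t.ev x c) = (single h⁻¹ 1 : A[H]) • val (h • x) c.1 := t.ev_val x c h

theorem cv_inc {Y : Type u} [MulAction H Y] (F : EqFam A H X W) (G : EqFam A H Y W)
    (x : X) (y : Y) (h : F.U x ≤ G.U y) (g : H) (z : Ind H (fib F x)) :
    cv G y g (indMap 1 (fibInc F G x y h) z) = cv F x g z := by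
  have h1 := val_indMap (A := A) 1 (fibInc F G x y h) g z
  rw [inv_one, mul_one] at h1
  exact congrArg (fun w : fib G y => (toRa H W).symm w.1) h1

end cv

theorem esMap_zsmul {R : Type u} [Ring R] [StarRing R] {W W' : Type u} [AddCommGroup W]
    [Module R W] [AddCommGroup W'] [Module R W'] (p : ℕ) (n : ℤ) (f : W →ₗ[R] W')
    (x : ES R p W') : esMap p (n • f) x = n • esMap p f x := by
  let φ : (W →ₗ[R] W') →+ ES R p W :=
    { toFun := fun f => esMap p f x
      map_zero' := esMap_zero p x
      map_add' := fun f g => esMap_add p f g x }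
  exact map_zsmul φ n f

/-! ### Adjacency -/

section adj
variable {A : Type u} {H V E F : Type u} [CommRing A] [StarRing A] [Group H] [MulAction H V]
  [MulAction H E] [MulAction H F] {P : PlaneCx H V E F} {W : Type u} [AddCommGroup W]
  [Module A[H] W] (m : PMaps A P W) (L : Latt A P W) (h2 : ∀ x ∈ L.fF.tot, m.d2 x ∈ L.fE.tot)
  (tF : TotData L.fF) (tE : TotData L.fE)

/-- `W_(l e) ≤ W_e` -/
noncomputable def incL (e : E) : fib L.fF (P.l e) →ₗ[A] fib L.fE e :=
  fibInc L.fF L.fE (P.l e) e (L.ll e)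

/-- `W_(r e) ≤ W_e` -/
noncomputable def incR (e : E) : fib L.fF (P.r e) →ₗ[A] fib L.fE e :=
  fibInc L.fF L.fE (P.r e) e (L.lr e)

theorem ev_d2 (e : E) : (tE.ev e).comp (m.d2.restrict h2) =
    (indMap 1 (incL L e)).comp (tF.ev (P.l e)) -
      (P.s e : ℤ) • (indMap 1 (incR L e)).comp (tF.ev (P.r e)) := by
  refine LinearMap.ext fun c => cv_ext L.fE e fun h => ?_
  have h1 : cv L.fE e h ((indMap 1 (incL L e)).comp (tF.ev (P.l e)) c) =
      (single h⁻¹ 1 : A[H]) • val (h • P.l e) c.1 := by
    rw [LinearMap.comp_apply, incL, cv_inc, cv_ev]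
  have h3 : cv L.fE e h ((indMap 1 (incR L e)).comp (tF.ev (P.r e)) c) =
      (single h⁻¹ 1 : A[H]) • val (h • P.r e) c.1 := by
    rw [LinearMap.comp_apply, incR, cv_inc, cv_ev]
  rw [LinearMap.comp_apply, cv_ev, LinearMap.sub_apply, LinearMap.smul_apply, map_sub, map_zsmul,
    h1, h3]
  change (single h⁻¹ 1 : A[H]) • val (h • e) (m.d2 c.1) = _
  rw [m.hd2, P.hl, P.hr, P.hs, smul_sub, smul_comm]

variable {q : ℕ} {M : Type u} [AddCommGroup M] [Module A[H] M] (D : IndData A H q)
  (Φ : ES A[H] q L.fF.tot →ₗ[A[H]] M)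
  (hΦ : ∀ y : ES A[H] q L.fE.tot, Φ (esMap q (m.d2.restrict h2) y) = 0)

include hΦ tE in
theorem adjacency (e : E) [Module.Finite A (fib L.fF (P.l e))] [Module.Finite A (fib L.fF (P.r e))]
    [Module.Finite A (fib L.fE e)] (c : ES A q (fib L.fE e)) :
    beta D tF Φ (P.l e) (esMap q (incL L e) c) =
      (P.s e : ℤ) • beta D tF Φ (P.r e) (esMap q (incR L e) c) := by
  have h := hΦ (esMap q (tE.ev e) (idn D (fib L.fE e) c))
  rw [← esMap_comp, ev_d2 m L h2 tF tE, esMap_sub, esMap_zsmul, esMap_comp, esMap_comp, esMap_idn,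
    esMap_idn, inv_one, ← one_def, one_smul, one_smul, map_sub, map_zsmul, sub_eq_zero] at h
  rw [beta_apply, beta_apply, h, map_zsmul]

end adj

end Ax

open Ax

/-! ### The row -/

/-- **Row A.** -/
theorem rowA {A : Type u} {H V E F : Type u} [CommRing A] [StarRing A] [Group H] [MulAction H V]
    [MulAction H E] [MulAction H F] {P : PlaneCx H V E F} {W : Type u} [AddCommGroup W]
    [Module A[H] W] (hI : RowI A H) (hTF : RowT A H F W) (hTE : RowT A H E W) : RowA A P W := by
  intro hA hAR hC hinf m L h2 q M _ _ Φ hΦ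
  have := hA
  obtain ⟨D⟩ := hI hA q
  obtain ⟨tF⟩ := hTF hA hC P.freeF P.finF L.fF L.fgF
  obtain ⟨tE⟩ := hTE hA hC P.freeE P.finE L.fE L.fgE
  haveI fF : ∀ x, Module.Finite A (fib L.fF x) := fun x => Module.Finite.iff_fg.2 (L.fgF x)
  haveI fE : ∀ x, Module.Finite A (fib L.fE x) := fun x => Module.Finite.iff_fg.2 (L.fgE x)
  have hr := range_le_iSup D tF Φ fF
  rcases isEmpty_or_nonempty F with hF | ⟨⟨f0⟩⟩
  · refine ⟨⊥, Submodule.fg_bot, bot_le, ?_⟩
    haveI : Subsingleton (LinearMap.range (raMap Φ)) := by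
      refine ⟨fun a b => ?_⟩
      have h0 : ∀ y ∈ LinearMap.range (raMap Φ), y = 0 := fun y hy => by
        have h1 := hr y hy
        rwa [iSup_of_empty, Submodule.mem_bot] at h1
      exact Subtype.ext ((h0 _ a.2).trans (h0 _ b.2).symm)
    haveI : Subsingleton (LinearMap.range (raMap Φ) ⧸
        (⊥ : Submodule A (Ra H M)).comap (LinearMap.range (raMap Φ)).subtype) :=
      (Submodule.mkQ_surjective _).subsingleton
    exact loc_subsingleton _
  · let L0 : Submodule A (Ra H M) := LinearMap.range (beta D tF Φ f0)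
    let Q : F → Submodule A (Ra H M ⧸ L0) := fun f => LinearMap.range (L0.mkQ.comp (beta D tF Φ f))
    have hQ0 : Loc A (q + 1) (Q f0) := by
      haveI : Subsingleton (Q f0) := by
        refine ⟨fun a b => ?_⟩
        have h0 : ∀ y ∈ Q f0, y = 0 := by
          rintro _ ⟨x, rfl⟩
          rw [LinearMap.comp_apply, Submodule.mkQ_apply, Submodule.Quotient.mk_eq_zero]
          exact ⟨x, rfl⟩
        exact Subtype.ext ((h0 _ a.2).trans (h0 _ b.2).symm)
      exact loc_subsingleton _
    have hs : ∀ e : E, (P.s e : ℤ) * (P.s e : ℤ) = 1 := fun e => by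
      rcases Int.units_eq_one_or (P.s e) with h | h <;> rw [h] <;> rfl
    have hQ : ∀ f, Loc A (q + 1) (Q f) := by
      have key := P.connF {f | Loc A (q + 1) (Q f)} ⟨f0, hQ0⟩ fun e => ⟨fun hl => ?_, fun hl => ?_⟩
      · intro f
        have : f ∈ {f | Loc A (q + 1) (Q f)} := by
          rw [key]
          exact Set.mem_univ f
        exact this
      · refine loc_range_step _ (LinearMap.range (esMap q (incR L e))) (Q (P.l e)) ?_
          (loc_coker hAR (incR L e) (fibInc_injective _ _ _ _ _) q) hl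
        rintro _ ⟨c, rfl⟩
        have h1 := adjacency m L h2 tF tE D Φ hΦ e c
        have h3 : beta D tF Φ (P.r e) (esMap q (incR L e) c) =
            (P.s e : ℤ) • beta D tF Φ (P.l e) (esMap q (incL L e) c) := by
          rw [h1, smul_smul, hs, one_smul]
        rw [LinearMap.comp_apply, h3, map_zsmul]
        exact (Q (P.l e)).toAddSubgroup.zsmul_mem ⟨esMap q (incL L e) c, rfl⟩ _
      · refine loc_range_step _ (LinearMap.range (esMap q (incL L e))) (Q (P.r e)) ?_
          (loc_coker hAR (incL L e) (fibInc_injective _ _ _ _ _) q) hl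
        rintro _ ⟨c, rfl⟩
        have h1 := adjacency m L h2 tF tE D Φ hΦ e c
        rw [LinearMap.comp_apply, h1, map_zsmul]
        exact (Q (P.r e)).toAddSubgroup.zsmul_mem ⟨esMap q (incR L e) c, rfl⟩ _
    refine ⟨L0, ?_, beta_range_le D tF Φ f0, loc_quot_iSup L0 _ Q hQ hQ0 ?_⟩
    · haveI : Module.Finite A (ES A q (fib L.fF f0)) := es_finite q
      exact Module.Finite.iff_fg.1 (Module.Finite.range (beta D tF Φ f0))
    · intro y hy
      have h1 := Submodule.mem_map_of_mem (f := L0.mkQ) (hr y hy)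
      rw [Submodule.map_iSup] at h1
      have h3 : ∀ f, Submodule.map L0.mkQ (LinearMap.range (beta D tF Φ f)) = Q f := fun f =>
        (LinearMap.range_comp _ _).symm
      rwa [iSup_congr h3] at h1

end Pool.Agent.PLS
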