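import Mathlib
import Pool.Agent.Lib.PLS.Rows
import Pool.Agent.Lib.UP.U1
import Pool.Agent.Lib.UP.F5b
import Pool.Agent.Lib.UP.Defs4

/-!
# T4: row AR, the condition `AR1` from the lattice of `Ext^(q+2)` and the support argument
-/

set_option autoImplicit false
set_option linter.unusedSectionVars false
set_option linter.unusedVariables false

open MonoidAlgebra Pool.Agent.UP Pool.Agent.UPV Pool.Agent.UP25

namespace Pool.Agent.PLS

universe u

attribute [local instance] starMA

/-- a complex which is exact in the positive degrees resolves its cokernel -/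
noncomputable def resCoker {R : Type u} [Ring R] (T : RC R) (h : ∀ k, T.Ex k) :
    Res T ((T.ι 0 → R) ⧸ LinearMap.range (Matrix.vecMulLinear (T.D 0))) where
  ε := Submodule.mkQ _
  surj := Submodule.mkQ_surjective _
  zero x := (Submodule.Quotient.mk_eq_zero _).2 ⟨x, rfl⟩
  ker x hx := (Submodule.Quotient.mk_eq_zero _).1 hx
  ex := h

/-- preimages of finitely generated submodules under injective maps -/
theorem fg_comap_of_injective {A : Type u} [CommRing A] [IsNoetherianRing A] {M N : Type u}
    [AddCommGroup M] [Module A M] [AddCommGroup N] [Module A N] (f : N →ₗ[A] M)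
    (hf : Function.Injective f) (L : Submodule A M) (hL : L.FG) : (L.comap f).FG := by
  have h1 : Module.Finite A L := Module.Finite.iff_fg.2 hL
  have h2 : IsNoetherian A L := inferInstance
  let g : L.comap f →ₗ[A] L := f.restrict (p := L.comap f) (q := L) fun x hx => hx
  have hg : Function.Injective g := by
    intro x y hxy
    have h3 : f x = f y := congrArg Subtype.val hxy
    exact Subtype.ext (hf h3)
  have h4 : IsNoetherian A (L.comap f) := isNoetherian_of_injective g hg
  exact Module.Finite.iff_fg.1 inferInstance

/-- the quotient by the preimage embeds in the quotient -/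
theorem loc_comap {A : Type u} [CommRing A] {M N : Type u} [AddCommGroup M] [Module A M]
    [AddCommGroup N] [Module A N] (f : N →ₗ[A] M) (L : Submodule A M) (q : ℕ)
    (h : Loc A q (M ⧸ L)) : Loc A q (N ⧸ L.comap f) := by
  refine Loc.of_injective (Submodule.mapQ (L.comap f) L f le_rfl) ?_ h
  rw [← LinearMap.ker_eq_bot, eq_bot_iff]
  intro x hx
  obtain ⟨y, rfl⟩ := Submodule.Quotient.mk_surjective _ x
  have h1 : f y ∈ L := (Submodule.Quotient.mk_eq_zero _).1 hx
  exact (Submodule.Quotient.mk_eq_zero _).2 h1

/-- **ROW AR** -/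
theorem rowAR {A H : Type u} [CommRing A] [StarRing A] [Group H] (hR : RowR A H)
    (hC : RowC A H) (hS : RowS A H) : RowAR A H := by
  intro hA hAR hc hinf V E F _ _ _ P T hT p N hN
  cases p with
  | zero => exact U1_GE_zero
  | succ q =>
    have hW : Module.FinitePresentation A[H]
        ((T.ι 0 → A[H]) ⧸ LinearMap.range (Matrix.vecMulLinear (T.D 0))) := fp_coker T
    obtain ⟨hG, L, hL, hLoc⟩ := hR hA hAR hc hinf V E F P
      ((T.ι 0 → A[H]) ⧸ LinearMap.range (Matrix.vecMulLinear (T.D 0))) q
    have h1 : Module.FinitePresentation A[H] (T.E (q + 1 + 1)) := fp_E hc T (q + 2)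
    have h2 : Module.FinitePresentation A[H] N := fp_submodule hc N hN
    let f : N →ₗ[A[H]] ES A[H] (q + 2)
        ((T.ι 0 → A[H]) ⧸ LinearMap.range (Matrix.vecMulLinear (T.D 0))) :=
      (esEquiv (resCoker T hT) (q + 1)).toLinearMap.comp N.subtype
    have hf : Function.Injective f :=
      (esEquiv (resCoker T hT) (q + 1)).injective.comp Subtype.val_injective
    have hf' : Function.Injective (raMap f) := hf
    exact hS hA hAR hc hinf q N (L.comap (raMap f)) (fg_comap_of_injective (raMap f) hf' L hL)
      (Loc.of_injective (raMap f) hf' hG) (loc_comap (raMap f) L (q + 1) hLoc)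

end Pool.Agent.PLS
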