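import Pool.Agent.Lib.PLS.Rows
import Pool.Agent.Lib.UP.F5b
import Pool.Agent.Lib.UP.U1

/-!
# T4, row C (Claim 1): `Ext^l(N, A[H]) = 0` for `l < q` if `N` is in `G_q`  (helper13)
-/

set_option autoImplicit false
set_option linter.unusedSectionVars false

open MonoidAlgebra Pool.Agent.UP Pool.Agent.UPV Pool.Agent.UP25

namespace Pool.Agent.PLS

universe u

attribute [local instance] starMA

/-! ### Induced modules are finitely presented -/

section
variable {A H : Type u} [CommRing A] [Group H] {U : Type u} [AddCommGroup U] [Module A U]

theorem ind_one_smul (a : A) (w : U) :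
    Ind.mk H (1 : H) (a • w) = (single 1 a : A[H]) • Ind.mk H 1 w := by
  rw [Ind.single_smul, one_mul]

theorem ind_mk_smul (h : H) (w : U) :
    Ind.mk H h w = (single h 1 : A[H]) • Ind.mk H 1 w := by
  rw [Ind.single_smul, mul_one, one_smul]

theorem ind_mk_add (h : H) (w w' : U) :
    Ind.mk H h (w + w') = Ind.mk H h w + Ind.mk H h w' := Finsupp.single_add h w w'

/-- the elements `1 ⊗ w`, `w` in a generating set, generate -/
theorem ind_span (s : Set U) (hs : Submodule.span A s = ⊤) :
    Submodule.span A[H] ((fun w => Ind.mk H (1 : H) w) '' s) = ⊤ := by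
  rw [eq_top_iff]
  intro z _
  have h1 : ∀ w : U, Ind.mk H (1 : H) w ∈
      Submodule.span A[H] ((fun w => Ind.mk H (1 : H) w) '' s) := by
    intro w
    have hw : w ∈ Submodule.span A s := by rw [hs]; trivial
    induction hw using Submodule.span_induction with
    | mem x hx => exact Submodule.subset_span ⟨x, hx, rfl⟩
    | zero =>
      have : Ind.mk H (1 : H) (0 : U) = 0 := Finsupp.single_zero _
      rw [this]
      exact Submodule.zero_mem _
    | add x y _ _ hx hy =>
      rw [ind_mk_add]
      exact Submodule.add_mem _ hx hy
    | smul a x _ hx =>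
      rw [ind_one_smul]
      exact Submodule.smul_mem _ _ hx
  have h2 : ∀ (f : H →₀ U), (f : Ind H U) ∈
      Submodule.span A[H] ((fun w => Ind.mk H (1 : H) w) '' s) := by
    intro f
    induction f using Finsupp.induction_linear with
    | zero => exact Submodule.zero_mem _
    | add f g hf hg => exact Submodule.add_mem _ hf hg
    | single h w =>
      have := Submodule.smul_mem _ (single h 1 : A[H]) (h1 w)
      rw [← ind_mk_smul] at this
      exact this
  exact h2 z

theorem ind_finite [Module.Finite A U] : Module.Finite A[H] (Ind H U) := by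
  obtain ⟨s, hs⟩ := (Module.Finite.fg_top : (⊤ : Submodule A U).FG)
  classical
  refine ⟨⟨s.image fun w => Ind.mk H (1 : H) w, ?_⟩⟩
  rw [Finset.coe_image]
  exact ind_span _ hs

/-- the value at `h` of a sum -/
theorem ind_val_sum {n : ℕ} (g : Fin n → U) (y : Fin n → A[H]) (h : H) :
    Ind.val h (∑ i, y i • Ind.mk H (1 : H) (g i)) = ∑ i, (y i).coeff h • g i := by
  rw [map_sum]
  refine Finset.sum_congr rfl fun i _ => ?_
  generalize y i = r
  induction r using MonoidAlgebra.induction_linear with
  | zero =>
    rw [zero_smul, map_zero]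
    change (0 : U) = (0 : A) • g i
    rw [zero_smul]
  | add p q hp hq =>
    rw [add_smul, map_add, hp, hq]
    change _ = (p.coeff h + q.coeff h) • g i
    rw [add_smul]
  | single k a =>
    rw [Ind.single_smul, mul_one]
    change (Finsupp.single k (a • g i) : H →₀ U) h = (Finsupp.single k a : H →₀ A) h • g i
    classical
    rw [Finsupp.single_apply, Finsupp.single_apply]
    split_ifs with hk
    · rfl
    · rw [zero_smul]

theorem ind_fp [IsNoetherianRing A] [Module.Finite A U] :
    Module.FinitePresentation A[H] (Ind H U) := by
  classical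
  obtain ⟨n, g, hg⟩ := Submodule.fg_iff_exists_fin_generating_family.1
    (Module.Finite.fg_top : (⊤ : Submodule A U).FG)
  let φ : (Fin n → A) →ₗ[A] U := Fintype.linearCombination A g
  let π : (Fin n → A[H]) →ₗ[A[H]] Ind H U :=
    Fintype.linearCombination A[H] fun i => Ind.mk H (1 : H) (g i)
  have hπ : Function.Surjective π := by
    rw [← LinearMap.range_eq_top, Fintype.range_linearCombination]
    have := ind_span (H := H) (Set.range g) hg
    rwa [← Set.range_comp] at this
  refine Module.finitePresentation_of_surjective π hπ ?_
  obtain ⟨s, hs⟩ : (LinearMap.ker φ).FG := IsNoetherian.noetherian _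
  let ι : (Fin n → A) → (Fin n → A[H]) := fun a i => single 1 (a i)
  refine ⟨s.image ι, le_antisymm ?_ ?_⟩
  · rw [Submodule.span_le]
    intro z hz
    rw [Finset.coe_image] at hz
    obtain ⟨a, ha, rfl⟩ := hz
    have h1 : φ a = 0 := by
      have : a ∈ LinearMap.ker φ := by rw [← hs]; exact Submodule.subset_span ha
      exact this
    change π (ι a) = 0
    have h2 : π (ι a) = Ind.mk H (1 : H) (φ a) := by
      change ∑ i, (single 1 (a i) : A[H]) • Ind.mk H (1 : H) (g i) =
        Ind.mk H (1 : H) (∑ i, a i • g i)
      have h3 : Ind.mk H (1 : H) (∑ i, a i • g i) = ∑ i, Ind.mk H (1 : H) (a i • g i) := by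
        change (Finsupp.singleAddHom (1 : H)) (∑ i, a i • g i) = _
        rw [map_sum]
        rfl
      rw [h3]
      refine Finset.sum_congr rfl fun i _ => ?_
      rw [ind_one_smul]
    rw [h2, h1]
    exact Finsupp.single_zero _
  · intro y hy
    have hy' : ∑ i, y i • Ind.mk H (1 : H) (g i) = 0 := hy
    -- the coefficients at `h`
    have hcoef : ∀ h : H, ι (fun i => (y i).coeff h) ∈
        Submodule.span A[H] ((s.image ι : Finset (Fin n → A[H])) : Set (Fin n → A[H])) := by
      intro h
      have h1 : (fun i => (y i).coeff h) ∈ LinearMap.ker φ := by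
        change ∑ i, (y i).coeff h • g i = 0
        rw [← ind_val_sum g y h, hy', map_zero]
      rw [← hs] at h1
      generalize (fun i => (y i).coeff h) = a at h1
      induction h1 using Submodule.span_induction with
      | mem x hx =>
        refine Submodule.subset_span ?_
        rw [Finset.coe_image]
        exact ⟨x, hx, rfl⟩
      | zero =>
        have : ι 0 = 0 := by
          funext i
          exact single_zero _
        rw [this]
        exact Submodule.zero_mem _
      | add x x' _ _ hx hx' =>
        have : ι (x + x') = ι x + ι x' := by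
          funext i
          exact single_add _ _ _
        rw [this]
        exact Submodule.add_mem _ hx hx'
      | smul a x _ hx =>
        have : ι (a • x) = (single 1 a : A[H]) • ι x := by
          funext i
          change (single 1 (a * x i) : A[H]) = (single 1 a : A[H]) * single 1 (x i)
          rw [single_mul_single, one_mul]
        rw [this]
        exact Submodule.smul_mem _ _ hx
    have hsum : ∀ (S : Finset H), (∀ i, (y i).coeff.support ⊆ S) →
        y = ∑ h ∈ S, (single h 1 : A[H]) • ι (fun i => (y i).coeff h) := by
      intro S hS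
      funext i
      rw [Finset.sum_apply]
      have h1 : ∀ h ∈ S, ((single h 1 : A[H]) • ι (fun i => (y i).coeff h)) i = single h ((y i).coeff h) := by
        intro h _
        change (single h 1 : A[H]) * single 1 ((y i).coeff h) = _
        rw [single_mul_single, mul_one, one_mul]
      rw [Finset.sum_congr rfl h1]
      have h2 := sum_coeff_single (y i)
      conv_lhs => rw [← h2]
      exact Finset.sum_subset (hS i) fun h _ hh => by
        rw [Finsupp.notMem_support_iff.1 hh]
        exact single_zero _
    have hS := hsum (Finset.univ.biUnion fun i => (y i).coeff.support) fun i =>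
      Finset.subset_biUnion_of_mem (fun i => (y i).coeff.support) (Finset.mem_univ i)
    rw [hS]
    exact Submodule.sum_mem _ fun h _ => Submodule.smul_mem _ _ (hcoef h)

end

/-! ### Claim 1 -/

section
variable {A H : Type u} [CommRing A] [StarRing A] [Group H]

theorem es_ind_zero {q : ℕ} (D : IndData A H q) (U : Type u) [AddCommGroup U] [Module A U]
    [Module.Finite A U] (h : Subsingleton (ES A q U)) : Subsingleton (ES A[H] q (Ind H U)) :=
  ⟨fun x y => by
    have h1 : x - y = 0 := D.ext U _ fun k => Subsingleton.elim _ _
    exact sub_eq_zero.1 h1⟩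

theorem claim1 (hI : RowI A H) (hIL : RowIL A H) (hNo : IsNoetherianRing A) (hAR : AR A)
    (hc : CohT A[H]) (q : ℕ) : ∀ l < q, ∀ (N : Type u) [AddCommGroup N] [Module A[H] N]
    [Module.FinitePresentation A[H] N], GQ A H q N → Subsingleton (ES A[H] l N) := by
  intro l
  induction l with
  | zero =>
    intro hl N _ _ _ hN
    obtain ⟨s, hs⟩ := (Module.Finite.fg_top : (⊤ : Submodule A[H] N).FG)
    let L : Submodule A (Ra H N) := Submodule.span A (toRa H N '' (s : Set N))
    have hL : L.FG := Submodule.fg_span (s.finite_toSet.image _)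
    have : Module.Finite A L := Module.Finite.iff_fg.2 hL
    let c : Ind H L →ₗ[A[H]] N := indLift L.subtype
    have hcs : Function.Surjective c := by
      rw [← LinearMap.range_eq_top, eq_top_iff, ← hs, Submodule.span_le]
      intro x hx
      refine ⟨Ind.mk H 1 ⟨toRa H N x, Submodule.subset_span ⟨x, hx, rfl⟩⟩, ?_⟩
      rw [indLift_mk]
      change (single 1 1 : A[H]) • x = x
      exact one_smul _ _
    have hLq : Loc A q L := Loc.of_injective L.subtype Subtype.val_injective hN
    obtain ⟨D⟩ := hI hNo 0
    have h0 : Subsingleton (ES A 0 L) := (Loc.ge hLq) 0 hl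
    have h1 : Subsingleton (ES A[H] 0 (Ind H L)) := es_ind_zero D L h0
    exact (esMap_zero_injective c hcs).subsingleton
  | succ l ih =>
    intro hl N _ _ _ hN
    obtain ⟨s, hs⟩ := (Module.Finite.fg_top : (⊤ : Submodule A[H] N).FG)
    let L : Submodule A (Ra H N) := Submodule.span A (toRa H N '' (s : Set N))
    have hL : L.FG := Submodule.fg_span (s.finite_toSet.image _)
    have : Module.Finite A L := Module.Finite.iff_fg.2 hL
    let c : Ind H L →ₗ[A[H]] N := indLift L.subtype
    have hcs : Function.Surjective c := by
      rw [← LinearMap.range_eq_top, eq_top_iff, ← hs, Submodule.span_le]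
      intro x hx
      refine ⟨Ind.mk H 1 ⟨toRa H N x, Submodule.subset_span ⟨x, hx, rfl⟩⟩, ?_⟩
      rw [indLift_mk]
      change (single 1 1 : A[H]) • x = x
      exact one_smul _ _
    have hLq : Loc A q L := Loc.of_injective L.subtype Subtype.val_injective hN
    obtain ⟨D⟩ := hI hNo (l + 1)
    have h0 : Subsingleton (ES A (l + 1) L) := (Loc.ge hLq) (l + 1) hl
    have h1 : Subsingleton (ES A[H] (l + 1) (Ind H L)) := es_ind_zero D L h0
    have : Module.Finite A[H] (Ind H L) := ind_finite
    have : Module.FinitePresentation A[H] (Ind H L) := ind_fp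
    have hKfg : (LinearMap.ker c).FG := Module.FinitePresentation.fg_ker c hcs
    have : Module.FinitePresentation A[H] (LinearMap.ker c) := fp_submodule hc _ hKfg
    have hKq : GQ A H q (LinearMap.ker c) :=
      Loc.of_injective (raMap (LinearMap.ker c).subtype)
        (fun a b hab => Subtype.val_injective hab) ((hIL hNo hAR q L).2 hLq)
    have h2 : Subsingleton (ES A[H] l (LinearMap.ker c)) :=
      ih (Nat.lt_of_succ_lt hl) (LinearMap.ker c) hKq
    have hex : Function.Exact (LinearMap.ker c).subtype c := by
      intro x
      constructor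
      · intro hx
        exact ⟨⟨x, hx⟩, rfl⟩
      · rintro ⟨y, rfl⟩
        exact y.2
    have hE := es_exact_right (LinearMap.ker c).subtype c Subtype.val_injective hcs hex l
    have key : ∀ x : ES A[H] (l + 1) N, x = 0 := by
      intro x
      obtain ⟨y, rfl⟩ := (hE x).1 (Subsingleton.elim _ _)
      rw [Subsingleton.elim y 0, map_zero]
    exact ⟨fun x y => (key x).trans (key y).symm⟩

theorem rowC (hI : RowI A H) (hIL : RowIL A H) : RowC A H := by
  intro hNo hAR hc q N _ _ _ hN l hl
  exact claim1 hI hIL hNo hAR hc q l hl N hN

end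

end Pool.Agent.PLS
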