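import Mathlib
import Pool.Agent.Lib.PLS.Rows

/-!
# T4, row E: exactness of the complex of `A[H]`-modules (helper87)
-/

set_option autoImplicit false
set_option linter.unusedSectionVars false
set_option linter.unusedVariables false

open MonoidAlgebra Pool.Agent.UP Pool.Agent.UPV Pool.Agent.UP25

namespace Pool.Agent.PLS

universe u v w

namespace Ex

variable {A : Type u} {H V E F : Type u} [CommRing A] [Group H] [MulAction H V] [MulAction H E]
  [MulAction H F] {P : PlaneCx H V E F} {W : Type u} [AddCommGroup W] [Module A[H] W]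

theorem eps_eq (m : PMaps A P W) (x : Tw A H V W) :
    m.ε x = Finsupp.sum (x : V →₀ W) fun _ w => w := by
  have h : (m.ε.toAddMonoidHom : Tw A H V W →+ W) =
      (Finsupp.liftAddHom fun _ : V => AddMonoidHom.id W : (V →₀ W) →+ W) := by
    refine Tw.addHom_ext (A := A) (H := H) fun x w => ?_
    change m.ε (Tw.mk A H x w) = Finsupp.liftAddHom (fun _ : V => AddMonoidHom.id W)
      (Finsupp.single x w)
    rw [m.hε, Finsupp.liftAddHom_apply_single]
    rfl
  exact DFunLike.congr_fun h x

theorem d1_eq (m : PMaps A P W) (g : Tw A H E W) :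
    m.d1 g = (Finsupp.mapDomain P.t (g : E →₀ W) - Finsupp.mapDomain P.o (g : E →₀ W) : V →₀ W) := by
  have h : (m.d1.toAddMonoidHom : Tw A H E W →+ Tw A H V W) =
      (Finsupp.mapDomain.addMonoidHom P.t - Finsupp.mapDomain.addMonoidHom P.o :
        (E →₀ W) →+ (V →₀ W)) := by
    refine Tw.addHom_ext (A := A) (H := H) fun e w => ?_
    change m.d1 (Tw.mk A H e w) = (Finsupp.mapDomain P.t (Finsupp.single e w) -
      Finsupp.mapDomain P.o (Finsupp.single e w) : V →₀ W)
    rw [m.hd1, Finsupp.mapDomain_single, Finsupp.mapDomain_single]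
    rfl
  exact DFunLike.congr_fun h g

theorem eps_d1 (m : PMaps A P W) (g : Tw A H E W) : m.ε (m.d1 g) = 0 := by
  have h : ((m.ε.comp m.d1).toAddMonoidHom : Tw A H E W →+ W) = 0 := by
    refine Tw.addHom_ext (A := A) (H := H) fun e w => ?_
    change m.ε (m.d1 (Tw.mk A H e w)) = 0
    rw [m.hd1, map_sub, m.hε, m.hε, sub_self]
  exact DFunLike.congr_fun h g

end Ex

/-- **ROW E** -/
theorem rowE {A : Type u} {H V E F : Type u} [CommRing A] [Group H] [MulAction H V]
    [MulAction H E] [MulAction H F] {P : PlaneCx H V E F} {W : Type u} [AddCommGroup W]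
    [Module A[H] W] (hX : RowX P) : RowE A P W := by
  intro hH m
  obtain ⟨x0, x1, x2, x3⟩ := hX W
  refine ⟨?_, ?_, ?_, ?_⟩
  · intro w
    obtain ⟨v⟩ := P.ne
    exact ⟨Tw.mk A H v w, m.hε v w⟩
  · intro x
    constructor
    · intro hx
      rw [Ex.eps_eq] at hx
      obtain ⟨g, hg⟩ := x0 x hx
      exact ⟨g, (Ex.d1_eq m g).trans hg⟩
    · rintro ⟨y, rfl⟩
      exact Ex.eps_d1 m y
  · intro x
    constructor
    · intro hx
      rw [Ex.d1_eq] at hx
      obtain ⟨c, hc⟩ := x1 x (sub_eq_zero.1 hx)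
      refine ⟨c, tw_ext fun e => ?_⟩
      exact (m.hd2 c e).trans (hc e).symm
    · rintro ⟨c, rfl⟩
      rw [Ex.d1_eq]
      exact sub_eq_zero.2 (x2 c (m.d2 c) fun e => m.hd2 c e)
  · rw [← LinearMap.ker_eq_bot, eq_bot_iff]
    intro c hc
    rw [LinearMap.mem_ker] at hc
    refine x3 hH c fun e => ?_
    have h1 := m.hd2 c e
    rw [hc, map_zero] at h1
    exact h1.symm

end Pool.Agent.PLS
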