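import Mathlib
import Pool.Agent.Lib.PLS.Defs
import Pool.Agent.Lib.UP25.S4
import Pool.Agent.Lib.UP25.Cls

/-!
# T4: the group of a relation `[a, b] w` is an HNN extension of a free group
-/

set_option autoImplicit false

open Pool.Agent.UP Pool.Agent.UPV Pool.Agent.UP25
open scoped commutatorElement

namespace Pool.Agent.PLS

universe u

namespace ExF

section
variable {G : Type u} [Group G] {x y : G}

theorem zpowersHom_inj (hx : ∀ n : ℕ, 0 < n → x ^ n ≠ 1) :
    Function.Injective (zpowersHom G x) := by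
  have h1 : Function.Injective fun n : ℤ => x ^ n := by
    refine injective_zpow_iff_not_isOfFinOrder.2 fun h => ?_
    obtain ⟨n, hn, h2⟩ := isOfFinOrder_iff_pow_eq_one.1 h
    exact hx n hn h2
  intro a b hab
  exact Multiplicative.toAdd.injective (h1 hab)

/-- infinite cyclic groups -/
noncomputable def zpE (hx : ∀ n : ℕ, 0 < n → x ^ n ≠ 1) :
    Multiplicative ℤ ≃* Subgroup.zpowers x :=
  (MonoidHom.ofInjective (zpowersHom_inj hx)).trans (MulEquiv.subgroupCongr (by
    ext z
    constructor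
    · rintro ⟨n, rfl⟩
      exact ⟨Multiplicative.toAdd n, rfl⟩
    · rintro ⟨n, rfl⟩
      exact ⟨Multiplicative.ofAdd n, rfl⟩))

theorem zpE_apply (hx : ∀ n : ℕ, 0 < n → x ^ n ≠ 1) (n : ℤ) :
    ((zpE hx (Multiplicative.ofAdd n) : Subgroup.zpowers x) : G) = x ^ n := rfl

theorem polyZ_zpowers (hx : ∀ n : ℕ, 0 < n → x ^ n ≠ 1) : PolyZ 1 (Subgroup.zpowers x) :=
  polyZ_int.equiv (zpE hx)

theorem vpz_zpowers (hx : ∀ n : ℕ, 0 < n → x ^ n ≠ 1) : VPZ 1 (Subgroup.zpowers x) :=
  ⟨⊤, inferInstance, (polyZ_zpowers hx).subgroup _⟩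

/-- the isomorphism `x ↦ y` -/
theorem exists_zpE (hx : ∀ n : ℕ, 0 < n → x ^ n ≠ 1) (hy : ∀ n : ℕ, 0 < n → y ^ n ≠ 1) :
    ∃ φ : Subgroup.zpowers x ≃* Subgroup.zpowers y,
      φ ⟨x, Subgroup.mem_zpowers x⟩ = ⟨y, Subgroup.mem_zpowers y⟩ := by
  refine ⟨(zpE hx).symm.trans (zpE hy), ?_⟩
  have h1 : zpE hx (Multiplicative.ofAdd 1) = ⟨x, Subgroup.mem_zpowers x⟩ :=
    Subtype.ext ((zpE_apply hx 1).trans (zpow_one x))
  have h2 : zpE hy (Multiplicative.ofAdd 1) = ⟨y, Subgroup.mem_zpowers y⟩ :=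
    Subtype.ext ((zpE_apply hy 1).trans (zpow_one y))
  rw [MulEquiv.trans_apply, ← h1, MulEquiv.symm_apply_apply, h2]

end

theorem free_pow {Y : Type u} {x : FreeGroup Y} (hx : x ≠ 1) (n : ℕ) (hn : 0 < n) :
    x ^ n ≠ 1 := by
  intro h
  apply hx
  exact (pow_left_injective (M := FreeGroup Y) hn.ne') (by
    change x ^ n = 1 ^ n
    rw [h, one_pow])

theorem free_tf {Y : Type u} (x : FreeGroup Y) (hx : IsOfFinOrder x) : x = 1 := by
  by_contra h
  obtain ⟨n, hn, h2⟩ := isOfFinOrder_iff_pow_eq_one.1 hx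
  exact free_pow h n hn h2

theorem vtd_free (Y : Type u) [Finite Y] : VTd 1 (FreeGroup Y) := by
  refine vtd_of_vpfd inferInstance ⟨free_tf, ⊤, Y, (⊤ : Subgroup (FreeGroup Y)).subtype,
    inferInstance, ?_⟩
  refine PolyZ.succ ?_
  rw [polyZ_zero]
  refine ⟨fun a b => ?_⟩
  apply Subtype.ext
  apply Subtype.ext
  have h1 : ((a : (⊤ : Subgroup (FreeGroup Y))) : FreeGroup Y) = 1 := a.2
  have h2 : ((b : (⊤ : Subgroup (FreeGroup Y))) : FreeGroup Y) = 1 := b.2
  rw [h1, h2]

section
variable {Y : Type u} (a : Y) (w : FreeGroup Y)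

/-- the relation `[a, b] w`, `b = none` -/
abbrev rel : FreeGroup (Option Y) :=
  ⁅FreeGroup.of (some a), FreeGroup.of none⁆ * FreeGroup.map some w

/-- the group -/
abbrev Gp : Type u := PresentedGroup ({rel a w} : Set (FreeGroup (Option Y)))

/-- the exponent of the stable letter -/
theorem infinite_gp : Infinite (Gp a w) := by
  let f : Option Y → Multiplicative ℤ := fun z => Option.elim z (Multiplicative.ofAdd 1) fun _ => 1
  have hf : ∀ r ∈ ({rel a w} : Set (FreeGroup (Option Y))), FreeGroup.lift f r = 1 := by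
    rintro _ rfl
    have h1 : (FreeGroup.lift f).comp (FreeGroup.map some) = 1 := by
      ext y
      rfl
    have h2 : FreeGroup.lift f (FreeGroup.map some w) = 1 := DFunLike.congr_fun h1 w
    rw [map_mul, h2, mul_one, map_commutatorElement]
    exact commutatorElement_eq_one_iff_mul_comm.2 (mul_comm _ _)
  refine Infinite.of_surjective (PresentedGroup.toGroup hf) fun n => ?_
  refine ⟨PresentedGroup.of none ^ Multiplicative.toAdd n, ?_⟩
  rw [map_zpow, PresentedGroup.toGroup.of]
  change Multiplicative.ofAdd (1 : ℤ) ^ Multiplicative.toAdd n = n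
  rw [← ofAdd_zsmul, smul_eq_mul, mul_one]
  rfl

variable {a w}

theorem hnn_equiv (φ : Subgroup.zpowers (FreeGroup.of a) ≃* Subgroup.zpowers (w * FreeGroup.of a))
    (hφ : φ ⟨FreeGroup.of a, Subgroup.mem_zpowers _⟩ =
      ⟨w * FreeGroup.of a, Subgroup.mem_zpowers _⟩) :
    Nonempty (Gp a w ≃* HNNExtension (FreeGroup Y) (Subgroup.zpowers (FreeGroup.of a))
      (Subgroup.zpowers (w * FreeGroup.of a)) φ) := by
  let f : Option Y → HNNExtension (FreeGroup Y) (Subgroup.zpowers (FreeGroup.of a))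
      (Subgroup.zpowers (w * FreeGroup.of a)) φ :=
    fun z => Option.elim z HNNExtension.t fun y => HNNExtension.of (FreeGroup.of y)
  have h1 : (FreeGroup.lift f).comp (FreeGroup.map some) = HNNExtension.of := by
    ext y
    rfl
  have h2 : ∀ z : FreeGroup Y, FreeGroup.lift f (FreeGroup.map some z) = HNNExtension.of z :=
    fun z => DFunLike.congr_fun h1 z
  have hf : ∀ r ∈ ({rel a w} : Set (FreeGroup (Option Y))), FreeGroup.lift f r = 1 := by
    rintro _ rfl
    rw [map_mul, h2, map_commutatorElement, FreeGroup.lift_apply_of, FreeGroup.lift_apply_of]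
    change ⁅(HNNExtension.of (FreeGroup.of a) : HNNExtension (FreeGroup Y) _ _ φ),
      HNNExtension.t⁆ * _ = 1
    have h3 := HNNExtension.equiv_eq_conj (φ := φ) ⟨FreeGroup.of a, Subgroup.mem_zpowers _⟩
    rw [hφ] at h3
    replace h3 : (HNNExtension.of (w * FreeGroup.of a) : HNNExtension (FreeGroup Y) _ _ φ) =
      HNNExtension.t * HNNExtension.of (FreeGroup.of a) * HNNExtension.t⁻¹ := h3
    rw [map_mul] at h3
    rw [commutatorElement_def]
    have h4 : (HNNExtension.of w : HNNExtension (FreeGroup Y) _ _ φ) =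
      HNNExtension.t * HNNExtension.of (FreeGroup.of a) * HNNExtension.t⁻¹ *
        (HNNExtension.of (FreeGroup.of a))⁻¹ := by
      rw [← h3, mul_inv_cancel_right]
    rw [h4]
    group
  let F := PresentedGroup.toGroup hf
  let k : FreeGroup Y →* Gp a w := FreeGroup.lift fun y => PresentedGroup.of (some y)
  have hk : ∀ z, k z = PresentedGroup.mk _ (FreeGroup.map some z) := by
    intro z
    have h3 : k = (PresentedGroup.mk ({rel a w} : Set (FreeGroup (Option Y)))).comp
        (FreeGroup.map some) := by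
      ext y
      rfl
    rw [h3]
    rfl
  obtain ⟨τ, hτ⟩ : ∃ τ : Gp a w, τ = PresentedGroup.of none := ⟨_, rfl⟩
  have h5 : τ * k (FreeGroup.of a) * τ⁻¹ = k (w * FreeGroup.of a) := by
    have h6 : PresentedGroup.mk ({rel a w} : Set (FreeGroup (Option Y))) (rel a w) = 1 :=
      PresentedGroup.one_of_mem (Set.mem_singleton _)
    rw [map_mul, map_commutatorElement, ← hk] at h6
    have h7 : PresentedGroup.mk ({rel a w} : Set (FreeGroup (Option Y)))
        (FreeGroup.of (some a)) = k (FreeGroup.of a) := rfl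
    have h8 : PresentedGroup.mk ({rel a w} : Set (FreeGroup (Option Y)))
        (FreeGroup.of none) = τ := hτ.symm
    rw [h7, h8, commutatorElement_def] at h6
    have h9 : k w = (k (FreeGroup.of a) * τ * (k (FreeGroup.of a))⁻¹ * τ⁻¹)⁻¹ :=
      eq_inv_of_mul_eq_one_right h6
    rw [map_mul, h9]
    group
  have h10 : ∀ c : Subgroup.zpowers (FreeGroup.of a), τ * k c = k (φ c) * τ := by
    let F1 : Subgroup.zpowers (FreeGroup.of a) →* Gp a w :=
      (MulAut.conj τ).toMonoidHom.comp (k.comp (Subgroup.subtype _))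
    let F2 : Subgroup.zpowers (FreeGroup.of a) →* Gp a w :=
      k.comp ((Subgroup.subtype _).comp φ.toMonoidHom)
    have h11 : F1 ⟨FreeGroup.of a, Subgroup.mem_zpowers _⟩ =
        F2 ⟨FreeGroup.of a, Subgroup.mem_zpowers _⟩ := by
      change τ * k (FreeGroup.of a) * τ⁻¹ = k ((φ ⟨FreeGroup.of a, _⟩ : _) : FreeGroup Y)
      rw [hφ, h5]
    rintro ⟨c, n, rfl⟩
    have h12 : (⟨FreeGroup.of a ^ n, n, rfl⟩ : Subgroup.zpowers (FreeGroup.of a)) =
        ⟨FreeGroup.of a, Subgroup.mem_zpowers _⟩ ^ n := Subtype.ext rfl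
    have h13 : F1 ⟨FreeGroup.of a ^ n, n, rfl⟩ = F2 ⟨FreeGroup.of a ^ n, n, rfl⟩ := by
      rw [h12, map_zpow, map_zpow, h11]
    have h14 : τ * k (FreeGroup.of a ^ n) * τ⁻¹ =
      k ((φ ⟨FreeGroup.of a ^ n, n, rfl⟩ : _) : FreeGroup Y) := h13
    change τ * k (FreeGroup.of a ^ n) = k ((φ ⟨FreeGroup.of a ^ n, n, rfl⟩ : _) : FreeGroup Y) * τ
    rw [← h14, inv_mul_cancel_right]
  let F' : HNNExtension (FreeGroup Y) (Subgroup.zpowers (FreeGroup.of a))
      (Subgroup.zpowers (w * FreeGroup.of a)) φ →* Gp a w := HNNExtension.lift k τ h10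
  refine ⟨MonoidHom.toMulEquiv F F' ?_ ?_⟩
  · refine PresentedGroup.ext fun z => ?_
    rw [MonoidHom.comp_apply]
    change F' (F (PresentedGroup.of z)) = PresentedGroup.of z
    rw [show F (PresentedGroup.of z) = f z from PresentedGroup.toGroup.of hf]
    cases z with
    | none =>
      change F' HNNExtension.t = _
      rw [show F' HNNExtension.t = τ from HNNExtension.lift_t _ _ _, hτ]
    | some y =>
      change F' (HNNExtension.of (FreeGroup.of y)) = _
      rw [show F' (HNNExtension.of (FreeGroup.of y)) = k (FreeGroup.of y) from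
        HNNExtension.lift_of _ _ _ _]
      rfl
  · refine HNNExtension.hom_ext ?_ ?_
    · ext y
      change F (F' (HNNExtension.of (FreeGroup.of y))) = HNNExtension.of (FreeGroup.of y)
      rw [show F' (HNNExtension.of (FreeGroup.of y)) = k (FreeGroup.of y) from
        HNNExtension.lift_of _ _ _ _]
      change F (PresentedGroup.of (some y)) = _
      exact PresentedGroup.toGroup.of hf
    · change F (F' HNNExtension.t) = HNNExtension.t
      rw [show F' HNNExtension.t = τ from HNNExtension.lift_t _ _ _, hτ]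
      exact PresentedGroup.toGroup.of hf

end

/-- EX-I: the isomorphism -/
theorem exI {Y : Type u} (a : Y) (w : FreeGroup Y) (hw : w * FreeGroup.of a ≠ 1) :
    ∃ φ : Subgroup.zpowers (FreeGroup.of a) ≃* Subgroup.zpowers (w * FreeGroup.of a),
      Nonempty (PresentedGroup ({⁅FreeGroup.of (some a), FreeGroup.of none⁆ *
        FreeGroup.map some w} : Set (FreeGroup (Option Y))) ≃*
        HNNExtension (FreeGroup Y) (Subgroup.zpowers (FreeGroup.of a))
          (Subgroup.zpowers (w * FreeGroup.of a)) φ) := by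
  obtain ⟨φ, hφ⟩ := exists_zpE (x := FreeGroup.of a) (y := w * FreeGroup.of a)
    (free_pow (FreeGroup.of_ne_one a)) (free_pow hw)
  exact ⟨φ, hnn_equiv φ hφ⟩

theorem exI_vpz {Y : Type u} (a : Y) : VPZ 1 (Subgroup.zpowers (FreeGroup.of a)) :=
  vpz_zpowers (free_pow (FreeGroup.of_ne_one a))

end ExF

end Pool.Agent.PLS
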