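import Mathlib
import Pool.Agent.Lib.PLS.Defs

/-!
# T4, row EX-P (helper45): the plane of a presentation with one relator in which every generator
occurs twice

`H = F / ⟨⟨r⟩⟩`. Vertices `H`, edges `H × X`, faces `H`; Fox calculus.
-/

set_option autoImplicit false
set_option linter.unusedSectionVars false

open Finsupp

namespace Pool.Agent.PLS

universe u

section fox

variable {H : Type u} [Group H] {X : Type u}

/-- left translation of the edges -/
def shE (h : H) : (H × X) ≃ (H × X) where
  toFun e := (h * e.1, e.2)
  invFun e := (h⁻¹ * e.1, e.2)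
  left_inv e := by simp
  right_inv e := by simp

/-- left translation of the `1`-chains -/
noncomputable def shA (h : H) : (H × X →₀ ℤ) ≃+ (H × X →₀ ℤ) := Finsupp.domCongr (shE h)

theorem shA_single (h g : H) (x : X) (n : ℤ) :
    shA h (single (g, x) n) = single (h * g, x) n := by
  unfold shA
  rw [Finsupp.domCongr_apply, Finsupp.equivMapDomain_single]
  rfl

theorem shA_mul (h g : H) (c : H × X →₀ ℤ) : shA (h * g) c = shA h (shA g c) := by
  induction c using Finsupp.induction_linear with
  | zero => rw [map_zero, map_zero, map_zero]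
  | add a b ha hb => rw [map_add, map_add, map_add, ha, hb]
  | single e n =>
    obtain ⟨g', x⟩ := e
    rw [shA_single, shA_single, shA_single, mul_assoc]

theorem shA_one (c : H × X →₀ ℤ) : shA (1 : H) c = c := by
  induction c using Finsupp.induction_linear with
  | zero => rw [map_zero]
  | add a b ha hb => rw [map_add, ha, hb]
  | single e n =>
    obtain ⟨g', x⟩ := e
    rw [shA_single, one_mul]

/-- the action on the chains -/
noncomputable def actC : H →* MulAut (Multiplicative (H × X →₀ ℤ)) where
  toFun h := AddEquiv.toMultiplicative (shA h)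
  map_one' := by
    refine MulEquiv.ext fun c => ?_
    exact congrArg Multiplicative.ofAdd (shA_one (Multiplicative.toAdd c))
  map_mul' h g := by
    refine MulEquiv.ext fun c => ?_
    exact congrArg Multiplicative.ofAdd (shA_mul h g (Multiplicative.toAdd c))

variable (π : FreeGroup X →* H)

/-- the homomorphism to the semidirect product -/
noncomputable def foxH : FreeGroup X →* (Multiplicative (H × X →₀ ℤ)) ⋊[actC] H :=
  FreeGroup.lift fun x => ⟨Multiplicative.ofAdd (single (1, x) 1), π (FreeGroup.of x)⟩

theorem foxH_right (u : FreeGroup X) : (foxH π u).right = π u := by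
  have h : SemidirectProduct.rightHom.comp (foxH π) = π := by
    ext x
    change (foxH π (FreeGroup.of x)).right = π (FreeGroup.of x)
    rw [foxH, FreeGroup.lift_apply_of]
  exact DFunLike.congr_fun h u

/-- the Fox derivative -/
noncomputable def fox (u : FreeGroup X) : H × X →₀ ℤ := Multiplicative.toAdd (foxH π u).left

theorem fox_mul (u v : FreeGroup X) : fox π (u * v) = fox π u + shA (π u) (fox π v) := by
  unfold fox
  rw [map_mul, SemidirectProduct.mul_left, foxH_right, toAdd_mul]
  rfl

theorem fox_one : fox π 1 = 0 := by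
  unfold fox
  rw [map_one]
  rfl

theorem fox_of (x : X) : fox π (FreeGroup.of x) = single (1, x) 1 := by
  unfold fox foxH
  rw [FreeGroup.lift_apply_of]
  rfl

theorem fox_inv (u : FreeGroup X) : fox π u⁻¹ = - shA (π u)⁻¹ (fox π u) := by
  have h := fox_mul π u⁻¹ u
  rw [inv_mul_cancel, fox_one, map_inv] at h
  exact eq_neg_of_add_eq_zero_left h.symm

/-- the end of an edge -/
def tE (e : H × X) : H := e.1 * π (FreeGroup.of e.2)

/-- the boundary of a `1`-chain -/
noncomputable def bd1 : (H × X →₀ ℤ) →+ (H →₀ ℤ) :=
  Finsupp.mapDomain.addMonoidHom (tE π) - Finsupp.mapDomain.addMonoidHom Prod.fst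

theorem bd1_apply (c : H × X →₀ ℤ) : bd1 π c = c.mapDomain (tE π) - c.mapDomain Prod.fst := rfl

theorem bd1_single (g : H) (x : X) (n : ℤ) :
    bd1 π (single (g, x) n) = single (g * π (FreeGroup.of x)) n - single g n := by
  rw [bd1_apply, Finsupp.mapDomain_single, Finsupp.mapDomain_single]
  rfl

theorem bd1_shA (h : H) (c : H × X →₀ ℤ) :
    bd1 π (shA h c) = (bd1 π c).mapDomain (fun g => h * g) := by
  induction c using Finsupp.induction_linear with
  | zero => rw [map_zero, map_zero, Finsupp.mapDomain_zero]
  | add a b ha hb => rw [map_add, map_add, map_add, Finsupp.mapDomain_add, ha, hb]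
  | single e n =>
    obtain ⟨g, x⟩ := e
    rw [shA_single, bd1_single, bd1_single]
    change _ = Finsupp.mapDomain.addMonoidHom (fun g => h * g) _
    rw [map_sub]
    change _ = Finsupp.mapDomain _ _ - Finsupp.mapDomain _ _
    rw [Finsupp.mapDomain_single, Finsupp.mapDomain_single, mul_assoc]

theorem bd1_fox (u : FreeGroup X) : bd1 π (fox π u) = single (π u) 1 - single 1 1 := by
  induction u using FreeGroup.induction_on with
  | C1 => rw [fox_one, map_zero, map_one, sub_self]
  | of x => rw [fox_of, bd1_single, one_mul]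
  | inv_of x hx =>
    rw [fox_inv, map_neg, bd1_shA, hx]
    change - Finsupp.mapDomain.addMonoidHom (fun g => (π (FreeGroup.of x))⁻¹ * g) _ = _
    rw [map_sub]
    change - (Finsupp.mapDomain _ _ - Finsupp.mapDomain _ _) = _
    rw [Finsupp.mapDomain_single, Finsupp.mapDomain_single, inv_mul_cancel, mul_one, map_inv,
      neg_sub]
  | mul u v hu hv =>
    rw [fox_mul, map_add, bd1_shA, hu, hv]
    change _ + Finsupp.mapDomain.addMonoidHom (fun g => π u * g) _ = _
    rw [map_sub]
    change _ + (Finsupp.mapDomain _ _ - Finsupp.mapDomain _ _) = _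
    rw [Finsupp.mapDomain_single, Finsupp.mapDomain_single, mul_one, map_mul]
    abel

/-- the chains generated by the boundaries of the faces -/
noncomputable def imF (r : FreeGroup X) : AddSubgroup (H × X →₀ ℤ) :=
  AddSubgroup.closure (Set.range fun h : H => shA h (fox π r))

theorem shA_imF (r : FreeGroup X) (h : H) {c : H × X →₀ ℤ} (hc : c ∈ imF π r) :
    shA h c ∈ imF π r := by
  induction hc using AddSubgroup.closure_induction with
  | mem x hx =>
    obtain ⟨g, rfl⟩ := hx
    change shA h (shA g (fox π r)) ∈ imF π r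
    rw [← shA_mul]
    exact AddSubgroup.subset_closure ⟨h * g, rfl⟩
  | zero => rw [map_zero]; exact (imF π r).zero_mem
  | add x y _ _ hx hy => rw [map_add]; exact (imF π r).add_mem hx hy
  | neg x _ hx => rw [map_neg]; exact (imF π r).neg_mem hx

/-- the words in the kernel -/
theorem fox_ker (r : FreeGroup X) (hr : π r = 1) {u : FreeGroup X}
    (hu : u ∈ Subgroup.normalClosure ({r} : Set (FreeGroup X))) :
    π u = 1 ∧ fox π u ∈ imF π r := by
  let N : Subgroup (FreeGroup X) :=
    { carrier := {u | π u = 1 ∧ fox π u ∈ imF π r}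
      mul_mem' := by
        rintro u v ⟨h1, h2⟩ ⟨h3, h4⟩
        refine ⟨by rw [map_mul, h1, h3, one_mul], ?_⟩
        rw [fox_mul, h1, shA_one]
        exact (imF π r).add_mem h2 h4
      one_mem' := ⟨map_one π, by rw [fox_one]; exact (imF π r).zero_mem⟩
      inv_mem' := by
        rintro u ⟨h1, h2⟩
        refine ⟨by rw [map_inv, h1, inv_one], ?_⟩
        rw [fox_inv]
        exact (imF π r).neg_mem (shA_imF π r _ h2) }
  have hN : N.Normal := ⟨by
    rintro u ⟨h1, h2⟩ g
    refine ⟨by rw [map_mul, map_mul, h1, mul_one, map_inv, mul_inv_cancel], ?_⟩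
    rw [fox_mul, fox_mul, map_mul, h1, mul_one, fox_inv, map_neg, ← shA_mul, mul_inv_cancel,
      shA_one, add_neg_cancel_comm]
    exact shA_imF π r _ h2⟩
  have h1 : Subgroup.normalClosure ({r} : Set (FreeGroup X)) ≤ N := by
    refine Subgroup.normalClosure_le_normal ?_
    rintro _ rfl
    refine ⟨hr, AddSubgroup.subset_closure ⟨1, shA_one _⟩⟩
  exact h1 hu

variable {π}

/-- **exactness at the edges** -/
theorem mem_imF_of_bd (hs : Function.Surjective π) {r : FreeGroup X}
    (hk : π.ker = Subgroup.normalClosure ({r} : Set (FreeGroup X))) {c : H × X →₀ ℤ}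
    (hc : bd1 π c = 0) : c ∈ imF π r := by
  have hr : π r = 1 := by
    rw [← MonoidHom.mem_ker, hk]
    exact Subgroup.subset_normalClosure rfl
  have key : ∀ u v : FreeGroup X, π u = π v → fox π u - fox π v ∈ imF π r := by
    intro u v huv
    have h1 : v⁻¹ * u ∈ Subgroup.normalClosure ({r} : Set (FreeGroup X)) := by
      rw [← hk, MonoidHom.mem_ker, map_mul, map_inv, huv, inv_mul_cancel]
    have h2 := fox_mul π v (v⁻¹ * u)
    rw [mul_inv_cancel_left] at h2
    rw [h2, add_sub_cancel_left]
    exact shA_imF π r _ (fox_ker π r hr h1).2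
  let σ : H → (H × X →₀ ℤ) ⧸ imF π r := fun h => QuotientAddGroup.mk (fox π (Function.surjInv hs h))
  have hσ : ∀ (h : H) (x : X), σ (h * π (FreeGroup.of x)) - σ h =
      QuotientAddGroup.mk (single (h, x) 1) := by
    intro h x
    have h1 := key (Function.surjInv hs (h * π (FreeGroup.of x)))
      (Function.surjInv hs h * FreeGroup.of x) (by
        rw [map_mul, Function.surjInv_eq hs, Function.surjInv_eq hs])
    have h2 : σ (h * π (FreeGroup.of x)) =
        QuotientAddGroup.mk (fox π (Function.surjInv hs h * FreeGroup.of x)) := by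
      refine (QuotientAddGroup.eq_iff_sub_mem).2 ?_
      exact h1
    rw [h2, fox_mul, Function.surjInv_eq hs, fox_of, shA_single, mul_one, QuotientAddGroup.mk_add]
    exact add_sub_cancel_left _ _
  let tot : (H →₀ ℤ) →+ (H × X →₀ ℤ) ⧸ imF π r :=
    Finsupp.liftAddHom fun h => (zmultiplesHom _) (σ h)
  have htot : ∀ c : H × X →₀ ℤ, tot (bd1 π c) = QuotientAddGroup.mk c := by
    intro c
    induction c using Finsupp.induction_linear with
    | zero => rw [map_zero, map_zero]; rfl
    | add a b ha hb => rw [map_add, map_add, ha, hb]; rfl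
    | single e n =>
      obtain ⟨g, x⟩ := e
      rw [bd1_single, map_sub]
      change Finsupp.liftAddHom _ _ - Finsupp.liftAddHom _ _ = _
      rw [Finsupp.liftAddHom_apply_single, Finsupp.liftAddHom_apply_single, zmultiplesHom_apply,
        zmultiplesHom_apply, ← zsmul_sub, hσ]
      change QuotientAddGroup.mk (n • single (g, x) (1 : ℤ)) = _
      rw [Finsupp.smul_single, smul_eq_mul, mul_one]
  have h1 := htot c
  rw [hc, map_zero] at h1
  exact (QuotientAddGroup.eq_zero_iff c).1 h1.symm

/-- **exactness at the vertices** -/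
theorem exists_bd_of_sum (hs : Function.Surjective π) (f : H →₀ ℤ)
    (hf : (f.sum fun _ n => n) = 0) : ∃ c : H × X →₀ ℤ, bd1 π c = f := by
  have h1 : ∀ f : H →₀ ℤ, ∃ c : H × X →₀ ℤ, bd1 π c = f - single 1 (f.sum fun _ n => n) := by
    intro f
    induction f using Finsupp.induction_linear with
    | zero => exact ⟨0, by rw [map_zero, Finsupp.sum_zero_index, single_zero, sub_zero]⟩
    | add a b ha hb =>
      obtain ⟨c, hc⟩ := ha
      obtain ⟨d, hd⟩ := hb
      refine ⟨c + d, ?_⟩
      rw [map_add, hc, hd, Finsupp.sum_add_index' (fun _ => rfl) (fun _ _ _ => rfl), single_add]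
      abel
    | single h n =>
      refine ⟨n • fox π (Function.surjInv hs h), ?_⟩
      rw [map_zsmul, bd1_fox, Function.surjInv_eq hs, Finsupp.sum_single_index rfl, zsmul_sub]
      change n • single h (1 : ℤ) - n • single 1 (1 : ℤ) = _
      rw [Finsupp.smul_single, Finsupp.smul_single, smul_eq_mul, mul_one]
  obtain ⟨c, hc⟩ := h1 f
  exact ⟨c, by rw [hc, hf, single_zero, sub_zero]⟩

end fox

/-! ## The plane -/

section plane

variable {H : Type u} [Group H] {X : Type u}

/-- left multiplication on the edges -/
@[reducible] def actE : MulAction H (H × X) where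
  smul h e := (h * e.1, e.2)
  one_smul e := by
    change (1 * e.1, e.2) = e
    rw [one_mul]
  mul_smul g h e := by
    change (g * h * e.1, e.2) = (g * (h * e.1), e.2)
    rw [mul_assoc]

variable (π : FreeGroup X →* H) (r : FreeGroup X)

/-- the boundary of the faces -/
noncomputable def bd2 : (H →₀ ℤ) →+ (H × X →₀ ℤ) :=
  Finsupp.liftAddHom fun h => (zmultiplesHom _) (shA h (fox π r))

theorem bd2_single (h : H) (n : ℤ) : bd2 π r (single h n) = n • shA h (fox π r) := by
  unfold bd2
  rw [Finsupp.liftAddHom_apply_single, zmultiplesHom_apply]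

theorem imF_le_bd2 {c : H × X →₀ ℤ} (hc : c ∈ imF π r) : ∃ d : H →₀ ℤ, bd2 π r d = c := by
  induction hc using AddSubgroup.closure_induction with
  | mem x hx =>
    obtain ⟨g, rfl⟩ := hx
    exact ⟨single g 1, by rw [bd2_single, one_zsmul]⟩
  | zero => exact ⟨0, map_zero _⟩
  | add x y _ _ hx hy =>
    obtain ⟨a, rfl⟩ := hx
    obtain ⟨b, rfl⟩ := hy
    exact ⟨a + b, map_add _ _ _⟩
  | neg x _ hx =>
    obtain ⟨a, rfl⟩ := hx
    exact ⟨-a, map_neg _ _⟩

theorem bd1_bd2 (hr : π r = 1) (d : H →₀ ℤ) : bd1 π (bd2 π r d) = 0 := by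
  induction d using Finsupp.induction_linear with
  | zero => rw [map_zero, map_zero]
  | add a b ha hb => rw [map_add, map_add, ha, hb, add_zero]
  | single h n =>
    rw [bd2_single, map_zsmul, bd1_shA, bd1_fox, hr, sub_self, Finsupp.mapDomain_zero, smul_zero]

variable [Fintype X] (p q : X → H) (s : X → ℤˣ)

/-- the Fox derivatives of the relator: every generator occurs twice -/
def FoxEq : Prop :=
  fox π r = ∑ x, (single (p x, x) (1 : ℤ) - single (q x, x) (s x : ℤ))

theorem bd2_val (h : FoxEq π r p q s) (d : H →₀ ℤ) (g : H) (x : X) :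
    bd2 π r d (g, x) = d (g * (p x)⁻¹) - (s x : ℤ) * d (g * (q x)⁻¹) := by
  classical
  induction d using Finsupp.induction_linear with
  | zero => rw [map_zero, coe_zero, Pi.zero_apply, coe_zero, Pi.zero_apply, Pi.zero_apply]; ring
  | add a b ha hb =>
    rw [map_add, Finsupp.add_apply, ha, hb, Finsupp.add_apply, Finsupp.add_apply]
    ring
  | single k n =>
    rw [bd2_single, h, map_sum, Finsupp.smul_apply, Finsupp.finsetSum_apply,
      Finset.sum_eq_single x]
    · rw [map_sub, shA_single, shA_single, Finsupp.sub_apply, Finsupp.single_apply,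
        Finsupp.single_apply, Finsupp.single_apply, Finsupp.single_apply]
      have h1 : ((k * p x, x) = (g, x)) ↔ k = g * (p x)⁻¹ := by
        rw [Prod.mk.injEq, eq_mul_inv_iff_mul_eq]
        exact ⟨fun h => h.1, fun h => ⟨h, rfl⟩⟩
      have h2 : ((k * q x, x) = (g, x)) ↔ k = g * (q x)⁻¹ := by
        rw [Prod.mk.injEq, eq_mul_inv_iff_mul_eq]
        exact ⟨fun h => h.1, fun h => ⟨h, rfl⟩⟩
      simp only [h1, h2]
      split_ifs <;> simp <;> ring
    · intro y _ hy
      rw [map_sub, shA_single, shA_single, Finsupp.sub_apply, Finsupp.single_apply,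
        Finsupp.single_apply, if_neg, if_neg, sub_zero]
      · exact fun h => hy (congrArg Prod.snd h)
      · exact fun h => hy (congrArg Prod.snd h)
    · intro hx
      exact absurd (Finset.mem_univ _) hx

/-- **the plane** -/
theorem exists_plane (hs : Function.Surjective π)
    (hk : π.ker = Subgroup.normalClosure ({r} : Set (FreeGroup X))) (h : FoxEq π r p q s)
    (hgen : Subgroup.closure (Set.range fun x => p x * (q x)⁻¹) = ⊤) :
    letI : MulAction H (H × X) := actE
    Nonempty (PlaneCx H H (H × X) H) := by
  letI : MulAction H (H × X) := actE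
  have hr : π r = 1 := by
    rw [← MonoidHom.mem_ker, hk]
    exact Subgroup.subset_normalClosure rfl
  have hfin : Finite (MulAction.orbitRel.Quotient H H) := by
    refine Finite.of_surjective (fun _ : Unit =>
      (Quotient.mk _ 1 : MulAction.orbitRel.Quotient H H)) fun z => ?_
    induction z using Quotient.inductionOn with
    | h z => exact ⟨(), Quotient.sound ⟨z⁻¹, inv_mul_cancel z⟩⟩
  exact ⟨
    { o := Prod.fst
      t := tE π
      l := fun e => e.1 * (p e.2)⁻¹
      r := fun e => e.1 * (q e.2)⁻¹
      s := fun e => s e.2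
      ho := fun _ _ => rfl
      ht := fun h e => mul_assoc h e.1 _
      hl := fun h e => mul_assoc h e.1 _
      hr := fun h e => mul_assoc h e.1 _
      hs := fun _ _ => rfl
      freeV := fun h x hx => mul_eq_right.1 hx
      freeE := fun h x hx => mul_eq_right.1 (congrArg Prod.fst hx)
      freeF := fun h x hx => mul_eq_right.1 hx
      finV := hfin
      finE := by
        refine Finite.of_surjective (fun x : X =>
          (Quotient.mk _ (1, x) : MulAction.orbitRel.Quotient H (H × X))) fun z => ?_
        induction z using Quotient.inductionOn with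
        | h z =>
          refine ⟨z.2, Quotient.sound ⟨z.1⁻¹, ?_⟩⟩
          change (z.1⁻¹ * z.1, z.2) = (1, z.2)
          rw [inv_mul_cancel]
      finF := hfin
      ne := ⟨1⟩
      ex0 := fun f hf => exists_bd_of_sum hs f hf
      ex1 := by
        intro g hg
        have h1 : bd1 π g = 0 := by
          rw [bd1_apply, hg, sub_self]
        obtain ⟨c, hc⟩ := imF_le_bd2 π r (mem_imF_of_bd hs hk h1)
        refine ⟨c, fun e => ?_⟩
        rw [← hc]
        exact bd2_val π r p q s h c e.1 e.2
      bd := by
        intro c g hg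
        have h1 : g = bd2 π r c := by
          ext e
          rw [hg e]
          exact (bd2_val π r p q s h c e.1 e.2).symm
        have h2 := bd1_bd2 π r hr c
        rw [← h1, bd1_apply, sub_eq_zero] at h2
        exact h2
      connF := by
        intro S hS hl
        obtain ⟨s0, hs0⟩ := hS
        let K : Subgroup H :=
          { carrier := {k | ∀ h, h ∈ S ↔ h * k ∈ S}
            mul_mem' := by
              intro a b ha hb h
              rw [ha h, hb (h * a), mul_assoc]
            one_mem' := fun h => by rw [mul_one]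
            inv_mem' := by
              intro a ha h
              rw [ha (h * a⁻¹), inv_mul_cancel_right] }
        have hK : K = ⊤ := by
          rw [eq_top_iff, ← hgen, Subgroup.closure_le]
          rintro _ ⟨x, rfl⟩ h
          have h1 := hl (h * p x, x)
          change h * p x * (p x)⁻¹ ∈ S ↔ h * p x * (q x)⁻¹ ∈ S at h1
          rw [mul_inv_cancel_right, mul_assoc] at h1
          exact h1
        rw [Set.eq_univ_iff_forall]
        intro h
        have h1 : s0⁻¹ * h ∈ K := by
          rw [hK]
          exact Subgroup.mem_top _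
        have h2 := (h1 s0).1 hs0
        rwa [mul_inv_cancel_left] at h2 }⟩

end plane

end Pool.Agent.PLS
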