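import Mathlib
import Pool.Agent.Lib.PLS.ExP

/-!
# T4, row EX-P (helper45): the words of the closed surfaces
-/

set_option autoImplicit false
set_option linter.unusedSectionVars false

open Finsupp
open scoped commutatorElement

namespace Pool.Agent.PLS

universe u

section

variable {H : Type u} [Group H] {X : Type u} [DecidableEq X] (π : FreeGroup X →* H)

/-- every generator of the finite set `Z` occurs twice in `w`, and no other one -/
def FW (w : FreeGroup X) (Z : Finset X) : Prop :=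
  ∃ (p q : X → H) (s : X → ℤˣ),
    fox π w = ∑ x ∈ Z, (single (p x, x) (1 : ℤ) - single (q x, x) (s x : ℤ)) ∧
    (∀ x ∈ Z, π (FreeGroup.of x) ∈ Subgroup.closure ((fun x => p x * (q x)⁻¹) '' (Z : Set X))) ∧
    π w ∈ Subgroup.closure ((fun x => p x * (q x)⁻¹) '' (Z : Set X))

theorem FW.one : FW π 1 ∅ :=
  ⟨fun _ => 1, fun _ => 1, fun _ => 1, by rw [fox_one, Finset.sum_empty],
    fun x hx => absurd hx (Finset.notMem_empty x), by rw [map_one]; exact Subgroup.one_mem _⟩

variable {π}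

theorem FW.mul {w w' : FreeGroup X} {Z Z' : Finset X} (h : FW π w Z) (h' : FW π w' Z')
    (hZ : Disjoint Z Z') : FW π (w * w') (Z ∪ Z') := by
  obtain ⟨p, q, s, h1, h2, h3⟩ := h
  obtain ⟨p', q', s', h1', h2', h3'⟩ := h'
  let P : X → H := fun x => if x ∈ Z then p x else π w * p' x
  let Q : X → H := fun x => if x ∈ Z then q x else π w * q' x
  let S : X → ℤˣ := fun x => if x ∈ Z then s x else s' x
  have hn : ∀ x ∈ Z', x ∉ Z := fun x hx hx' => Finset.disjoint_left.1 hZ hx' hx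
  have k1 : Subgroup.closure ((fun x => p x * (q x)⁻¹) '' (Z : Set X)) ≤
      Subgroup.closure ((fun x => P x * (Q x)⁻¹) '' ((Z ∪ Z' : Finset X) : Set X)) := by
    rw [Subgroup.closure_le]
    rintro _ ⟨x, hx, rfl⟩
    replace hx : x ∈ Z := hx
    refine Subgroup.subset_closure ⟨x, Finset.mem_union_left _ hx, ?_⟩
    change (if x ∈ Z then p x else π w * p' x) * (if x ∈ Z then q x else π w * q' x)⁻¹ = _
    rw [if_pos hx, if_pos hx]
  have k2 : Subgroup.closure ((fun x => p' x * (q' x)⁻¹) '' (Z' : Set X)) ≤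
      Subgroup.closure ((fun x => P x * (Q x)⁻¹) '' ((Z ∪ Z' : Finset X) : Set X)) := by
    rw [Subgroup.closure_le]
    rintro _ ⟨x, hx, rfl⟩
    replace hx : x ∈ Z' := hx
    have h4 : P x * (Q x)⁻¹ ∈
        Subgroup.closure ((fun x => P x * (Q x)⁻¹) '' ((Z ∪ Z' : Finset X) : Set X)) :=
      Subgroup.subset_closure ⟨x, Finset.mem_union_right _ hx, rfl⟩
    have h5 : p' x * (q' x)⁻¹ = (π w)⁻¹ * (P x * (Q x)⁻¹) * π w := by
      change _ = (π w)⁻¹ * ((if x ∈ Z then p x else π w * p' x) *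
        (if x ∈ Z then q x else π w * q' x)⁻¹) * π w
      rw [if_neg (hn x hx), if_neg (hn x hx)]
      group
    change p' x * (q' x)⁻¹ ∈ _
    rw [h5]
    exact Subgroup.mul_mem _ (Subgroup.mul_mem _ (Subgroup.inv_mem _ (k1 h3)) h4) (k1 h3)
  refine ⟨P, Q, S, ?_, ?_, ?_⟩
  · rw [fox_mul, h1, h1', Finset.sum_union hZ, map_sum]
    congr 1
    · refine Finset.sum_congr rfl fun x hx => ?_
      change _ = single ((if x ∈ Z then p x else π w * p' x), x) (1 : ℤ) -
        single ((if x ∈ Z then q x else π w * q' x), x) ((if x ∈ Z then s x else s' x : ℤˣ) : ℤ)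
      rw [if_pos hx, if_pos hx, if_pos hx]
    · refine Finset.sum_congr rfl fun x hx => ?_
      change _ = single ((if x ∈ Z then p x else π w * p' x), x) (1 : ℤ) -
        single ((if x ∈ Z then q x else π w * q' x), x) ((if x ∈ Z then s x else s' x : ℤˣ) : ℤ)
      rw [if_neg (hn x hx), if_neg (hn x hx), if_neg (hn x hx), map_sub, shA_single, shA_single]
  · intro x hx
    rcases Finset.mem_union.1 hx with hx | hx
    · exact k1 (h2 x hx)
    · exact k2 (h2' x hx)
  · rw [map_mul]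
    exact Subgroup.mul_mem _ (k1 h3) (k2 h3')

variable (π)

/-- crosscaps -/
theorem FW.sq (x : X) : FW π (FreeGroup.of x * FreeGroup.of x) {x} := by
  have hc : (π (FreeGroup.of x))⁻¹ ∈ Subgroup.closure
      ((fun y => (fun _ : X => (1 : H)) y * ((fun _ : X => π (FreeGroup.of x)) y)⁻¹) ''
        (({x} : Finset X) : Set X)) := by
    refine Subgroup.subset_closure ⟨x, ?_, ?_⟩
    · rw [Finset.coe_singleton]; rfl
    · change 1 * (π (FreeGroup.of x))⁻¹ = _
      rw [one_mul]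
  have hc' := Subgroup.inv_mem _ hc
  rw [inv_inv] at hc'
  refine ⟨fun _ => 1, fun _ => π (FreeGroup.of x), fun _ => -1, ?_, ?_, ?_⟩
  · rw [fox_mul, fox_of, shA_single, mul_one, Finset.sum_singleton, Units.val_neg, Units.val_one,
      single_neg, sub_neg_eq_add]
  · intro y hy
    rw [Finset.mem_singleton.1 hy]
    exact hc'
  · rw [map_mul]
    exact Subgroup.mul_mem _ hc' hc'

/-- handles -/
theorem FW.comm {x y : X} (hxy : x ≠ y) : FW π ⁅FreeGroup.of x, FreeGroup.of y⁆ {x, y} := by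
  obtain ⟨a, ha⟩ : ∃ a, a = π (FreeGroup.of x) := ⟨_, rfl⟩
  obtain ⟨b, hb⟩ : ∃ b, b = π (FreeGroup.of y) := ⟨_, rfl⟩
  let P : X → H := fun z => if z = x then 1 else a
  let Q : X → H := fun z => if z = x then a * b * a⁻¹ else a * b * a⁻¹ * b⁻¹
  have hPx : P x = 1 := if_pos rfl
  have hQx : Q x = a * b * a⁻¹ := if_pos rfl
  have hPy : P y = a := if_neg (Ne.symm hxy)
  have hQy : Q y = a * b * a⁻¹ * b⁻¹ := if_neg (Ne.symm hxy)
  obtain ⟨K, hK⟩ : ∃ K, K = Subgroup.closure ((fun z => P z * (Q z)⁻¹) ''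
    (({x, y} : Finset X) : Set X)) := ⟨_, rfl⟩
  have h1 : P x * (Q x)⁻¹ ∈ K := by
    rw [hK]
    exact Subgroup.subset_closure ⟨x, by simp, rfl⟩
  have h2 : P y * (Q y)⁻¹ ∈ K := by
    rw [hK]
    exact Subgroup.subset_closure ⟨y, by simp, rfl⟩
  rw [hPx, hQx, one_mul] at h1
  rw [hPy, hQy] at h2
  have h3 : a * b * a⁻¹ ∈ K := (K.inv_mem_iff).1 h1
  have h4 : a ∈ K := by
    have h5 := K.mul_mem (K.mul_mem h1 h2) h3
    have h6 : (a * b * a⁻¹)⁻¹ * (a * (a * b * a⁻¹ * b⁻¹)⁻¹) * (a * b * a⁻¹) = a := by group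
    rwa [h6] at h5
  have h5 : b ∈ K := by
    have h6 := K.mul_mem (K.mul_mem (K.inv_mem h4) h3) h4
    have h7 : a⁻¹ * (a * b * a⁻¹) * a = b := by group
    rwa [h7] at h6
  refine ⟨P, Q, fun _ => 1, ?_, ?_, ?_⟩
  · rw [Finset.sum_pair hxy, hPx, hQx, hPy, hQy, commutatorElement_def, fox_mul, fox_mul, fox_mul,
      fox_inv, fox_inv, fox_of, fox_of]
    simp only [map_mul, map_inv, map_neg, ← ha, ← hb, shA_single, mul_one, Units.val_one]
    abel
  · intro z hz
    rw [← hK]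
    rw [Finset.mem_insert, Finset.mem_singleton] at hz
    rcases hz with rfl | rfl
    · rw [← ha]; exact h4
    · rw [← hb]; exact h5
  · rw [← hK, map_commutatorElement, ← ha, ← hb, commutatorElement_def]
    exact K.mul_mem (K.mul_mem (K.mul_mem h4 h5) (K.inv_mem h4)) (K.inv_mem h5)

/-- products of words with disjoint sets of generators -/
theorem FW.list {ι : Type} (f : ι → FreeGroup X) (Z : ι → Finset X) (h : ∀ i, FW π (f i) (Z i))
    (hZ : ∀ i j, i ≠ j → Disjoint (Z i) (Z j)) (L : List ι) (hL : L.Nodup) :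
    ∃ W : Finset X, FW π (L.map f).prod W ∧ ∀ x, x ∈ W ↔ ∃ i ∈ L, x ∈ Z i := by
  induction L with
  | nil =>
    refine ⟨∅, FW.one π, fun x => ?_⟩
    simp
  | cons i L ih =>
    obtain ⟨hi, hL⟩ := List.nodup_cons.1 hL
    obtain ⟨W, hW, hW'⟩ := ih hL
    refine ⟨Z i ∪ W, ?_, fun x => ?_⟩
    · rw [List.map_cons, List.prod_cons]
      refine (h i).mul hW ?_
      rw [Finset.disjoint_left]
      intro x hx hx'
      obtain ⟨j, hj, hxj⟩ := (hW' x).1 hx'
      exact Finset.disjoint_left.1 (hZ i j (fun hij => hi (hij ▸ hj))) hx hxj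
    · rw [Finset.mem_union, hW']
      simp

end

end Pool.Agent.PLS
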