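import Mathlib
import Pool.Agent.Lib.PLS.ExW

/-!
# T4, row EX-P (helper45): the fundamental groups of the closed surfaces act on a plane
-/

set_option autoImplicit false
set_option linter.unusedSectionVars false

open scoped commutatorElement

namespace Pool.Agent.PLS

universe u

/-- the generators `a i`, `b i` (`i < g`) and `c j` (`j < k`) -/
abbrev SY (g k : ℕ) : Type u := ULift.{u} (Fin g × Bool ⊕ Fin k)

/-- the generators `a i`, `b i` -/
def sab {g k : ℕ} (i : Fin g) (b : Bool) : SY.{u} g k := ULift.up (Sum.inl (i, b))

/-- the generators `c j` -/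
def scc {g k : ℕ} (j : Fin k) : SY.{u} g k := ULift.up (Sum.inr j)

/-- the commutator `[a i, b i]` -/
def hnd {g k : ℕ} (i : Fin g) : FreeGroup (SY.{u} g k) :=
  ⁅(FreeGroup.of (sab i false) : FreeGroup (SY.{u} g k)), FreeGroup.of (sab i true)⁆

/-- the square `(c j)²` -/
def cap {g k : ℕ} (j : Fin k) : FreeGroup (SY.{u} g k) :=
  FreeGroup.of (scc j) * FreeGroup.of (scc j)

theorem sab_inj {g k : ℕ} {i j : Fin g} {b c : Bool}
    (h : (sab i b : SY.{u} g k) = sab j c) : i = j ∧ b = c := by
  have h1 := congrArg ULift.down h
  exact Prod.mk.inj (Sum.inl.inj h1)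

theorem scc_inj {g k : ℕ} {i j : Fin k} (h : (scc i : SY.{u} g k) = scc j) : i = j :=
  Sum.inr.inj (congrArg ULift.down h)

theorem sab_ne_scc {g k : ℕ} {i : Fin g} {b : Bool} {j : Fin k} :
    (sab i b : SY.{u} g k) ≠ scc j := fun h => by
  have h1 := congrArg ULift.down h
  cases h1

/-- the word `∏ [a i, b i] ∏ (c j)²` -/
def sw (g k : ℕ) : FreeGroup (SY.{u} g k) :=
  ((List.finRange g).map hnd).prod * ((List.finRange k).map cap).prod

/-- the relator `[a, b] ∏ [a i, b i] ∏ (c j)²`; `a = some none`, `b = none` -/
def srel (g k : ℕ) : FreeGroup (Option (Option (SY.{u} g k))) :=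
  ⁅(FreeGroup.of (some none) : FreeGroup (Option (Option (SY.{u} g k)))), FreeGroup.of none⁆ *
    FreeGroup.map some (FreeGroup.map some (sw g k))

/-- the fundamental group of the closed surface with `g + 1` handles and `k` crosscaps -/
abbrev SurfGp (g k : ℕ) : Type u :=
  PresentedGroup ({srel.{u} g k} : Set (FreeGroup (Option (Option (SY.{u} g k)))))

section
variable {H : Type u} [Group H] {g k : ℕ} [DecidableEq (Option (Option (SY.{u} g k)))]
  (π : FreeGroup (Option (Option (SY.{u} g k))) →* H)

/-- the inclusion of the generators -/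
abbrev ssm : SY.{u} g k → Option (Option (SY.{u} g k)) := fun x => some (some x)

theorem map_map_of (x : SY.{u} g k) :
    FreeGroup.map some (FreeGroup.map some (FreeGroup.of x)) = FreeGroup.of (ssm x) := rfl

theorem fw_srel : FW π (srel g k) Finset.univ := by
  have h1 : FW π ⁅FreeGroup.of (some none), FreeGroup.of none⁆ {some none, none} :=
    FW.comm π (Option.some_ne_none _)
  obtain ⟨W1, h2, h2'⟩ := FW.list π (ι := Fin g)
    (fun i => FreeGroup.map some (FreeGroup.map some (hnd (k := k) i)))
    (fun i => {ssm (sab i false), ssm (sab i true)})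
    (fun i => by
      rw [hnd, map_commutatorElement, map_commutatorElement, map_map_of, map_map_of]
      refine FW.comm π fun h => ?_
      have h1 := (sab_inj (Option.some.inj (Option.some.inj h))).2
      cases h1)
    (fun i j hij => by
      rw [Finset.disjoint_left]
      intro x hx hx'
      simp only [Finset.mem_insert, Finset.mem_singleton] at hx hx'
      apply hij
      rcases hx with rfl | rfl <;> rcases hx' with h | h <;>
        exact (sab_inj (Option.some.inj (Option.some.inj h))).1)
    (List.finRange g) (List.nodup_finRange g)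
  obtain ⟨W2, h3, h3'⟩ := FW.list π (ι := Fin k)
    (fun j => FreeGroup.map some (FreeGroup.map some (cap (g := g) j)))
    (fun j => {ssm (scc j)})
    (fun j => by
      rw [cap, map_mul, map_mul, map_map_of]
      exact FW.sq π _)
    (fun i j hij => by
      rw [Finset.disjoint_left]
      intro x hx hx'
      simp only [Finset.mem_singleton] at hx hx'
      rw [hx] at hx'
      exact hij (scc_inj (Option.some.inj (Option.some.inj hx'))))
    (List.finRange k) (List.nodup_finRange k)
  have h4 : FreeGroup.map some (FreeGroup.map some (sw.{u} g k)) =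
      ((List.finRange g).map fun i => FreeGroup.map some (FreeGroup.map some
        (hnd.{u} (k := k) i))).prod *
      ((List.finRange k).map fun j => FreeGroup.map some (FreeGroup.map some
        (cap.{u} (g := g) j))).prod := by
    rw [sw, map_mul, map_mul, map_list_prod, map_list_prod, map_list_prod, map_list_prod,
      List.map_map, List.map_map, List.map_map, List.map_map]
    rfl
  have d1 : Disjoint W1 W2 := by
    rw [Finset.disjoint_left]
    intro x hx hx'
    obtain ⟨i, -, hi⟩ := (h2' x).1 hx
    obtain ⟨j, -, hj⟩ := (h3' x).1 hx'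
    simp only [Finset.mem_insert, Finset.mem_singleton] at hi hj
    rw [hj] at hi
    rcases hi with h | h <;>
      exact sab_ne_scc (Option.some.inj (Option.some.inj h)).symm
  have d2 : Disjoint ({some none, none} : Finset (Option (Option (SY.{u} g k)))) (W1 ∪ W2) := by
    rw [Finset.disjoint_left]
    intro x hx hx'
    simp only [Finset.mem_insert, Finset.mem_singleton] at hx
    rcases Finset.mem_union.1 hx' with h | h
    · obtain ⟨i, -, hi⟩ := (h2' x).1 h
      simp only [Finset.mem_insert, Finset.mem_singleton] at hi
      rcases hx with rfl | rfl <;> rcases hi with h | h <;> cases h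
    · obtain ⟨i, -, hi⟩ := (h3' x).1 h
      simp only [Finset.mem_singleton] at hi
      rcases hx with rfl | rfl <;> cases hi
  have h5 := h1.mul (h2.mul h3 d1) d2
  have h6 : ({some none, none} : Finset (Option (Option (SY.{u} g k)))) ∪ (W1 ∪ W2) =
      Finset.univ := by
    rw [Finset.eq_univ_iff_forall]
    rintro (_ | _ | ⟨⟨i, b⟩ | j⟩)
    · simp
    · simp
    · refine Finset.mem_union_right _ (Finset.mem_union_left _ ((h2' _).2 ⟨i, List.mem_finRange i, ?_⟩))
      cases b
      · exact Finset.mem_insert_self _ _
      · exact Finset.mem_insert_of_mem (Finset.mem_singleton_self _)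
    · refine Finset.mem_union_right _ (Finset.mem_union_right _ ((h3' _).2 ⟨j, List.mem_finRange j, ?_⟩))
      exact Finset.mem_singleton_self _
  rw [h6, ← h4] at h5
  exact h5

end

/-- **the surface groups act on a plane** -/
theorem exists_plane_surfGp (g k : ℕ) :
    ∃ (V E F : Type u) (_ : MulAction (SurfGp.{u} g k) V) (_ : MulAction (SurfGp.{u} g k) E)
      (_ : MulAction (SurfGp.{u} g k) F), Nonempty (PlaneCx (SurfGp.{u} g k) V E F) := by
  classical
  obtain ⟨p, q, s, h1, h2, -⟩ := fw_srel.{u} (g := g) (k := k)
    (PresentedGroup.mk ({srel.{u} g k} : Set (FreeGroup (Option (Option (SY.{u} g k))))))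
  refine ⟨SurfGp.{u} g k, SurfGp.{u} g k × Option (Option (SY.{u} g k)), SurfGp.{u} g k,
    inferInstance, actE, inferInstance, ?_⟩
  refine exists_plane _ (srel.{u} g k) p q s (PresentedGroup.mk_surjective _) ?_ h1 ?_
  · exact QuotientGroup.ker_mk' _
  · have h3 : (Set.range fun x => p x * (q x)⁻¹) =
        (fun x => p x * (q x)⁻¹) '' ((Finset.univ : Finset (Option (Option (SY.{u} g k)))) :
          Set (Option (Option (SY.{u} g k)))) := by
      rw [Finset.coe_univ, Set.image_univ]
    rw [h3, eq_top_iff, ← PresentedGroup.closure_range_of, Subgroup.closure_le]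
    rintro _ ⟨x, rfl⟩
    exact h2 x (Finset.mem_univ x)

end Pool.Agent.PLS
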