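import Mathlib

/-!
# T4, row EX-I: one-relator groups `⟨Y, b | [a, b] w⟩` are HNN extensions of free groups
-/

set_option autoImplicit false
set_option linter.unusedSectionVars false

open scoped commutatorElement

namespace Pool.Agent.PLS.ExI

universe u

section
variable {G : Type u} [Group G]

theorem gen_mem (x : G) : ∀ y : Subgroup.zpowers x,
    y ∈ Subgroup.zpowers (⟨x, Subgroup.mem_zpowers x⟩ : Subgroup.zpowers x) := by
  rintro ⟨y, hy⟩
  obtain ⟨n, rfl⟩ := Subgroup.mem_zpowers_iff.1 hy
  exact Subgroup.mem_zpowers_iff.2 ⟨n, Subtype.ext (by simp)⟩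

/-- the isomorphism of two infinite cyclic subgroups -/
noncomputable def zpEquiv (x y : G) (h : orderOf x = orderOf y) :
    Subgroup.zpowers x ≃* Subgroup.zpowers y :=
  mulEquivOfOrderOfEq (gen_mem x) (gen_mem y) (by
    rw [← Subgroup.orderOf_coe, ← Subgroup.orderOf_coe]
    exact h)

theorem zpEquiv_gen (x y : G) (h : orderOf x = orderOf y) :
    zpEquiv x y h ⟨x, Subgroup.mem_zpowers x⟩ = ⟨y, Subgroup.mem_zpowers y⟩ :=
  mulEquivOfOrderOfEq_apply_gen _ _ _

theorem zpEquiv_zpow (x y : G) (h : orderOf x = orderOf y) (n : ℤ)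
    (hn : x ^ n ∈ Subgroup.zpowers x) :
    ((zpEquiv x y h ⟨x ^ n, hn⟩ : Subgroup.zpowers y) : G) = y ^ n := by
  have h1 : (⟨x ^ n, hn⟩ : Subgroup.zpowers x) = ⟨x, Subgroup.mem_zpowers x⟩ ^ n :=
    Subtype.ext (by simp)
  rw [h1, map_zpow, zpEquiv_gen]
  simp

end

theorem orderOf_free {Y : Type u} {x : FreeGroup Y} (hx : x ≠ 1) : orderOf x = 0 :=
  orderOf_eq_zero (not_isOfFinOrder_of_isMulTorsionFree hx)

section
variable {Y : Type u} (a : Y) (w : FreeGroup Y)

/-- the relator `[a, b] w` -/
def rel : FreeGroup (Option Y) :=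
  ⁅FreeGroup.of (some a), FreeGroup.of none⁆ * FreeGroup.map some w

/-- the group `⟨Y, b | [a, b] w⟩` -/
abbrev Gp : Type u := PresentedGroup ({rel a w} : Set (FreeGroup (Option Y)))

/-- the isomorphism of the associated subgroups -/
noncomputable def phi (hw : w * FreeGroup.of a ≠ 1) :
    Subgroup.zpowers (FreeGroup.of a) ≃* Subgroup.zpowers (w * FreeGroup.of a) :=
  zpEquiv _ _ (by rw [orderOf_free hw, orderOf_free (FreeGroup.of_ne_one a)])

variable (hw : w * FreeGroup.of a ≠ 1)

/-- the HNN extension -/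
abbrev Hn : Type u := HNNExtension (FreeGroup Y) _ _ (phi a w hw)

/-- images of the generators -/
noncomputable def f0 : Option Y → Hn a w hw := fun y =>
  y.elim HNNExtension.t fun y => HNNExtension.of (FreeGroup.of y)

theorem lift_f0 : (FreeGroup.lift (f0 a w hw)).comp (FreeGroup.map some) =
    (HNNExtension.of : FreeGroup Y →* Hn a w hw) := by
  ext y
  simp [f0]

theorem t_conj : (HNNExtension.t : Hn a w hw) * HNNExtension.of (FreeGroup.of a) =
    HNNExtension.of (w * FreeGroup.of a) * HNNExtension.t := by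
  have h := HNNExtension.t_mul_of (φ := phi a w hw)
    ⟨FreeGroup.of a, Subgroup.mem_zpowers _⟩
  rw [phi, zpEquiv_gen] at h
  exact h

theorem rel_f0 : FreeGroup.lift (f0 a w hw) (rel a w) = 1 := by
  have h1 : FreeGroup.lift (f0 a w hw) (FreeGroup.map some w) = HNNExtension.of w :=
    DFunLike.congr_fun (lift_f0 a w hw) w
  rw [rel, map_mul, h1, map_commutatorElement, FreeGroup.lift_apply_of, FreeGroup.lift_apply_of]
  change ⁅(HNNExtension.of (FreeGroup.of a) : Hn a w hw), HNNExtension.t⁆ *
    HNNExtension.of w = 1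
  have h2 := t_conj a w hw
  rw [map_mul] at h2
  rw [commutatorElement_def]
  have h3 : (HNNExtension.of w : Hn a w hw) =
      HNNExtension.t * HNNExtension.of (FreeGroup.of a) * HNNExtension.t⁻¹ *
        (HNNExtension.of (FreeGroup.of a))⁻¹ := by
    rw [h2]
    group
  rw [h3]
  group

/-- the map to the HNN extension -/
noncomputable def toH : Gp a w →* Hn a w hw :=
  PresentedGroup.toGroup (f := f0 a w hw) (by
    intro r hr
    rw [Set.mem_singleton_iff.1 hr]
    exact rel_f0 a w hw)

/-- the images of the free group -/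
def gY : FreeGroup Y →* Gp a w := (PresentedGroup.mk _).comp (FreeGroup.map some)

/-- the stable letter -/
def gt : Gp a w := PresentedGroup.of none

theorem g_rel : gt a w * gY a w (FreeGroup.of a) * (gt a w)⁻¹ =
    gY a w (w * FreeGroup.of a) := by
  have h1 : (PresentedGroup.mk ({rel a w} : Set (FreeGroup (Option Y)))) (rel a w) = 1 :=
    PresentedGroup.one_of_mem (Set.mem_singleton _)
  rw [rel, map_mul, map_commutatorElement, commutatorElement_def] at h1
  change gY a w (FreeGroup.of a) * gt a w * (gY a w (FreeGroup.of a))⁻¹ * (gt a w)⁻¹ *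
    gY a w w = 1 at h1
  have h2 : gY a w w = (gY a w (FreeGroup.of a) * gt a w * (gY a w (FreeGroup.of a))⁻¹ *
      (gt a w)⁻¹)⁻¹ := (inv_eq_of_mul_eq_one_right h1).symm
  rw [map_mul, h2]
  group

/-- the map from the HNN extension -/
noncomputable def fromH : Hn a w hw →* Gp a w :=
  HNNExtension.lift (gY a w) (gt a w) (by
    rintro ⟨x, hx⟩
    obtain ⟨n, rfl⟩ := Subgroup.mem_zpowers_iff.1 hx
    rw [phi, zpEquiv_zpow, map_zpow, map_zpow, ← g_rel, conj_zpow]
    group)

theorem fromH_toH : (fromH a w hw).comp (toH a w hw) = MonoidHom.id _ := by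
  refine PresentedGroup.ext fun y => ?_
  rcases y with _ | y
  · change fromH a w hw (toH a w hw (PresentedGroup.of none)) = PresentedGroup.of none
    rw [toH, PresentedGroup.toGroup.of]
    exact HNNExtension.lift_t _ _ _
  · change fromH a w hw (toH a w hw (PresentedGroup.of (some y))) = PresentedGroup.of (some y)
    rw [toH, PresentedGroup.toGroup.of]
    change fromH a w hw (HNNExtension.of (FreeGroup.of y)) = _
    rw [fromH, HNNExtension.lift_of]
    change PresentedGroup.mk _ (FreeGroup.map some (FreeGroup.of y)) = _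
    rw [FreeGroup.map.of]
    rfl

theorem toH_fromH : (toH a w hw).comp (fromH a w hw) = MonoidHom.id _ := by
  refine HNNExtension.hom_ext ?_ ?_
  · ext y
    change toH a w hw (fromH a w hw (HNNExtension.of (FreeGroup.of y))) =
      HNNExtension.of (FreeGroup.of y)
    rw [fromH, HNNExtension.lift_of]
    change toH a w hw (PresentedGroup.mk _ (FreeGroup.map some (FreeGroup.of y))) = _
    rw [FreeGroup.map.of]
    change toH a w hw (PresentedGroup.of (some y)) = _
    rw [toH, PresentedGroup.toGroup.of]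
    rfl
  · change toH a w hw (fromH a w hw HNNExtension.t) = HNNExtension.t
    rw [fromH, HNNExtension.lift_t]
    change toH a w hw (PresentedGroup.of none) = _
    rw [toH, PresentedGroup.toGroup.of]
    rfl

/-- the isomorphism -/
noncomputable def iso : Gp a w ≃* Hn a w hw :=
  MonoidHom.toMulEquiv (toH a w hw) (fromH a w hw) (fromH_toH a w hw) (toH_fromH a w hw)

end

/-- **row EX-I** -/
theorem exI {Y : Type u} (a : Y) (w : FreeGroup Y) (hw : w * FreeGroup.of a ≠ 1) :
    ∃ φ : Subgroup.zpowers (FreeGroup.of a) ≃* Subgroup.zpowers (w * FreeGroup.of a),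
      Nonempty (PresentedGroup ({⁅FreeGroup.of (some a), FreeGroup.of none⁆ *
        FreeGroup.map some w} : Set (FreeGroup (Option Y))) ≃*
        HNNExtension (FreeGroup Y) (Subgroup.zpowers (FreeGroup.of a))
          (Subgroup.zpowers (w * FreeGroup.of a)) φ) :=
  ⟨phi a w hw, ⟨iso a w hw⟩⟩

/-- the group is infinite -/
theorem infinite_gp {Y : Type u} (a : Y) (w : FreeGroup Y) :
    Infinite (PresentedGroup ({⁅FreeGroup.of (some a), FreeGroup.of none⁆ *
        FreeGroup.map some w} : Set (FreeGroup (Option Y)))) := by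
  let f : Option Y → Multiplicative ℤ := fun y => y.elim (Multiplicative.ofAdd 1) fun _ => 1
  have h1 : (FreeGroup.lift f).comp (FreeGroup.map some) = 1 := by
    ext y
    simp [f]
  let g : Gp a w →* Multiplicative ℤ := PresentedGroup.toGroup (f := f) (by
    intro r hr
    rw [Set.mem_singleton_iff.1 hr, rel, map_mul, map_commutatorElement,
      commutatorElement_eq_one_iff_mul_comm.2 (mul_comm _ _), one_mul]
    exact DFunLike.congr_fun h1 w)
  have hg : Function.Surjective g := by
    intro x
    refine ⟨(PresentedGroup.of none) ^ (Multiplicative.toAdd x), ?_⟩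
    rw [map_zpow, PresentedGroup.toGroup.of]
    change (Multiplicative.ofAdd (1 : ℤ)) ^ (Multiplicative.toAdd x) = x
    rw [← ofAdd_zsmul]
    simp
  exact Infinite.of_surjective g hg

end Pool.Agent.PLS.ExI
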