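import Mathlib
import Pool.Agent.Lib.PLS.Defs
import Pool.Agent.Lib.UP25.Cls

/-!
# T4: the tree of an HNN extension with virtually cyclic associated subgroups
-/

set_option autoImplicit false

open Pool.Agent.UP Pool.Agent.UPV Pool.Agent.UP25
open SimpleGraph HNNExtension

namespace Pool.Agent.PLS

universe u

namespace ExT

section
variable {G : Type u} [Group G] {A B : Subgroup G} {φ : A ≃* B}

/-- The vertices: the cosets of the base group. -/
abbrev HV (φ : A ≃* B) : Type u :=
  HNNExtension G A B φ ⧸ (HNNExtension.of : G →* HNNExtension G A B φ).range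

/-- the coset of an element -/
def vx (g : HNNExtension G A B φ) : HV φ := QuotientGroup.mk g

theorem vx_eq {g h : HNNExtension G A B φ} : vx g = vx h ↔ ∃ b : G, h = g * of b := by
  rw [vx, vx, QuotientGroup.eq]
  constructor
  · rintro ⟨b, hb⟩
    exact ⟨b, by rw [hb, mul_inv_cancel_left]⟩
  · rintro ⟨b, rfl⟩
    exact ⟨b, by rw [inv_mul_cancel_left]⟩

theorem vx_mul_of (g : HNNExtension G A B φ) (b : G) : vx (g * of b) = vx g :=
  (vx_eq.2 ⟨b, rfl⟩).symm

/-- the exponent of the stable letter -/
def expo : HNNExtension G A B φ →* Multiplicative ℤ :=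
  HNNExtension.lift 1 (Multiplicative.ofAdd 1) (by intro a; simp)

theorem expo_of (b : G) : expo (φ := φ) (of b) = 1 := by
  rw [expo, HNNExtension.lift_of]
  rfl

theorem expo_t : expo (φ := φ) t = Multiplicative.ofAdd 1 := by
  rw [expo, HNNExtension.lift_t]

/-- the tree -/
def hT (φ : A ≃* B) : SimpleGraph (HV φ) where
  Adj u v := ∃ (g : HNNExtension G A B φ) (e : ℤˣ), u = vx g ∧ v = vx (g * t ^ (e : ℤ))
  symm := ⟨by
    rintro u v ⟨g, e, rfl, rfl⟩
    refine ⟨g * t ^ (e : ℤ), -e, rfl, ?_⟩
    rw [mul_assoc, ← zpow_add, Units.val_neg, add_neg_cancel, zpow_zero, mul_one]⟩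
  loopless := ⟨by
    rintro u ⟨g, e, rfl, h⟩
    obtain ⟨b, hb⟩ := vx_eq.1 h
    have h1 : t ^ (e : ℤ) = (of b : HNNExtension G A B φ) := mul_left_cancel hb
    have h2 := congrArg (expo (φ := φ)) h1
    rw [map_zpow, expo_of, expo_t] at h2
    have h3 := congrArg Multiplicative.toAdd h2
    rw [toAdd_zpow, toAdd_one, toAdd_ofAdd, smul_eq_mul, mul_one] at h3
    exact e.ne_zero h3⟩

theorem hT_adj_t (g : HNNExtension G A B φ) (e : ℤˣ) :
    (hT φ).Adj (vx g) (vx (g * t ^ (e : ℤ))) := ⟨g, e, rfl, rfl⟩

theorem hT_smul (x : HNNExtension G A B φ) {u v : HV φ} (h : (hT φ).Adj u v) :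
    (hT φ).Adj (x • u) (x • v) := by
  obtain ⟨g, e, rfl, rfl⟩ := h
  exact ⟨x * g, e, rfl, by rw [mul_assoc]; rfl⟩

theorem hT_connected : (hT φ).Connected := by
  have key : ∀ s a : HNNExtension G A B φ, (hT φ).Reachable (vx a) (vx (a * s)) := by
    intro s
    induction s using HNNExtension.induction_on with
    | of b =>
      intro a
      rw [vx_mul_of]
    | t =>
      intro a
      have h := hT_adj_t (φ := φ) a 1
      rw [Units.val_one, zpow_one] at h
      exact h.reachable
    | mul x y hx hy =>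
      intro a
      rw [← mul_assoc]
      exact (hx a).trans (hy _)
    | inv x hx =>
      intro a
      have h := (hx (a * x⁻¹)).symm
      rw [inv_mul_cancel_right] at h
      exact h
  refine { preconnected := fun u v => ?_, nonempty := ⟨vx 1⟩ }
  obtain ⟨a, rfl⟩ := QuotientGroup.mk_surjective u
  obtain ⟨b, rfl⟩ := QuotientGroup.mk_surjective v
  have h := key (a⁻¹ * b) a
  rw [mul_inv_cancel_left] at h
  exact h

/-- the product of a list of syllables -/
def lprod (φ : A ≃* B) (L : List (ℤˣ × G)) : HNNExtension G A B φ :=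
  (L.map fun x => t ^ (x.1 : ℤ) * of x.2).prod

/-- a chain without reductions -/
def Red (A B : Subgroup G) (L : List (ℤˣ × G)) : Prop :=
  L.IsChain fun a b => a.2 ∈ toSubgroup A B a.1 → a.1 = b.1

theorem back (g : HNNExtension G A B φ) {u : ℤˣ} {b : G} (hb : b ∈ toSubgroup A B u) :
    vx (g * of b * t ^ (-(u : ℤ))) = vx (g * t ^ (-(u : ℤ))) := by
  rcases Int.units_eq_one_or u with rfl | rfl
  · have h := HNNExtension.of_mul_inv_t (φ := φ) ⟨b, hb⟩
    have h1 : g * of b * t ^ (-((1 : ℤˣ) : ℤ)) = g * t ^ (-((1 : ℤˣ) : ℤ)) *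
        of (φ ⟨b, hb⟩ : G) := by
      rw [Units.val_one, zpow_neg, zpow_one, mul_assoc, h, mul_assoc]
    rw [h1, vx_mul_of]
  · have h := HNNExtension.of_mul_t (φ := φ) ⟨b, hb⟩
    have h1 : g * of b * t ^ (-((-1 : ℤˣ) : ℤ)) = g * t ^ (-((-1 : ℤˣ) : ℤ)) *
        of (φ.symm ⟨b, hb⟩ : G) := by
      rw [Units.val_neg, Units.val_one, neg_neg, zpow_one, mul_assoc, h, mul_assoc]
    rw [h1, vx_mul_of]

theorem exists_step {g : HNNExtension G A B φ} {v : HV φ} (h : (hT φ).Adj (vx g) v) :
    ∃ (b : G) (e : ℤˣ), v = vx (g * of b * t ^ (e : ℤ)) := by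
  obtain ⟨g', e, h1, rfl⟩ := h
  obtain ⟨b, rfl⟩ := vx_eq.1 h1
  exact ⟨b, e, rfl⟩

theorem exists_word : ∀ {x y : HV φ} (p : (hT φ).Walk x y), p.IsPath →
    ∀ (g : HNNExtension G A B φ) (u : ℤˣ), x = vx g →
      (0 < p.length → p.snd ≠ vx (g * t ^ (-(u : ℤ)))) →
      ∃ (b : G) (L : List (ℤˣ × G)), L.length = p.length ∧ Red A B ((u, b) :: L) ∧
        y = vx (g * of b * lprod φ L) := by
  intro x y p
  induction p with
  | nil =>
    intro _ g u hx _
    exact ⟨1, [], rfl, List.isChain_singleton _, by simp [lprod, hx]⟩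
  | @cons x x' y h p ih =>
    intro hp g u hx ha
    subst hx
    have ha' := ha (by simp)
    rw [Walk.snd_cons] at ha'
    rw [Walk.cons_isPath_iff] at hp
    obtain ⟨b, e, hb⟩ := exists_step h
    obtain ⟨b', L, h1, h2, h3⟩ := ih hp.1 (g * of b * t ^ (e : ℤ)) e hb (by
      intro h0 hs
      apply hp.2
      have h7 : g * of b * t ^ (e : ℤ) * t ^ (-(e : ℤ)) = g * of b := by
        rw [mul_assoc, ← zpow_add, add_neg_cancel, zpow_zero, mul_one]
      rw [h7, vx_mul_of] at hs
      rw [← hs]
      exact Walk.getVert_mem_support _ 1)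
    refine ⟨b, (e, b') :: L, by rw [List.length_cons, h1, Walk.length_cons], ?_, ?_⟩
    · rw [Red, List.isChain_cons_cons]
      refine ⟨fun h4 => ?_, h2⟩
      by_contra h5
      apply ha'
      have h6 : (e : ℤ) = -(u : ℤ) := by
        rcases Int.units_eq_one_or u with hu | hu <;> rcases Int.units_eq_one_or e with he | he
        · exact absurd (hu.trans he.symm) h5
        · rw [hu, he]; simp
        · rw [hu, he]; simp
        · exact absurd (hu.trans he.symm) h5
      rw [hb, h6]
      exact back g h4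
    · rw [h3]
      congr 1
      simp only [lprod, List.map_cons, List.prod_cons, mul_assoc]

theorem hT_isAcyclic : (hT φ).IsAcyclic := by
  intro v c hc
  cases c with
  | nil => exact hc.ne_nil rfl
  | @cons _ x _ hadj p =>
    have hp : p.IsPath := ((Walk.cons_isCycle_iff p hadj).1 hc).1
    have h3 := hc.three_le_length
    rw [Walk.length_cons] at h3
    obtain ⟨g, rfl⟩ : ∃ g, vx g = v := QuotientGroup.mk_surjective v
    obtain ⟨b, e, hb⟩ := exists_step hadj
    obtain ⟨b', L, h1, h2, h4⟩ := exists_word p hp (g * of b * t ^ (e : ℤ)) e hb (by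
      intro _ hs
      have h7 : g * of b * t ^ (e : ℤ) * t ^ (-(e : ℤ)) = g * of b := by
        rw [mul_assoc, ← zpow_add, add_neg_cancel, zpow_zero, mul_one]
      rw [h7, vx_mul_of] at hs
      have h1 : p.getVert 1 = p.getVert p.length := by
        rw [Walk.getVert_length]
        exact hs
      have := hp.getVert_injOn (by simp; omega) (by simp) h1
      omega)
    obtain ⟨a, ha⟩ := vx_eq.1 h4
    let w : NormalWord.ReducedWord G A B := ⟨b, (e, b') :: L, h2⟩
    have hw : w.prod φ = of a := by
      have h5 : w.prod φ = g⁻¹ * (g * of b * t ^ (e : ℤ) * of b' * lprod φ L) := by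
        simp only [w, NormalWord.ReducedWord.prod, List.map_cons, List.prod_cons, lprod,
          mul_assoc, inv_mul_cancel_left]
      rw [h5, ha, inv_mul_cancel_left]
    have h6 := ReducedWord.toList_eq_nil_of_mem_of_range (φ := φ) w (by rw [hw]; exact ⟨a, rfl⟩)
    exact List.cons_ne_nil _ _ h6

theorem hT_isTree : (hT φ).IsTree := ⟨hT_connected, hT_isAcyclic⟩

theorem stab_vx {g x : HNNExtension G A B φ} :
    x • (vx g : HV φ) = vx g ↔ ∃ b : G, x = g * of b * g⁻¹ := by
  have h1 : x • (vx g : HV φ) = vx (x * g) := rfl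
  rw [h1, eq_comm, vx_eq]
  constructor
  · rintro ⟨b, hb⟩
    exact ⟨b, by rw [← hb, mul_inv_cancel_right]⟩
  · rintro ⟨b, rfl⟩
    exact ⟨b, by rw [inv_mul_cancel_right]⟩

/-- Britton's lemma for a conjugate of an element of the base group. -/
theorem mem_of_conj {e : ℤˣ} {c d : G}
    (h : t ^ (e : ℤ) * of c * t ^ (-(e : ℤ)) = (of d : HNNExtension G A B φ)) :
    c ∈ toSubgroup A B e := by
  by_contra hc
  let w : NormalWord.ReducedWord G A B := ⟨1, [(e, c), (-e, 1)], by
    rw [List.isChain_cons_cons]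
    exact ⟨fun h0 => absurd h0 hc, List.isChain_singleton _⟩⟩
  have hw : w.prod φ = of d := by
    rw [← h]
    simp only [w, NormalWord.ReducedWord.prod, List.map_cons, List.prod_cons, List.map_nil,
      List.prod_nil, map_one, one_mul, mul_one, Units.val_neg]
  have h6 := ReducedWord.toList_eq_nil_of_mem_of_range (φ := φ) w (by rw [hw]; exact ⟨d, rfl⟩)
  exact List.cons_ne_nil _ _ h6

/-- the orientation of the tree -/
def orT (φ : A ≃* B) : Orient (hT φ) where
  P u v := ∃ g : HNNExtension G A B φ, u = vx g ∧ v = vx (g * t)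
  tot := by
    rintro u v ⟨g, e, rfl, rfl⟩
    rcases Int.units_eq_one_or e with rfl | rfl
    · exact Or.inl ⟨g, rfl, by rw [Units.val_one, zpow_one]⟩
    · refine Or.inr ⟨g * t ^ ((-1 : ℤˣ) : ℤ), rfl, ?_⟩
      rw [Units.val_neg, Units.val_one, zpow_neg, zpow_one, inv_mul_cancel_right]
  asym := by
    rintro u v - ⟨g, rfl, rfl⟩ ⟨g', h1, h2⟩
    obtain ⟨b, rfl⟩ := vx_eq.1 h1
    obtain ⟨c, h3⟩ := vx_eq.1 h2
    have h4 := congrArg (fun z => Multiplicative.toAdd (expo (φ := φ) z)) h3
    simp only [map_mul, expo_of, expo_t, toAdd_mul, toAdd_ofAdd, mul_one] at h4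
    omega

/-- subgroups whose elements are conjugates of elements of `S` embed in `S` -/
theorem exists_emb {H : Type u} [Group H] (e : H ≃* HNNExtension G A B φ) (K : Subgroup H)
    (S : Subgroup G) (z : HNNExtension G A B φ) (h : ∀ k ∈ K, ∃ d ∈ S, e k = z * of d * z⁻¹) :
    ∃ f : K →* S, Function.Injective f := by
  let c : K →* HNNExtension G A B φ :=
    (MulAut.conj z⁻¹).toMonoidHom.comp (e.toMonoidHom.comp K.subtype)
  have hc : ∀ k : K, c k ∈ S.map (of : G →* HNNExtension G A B φ) := by
    intro k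
    obtain ⟨d, hd, h1⟩ := h k.1 k.2
    refine ⟨d, hd, ?_⟩
    change of d = z⁻¹ * e k.1 * (z⁻¹)⁻¹
    rw [h1]
    group
  let c' : K →* S.map (of : G →* HNNExtension G A B φ) := c.codRestrict _ hc
  refine ⟨(S.equivMapOfInjective of (of_injective φ)).symm.toMonoidHom.comp c', ?_⟩
  intro a b hab
  have h1 : c' a = c' b := (S.equivMapOfInjective of (of_injective φ)).symm.injective hab
  have h2 : c a = c b := congrArg Subtype.val h1
  have h3 : e a.1 = e b.1 := (MulAut.conj z⁻¹).injective h2
  exact Subtype.ext (e.injective h3)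

end

/-- **EX-T** -/
theorem exT {G H : Type u} [Group G] [Group H] {A B : Subgroup G} (φ : A ≃* B)
    (hfg : Group.FG G) {d : ℕ} (hG : VTd d G) (hA : VPZ d A) (e : H ≃* HNNExtension G A B φ) :
    ∃ (X : Type u) (_ : MulAction H X) (T : WAct H X),
      Finite (MulAction.orbitRel.Quotient H T.E) ∧
      (∀ e : T.E, VPZ d (MulAction.stabilizer H e)) ∧
      ∀ x : X, Group.FG (MulAction.stabilizer H x) ∧ VTd d (MulAction.stabilizer H x) := by
  let act : MulAction H (HV φ) := MulAction.compHom _ e.toMonoidHom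
  have hact : ∀ (h : H) (g : HNNExtension G A B φ), h • (vx g : HV φ) = vx (e h * g) :=
    fun h g => rfl
  have hact' : ∀ (h : H) (x : HV φ), h • x = (e h) • x := fun h g => rfl
  obtain ⟨T, hTP⟩ : ∃ T : WAct H (HV φ), ∀ u v : HV φ, T.or.P u v →
      ∃ g : HNNExtension G A B φ, u = vx g ∧ v = vx (g * t) := ⟨
    { Γ := hT φ
      tree := hT_isTree
      adj := fun h x y hxy => hT_smul (e h) hxy
      or := orT φ
      orP := by
        rintro h x y ⟨g, rfl, rfl⟩
        refine ⟨e h * g, rfl, ?_⟩
        rw [hact, mul_assoc]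
      finV := by
        have h1 : Subsingleton (MulAction.orbitRel.Quotient H (HV φ)) := by
          refine ⟨fun a b => ?_⟩
          induction a using Quotient.inductionOn with
          | h a =>
            induction b using Quotient.inductionOn with
            | h b =>
              obtain ⟨x, rfl⟩ := QuotientGroup.mk_surjective a
              obtain ⟨y, rfl⟩ := QuotientGroup.mk_surjective b
              refine Quotient.sound ⟨e.symm (x * y⁻¹), ?_⟩
              change vx (e (e.symm (x * y⁻¹)) * y) = vx x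
              rw [e.apply_symm_apply, inv_mul_cancel_right]
        infer_instance }, fun _ _ h => h⟩
  refine ⟨HV φ, act, T, ?_, ?_, ?_⟩
  · have h1 : Subsingleton (MulAction.orbitRel.Quotient H T.E) := by
      refine ⟨fun a b => ?_⟩
      induction a using Quotient.inductionOn with
      | h a =>
        induction b using Quotient.inductionOn with
        | h b =>
          obtain ⟨⟨x, y⟩, h1, hP⟩ := a
          obtain ⟨⟨x', y'⟩, h1', hP'⟩ := b
          obtain ⟨g, h2, h3⟩ := hTP _ _ hP
          obtain ⟨g', h2', h3'⟩ := hTP _ _ hP'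
          refine Quotient.sound ⟨e.symm (g * g'⁻¹), ?_⟩
          refine Subtype.ext (Prod.ext ?_ ?_)
          · change e.symm (g * g'⁻¹) • x' = x
            replace h2' : x' = vx g' := h2'
            replace h2 : x = vx g := h2
            rw [h2', h2, hact, e.apply_symm_apply, inv_mul_cancel_right]
          · change e.symm (g * g'⁻¹) • y' = y
            replace h3' : y' = vx (g' * t) := h3'
            replace h3 : y = vx (g * t) := h3
            rw [h3', h3, hact, e.apply_symm_apply, ← mul_assoc, inv_mul_cancel_right]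
    infer_instance
  · intro ε
    obtain ⟨g, h2, h3⟩ := hTP _ _ ε.2.2
    replace h2 : ε.1.1 = vx g := h2
    replace h3 : ε.1.2 = vx (g * t) := h3
    obtain ⟨f, hf⟩ := exists_emb e (MulAction.stabilizer H ε) A
      (g * t) (by
        intro k hk
        have h4 : k • ε.1.1 = ε.1.1 := congrArg (fun z : T.E => z.1.1) hk
        have h5 : k • ε.1.2 = ε.1.2 := congrArg (fun z : T.E => z.1.2) hk
        rw [hact', h2, stab_vx] at h4
        rw [hact', h3, stab_vx] at h5
        obtain ⟨c, hc⟩ := h4
        obtain ⟨d, hd⟩ := h5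
        refine ⟨d, ?_, hd⟩
        have h6 : t ^ ((1 : ℤˣ) : ℤ) * of d * t ^ (-((1 : ℤˣ) : ℤ)) =
            (of c : HNNExtension G A B φ) := by
          rw [Units.val_one, zpow_neg, zpow_one]
          have h7 : g * t * of d * (g * t)⁻¹ = g * of c * g⁻¹ := by rw [← hd, hc]
          have h8 : g * (t * of d * t⁻¹) * g⁻¹ = g * of c * g⁻¹ := by
            rw [← h7, mul_inv_rev]
            simp only [mul_assoc]
          exact mul_left_cancel (mul_right_cancel h8)
        exact mem_of_conj h6)
    exact hA.of_injective f hf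
  · intro x
    obtain ⟨g, rfl⟩ : ∃ g, vx g = x := QuotientGroup.mk_surjective x
    constructor
    · let f : G →* MulAction.stabilizer H (vx g : HV φ) :=
        (e.symm.toMonoidHom.comp ((MulAut.conj g).toMonoidHom.comp of)).codRestrict _ (by
          intro b
          rw [MulAction.mem_stabilizer_iff, hact']
          change e (e.symm (g * of b * g⁻¹)) • (vx g : HV φ) = vx g
          rw [e.apply_symm_apply, stab_vx]
          exact ⟨b, rfl⟩)
      refine Group.fg_of_surjective (f := f) ?_
      rintro ⟨h, hh⟩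
      rw [MulAction.mem_stabilizer_iff, hact', stab_vx] at hh
      obtain ⟨b, hb⟩ := hh
      refine ⟨b, Subtype.ext ?_⟩
      change e.symm (g * of b * g⁻¹) = h
      rw [← hb, e.symm_apply_apply]
    · obtain ⟨f, hf⟩ := exists_emb e (MulAction.stabilizer H (vx g : HV φ)) ⊤ g (by
        intro k hk
        rw [MulAction.mem_stabilizer_iff, hact', stab_vx] at hk
        obtain ⟨b, hb⟩ := hk
        exact ⟨b, Subgroup.mem_top _, hb⟩)
      exact hG.of_injective ((⊤ : Subgroup G).subtype.comp f)
        ((Subgroup.subtype_injective _).comp hf)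

end ExT

end Pool.Agent.PLS
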