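import Mathlib
import Pool.Agent.Lib.PLS.ExG
import Pool.Agent.Lib.PLS.ExT
import Pool.Agent.Lib.PLS.ExF

/-!
# T4, row EX (helper45): the fundamental groups of the closed surfaces are in the class `Surf 1`
-/

set_option autoImplicit false

open Pool.Agent.UP Pool.Agent.UPV Pool.Agent.UP25
open scoped commutatorElement

namespace Pool.Agent.PLS

universe u

theorem sw_ne (g k : ℕ) : FreeGroup.map some (sw.{u} g k) *
    FreeGroup.of (none : Option (SY.{u} g k)) ≠ 1 := by
  intro h
  let f : Option (SY.{u} g k) → Multiplicative ℤ :=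
    fun z => Option.elim z (Multiplicative.ofAdd 1) fun _ => 1
  have h1 := congrArg (FreeGroup.lift f) h
  have h2 : FreeGroup.lift f (FreeGroup.map some (sw.{u} g k)) = 1 := by
    have h3 : (FreeGroup.lift f).comp (FreeGroup.map some) = (1 : FreeGroup (SY.{u} g k) →* _) := by
      refine FreeGroup.ext_hom _ _ fun x => ?_
      change FreeGroup.lift f (FreeGroup.of (some x)) = 1
      rw [FreeGroup.lift_apply_of]
      rfl
    exact DFunLike.congr_fun h3 _
  rw [map_mul, h2, one_mul, FreeGroup.lift_apply_of, map_one] at h1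
  have h3 : (1 : ℤ) = 0 := congrArg Multiplicative.toAdd h1
  exact one_ne_zero h3

/-- **the fundamental group of the closed surface with `g + 1` handles and `k` crosscaps** is in the
class `Surf 1` -/
theorem surf_surfGp (g k : ℕ) : Surf 1 (SurfGp.{u} g k) := by
  refine ⟨ExF.infinite_gp (none : Option (SY.{u} g k)) (FreeGroup.map some (sw.{u} g k)),
    exists_plane_surfGp g k, ?_⟩
  obtain ⟨φ, ⟨e⟩⟩ := ExF.exI (none : Option (SY.{u} g k)) (FreeGroup.map some (sw.{u} g k))
    (sw_ne g k)
  exact ExT.exT φ inferInstance (ExF.vtd_free _) (ExF.exI_vpz _) e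

/-- subgroups of surface groups -/
theorem psd_surfGp {g k : ℕ} {H : Type u} [Group H] (φ : H →* SurfGp.{u} g k)
    (hφ : Function.Injective φ) : PSd 1 H :=
  ⟨_, inferInstance, φ, hφ, surf_surfGp g k⟩

end Pool.Agent.PLS
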