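import Mathlib
import Pool.Agent.Lib.PLS.Rows
import Pool.Agent.Lib.UP25.ClassT
import Pool.Agent.Lib.UPV.V5
import Pool.Agent.Lib.UPV.V7

/-!
# T4, row F: the facts for the class `PSd d`
-/

set_option autoImplicit false
set_option linter.unusedSectionVars false
set_option linter.unusedVariables false

open MonoidAlgebra Pool.Agent.UP Pool.Agent.UPV Pool.Agent.UP25

namespace Pool.Agent.PLS

universe u

attribute [local instance] starMA

/-- the group rings of the stabilisers of the edges are Noetherian -/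
theorem noeth_edge {A : Type u} [CommRing A] [StarRing A] [IsNoetherianRing A] (hA : AR A) {g : ℕ}
    (hg : FL A g) {d : ℕ} {H : Type u} [Group H] {X : Type u} [MulAction H X] (T : WAct H X)
    (hE : ∀ e : T.E, VPZ d (MulAction.stabilizer H e))
    (hV : ∀ x : X, Group.FG (MulAction.stabilizer H x) ∧ VTd d (MulAction.stabilizer H x))
    (e : T.E) : IsNoetherianRing A[MulAction.stabilizer H e] := by
  refine (VPZ.nar hA hg (d := d) ?_ (hE e)).noetherian
  intro h hh
  have h1 : h.1 ∈ MulAction.stabilizer H e.1.1 := by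
    rw [MulAction.mem_stabilizer_iff]
    exact congrArg (fun f : T.E => f.1.1) (MulAction.mem_stabilizer_iff.1 h.2)
  have h3 : IsOfFinOrder h.1 := (MulAction.stabilizer H e).subtype.isOfFinOrder hh
  have h4 : IsOfFinOrder (⟨h.1, h1⟩ : MulAction.stabilizer H e.1.1) :=
    (MulAction.stabilizer H e.1.1).subtype_injective.isOfFinOrder_iff.1 h3
  have h2 := (hV e.1.1).2.1 ⟨h.1, h1⟩ h4
  exact Subtype.ext (congrArg (fun y : MulAction.stabilizer H e.1.1 => (y : H)) h2)

/-- **the facts for the groups `Surf d`**: coherence, `AR1` and finite global dimension -/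
theorem surf_facts {A : Type u} [CommRing A] [StarRing A]
    (hAR : ∀ (H : Type u) [Group H], RowAR A H) (hG : ∀ (H : Type u) [Group H], RowG A H)
    (hW : ∀ (H : Type u) [Group H], RowW A H) (hN : IsNoetherianRing A) (hA : AR A) {g : ℕ}
    (hg : FL A g) {d : ℕ} {H : Type u} [Group H] (hH : Surf d H) :
    CohT A[H] ∧ AR1 A[H] ∧ GD A[H] (g + 3) := by
  obtain ⟨hinf, ⟨V, E, F, i1, i2, i3, ⟨P⟩⟩, X, i4, T, hE, hedge, hvert⟩ := hH
  have hc : CohT A[H] := hW H X T hE (noeth_edge hA hg T hedge hvert) fun x =>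
    ((hvert x).2.facts hA hg (hvert x).1).coh
  exact ⟨hc, hAR H hN hA hc hinf V E F P, hG H (g + 1) (gd_of_fl hg) hinf V E F P⟩

/-- the version with the bound `g + d + 3` -/
theorem surf_facts' {A : Type u} [CommRing A] [StarRing A]
    (hAR : ∀ (H : Type u) [Group H], RowAR A H) (hG : ∀ (H : Type u) [Group H], RowG A H)
    (hW : ∀ (H : Type u) [Group H], RowW A H) (hN : IsNoetherianRing A) (hA : AR A) {g : ℕ}
    (hg : FL A g) {d : ℕ} {H : Type u} [Group H] (hH : Surf d H) :
    CohT A[H] ∧ AR1 A[H] ∧ GD A[H] (g + d + 3) := by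
  obtain ⟨h1, h2, h3⟩ := surf_facts hAR hG hW hN hA hg hH
  exact ⟨h1, h2, V5_mono h3 (by omega)⟩

/-- **row F** -/
theorem rowF {A : Type u} [CommRing A] [StarRing A]
    (hAR : ∀ (H : Type u) [Group H], RowAR A H) (hG : ∀ (H : Type u) [Group H], RowG A H)
    (hW : ∀ (H : Type u) [Group H], RowW A H)
    (hSC : ∀ (H K : Type u) [Group H] [Group K], RowSC A H K)
    (hSF : ∀ (H K : Type u) [Group H] [Group K], RowSF A H K)
    (hSA : ∀ (H K : Type u) [Group H] [Group K], RowSA A H K) : RowF A := by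
  intro hN hA g hg d H _ hH
  obtain ⟨H₀, _, φ, hφ, hS⟩ := hH
  obtain ⟨h1, h2, h3⟩ := surf_facts' hAR hG hW hN hA hg hS
  have h4 : CohT A[H] := hSC H₀ H φ hφ h1
  have h5 : FL A[H] (g + d + 3) := hSF H₀ H φ hφ _ (fl_of_gd h3)
  have h6 : AR1 A[H] := hSA H₀ H φ hφ h1 h2
  exact facts4_of_ar1 h4 h6 h5

end Pool.Agent.PLS
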