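import Mathlib
import Pool.Agent.Lib.UP.Defs4
import Pool.Agent.Lib.UP.U3b
import Pool.Agent.Lib.UP.U4b
import Pool.Agent.Lib.UP.F5b
import Pool.Agent.Lib.UP.TrBr

/-!
# T4, row F2 (helper45): coherence and `AR1` only depend on the ring up to isomorphism
-/

set_option autoImplicit false
set_option linter.unusedSectionVars false

open MonoidAlgebra Pool.Agent.UP

namespace Pool.Agent.PLS

universe u v

section
variable {R : Type u} {R' : Type v} [Ring R] [Ring R']

theorem mul_map (e : R ≃+* R') {a b c : Type} [Fintype b] (M : Matrix a b R) (N : Matrix b c R) :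
    (M * N).map (e : R →+* R') = M.map (e : R →+* R') * N.map (e : R →+* R') :=
  Matrix.map_mul

theorem map_map_symm (e : R ≃+* R') {a b : Type} (M : Matrix a b R') :
    (M.map (e.symm : R' →+* R)).map (e : R →+* R') = M := by
  ext i j
  exact e.apply_symm_apply (M i j)

theorem CohT.equiv (e : R ≃+* R') (h : CohT R) : CohT R' := by
  intro J K _ _ D
  obtain ⟨c, ζ, h1, h2⟩ := h J K (D.map (e.symm : R' →+* R))
  refine ⟨c, ζ.map (e : R →+* R'), ?_, ?_⟩
  · have h3 := mul_map e ζ (D.map (e.symm : R' →+* R))
    rw [h1, map_map_symm] at h3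
    rw [← h3]
    exact Matrix.map_zero _ (map_zero _)
  · intro x hx
    have h4 : x.map (e.symm : R' →+* R) * D.map (e.symm : R' →+* R) = 0 := by
      rw [← mul_map e.symm, hx]
      exact Matrix.map_zero _ (map_zero _)
    obtain ⟨κ, hκ⟩ := h2 _ h4
    refine ⟨κ.map (e : R →+* R'), ?_⟩
    rw [← mul_map e, ← hκ, map_map_symm]

/-- semilinear isomorphisms preserve the vanishing of `Ext`, for finitely presented modules over
coherent rings -/
theorem GE.twist_coh (hc : CohT R) {p : ℕ}
    {M : Type u} {M' : Type v} [AddCommGroup M] [Module R M] [AddCommGroup M'] [Module R' M']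
    [Module.FinitePresentation R M] (σ : R ≃+* R') (φ : M ≃+ M')
    (hφ : ∀ (r : R) (x : M), φ (r • x) = σ r • φ x) (h : GE R p M) : GE R' p M' := by
  obtain ⟨T, ⟨r⟩⟩ := exists_res_coh hc M
  obtain ⟨r'⟩ := exists_twist r σ φ hφ
  rw [ge_iff r']
  rw [ge_iff r] at h
  exact fun l hl => U3b_coex σ T (h l hl)

/-- the same for `Loc` -/
theorem Loc.twist_coh (hc : CohT R) {p : ℕ}
    {M : Type u} {M' : Type v} [AddCommGroup M] [Module R M] [AddCommGroup M'] [Module R' M']
    [Module.FinitePresentation R M] (σ : R' ≃+* R) (φ : M' →+ M) (hs : Function.Injective φ)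
    (hφ : ∀ (r : R') (x : M'), φ (r • x) = σ r • φ x) (h : Loc R p M) : Loc R' p M' := by
  intro N' hN'
  let N : Submodule R M :=
    { carrier := {x | ∃ y ∈ N', φ y = x}
      add_mem' := by
        rintro _ _ ⟨a, ha, rfl⟩ ⟨b, hb, rfl⟩
        exact ⟨a + b, N'.add_mem ha hb, map_add _ _ _⟩
      zero_mem' := ⟨0, N'.zero_mem, map_zero _⟩
      smul_mem' := by
        rintro c _ ⟨a, ha, rfl⟩
        exact ⟨σ.symm c • a, N'.smul_mem _ ha, by rw [hφ, RingEquiv.apply_symm_apply]⟩ }
  have hN : N.FG := by
    obtain ⟨s, hs'⟩ := hN'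
    classical
    refine ⟨s.image φ, le_antisymm ?_ ?_⟩
    · rw [Submodule.span_le]
      intro x hx
      rw [Finset.coe_image] at hx
      obtain ⟨y, hy, rfl⟩ := hx
      exact ⟨y, by rw [← hs']; exact Submodule.subset_span hy, rfl⟩
    · rintro _ ⟨y, hy, rfl⟩
      rw [← hs'] at hy
      induction hy using Submodule.span_induction with
      | mem y hy =>
        exact Submodule.subset_span (by rw [Finset.coe_image]; exact ⟨y, hy, rfl⟩)
      | zero => rw [map_zero]; exact Submodule.zero_mem _
      | add a b _ _ ha hb => rw [map_add]; exact Submodule.add_mem _ ha hb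
      | smul c a _ ha => rw [hφ]; exact Submodule.smul_mem _ _ ha
  have : Module.FinitePresentation R N := fp_submodule hc N hN
  let f : N' →+ N :=
    { toFun := fun y => ⟨φ y, y.1, y.2, rfl⟩
      map_zero' := Subtype.ext (map_zero φ)
      map_add' := fun a b => Subtype.ext (map_add φ a.1 b.1) }
  have hf : Function.Bijective f := by
    constructor
    · intro a b hab
      exact Subtype.ext (hs (congrArg Subtype.val hab))
    · rintro ⟨_, y, hy, rfl⟩
      exact ⟨⟨y, hy⟩, rfl⟩
  let e : N' ≃+ N := AddEquiv.ofBijective f hf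
  refine GE.twist_coh hc (M := N) (M' := N') σ.symm e.symm ?_ (h N hN)
  intro r x
  apply e.injective
  rw [AddEquiv.apply_symm_apply]
  apply Subtype.ext
  change r • x.1 = φ (σ.symm r • (e.symm x).1)
  rw [hφ, RingEquiv.apply_symm_apply]
  congr 1
  change x.1 = (e (e.symm x)).1
  rw [AddEquiv.apply_symm_apply]

end

section
variable {R : Type u} {R' : Type v} [Ring R] [StarRing R] [Ring R'] [StarRing R']

/-- the isomorphism `r ↦ star (e (star r))` -/
def tauI (e : R ≃+* R') : R ≃+* R' where
  toFun r := star (e (star r))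
  invFun r := star (e.symm (star r))
  left_inv r := by simp
  right_inv r := by simp
  map_mul' r s := by simp
  map_add' r s := by simp

theorem tau_vecMul (e : R ≃+* R') {m n : Type} [Fintype m] [Fintype n]
    (D : Matrix m n R) (D' : Matrix m n R') (hD : ∀ i j, e (D i j) = D' i j) (x : n → R) :
    Matrix.vecMul (fun i => tauI e (x i)) D'.conjTranspose =
      fun j => tauI e (Matrix.vecMul x D.conjTranspose j) := by
  funext j
  change (∑ i, star (e (star (x i))) * star (D' j i)) =
    star (e (star (∑ i, x i * star (D j i))))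
  rw [star_sum, map_sum, star_sum]
  refine Finset.sum_congr rfl fun i _ => ?_
  rw [star_mul, star_star, map_mul, star_mul, hD]

/-- the twist of a complex -/
abbrev twT (e : R ≃+* R') (T : RC R') : RC R := T.map (e.symm : R' →+* R)

theorem twT_D (e : R ≃+* R') (T : RC R') (k : ℕ) (i : T.ι (k + 1)) (j : T.ι k) :
    e ((twT e T).D k i j) = T.D k i j := e.apply_symm_apply _

/-- the semilinear map on cocycles, backwards -/
def cyI (e : R ≃+* R') (T : RC R') (p : ℕ) :
    T.cy p →ₛₗ[((tauI e).symm : R' →+* R)] (twT e T).cy p where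
  toFun x := ⟨fun i => (tauI e).symm (x.1 i), by
    have h1 : Matrix.vecMul x.1 (T.D p).conjTranspose = 0 := x.2
    have h2 := tau_vecMul e ((twT e T).D p) (T.D p) (twT_D e T p)
      (fun i => (tauI e).symm (x.1 i))
    have h3 : (fun i => tauI e ((tauI e).symm (x.1 i))) = x.1 :=
      funext fun i => (tauI e).apply_symm_apply (x.1 i)
    have h4 : Matrix.vecMul (fun i => tauI e ((tauI e).symm (x.1 i)))
        (T.D p).conjTranspose = 0 :=
      (congrArg (fun v => Matrix.vecMul v (T.D p).conjTranspose) h3).trans h1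
    change Matrix.vecMul (fun i => (tauI e).symm (x.1 i)) ((twT e T).D p).conjTranspose = 0
    funext j
    apply (tauI e).injective
    exact ((congrFun h2 j).symm.trans (congrFun h4 j)).trans (map_zero (tauI e)).symm⟩
  map_add' x y := Subtype.ext (funext fun i => map_add (tauI e).symm (x.1 i) (y.1 i))
  map_smul' r x := Subtype.ext (funext fun i => map_mul (tauI e).symm r (x.1 i))

/-- the semilinear map on cohomology, backwards -/
def eI (e : R ≃+* R') (T : RC R') (p : ℕ) :
    T.E p →ₛₗ[((tauI e).symm : R' →+* R)] (twT e T).E p :=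
  Submodule.mapQ _ _ (cyI e T p) (by
    rintro ⟨x, hx⟩ hb
    change (fun i => (tauI e).symm (x i)) ∈ (twT e T).bd p
    replace hb : x ∈ T.bd p := hb
    cases p with
    | zero =>
      rw [show x = 0 from hb]
      have h0 : (fun i => (tauI e).symm ((0 : T.ι 0 → R') i)) = 0 := by
        funext i
        exact map_zero (tauI e).symm
      rw [h0]
      exact Submodule.zero_mem _
    | succ p =>
      obtain ⟨z, rfl⟩ := hb
      refine ⟨fun i => (tauI e).symm (z i), ?_⟩
      have h2 := tau_vecMul e ((twT e T).D p) (T.D p) (twT_D e T p)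
        (fun i => (tauI e).symm (z i))
      have h3 : (fun i => tauI e ((tauI e).symm (z i))) = z :=
        funext fun i => (tauI e).apply_symm_apply (z i)
      funext j
      apply (tauI e).injective
      refine (congrFun h2 j).symm.trans ?_
      refine (congrFun (congrArg (fun v => Matrix.vecMul v (T.D p).conjTranspose) h3) j).trans ?_
      exact ((tauI e).apply_symm_apply _).symm)

theorem eI_inj (e : R ≃+* R') (T : RC R') (p : ℕ) : Function.Injective (eI e T p) := by
  rw [injective_iff_map_eq_zero]
  intro x hx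
  obtain ⟨⟨y, hy⟩, rfl⟩ := Submodule.Quotient.mk_surjective _ x
  have h1 : (Submodule.Quotient.mk (cyI e T p ⟨y, hy⟩) : (twT e T).E p) = 0 := hx
  rw [Submodule.Quotient.mk_eq_zero] at h1 ⊢
  have h2 : (fun i => (tauI e).symm (y i)) ∈ (twT e T).bd p := h1
  change y ∈ T.bd p
  cases p with
  | zero =>
    have h3 : (fun i => (tauI e).symm (y i)) = 0 := h2
    have h4 : y = 0 := by
      funext i
      apply (tauI e).symm.injective
      exact (congrFun h3 i).trans (map_zero (tauI e).symm).symm
    rw [h4]
    exact Submodule.zero_mem _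
  | succ p =>
    obtain ⟨z, hz⟩ := h2
    refine ⟨fun i => tauI e (z i), ?_⟩
    have h3 := tau_vecMul e ((twT e T).D p) (T.D p) (twT_D e T p) z
    refine h3.trans ?_
    funext j
    have h4 : Matrix.vecMul z ((twT e T).D p).conjTranspose j = (tauI e).symm (y j) :=
      congrFun hz j
    rw [h4, RingEquiv.apply_symm_apply]

/-- **`AR1` only depends on the ring up to isomorphism** -/
theorem ar1_equiv (hc : CohT R) (e : R ≃+* R') (h : AR1 R) : AR1 R' := by
  intro T hT p
  have hT' : ∀ k, (twT e T).Ex k := fun k => U3_ex e.symm (hT k)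
  have h1 := h (twT e T) hT' p
  have := fp_E hc (twT e T) (p + 1)
  exact Loc.twist_coh hc (tauI e).symm (eI e T (p + 1)).toAddMonoidHom (eI_inj e T (p + 1))
    (fun r x => (eI e T (p + 1)).map_smulₛₗ r x) h1

end

end Pool.Agent.PLS
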