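import Mathlib
import Pool.Agent.Lib.PLS.Rows
import Pool.Agent.Lib.PLS.Iso
import Pool.Agent.Lib.UP25.Fun
import Pool.Agent.Lib.UP25.Cls
import Pool.Agent.Lib.UP.U13c

/-!
# T4, row F2 (helper45): groups which embed in (surface group) x (poly-`ℤ` abelian group)
-/

set_option autoImplicit false
set_option linter.unusedSectionVars false

open MonoidAlgebra Pool.Agent.UP Pool.Agent.UPV Pool.Agent.UP25

namespace Pool.Agent.PLS

universe u

attribute [local instance] starMA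

/-- `H` embeds in the product of a group `Surf d` and a commutative poly-`ℤ` group of
length `≤ d` -/
def PZd (d : ℕ) (H : Type u) [Group H] : Prop :=
  ∃ (H₀ : Type u) (_ : Group H₀) (N : Type u) (_ : CommGroup N) (φ : H →* H₀ × N),
    Function.Injective φ ∧ Surf d H₀ ∧ PolyZ d N

/-- `H` embeds in (surface group) x (abelian poly-`ℤ` group) -/
def IsPZ (H : Type u) [Group H] : Prop := ∃ d, PZd d H

theorem Surf.mono {d e : ℕ} (hde : d ≤ e) {H : Type u} [Group H] (h : Surf d H) : Surf e H := by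
  obtain ⟨h1, h2, X, i, T, h3, h4, h5⟩ := h
  refine ⟨h1, h2, X, i, T, h3, fun e => (h4 e).mono hde, fun x => ⟨(h5 x).1, ?_⟩⟩
  exact (h5 x).2.mono hde

theorem PZd.mono {d e : ℕ} (hde : d ≤ e) {H : Type u} [Group H] (h : PZd d H) : PZd e H := by
  obtain ⟨H₀, i, N, j, φ, h1, h2, h3⟩ := h
  exact ⟨H₀, i, N, j, φ, h1, h2.mono hde, h3.mono hde⟩

theorem PZd.of_injective {d : ℕ} {H K : Type u} [Group H] [Group K] (f : K →* H)
    (hf : Function.Injective f) (h : PZd d H) : PZd d K := by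
  obtain ⟨H₀, i, N, j, φ, h1, h2, h3⟩ := h
  exact ⟨H₀, i, N, j, φ.comp f, h1.comp hf, h2, h3⟩

/-- the class contains the subgroups of the groups `Surf d` -/
theorem PZd.of_ps {d : ℕ} {H : Type u} [Group H] (h : PSd d H) : PZd d H := by
  obtain ⟨H₀, i, φ, h1, h2⟩ := h
  refine ⟨H₀, i, PUnit.{u + 1}, inferInstance, φ.prod 1, fun a b hab => h1 ?_, h2, ?_⟩
  · exact congrArg Prod.fst hab
  · exact (polyZ_zero.2 inferInstance).mono (Nat.zero_le d)

/-- the facts for the groups `Surf d` -/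
def SurfFacts : Prop :=
  ∀ (B : Type u) [CommRing B] [StarRing B], IsNoetherianRing B → AR B → ∀ g, FL B g →
    ∀ (d : ℕ) (H₀ : Type u) [Group H₀], Surf d H₀ →
      CohT B[H₀] ∧ AR1 B[H₀] ∧ FL B[H₀] (g + d + 3)

/-- **the facts for the class `PZd`** -/
theorem PZd.facts (hS : SurfFacts.{u}) {A : Type u} [CommRing A] [StarRing A]
    (hSC : ∀ (H K : Type u) [Group H] [Group K], RowSC A H K)
    (hSF : ∀ (H K : Type u) [Group H] [Group K], RowSF A H K)
    (hSA : ∀ (H K : Type u) [Group H] [Group K], RowSA A H K)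
    (hn : IsNoetherianRing A) (hA : AR A) {g : ℕ} (hg : FL A g) {d : ℕ} {H : Type u} [Group H]
    (h : PZd d H) : Facts4 A[H] (g + d + d + 4) := by
  obtain ⟨H₀, i, N, j, φ, h1, h2, h3⟩ := h
  obtain ⟨b1, b2, b3⟩ := polyZ_facts hA hg d N h3
  obtain ⟨c1, c2, c3⟩ := hS A[N] b1 b2 (g + d) b3 d H₀ h2
  let e : A[N][H₀] ≃+* A[H₀ × N] := (MonoidAlgebra.curryRingEquiv (R := A)).symm
  have e1 : CohT A[H₀ × N] := CohT.equiv e c1
  have e2 : AR1 A[H₀ × N] := ar1_equiv c1 e c2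
  have e3 : FL A[H₀ × N] (g + d + d + 3) := FL.equiv e c3
  have f1 : CohT A[H] := hSC (H₀ × N) H φ h1 e1
  have f2 : AR1 A[H] := hSA (H₀ × N) H φ h1 e1 e2
  have f3 : FL A[H] (g + d + d + 3) := hSF (H₀ × N) H φ h1 _ e3
  exact facts4_of_ar1 f1 f2 f3

end Pool.Agent.PLS
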