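import Mathlib
import Pool.Agent.Lib.KN.Along
import Pool.Agent.Lib.KN.Laur
import Pool.Agent.Lib.UP25.ClassT
import Pool.Agent.Lib.UP.U13c

/-!
# T4, row FIN (helper21): the two obstructions live on lines, for an arbitrary class of groups

`C` is a class of groups which is closed under injective homomorphisms and for which the main
theorem (`MainC`) and the facts (`FactsC`) hold.
-/

set_option autoImplicit false
set_option linter.unusedSectionVars false
set_option linter.unusedVariables false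

open MonoidAlgebra
open Pool.Agent.Lib.MP_98022b_UN Pool.Agent.Lib.MP_98022b_UM Pool.Agent.UP Pool.Agent.UP25
open Pool.Agent.Lib.MP_98022b_UM.UF Pool.Agent.MIX Pool.Agent.KN

namespace Pool.Agent.PLS

universe u v w

/-- as `ObstructionsOnLines`, with the class `C` in the place of `IsVT` -/
def ObstructionsOnLinesC (C : ∀ (H : Type u) [Group H], Prop) (A : Type u) [CommRing A]
    [StarRing A] : Prop :=
  ∀ (G : Type u) [Group G] (V : Type w) [MulAction G V] (Γ : SimpleGraph V), Γ.IsTree →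
    (∀ (g : G) (x y : V), Γ.Adj x y → Γ.Adj (g • x) (g • y)) →
    ∀ p q : V, Γ.Adj p q → (∀ g : G, ¬ (g • p = q ∧ g • q = p)) →
    ((∀ (l : ℤ → V) (g : ℤ → G), ELine G Γ p q l g →
        Along p q g fun H => RegCoh (MonoidAlgebra A H)) → NilVanishes A G p q) ∧
    ((∀ g : G, g • p = p → g * g = 1 → g = 1) → (∀ g : G, g • q = q → g * g = 1 → g = 1) →
      (∀ (l : ℤ → V) (g : ℤ → G), ELine G Γ p q l g → Reversible G l →
        GoodRing A ∧ Along p q g fun H => C H) → UNilVanishes A G p q)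

/-- the main theorem for the class `C` -/
def MainC (C : ∀ (H : Type u) [Group H], Prop) (A : Type u) [CommRing A] [StarRing A] : Prop :=
  IsNoetherianRing A → AR A → ∀ g, FL A g → ∀ {Ω G : Type u} [Group G]
    {E : BSys Ω G} {χ : G →* ℤˣ} {ε : ℤ}, E.Geo → E.NoInv → (ε = 1 ∨ ε = -1) →
    (∀ ω, ∀ H : Subgroup G, H ≤ E.F ω → H.FG → C H) →
    ∀ X : BF E (Pool.Agent.Lib.MP_98022b_UN.barStr (A := A) χ) ε,
      X.SMetab

/-- the class `C` is closed under injective homomorphisms -/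
def InjC (C : ∀ (H : Type u) [Group H], Prop) : Prop :=
  ∀ (H K : Type u) [Group H] [Group K] (f : K →* H), Function.Injective f → C H → C K

/-- the facts for the finitely generated groups of the class `C` -/
def FactsC (C : ∀ (H : Type u) [Group H], Prop) : Prop :=
  ∀ (A : Type u) [CommRing A] [StarRing A], IsNoetherianRing A → AR A → ∀ g, FL A g →
    ∀ (H : Type u) [Group H], Group.FG H → C H → ∃ m, Facts4 A[H] m

section
variable {A : Type u} [CommRing A] [StarRing A] {G : Type u} [Group G]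

theorem of_mapC {C : ∀ (H : Type u) [Group H], Prop} (hC : InjC C) {G G' : Type u} [Group G]
    [Group G'] (f : G' →* G) (L : Subgroup G') (hinj : Set.InjOn f L) (h : C (L.map f)) : C L :=
  hC (L.map f) L (f.subgroupMap L) (fun x y hxy => by
    have := congrArg Subtype.val hxy
    exact Subtype.ext (hinj x.2 y.2 this)) h

/-- **UNil forms of an edge without elements of order two in the vertex groups are stably
hyperbolic if for every finitely generated subgroup `N` of the edge group and every reversible line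
with edges `a_k e`, `b_k e` some intersection of the conjugates `a_k N a_k⁻¹`, `b_k N b_k⁻¹` has
only finitely generated subgroups of the class `C`** -/
theorem unilC {C : ∀ (H : Type u) [Group H], Prop} (hC : InjC C) (hMain : MainC C A)
    {V : Type w} [MulAction G V] {Γ : SimpleGraph V} (hΓ : Γ.IsTree)
    (hadj : ∀ (g : G) (x y : V), Γ.Adj x y → Γ.Adj (g • x) (g • y)) {p q : V}
    (hpq : Γ.Adj p q) (hinv : ∀ g : G, ¬ (g • p = q ∧ g • q = p))
    (h2p : ∀ g : G, g • p = p → g * g = 1 → g = 1)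
    (h2q : ∀ g : G, g • q = q → g * g = 1 → g = 1)
    (hl : ∀ N : Subgroup G, N.FG → N ≤ MulAction.stabilizer G p ⊓ MulAction.stabilizer G q →
      ∀ (u v : ℕ → V) (a b : ℕ → G), ReversibleLine G Γ p q u v →
      (∀ k, s(u k, u (k + 1)) = s(a k • p, a k • q)) →
      (∀ k, s(v k, v (k + 1)) = s(b k • p, b k • q)) →
      GoodRing A ∧ ∃ k, 1 ≤ k ∧ ∀ H : Subgroup G, H.FG →
        (∀ j < k, ∀ h ∈ H, (a j)⁻¹ * h * a j ∈ N ∧ (b j)⁻¹ * h * b j ∈ N) → C H)
    {χ : G →* ℤˣ} {ε : ℤ} (hε : ε = 1 ∨ ε = -1) {n : Type} [Fintype n] [DecidableEq n]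
    (x : QForm A χ ε p q n) : StablyHyperbolic χ ε (induced x) := by
  refine stablyHyperbolic_of_wt h2p h2q hε x fun X => ?_
  by_contra hX
  obtain ⟨N, hN, hfg, M', hM', hMM⟩ := exists_liftBF (treeSys p q)
    (treeSys_geo hΓ hadj hpq hinv) χ X
  have hX' : ¬ WT (⟨X.K, X.t, M', hM'⟩ : BF (biSys (sepSys (subE (treeSys p q) N hN)))
      (barStr (A := A) (χ.comp (proj N))) ε) := by
    intro h
    refine hX (wt_of_map (π := proj N) (β' := barStr (A := A) (χ.comp (proj N)))
      (β := barStr (A := A) χ) (barw_proj χ N) ?_ X M' hM' hMM h)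
    rintro (_ | _) ω ω' g hg
    · obtain ⟨⟨n, hn, rfl⟩, h2⟩ := hg
      refine ⟨?_, h2⟩
      rw [proj_emb]
      exact hN hn
    · exact proj_letter hN hg
  have hm : ∀ (Θ : Type u) (E' : BSys Θ (Sep N)), E'.Geo → E'.NoInv →
      (∀ θ, GoodRing A ∧ ∀ L : Subgroup (Sep N), L ≤ E'.F θ → L.FG → C L) →
      ∀ Y : BF E' (barStr (A := A) (χ.comp (proj N))) ε, Y.SMetab := by
    intro Θ E hGeo hNo hV X
    by_cases h : IsEmpty X.K
    · exact smetab_empty X h
    · rw [not_isEmpty_iff] at h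
      obtain ⟨k⟩ := h
      have hgood := (hV (X.t k)).1
      obtain ⟨h1, g, h2⟩ := hgood.facts
      exact hMain hgood.noeth h1 g h2 hGeo hNo hε (fun ω H hH hfg => (hV ω).2 H hH hfg) X
  obtain ⟨u, v, a, b, h1, ha, hb, h2⟩ := line_of_notU hΓ hadj hpq hinv
    (biSys_noInv (tree_noInv h2p h2q)) hε N hN
    (fun K => GoodRing A ∧ ∀ L : Subgroup (Sep N), L ≤ K → L.FG → C L)
    (fun K => GoodRing A ∧ ∀ L : Subgroup G, L ≤ K → L.FG → C L)
    (fun H K h1 h2 => ⟨h2.1, fun L h3 h4 => h2.2 L (h3.trans h1) h4⟩)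
    (fun H K h1 h2 => ⟨h2.1, fun L h3 h4 => h2.2 L (h3.trans h1) h4⟩)
    (fun H h1 h2 => ⟨h2.1, fun L h3 h4 => of_mapC hC (proj N) L
      (h1.mono h3) (h2.2 _ (Subgroup.map_mono h3) (fg_map _ h4))⟩) hm _ hX'
  obtain ⟨h3, k, hk, h4⟩ := hl N hfg hN u v a b h1 ha hb
  refine h2 k hk ⟨h3, fun L h5 h6 => h4 L h6 fun j hj h hh => ?_⟩
  have h7 := h5 hh
  rw [Subgroup.mem_iInf] at h7
  obtain ⟨⟨x, hx, hx'⟩, ⟨y, hy, hy'⟩⟩ := h7 ⟨j, hj⟩
  constructor
  · rw [← hx']
    have : (a j)⁻¹ * ((MulAut.conj (a j)).toMonoidHom x) * a j = x := by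
      show (a j)⁻¹ * (a j * x * (a j)⁻¹) * a j = x
      group
    exact Set.mem_of_eq_of_mem this hx
  · rw [← hy']
    have : (b j)⁻¹ * ((MulAut.conj (b j)).toMonoidHom y) * b j = y := by
      show (b j)⁻¹ * (b j * y * (b j)⁻¹) * b j = y
      group
    exact Set.mem_of_eq_of_mem this hy

end

/-- the UNil obstruction in the form of the statement -/
theorem unilOnLinesC {C : ∀ (H : Type u) [Group H], Prop} {A : Type u} [CommRing A] [StarRing A]
    (hC : InjC C) (hMain : MainC C A) {G : Type u} [Group G] {V : Type w}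
    [MulAction G V] {Γ : SimpleGraph V} (hΓ : Γ.IsTree)
    (hadj : ∀ (g : G) (x y : V), Γ.Adj x y → Γ.Adj (g • x) (g • y)) {p q : V}
    (hpq : Γ.Adj p q) (hinv : ∀ g : G, ¬ (g • p = q ∧ g • q = p))
    (h2p : ∀ g : G, g • p = p → g * g = 1 → g = 1) (h2q : ∀ g : G, g • q = q → g * g = 1 → g = 1)
    (hl : ∀ (l : ℤ → V) (g : ℤ → G), ELine G Γ p q l g → Reversible G l →
      GoodRing A ∧ Along p q g fun H => C H) : UNilVanishes A G p q := by
  intro χ ε hε n _ _ x
  refine unilC hC hMain hΓ hadj hpq hinv h2p h2q ?_ hε x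
  intro N hN hNF u v a b hL ha hb
  have hc := hΓ.connected
  have hd : ∀ k, Γ.dist (u k) (v (k + 1)) = 2 * k + 1 := by
    intro k
    have h1 := hL.dist k
    have h2 := hL.dist (k + 1)
    have h3 : Γ.dist (u k) (v (k + 1)) ≤ Γ.dist (u k) (v k) + Γ.dist (v k) (v (k + 1)) :=
      hc.dist_triangle
    have h4 : Γ.dist (u (k + 1)) (v (k + 1)) ≤
        Γ.dist (u (k + 1)) (u k) + Γ.dist (u k) (v (k + 1)) := hc.dist_triangle
    have h5 : Γ.dist (v k) (v (k + 1)) = 1 := SimpleGraph.dist_eq_one_iff_adj.2 (hL.adjV k)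
    have h6 : Γ.dist (u (k + 1)) (u k) = 1 := SimpleGraph.dist_eq_one_iff_adj.2 (hL.adjU k).symm
    omega
  have h0 : Γ.Adj (u 0) (v (0 + 1)) := by
    rw [hL.start]
    exact hL.adjV 0
  obtain ⟨l, h1, h2, h3⟩ : ∃ l : ℤ → V, (∀ i j : ℤ, Γ.dist (l i) (l j) = (i - j).natAbs) ∧
      (∀ k : ℕ, l (Int.ofNat k) = u k) ∧ (∀ k : ℕ, l (Int.negSucc k) = v (k + 1)) :=
    ⟨zLine u (fun k => v (k + 1)), zLine_dist' hc hL.adjU (fun k => hL.adjV (k + 1)) h0 hd,
      fun _ => rfl, fun _ => rfl⟩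
  let g : ℤ → G := fun i => match i with
    | Int.ofNat k => a k
    | Int.negSucc k => b k
  have h4 : ∀ k : ℕ, l (-(k : ℤ)) = v k := by
    rintro (_ | k)
    · have : l (-((0 : ℕ) : ℤ)) = u 0 := h2 0
      rw [this, hL.start]
    · exact h3 k
  have h5 : ELine G Γ p q l g := by
    refine ⟨h1, fun i => ?_⟩
    rcases i with k | k
    · have := ha k
      rw [← h2, ← h2] at this
      exact this
    · have h6 : l (Int.negSucc k + 1) = v k := by
        rw [← h4]
        congr 1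
        omega
      rw [h3, h6, Sym2.eq_swap, hb]
  have h6 : Reversible G l := by
    have h7 : ∀ k : ℕ, ∃ h : G, h • l k = l (-(k : ℤ)) ∧ h • l (-(k : ℤ)) = l k := by
      intro k
      have h8 : l (k : ℤ) = u k := h2 k
      rw [h4, h8]
      exact hL.rev k
    intro k
    obtain ⟨m, rfl | rfl⟩ := Int.eq_nat_or_neg k
    · exact h7 m
    · obtain ⟨h, h8, h9⟩ := h7 m
      exact ⟨h, by rw [neg_neg, h9], by rw [neg_neg, h8]⟩
  obtain ⟨hA, hC⟩ := hl l g h5 h6
  obtain ⟨k, hk⟩ := hC N hN hNF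
  refine ⟨hA, k + 1, by omega, fun H hH h => hk H hH fun i hi x hx => ?_⟩
  rw [abs_le] at hi
  rcases i with j | j
  · exact (h j (by
      have := hi.2
      rw [Int.ofNat_eq_natCast] at this
      omega) x hx).1
  · exact (h j (by
      have := hi.1
      omega) x hx).2

/-- **the obstructions to excision live on lines, for the class `C`** -/
theorem obstructionsOnLinesC {C : ∀ (H : Type u) [Group H], Prop} {A : Type u} [CommRing A]
    [StarRing A] (hC : InjC C) (hMain : MainC C A) : ObstructionsOnLinesC.{u, w} C A :=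
  fun _ _ _ _ _ hΓ hadj _ _ hpq hinv => ⟨fun hl => nilOnLines hΓ hadj hpq hinv hl,
    fun h2p h2q hl => unilOnLinesC hC hMain hΓ hadj hpq hinv h2p h2q hl⟩

/-- the group rings of the finitely generated groups of the class `C` over good rings are regular
coherent -/
theorem regCohC {C : ∀ (H : Type u) [Group H], Prop} (hF : FactsC C) {A : Type u} [CommRing A]
    (hA : GoodRing A) {H : Type u} [Group H] (hfg : Group.FG H) (hH : C H) :
    RegCoh (MonoidAlgebra A H) := by
  let _ : StarRing A := starRingOfComm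
  obtain ⟨h1, g, h2⟩ := hA.facts
  obtain ⟨m, h3⟩ := hF A hA.noeth h1 g h2 H hfg hH
  exact (regCoh_iff _).2 ⟨h3.coh, h3.pd⟩

/-- the same with Laurent polynomial coefficients in several variables -/
theorem regCohC_laurent {C : ∀ (H : Type u) [Group H], Prop} (hF : FactsC C) {A : Type u}
    [CommRing A] (hA : GoodRing A) {H : Type u} [Group H] (hfg : Group.FG H) (hH : C H) (n : ℕ) :
    RegCoh (MonoidAlgebra (MonoidAlgebra A (Multiplicative (Fin n → ℤ))) H) := by
  let _ : StarRing A := starRingOfComm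
  have := hA.noeth
  obtain ⟨h1, g, h2⟩ := hA.facts
  let _ : StarRing (MonoidAlgebra A (Zn n)) := starMA A (Zn n)
  obtain ⟨h3, h4, h5⟩ := polyZ_facts h1 h2 n (Zn n) (polyZ_pi n)
  obtain ⟨m, h6⟩ := hF (MonoidAlgebra A (Zn n)) h3 h4 (g + n) h5 H hfg hH
  exact (regCoh_iff _).2 ⟨h6.coh, h6.pd⟩

/-- the union of two classes which are closed under injective homomorphisms -/
theorem InjC.or {C C' : ∀ (H : Type u) [Group H], Prop} (hC : InjC C) (hC' : InjC C') :
    InjC fun H _ => C H ∨ C' H :=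
  fun H K _ _ f hf h => h.imp (hC H K f hf) (hC' H K f hf)

theorem FactsC.or {C C' : ∀ (H : Type u) [Group H], Prop} (hC : FactsC C) (hC' : FactsC C') :
    FactsC fun H _ => C H ∨ C' H :=
  fun A _ _ hn hA g hg H _ hfg h => h.elim (hC A hn hA g hg H hfg) (hC' A hn hA g hg H hfg)

theorem injC_isVT : InjC fun (H : Type u) [Group H] => IsVT H := by
  intro H K _ _ f hf h
  obtain ⟨d, hd⟩ := isVT_iff.1 h
  exact isVT_iff.2 ⟨d, hd.of_injective f hf⟩

theorem factsC_isVT : FactsC fun (H : Type u) [Group H] => IsVT H := by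
  intro A _ _ hn hA g hg H _ hfg h
  have := hn
  obtain ⟨d, hd⟩ := isVT_iff.1 h
  exact ⟨_, hd.facts hA hg hfg⟩

end Pool.Agent.PLS
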