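import Mathlib
import Pool.Agent.Lib.PLS.Rows
import Pool.Agent.Lib.UP25.ClassT

/-!
# T4: the main theorem for edge groups which are locally virtually (act on locally finite trees) or
inside surface groups: statement
-/

set_option autoImplicit false
set_option linter.unusedSectionVars false
set_option linter.unusedVariables false

open MonoidAlgebra Pool.Agent.UP Pool.Agent.UPV Pool.Agent.UP25
open Pool.Agent.Lib.MP_98022b_UM Pool.Agent.Lib.MP_98022b_UM.UF

namespace Pool.Agent.PLS

universe u v w

/-- **ROW MAIN: the main theorem for the two classes** -/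
def RowMain (A : Type u) [CommRing A] [StarRing A] : Prop :=
  IsNoetherianRing A → AR A → ∀ g, FL A g → ∀ {Ω G : Type u} [Group G]
    {E : BSys Ω G} {χ : G →* ℤˣ} {ε : ℤ}, E.Geo → E.NoInv → (ε = 1 ∨ ε = -1) →
    (∀ ω, ∀ H : Subgroup G, H ≤ E.F ω → H.FG → IsVT H ∨ IsPS H) →
    ∀ X : BF E (Pool.Agent.Lib.MP_98022b_UN.barStr (A := A) χ) ε,
      X.SMetab

end Pool.Agent.PLS
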