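import Mathlib
import Pool.Agent.Lib.PLS.RowsMain
import Pool.Agent.Lib.KN.AlongDefs

/-!
# T4: the obstructions to excision live on lines, version with surface groups: statement
-/

set_option autoImplicit false
set_option linter.unusedSectionVars false
set_option linter.unusedVariables false

open MonoidAlgebra Pool.Agent.Lib.MP_98022b_UM.UF Pool.Agent.UP25 Pool.Agent.MIX Pool.Agent.KN

namespace Pool.Agent.PLS

universe u v w

/-- as `ObstructionsOnLines`; along a reversible line every finitely generated group is torsion-free
with a subgroup of finite index which acts on a locally finite tree with virtually poly-`ℤ`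
stabilisers (`IsVT`), or embeds in a surface group (`IsPS`) -/
def ObstructionsOnLinesS (A : Type u) [CommRing A] [StarRing A] : Prop :=
  ∀ (G : Type u) [Group G] (V : Type w) [MulAction G V] (Γ : SimpleGraph V), Γ.IsTree →
    (∀ (g : G) (x y : V), Γ.Adj x y → Γ.Adj (g • x) (g • y)) →
    ∀ p q : V, Γ.Adj p q → (∀ g : G, ¬ (g • p = q ∧ g • q = p)) →
    ((∀ (l : ℤ → V) (g : ℤ → G), ELine G Γ p q l g →
        Along p q g fun H => RegCoh (MonoidAlgebra A H)) → NilVanishes A G p q) ∧
    ((∀ g : G, g • p = p → g * g = 1 → g = 1) → (∀ g : G, g • q = q → g * g = 1 → g = 1) →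
      (∀ (l : ℤ → V) (g : ℤ → G), ELine G Γ p q l g → Reversible G l →
        GoodRing A ∧ Along p q g fun H => IsVT H ∨ IsPS H) → UNilVanishes A G p q)

/-- **ROW FIN 1** -/
def RowFin1 (A : Type u) [CommRing A] [StarRing A] : Prop :=
  RowMain A → (∀ (H K : Type u) [Group H] [Group K] (f : K →* H), Function.Injective f → IsPS H →
    IsPS K) → ObstructionsOnLinesS.{u, w} A

/-- **ROW FIN 2**: regular coherence for the second class, Laurent polynomial coefficients -/
def RowFin2 : Prop :=
  (∀ (A : Type u) [CommRing A] [StarRing A], RowF A) → ∀ (A : Type u) [CommRing A], GoodRing A →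
    ∀ (H : Type u) [Group H], IsPS H → ∀ n : ℕ,
      RegCoh (MonoidAlgebra (MonoidAlgebra A (Multiplicative (Fin n → ℤ))) H)

end Pool.Agent.PLS
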