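import Mathlib
import Pool.Agent.Lib.PLS.FinC
import Pool.Agent.Lib.PLS.FinDefs

/-!
# T4, rows FIN 1 and FIN 2 (helper21)
-/

set_option autoImplicit false
set_option linter.unusedSectionVars false
set_option linter.unusedVariables false

open MonoidAlgebra
open Pool.Agent.Lib.MP_98022b_UN Pool.Agent.Lib.MP_98022b_UM Pool.Agent.UP Pool.Agent.UP25
open Pool.Agent.Lib.MP_98022b_UM.UF Pool.Agent.MIX Pool.Agent.KN

namespace Pool.Agent.PLS

universe u v w

theorem isPS_of_injective {H K : Type u} [Group H] [Group K] (f : K →* H)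
    (hf : Function.Injective f) (h : IsPS H) : IsPS K := by
  obtain ⟨d, H₀, i, φ, h1, h2⟩ := h
  exact ⟨d, H₀, i, φ.comp f, h1.comp hf, h2⟩

theorem injC_isPS : InjC fun (H : Type u) [Group H] => IsPS H :=
  fun _ _ _ _ f hf h => isPS_of_injective f hf h

/-- **row FIN 1** -/
theorem rowFin1 (A : Type u) [CommRing A] [StarRing A] : RowFin1.{u, w} A := by
  intro hMain hinj
  exact obstructionsOnLinesC (C := fun H _ => IsVT H ∨ IsPS H)
    (injC_isVT.or fun H K _ _ f hf h => hinj H K f hf h) hMain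

/-- row FIN 1 without the second hypothesis -/
theorem obstructionsS {A : Type u} [CommRing A] [StarRing A] (hMain : RowMain A) :
    ObstructionsOnLinesS.{u, w} A :=
  rowFin1 A hMain fun _ _ _ _ f hf h => isPS_of_injective f hf h

theorem factsC_isPS (hF : ∀ (A : Type u) [CommRing A] [StarRing A], RowF A) :
    FactsC fun (H : Type u) [Group H] => IsPS H := by
  intro A _ _ hn hA g hg H _ _ h
  obtain ⟨d, hd⟩ := h
  exact ⟨_, hF A hn hA g hg d H hd⟩

/-- **row FIN 2** -/
theorem rowFin2 : RowFin2.{u} := by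
  intro hF A _ hA H _ hH n
  let _ : StarRing A := starRingOfComm
  have := hA.noeth
  obtain ⟨h1, g, h2⟩ := hA.facts
  let _ : StarRing (MonoidAlgebra A (Zn n)) := starMA A (Zn n)
  obtain ⟨h3, h4, h5⟩ := polyZ_facts h1 h2 n (Zn n) (polyZ_pi n)
  obtain ⟨d, hd⟩ := hH
  have h6 := hF (MonoidAlgebra A (Zn n)) h3 h4 (g + n) h5 d H hd
  exact (regCoh_iff _).2 ⟨h6.coh, h6.pd⟩

end Pool.Agent.PLS
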