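import Mathlib
import Pool.Agent.Lib.PLS.Rows
import Pool.Agent.Lib.UPV.V4
import Pool.Agent.Lib.UPV.V5

/-!
# T4, row G: global dimension of the group rings of the groups which act freely on a plane
-/

set_option autoImplicit false

open MonoidAlgebra Pool.Agent.UP Pool.Agent.UPV Pool.Agent.UP25

namespace Pool.Agent.PLS

universe u

section
variable {R : Type u} [Ring R]

/-- one step -/
theorem g_step {P M : Type u} [AddCommGroup P] [Module R P] [AddCommGroup M] [Module R M]
    (hP : Module.Projective R P) (ε : P →ₗ[R] M) (hs : Function.Surjective ε) {n : ℕ}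
    (h : Pd R (LinearMap.ker ε) (n + 1)) : Pd R M (n + 2) :=
  V5_X3 (LinearMap.ker ε).subtype ε (LinearMap.ker ε).injective_subtype
    (fun x => ⟨fun hx => ⟨⟨x, hx⟩, rfl⟩, by rintro ⟨⟨x, hx⟩, rfl⟩; exact hx⟩) hs hP h

/-- resolutions of length two -/
theorem pd_three {P0 P1 P2 M : Type u} [AddCommGroup P0] [Module R P0] [AddCommGroup P1]
    [Module R P1] [AddCommGroup P2] [Module R P2] [AddCommGroup M] [Module R M]
    (h0 : Module.Projective R P0) (h1 : Module.Projective R P1) (h2 : Module.Projective R P2)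
    (ε : P0 →ₗ[R] M) (d1 : P1 →ₗ[R] P0) (d2 : P2 →ₗ[R] P1) (hs : Function.Surjective ε)
    (e0 : ∀ x, ε x = 0 ↔ ∃ y, d1 y = x) (e1 : ∀ x, d1 x = 0 ↔ ∃ y, d2 y = x)
    (e2 : Function.Injective d2) : Pd R M 3 := by
  refine g_step h0 ε hs (n := 1) ?_
  let d1' : P1 →ₗ[R] LinearMap.ker ε := d1.codRestrict _ fun y => (e0 _).2 ⟨y, rfl⟩
  have hs1 : Function.Surjective d1' := by
    rintro ⟨x, hx⟩
    obtain ⟨y, hy⟩ := (e0 x).1 hx
    exact ⟨y, Subtype.ext hy⟩
  refine g_step h1 d1' hs1 (n := 0) ?_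
  have hd : ∀ y, d1' (d2 y) = 0 := fun y => Subtype.ext ((e1 _).2 ⟨y, rfl⟩)
  let d2' : P2 →ₗ[R] LinearMap.ker d1' := d2.codRestrict _ hd
  have hp : Module.Projective R (LinearMap.ker d1') := by
    refine Module.Projective.of_equiv (LinearEquiv.ofBijective d2' ⟨?_, ?_⟩)
    · intro a b hab
      exact e2 (congrArg Subtype.val hab)
    · rintro ⟨x, hx⟩
      have hx' : d1 x = 0 := congrArg Subtype.val hx
      obtain ⟨y, hy⟩ := (e1 x).1 hx'
      exact ⟨y, Subtype.ext hy⟩
  exact V5_pd_proj hp 0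

end

variable {A H : Type u} [CommRing A] [Group H]

theorem stab_bot {X : Type u} [MulAction H X] (hf : ∀ (h : H) (x : X), h • x = x → h = 1) (x : X) :
    MulAction.stabilizer H x = ⊥ := by
  rw [eq_bot_iff]
  intro h hh
  exact Subgroup.mem_bot.2 (hf h x hh)

/-- **ROW G** from the rows M and E -/
theorem rowG
    (hM : ∀ {V E F : Type u} [MulAction H V] [MulAction H E] [MulAction H F]
      (P : PlaneCx H V E F) (W : Type u) [AddCommGroup W] [Module A[H] W], RowM A P W)
    (hE : ∀ {V E F : Type u} [MulAction H V] [MulAction H E] [MulAction H F]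
      (P : PlaneCx H V E F) (W : Type u) [AddCommGroup W] [Module A[H] W], RowE A P W) :
    RowG A H := by
  intro n hn hinf V E F _ _ _ P
  refine gd_step_gen {⊥} 2 (fun M _ _ hMp => ?_) n (fun S hS => ?_)
  · obtain ⟨m⟩ := hM P M
    obtain ⟨h1, h2, h3, h4⟩ := hE P M hinf m
    have hb := hMp ⊥ rfl
    refine pd_three ?_ ?_ ?_ m.ε m.d1 m.d2 h1 h2 h3 h4
    · exact tw_projective V M fun x => by rw [stab_bot P.freeV x]; exact hb
    · exact tw_projective E M fun x => by rw [stab_bot P.freeE x]; exact hb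
    · exact tw_projective F M fun x => by rw [stab_bot P.freeF x]; exact hb
  · rw [Set.mem_singleton_iff.1 hS]
    exact GD.congr (MonoidAlgebra.uniqueRingEquiv (R := A) (⊥ : Subgroup H)).symm hn

end Pool.Agent.PLS
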