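import Mathlib
import Pool.Agent.Lib.PLS.Rows
import Pool.Agent.Lib.UP.U3

/-!
# T4, row I: the structure of `Ext^q(A[H] ⊗ U, A[H])` (helper81)
-/

set_option autoImplicit false
set_option linter.unusedSectionVars false
set_option linter.unusedVariables false

open MonoidAlgebra Pool.Agent.UP Pool.Agent.UPV Pool.Agent.UP25
open scoped Matrix

namespace Pool.Agent.PLS

universe u

/-! ### classes of cocycles -/

section cls
variable {R : Type u} [Ring R] [StarRing R] {W W' : Type u} [AddCommGroup W] [Module R W]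
  [AddCommGroup W'] [Module R W'] {T T' : RC R}

theorem tCls_eq_zero (P : Res T W) (p : ℕ) (c : T.cy p) :
    tCls P p c = 0 ↔ (c : T.ι p → R) ∈ T.bd p := by
  cases p with
  | zero =>
    constructor
    · intro h
      have h1 := P.toPR.cls_eq_zero_zero _ (tF_cy P 0 c) h
      have h2 : (c : T.ι 0 → R) = 0 := tF_inj P 0 (h1.trans (tF_zero P 0).symm)
      rw [h2]
      exact Submodule.zero_mem _
    · intro h
      have h2 : c = 0 := Subtype.ext h
      rw [h2, map_zero]
  | succ p =>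
    have h := tCls_ker P p
    rw [← LinearMap.mem_ker, h]
    rfl

theorem tCls_congr (P : Res T W) (p : ℕ) {c c' : T.cy p} (h : (c : T.ι p → R) = c') :
    tCls P p c = tCls P p c' := congrArg _ (Subtype.ext h)

theorem cy_vecMul (Φ : ChM T T') (p : ℕ) (c : T'.cy p) :
    (c : T'.ι p → R) ᵥ* (Φ.U p)ᴴ ∈ T.cy p := by
  change ((c : T'.ι p → R) ᵥ* (Φ.U p)ᴴ) ᵥ* (T.D p)ᴴ = 0
  rw [Matrix.vecMul_vecMul, ← Matrix.conjTranspose_mul, ← Φ.comm, Matrix.conjTranspose_mul,
    ← Matrix.vecMul_vecMul, show (c : T'.ι p → R) ᵥ* (T'.D p)ᴴ = 0 from c.2, Matrix.zero_vecMul]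

/-- the map of `Ext` by a chain map -/
theorem tCls_map (P : Res T W) (P' : Res T' W') (f : W →ₗ[R] W') (Φ : ChM T T')
    (h : ∀ x, P'.ε (x ᵥ* Φ.U 0) = f (P.ε x)) (p : ℕ) (c : T'.cy p) :
    esMap p f (tCls P' p c) = tCls P p ⟨_, cy_vecMul Φ p c⟩ := by
  have h1 := PR.comp_cls P'.toPR P.toPR f (fun n => (Φ.U n).vecMulLinear)
    (LinearMap.ext h)
    (fun n => LinearMap.ext fun x => by
      change (x ᵥ* Φ.U (n + 1)) ᵥ* T'.D n = (x ᵥ* T.D n) ᵥ* Φ.U n
      rw [Matrix.vecMul_vecMul, Matrix.vecMul_vecMul, Φ.comm])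
    p (tF P' p (c : T'.ι p → R)) (tF_cy P' p c)
  refine Eq.trans h1 ?_
  refine esCls_congr P.toPR p ?_ _ (tF_cy P p ⟨_, cy_vecMul Φ p c⟩)
  exact dotS_comp (Φ.U p) (c : T'.ι p → R)

end cls

/-! ### coefficients -/

section coef
variable {A H : Type u} [CommRing A] [Group H]

/-- the constants -/
noncomputable abbrev jA (A H : Type u) [CommRing A] [Group H] : A →+* A[H] := singleOneRingHom

theorem jA_apply (a : A) : jA A H a = single 1 a := rfl

/-- the coefficient at `h` of a row -/
noncomputable def ch {ι : Type} (h : H) (y : ι → A[H]) : ι → A := fun i => (y i).coeff h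

theorem ch_add {ι : Type} (h : H) (y z : ι → A[H]) : ch h (y + z) = ch h y + ch h z := by
  funext i
  change (y i + z i).coeff h = _
  rw [coeff_add]
  rfl

theorem ch_zero {ι : Type} (h : H) : ch h (0 : ι → A[H]) = 0 := by
  funext i
  change (0 : A[H]).coeff h = _
  rw [coeff_zero]
  rfl

theorem ch_ext {ι : Type} {y z : ι → A[H]} (h : ∀ g : H, ch g y = ch g z) : y = z := by
  funext i
  refine MonoidAlgebra.ext ?_
  refine Finsupp.ext fun g => ?_
  exact congrFun (h g) i

theorem ch_vecMul {ι κ : Type} [Fintype ι] (k h : H) (y : ι → A[H]) (D : Matrix ι κ A) :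
    ch h (y ᵥ* D.map fun a => (single k⁻¹ a : A[H])) = ch (h * k) y ᵥ* D := by
  funext b
  change (∑ i, y i * single k⁻¹ (D i b)).coeff h = ∑ i, (y i).coeff (h * k) * D i b
  rw [coeff_sum, Finsupp.finsetSum_apply]
  refine Finset.sum_congr rfl fun i _ => ?_
  exact coeff_mul_single_eq_coeff_mul _ fun m _ => mul_inv_eq_iff_eq_mul

theorem ch_vecMul_one {ι κ : Type} [Fintype ι] (h : H) (y : ι → A[H]) (D : Matrix ι κ A) :
    ch h (y ᵥ* D.map (jA A H)) = ch h y ᵥ* D := by
  have h1 := ch_vecMul (1 : H) h y D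
  rw [mul_one, inv_one] at h1
  exact h1

theorem ch_smul {ι : Type} (g h : H) (a : A) (y : ι → A[H]) :
    ch h ((single g a : A[H]) • y) = a • ch (g⁻¹ * h) y := by
  funext i
  change (single g a * y i).coeff h = a * (y i).coeff (g⁻¹ * h)
  exact coeff_single_mul_eq_mul_coeff _ fun m _ => by
    rw [eq_inv_mul_iff_mul_eq]

/-- a row with one coefficient -/
noncomputable def sg {ι : Type} (h : H) (x : ι → A) : ι → A[H] := fun i => single h (x i)

theorem ch_sg_same {ι : Type} (h : H) (x : ι → A) : ch h (sg h x) = x := by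
  funext i
  change (single h (x i) : A[H]).coeff h = x i
  rw [coeff_single, Finsupp.single_eq_same]

theorem ch_sg_ne {ι : Type} {g h : H} (hg : g ≠ h) (x : ι → A) : ch h (sg g x) = 0 := by
  funext i
  change (single g (x i) : A[H]).coeff h = 0
  rw [coeff_single]
  exact Finsupp.single_eq_of_ne (Ne.symm hg)

theorem ch_finite {ι : Type} [Finite ι] (y : ι → A[H]) : {h : H | ch h y ≠ 0}.Finite := by
  refine Set.Finite.subset (Set.finite_iUnion fun i => (y i).coeff.support.finite_toSet) ?_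
  intro h hh
  rw [Set.mem_ofPred_eq, Function.ne_iff] at hh
  obtain ⟨i, hi⟩ := hh
  exact Set.mem_iUnion.mpr ⟨i, Finset.mem_coe.mpr (Finsupp.mem_support_iff.mpr hi)⟩

theorem ch_sum {ι : Type} {σ : Type*} (s : Finset σ) (f : σ → ι → A[H]) (h : H) :
    ch h (∑ i ∈ s, f i) = ∑ i ∈ s, ch h (f i) := by
  classical
  induction s using Finset.induction_on with
  | empty => rw [Finset.sum_empty, Finset.sum_empty, ch_zero]
  | insert a s ha ih => rw [Finset.sum_insert ha, Finset.sum_insert ha, ch_add, ih]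

/-- a row is the sum of its coefficients -/
theorem exists_row {ι κ : Type} [Fintype κ] [Finite ι] (D : Matrix κ ι A) (x : ι → A[H])
    (h : ∀ g, ∃ y : κ → A, y ᵥ* D = ch g x) : ∃ y : κ → A[H], y ᵥ* D.map (jA A H) = x := by
  classical
  choose y hy using h
  refine ⟨∑ g ∈ (ch_finite x).toFinset, sg g (y g), ch_ext fun g => ?_⟩
  rw [ch_vecMul_one, ch_sum]
  by_cases hg : g ∈ (ch_finite x).toFinset
  · rw [Finset.sum_eq_single_of_mem g hg fun b _ hb => ch_sg_ne hb _, ch_sg_same, hy]
  · rw [Finset.sum_eq_zero fun b hb => ch_sg_ne (fun h => hg (by rw [← h]; exact hb)) _, Matrix.zero_vecMul]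
    rw [Set.Finite.mem_toFinset, Set.mem_ofPred_eq, not_not] at hg
    exact hg.symm

end coef

/-! ### the resolution of the induced module -/

section res
variable {A H : Type u} [CommRing A] [Group H] {U U' : Type u} [AddCommGroup U] [Module A U]
  [AddCommGroup U'] [Module A U'] {T T' : RC A}

theorem Ind.ext {z z' : Ind H U} (h : ∀ g, Ind.val g z = Ind.val g z') : z = z' := Finsupp.ext h

theorem Ind.val_mk_same (h : H) (w : U) : Ind.val h (Ind.mk H h w) = w := by
  change (Finsupp.single h w) h = w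
  exact Finsupp.single_eq_same

theorem Ind.val_mk_ne {g h : H} (hg : g ≠ h) (w : U) : Ind.val h (Ind.mk H g w) = 0 := by
  change (Finsupp.single g w) h = 0
  exact Finsupp.single_eq_of_ne (Ne.symm hg)

theorem Ind.mk_add (h : H) (w w' : U) : Ind.mk H h (w + w') = Ind.mk H h w + Ind.mk H h w' :=
  Finsupp.single_add h w w'

theorem Ind.mk_zero (h : H) : Ind.mk H h (0 : U) = 0 := Finsupp.single_zero h

theorem val_smul_mk_one (r : A[H]) (w : U) (h : H) :
    Ind.val h (r • Ind.mk H 1 w) = r.coeff h • w := by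
  induction r using MonoidAlgebra.induction_linear with
  | zero => rw [zero_smul, map_zero, coeff_zero, Finsupp.zero_apply, zero_smul]
  | add r s hr hs => rw [add_smul, map_add, hr, hs, coeff_add, Finsupp.add_apply, add_smul]
  | single g a =>
    rw [Ind.single_smul, mul_one, coeff_single]
    by_cases hg : g = h
    · subst hg
      rw [Ind.val_mk_same, Finsupp.single_eq_same]
    · rw [Ind.val_mk_ne hg, Finsupp.single_eq_of_ne (Ne.symm hg), zero_smul]

/-- the augmentation -/
noncomputable def epsI (P : Res T U) : ((T.map (jA A H)).ι 0 → A[H]) →ₗ[A[H]] Ind H U :=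
  Fintype.linearCombination A[H] fun i : T.ι 0 => Ind.mk H 1 (P.ε (Pi.single i 1))

theorem val_epsI (P : Res T U) (y : T.ι 0 → A[H]) (h : H) :
    Ind.val h (epsI P y) = P.ε (ch h y) := by
  have h1 : epsI P y = ∑ i, y i • Ind.mk H 1 (P.ε (Pi.single i 1)) := rfl
  rw [h1, map_sum]
  have h2 : ch h y = ∑ i, ch h y i • (Pi.single i 1 : T.ι 0 → A) := pi_eq_sum_univ' _
  rw [h2, map_sum]
  refine Finset.sum_congr rfl fun i _ => ?_
  rw [val_smul_mk_one, map_smul]
  rfl

/-- the resolution of the induced module -/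
noncomputable def resI (P : Res T U) : Res (T.map (jA A H)) (Ind H U) where
  ε := epsI P
  surj z := by
    refine Finsupp.induction_linear (motive := fun z : H →₀ U =>
      ∃ y, epsI P y = (show Ind H U from z)) z ⟨0, map_zero _⟩ ?_ ?_
    · rintro f g ⟨y, hy⟩ ⟨y', hy'⟩
      exact ⟨y + y', by rw [map_add, hy, hy']; rfl⟩
    · intro h w
      obtain ⟨x, hx⟩ := P.surj w
      refine ⟨(sg h x : T.ι 0 → A[H]), Ind.ext fun g => ?_⟩
      refine (val_epsI P (sg h x) g).trans ?_
      change P.ε (ch g (sg h x : T.ι 0 → A[H])) = Ind.val g (Ind.mk H h w)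
      by_cases hg : h = g
      · subst hg
        have h1 : ch h (sg h x : T.ι 0 → A[H]) = x := ch_sg_same h x
        rw [h1, Ind.val_mk_same, hx]
      · have h1 : ch g (sg h x : T.ι 0 → A[H]) = 0 := ch_sg_ne hg x
        rw [h1, Ind.val_mk_ne hg, map_zero]
  zero x := by
    refine Ind.ext fun g => ?_
    rw [map_zero]
    refine (val_epsI P _ g).trans ?_
    have h1 : ch g (x ᵥ* (T.D 0).map (jA A H)) = ch g x ᵥ* T.D 0 := ch_vecMul_one g x (T.D 0)
    exact (congrArg P.ε h1).trans (P.zero _)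
  ker x hx := by
    refine exists_row (T.D 0) x fun g => P.ker _ ?_
    rw [← val_epsI, hx, map_zero]
  ex k x hx := by
    refine exists_row (T.D (k + 1)) x fun g => P.ex k _ ?_
    have h1 : ch g (x ᵥ* (T.D k).map (jA A H)) = ch g x ᵥ* T.D k := ch_vecMul_one g x (T.D k)
    refine Eq.trans h1.symm ?_
    rw [show x ᵥ* (T.D k).map (jA A H) = 0 from hx, ch_zero]

theorem resI_ε (P : Res T U) : (resI (H := H) P).ε = epsI P := rfl

theorem val_indMap (k : H) (i : U →ₗ[A] U') (z : Ind H U) (h : H) :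
    Ind.val h (indMap k i z) = i (Ind.val (h * k⁻¹) z) := by
  have key : (Ind.val (U := U') h).comp (indMap k i).toAddMonoidHom =
      i.toAddMonoidHom.comp (Ind.val (U := U) (h * k⁻¹)) := by
    refine Ind.addHom_ext fun g w => ?_
    change Ind.val h (indMap k i (Ind.mk H g w)) = i (Ind.val (h * k⁻¹) (Ind.mk H g w))
    rw [indMap_mk]
    by_cases hg : g * k = h
    · have h1 : g = h * k⁻¹ := by rw [← hg, mul_inv_cancel_right]
      rw [← h1, hg, Ind.val_mk_same, Ind.val_mk_same]
    · have h1 : g ≠ h * k⁻¹ := fun h1 => hg (by rw [h1, inv_mul_cancel_right])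
      rw [Ind.val_mk_ne hg, Ind.val_mk_ne h1, map_zero]
  exact DFunLike.congr_fun key z

/-- the chain map -/
noncomputable def chI (k : H) (Φ : ChM T T') : ChM (T.map (jA A H)) (T'.map (jA A H)) where
  U n := (Φ.U n).map fun a => (single k a : A[H])
  comm n := by
    change (Φ.U (n + 1)).map (fun a => (single k a : A[H])) * (T'.D n).map (jA A H) =
      (T.D n).map (jA A H) * (Φ.U n).map fun a => (single k a : A[H])
    refine Matrix.ext fun i j => ?_
    rw [Matrix.mul_apply, Matrix.mul_apply]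
    have h1 : ∀ a b : A, (single k a : A[H]) * jA A H b = single k (a * b) := fun a b => by
      rw [jA_apply, single_mul_single, mul_one]
    have h2 : ∀ a b : A, jA A H a * (single k b : A[H]) = single k (a * b) := fun a b => by
      rw [jA_apply, single_mul_single, one_mul]
    simp only [Matrix.map_apply, h1, h2]
    have h4 : ∀ {σ : Type} (s : Finset σ) (f : σ → A),
        ∑ x ∈ s, (single k (f x) : A[H]) = single k (∑ x ∈ s, f x) := fun s f =>
      (map_sum (singleAddHom k) f s).symm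
    rw [h4, h4]
    have h3 := congrFun (congrFun (Φ.comm n) i) j
    rw [Matrix.mul_apply, Matrix.mul_apply] at h3
    rw [h3]

end res

/-! ### the maps -/

section maps
variable {A H : Type u} [CommRing A] [StarRing A] [Group H] {U U' : Type u} [AddCommGroup U]
  [Module A U] [AddCommGroup U'] [Module A U'] {T T' : RC A}

attribute [local instance] starMA

theorem star_single (h : H) (a : A) : star (single h a : A[H]) = single h⁻¹ (star a) :=
  starMA_single h a

theorem conj_single {ι κ : Type} (k : H) (D : Matrix ι κ A) :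
    (D.map fun a => (single k a : A[H]))ᴴ = Dᴴ.map fun a => (single k⁻¹ a : A[H]) := by
  refine Matrix.ext fun i j => ?_
  exact star_single k (D j i)

theorem conj_jA {ι κ : Type} (D : Matrix ι κ A) :
    (D.map (jA A H))ᴴ = Dᴴ.map (jA A H) := by
  have h := conj_single (1 : H) D
  rw [inv_one] at h
  exact h

theorem ch_conj {ι κ : Type} [Fintype ι] (h : H) (y : ι → A[H]) (D : Matrix κ ι A) :
    ch h (y ᵥ* (D.map (jA A H))ᴴ) = ch h y ᵥ* Dᴴ := by
  rw [conj_jA, ch_vecMul_one]

theorem ch_conj_single {ι κ : Type} [Fintype ι] (k h : H) (y : ι → A[H]) (D : Matrix κ ι A) :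
    ch h (y ᵥ* (D.map fun a => (single k a : A[H]))ᴴ) = ch (h * k) y ᵥ* Dᴴ := by
  rw [conj_single, ch_vecMul]

/-- coefficients of cocycles -/
theorem ch_cy {p : ℕ} (h : H) (c : (T.map (jA A H)).cy p) :
    ch h (c.1 : T.ι p → A[H]) ∈ T.cy p := by
  have h1 : (c.1 : T.ι p → A[H]) ᵥ* ((T.D p).map (jA A H))ᴴ = 0 := c.2
  have h2 : ch h ((c.1 : T.ι p → A[H]) ᵥ* ((T.D p).map (jA A H))ᴴ) = ch h 0 := congrArg (ch h) h1
  rw [ch_zero] at h2
  exact (ch_conj h (c.1 : T.ι p → A[H]) (T.D p)).symm.trans h2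

/-- the coefficient of a cocycle -/
noncomputable def chC (p : ℕ) (h : H) (c : (T.map (jA A H)).cy p) : T.cy p := ⟨_, ch_cy h c⟩

theorem ch_bd {p : ℕ} (h : H) {c : T.ι p → A[H]} (hc : c ∈ (T.map (jA A H)).bd p) :
    ch h c ∈ T.bd p := by
  cases p with
  | zero =>
    have h1 : c = 0 := hc
    rw [h1, ch_zero]
    exact Submodule.zero_mem _
  | succ p =>
    obtain ⟨z, hz⟩ := hc
    exact ⟨ch h z, by rw [← hz]; exact (ch_conj h z (T.D p)).symm⟩

theorem mem_bd {p : ℕ} {c : T.ι p → A[H]} (hc : ∀ h : H, ch h c ∈ T.bd p) :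
    c ∈ (T.map (jA A H)).bd p := by
  cases p with
  | zero =>
    have h1 : c = 0 := ch_ext fun g => (show ch g c = 0 from hc g).trans (ch_zero g).symm
    exact h1
  | succ p =>
    obtain ⟨z, hz⟩ := exists_row (T.D p)ᴴ c hc
    refine ⟨z, ?_⟩
    have h1 : z ᵥ* ((T.D p).map (jA A H))ᴴ = c := by rw [conj_jA, hz]
    exact h1

theorem chC_add (p : ℕ) (h : H) (c c' : (T.map (jA A H)).cy p) :
    chC p h (c + c') = chC p h c + chC p h c' :=
  Subtype.ext (ch_add h (c.1 : T.ι p → A[H]) (c'.1 : T.ι p → A[H]))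

theorem chC_sub (p : ℕ) (h : H) (c c' : (T.map (jA A H)).cy p) :
    chC p h (c - c') = chC p h c - chC p h c' := by
  have h1 := chC_add p h (c - c') c'
  rw [sub_add_cancel] at h1
  rw [h1, add_sub_cancel_right]

theorem chC_smul (p : ℕ) (g h : H) (a : A) (c : (T.map (jA A H)).cy p) :
    chC p h ((single g a : A[H]) • c) = a • chC p (g⁻¹ * h) c :=
  Subtype.ext (ch_smul g h a (c.1 : T.ι p → A[H]))

theorem chC_eq (P : Res T U) (p : ℕ) (h : H) {c c' : (T.map (jA A H)).cy p}
    (hc : tCls (resI P) p c = tCls (resI P) p c') :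
    tCls P p (chC p h c) = tCls P p (chC p h c') := by
  have h1 : tCls (resI P) p (c - c') = 0 := by rw [map_sub, hc, sub_self]
  have h2 := (tCls_eq_zero (resI P) p (c - c')).mp h1
  have h3 : tCls P p (chC p h (c - c')) = 0 := (tCls_eq_zero P p _).mpr (ch_bd h h2)
  rw [chC_sub, map_sub, sub_eq_zero] at h3
  exact h3

/-- the coefficient of a class -/
noncomputable def cfI (P : Res T U) (p : ℕ) (h : H) (x : ES A[H] p (Ind H U)) : ES A p U :=
  tCls P p (chC p h (Function.surjInv (tCls_surj (resI P) p) x))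

theorem cfI_tCls (P : Res T U) (p : ℕ) (h : H) (c : (T.map (jA A H)).cy p) :
    cfI P p h (tCls (resI P) p c) = tCls P p (chC p h c) :=
  chC_eq P p h (Function.surjInv_eq (tCls_surj (resI P) p) _)

theorem cfI_add (P : Res T U) (p : ℕ) (h : H) (x y : ES A[H] p (Ind H U)) :
    cfI P p h (x + y) = cfI P p h x + cfI P p h y := by
  obtain ⟨c, rfl⟩ := tCls_surj (resI P) p x
  obtain ⟨c', rfl⟩ := tCls_surj (resI P) p y
  rw [← map_add, cfI_tCls, cfI_tCls, cfI_tCls, chC_add, map_add]

theorem cfI_smul (P : Res T U) (p : ℕ) (g h : H) (a : A) (x : ES A[H] p (Ind H U)) :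
    cfI P p h ((single g a : A[H]) • x) = a • cfI P p (g⁻¹ * h) x := by
  obtain ⟨c, rfl⟩ := tCls_surj (resI P) p x
  rw [← map_smul, cfI_tCls, cfI_tCls, chC_smul, map_smul]

theorem cfI_finite (P : Res T U) (p : ℕ) (x : ES A[H] p (Ind H U)) :
    {h : H | cfI P p h x ≠ 0}.Finite := by
  obtain ⟨c, rfl⟩ := tCls_surj (resI P) p x
  refine (ch_finite (c.1 : T.ι p → A[H])).subset fun h hh => ?_
  rw [Set.mem_ofPred_eq] at hh ⊢
  intro h0
  refine hh ?_
  rw [cfI_tCls, show chC p h c = 0 from Subtype.ext h0, map_zero]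

theorem cfI_ext (P : Res T U) (p : ℕ) (x : ES A[H] p (Ind H U)) (h : ∀ g, cfI P p g x = 0) :
    x = 0 := by
  obtain ⟨c, rfl⟩ := tCls_surj (resI P) p x
  refine (tCls_eq_zero (resI P) p c).mpr (mem_bd fun g => ?_)
  have h1 := h g
  rw [cfI_tCls] at h1
  exact (tCls_eq_zero P p _).mp h1

/-! the map `ind` -/

theorem sg_add {ι : Type} (h : H) (x y : ι → A) : (sg h (x + y) : ι → A[H]) = sg h x + sg h y := by
  funext i
  exact single_add h (x i) (y i)

theorem sg_smul {ι : Type} (a : A) (x : ι → A) :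
    (sg 1 (a • x) : ι → A[H]) = (single 1 a : A[H]) • sg 1 x := by
  funext i
  change (single 1 (a * x i) : A[H]) = single 1 a * single 1 (x i)
  rw [single_mul_single, one_mul]

theorem sg_vecMul {ι κ : Type} [Fintype ι] (x : ι → A) (D : Matrix ι κ A) :
    (sg 1 x : ι → A[H]) ᵥ* D.map (jA A H) = sg 1 (x ᵥ* D) := by
  classical
  refine ch_ext fun g => ?_
  rw [ch_vecMul_one]
  by_cases hg : (1 : H) = g
  · subst hg
    rw [ch_sg_same, ch_sg_same]
  · rw [ch_sg_ne hg, ch_sg_ne hg, Matrix.zero_vecMul]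

theorem sg_cy {p : ℕ} (c : T.cy p) :
    (sg 1 (c : T.ι p → A) : T.ι p → A[H]) ∈ (T.map (jA A H)).cy p := by
  have h1 : (sg 1 (c : T.ι p → A) : T.ι p → A[H]) ᵥ* ((T.D p).map (jA A H))ᴴ = 0 := by
    rw [conj_jA, sg_vecMul, show (c : T.ι p → A) ᵥ* (T.D p)ᴴ = 0 from c.2]
    funext i
    exact single_zero 1
  exact h1

/-- the cocycle induced from a cocycle -/
noncomputable def sgC (H : Type u) [Group H] (p : ℕ) (c : T.cy p) : (T.map (jA A H)).cy p :=
  ⟨_, sg_cy c⟩

theorem sgC_add (p : ℕ) (c c' : T.cy p) : sgC H p (c + c') = sgC H p c + sgC H p c' :=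
  Subtype.ext (sg_add 1 (c : T.ι p → A) (c' : T.ι p → A))

theorem sgC_smul (p : ℕ) (a : A) (c : T.cy p) :
    sgC H p (a • c) = (single 1 a : A[H]) • sgC H p c :=
  Subtype.ext (sg_smul a (c : T.ι p → A))

theorem chC_sgC (p : ℕ) (c : T.cy p) : chC p (1 : H) (sgC H p c) = c :=
  Subtype.ext (ch_sg_same 1 (c : T.ι p → A))

theorem chC_sgC_ne (p : ℕ) {h : H} (hh : h ≠ 1) (c : T.cy p) : chC p h (sgC H p c) = 0 :=
  Subtype.ext (ch_sg_ne (Ne.symm hh) (c : T.ι p → A))

/-- the class induced from a class -/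
noncomputable def indI (H : Type u) [Group H] (P : Res T U) (p : ℕ) (x : ES A p U) :
    ES A[H] p (Ind H U) :=
  tCls (resI P) p (sgC H p (Function.surjInv (tCls_surj P p) x))

theorem cf_indI (P : Res T U) (p : ℕ) (x : ES A p U) : cfI P p (1 : H) (indI H P p x) = x := by
  unfold indI
  rw [cfI_tCls, chC_sgC]
  exact Function.surjInv_eq (tCls_surj P p) x

theorem cf_indI_ne (P : Res T U) (p : ℕ) (x : ES A p U) {h : H} (hh : h ≠ 1) :
    cfI P p h (indI H P p x) = 0 := by
  unfold indI
  rw [cfI_tCls, chC_sgC_ne p hh, map_zero]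

theorem cfI_zero (P : Res T U) (p : ℕ) (h : H) : cfI P p h (0 : ES A[H] p (Ind H U)) = 0 := by
  have h1 := cfI_add P p h (0 : ES A[H] p (Ind H U)) 0
  rw [add_zero] at h1
  exact left_eq_add.mp h1

theorem cfI_sub (P : Res T U) (p : ℕ) (h : H) (x y : ES A[H] p (Ind H U)) :
    cfI P p h (x - y) = cfI P p h x - cfI P p h y := by
  have h1 := cfI_add P p h (x - y) y
  rw [sub_add_cancel] at h1
  rw [h1, add_sub_cancel_right]

/-- a class is determined by its coefficients -/
theorem cfI_inj (P : Res T U) (p : ℕ) {x y : ES A[H] p (Ind H U)}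
    (h : ∀ g, cfI P p g x = cfI P p g y) : x = y := by
  rw [← sub_eq_zero]
  refine cfI_ext P p _ fun g => ?_
  rw [cfI_sub, h, sub_self]

theorem indI_add (P : Res T U) (p : ℕ) (x y : ES A p U) :
    indI H P p (x + y) = indI H P p x + indI H P p y := by
  refine cfI_inj P p fun g => ?_
  rw [cfI_add]
  by_cases hg : g = 1
  · subst hg
    rw [cf_indI, cf_indI, cf_indI]
  · rw [cf_indI_ne P p _ hg, cf_indI_ne P p _ hg, cf_indI_ne P p _ hg, add_zero]

theorem indI_smul (P : Res T U) (p : ℕ) (a : A) (x : ES A p U) :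
    indI H P p (a • x) = (single 1 a : A[H]) • indI H P p x := by
  refine cfI_inj P p fun g => ?_
  rw [cfI_smul, inv_one, one_mul]
  by_cases hg : g = 1
  · subst hg
    rw [cf_indI, cf_indI]
  · rw [cf_indI_ne P p _ hg, cf_indI_ne P p _ hg, smul_zero]

/-! the map induced by `h' ⊗ w ↦ h' k ⊗ i w` -/

theorem chI_res (P : Res T U) (P' : Res T' U') (i : U →ₗ[A] U') (k : H) (Φ : ChM T T')
    (h : ∀ x, P'.ε (x ᵥ* Φ.U 0) = i (P.ε x)) (x : T.ι 0 → A[H]) :
    (resI P').ε (x ᵥ* (chI k Φ).U 0) = indMap k i ((resI P).ε x) := by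
  refine Ind.ext fun g => ?_
  rw [val_indMap]
  refine (val_epsI P' _ g).trans ?_
  have h1 : Ind.val (g * k⁻¹) ((resI P).ε x) = P.ε (ch (g * k⁻¹) x) := val_epsI P x _
  rw [h1, ← h]
  refine congrArg P'.ε ?_
  have h2 := ch_vecMul k⁻¹ g x (Φ.U 0)
  rw [inv_inv] at h2
  exact h2

theorem cfI_map (P : Res T U) (P' : Res T' U') (i : U →ₗ[A] U') (k h : H) (p : ℕ)
    (x : ES A[H] p (Ind H U')) :
    cfI P p h (esMap p (indMap k i) x) = esMap p i (cfI P' p (h * k) x) := by
  obtain ⟨c, rfl⟩ := tCls_surj (resI P') p x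
  obtain ⟨Φ, hΦ⟩ := exists_lift P P' i
  rw [tCls_map (resI P) (resI P') (indMap k i) (chI k Φ) (chI_res P P' i k Φ hΦ), cfI_tCls,
    cfI_tCls, tCls_map P P' i Φ hΦ]
  exact tCls_congr P p (ch_conj_single k h c.1 (Φ.U p))

end maps

section row
variable (A H : Type u) [CommRing A] [StarRing A] [Group H]

attribute [local instance] starMA

/-- the chosen resolution -/
noncomputable def TU (U : Type u) [AddCommGroup U] [Module A U] [IsNoetherianRing A]
    [Module.Finite A U] : RC A := (exists_res (R := A) U).choose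

/-- the chosen resolution -/
noncomputable def PU (U : Type u) [AddCommGroup U] [Module A U] [IsNoetherianRing A]
    [Module.Finite A U] : Res (TU A U) U := (exists_res (R := A) U).choose_spec.some

theorem rowI : RowI A H := by
  intro hA q
  exact ⟨{
    ind := fun U _ _ _ =>
      { toFun := fun x => toRa H _ (indI H (PU A U) q x)
        map_add' := fun x y => indI_add (PU A U) q x y
        map_smul' := fun a x => indI_smul (PU A U) q a x }
    cf := fun U _ _ _ h =>
      { toFun := fun x => cfI (PU A U) q h ((toRa H _).symm x)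
        map_add' := fun x y => cfI_add (PU A U) q h _ _
        map_smul' := fun a x => by
          have h1 := cfI_smul (PU A U) q 1 h a ((toRa H (ES A[H] q (Ind H U))).symm x)
          rw [inv_one, one_mul] at h1
          exact h1 }
    fin := fun U _ _ _ x => cfI_finite (PU A U) q x
    ext := fun U _ _ _ x h => cfI_ext (PU A U) q x h
    cf_ind := fun U _ _ _ c => cf_indI (PU A U) q c
    cf_ind_ne := fun U _ _ _ c h hh => cf_indI_ne (PU A U) q c hh
    cf_map := fun U U' _ _ _ _ _ _ k i h x => cfI_map (PU A U) (PU A U') i k h q x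
    cf_single := fun U _ _ _ g h x => by
      have h1 := cfI_smul (PU A U) q g h 1 x
      rw [one_smul] at h1
      exact h1 }⟩

end row

end Pool.Agent.PLS
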