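import Mathlib
import Pool.Agent.Lib.PLS.Rows
import Pool.Agent.Lib.UP.U1
import Pool.Agent.Lib.UP.U3a
import Pool.Agent.Lib.UP.U14

/-!
# T4, row IL: the classes `G_q` for induced modules
-/

set_option autoImplicit false
set_option linter.unusedSectionVars false
set_option linter.unusedVariables false

open MonoidAlgebra Pool.Agent.UP Pool.Agent.UPV Pool.Agent.UP25

namespace Pool.Agent.PLS

universe u

attribute [local instance] starMA

/-- a module without nonzero elements -/
theorem loc_of_subsingleton {R : Type u} [Ring R] (q : ℕ) {Y Z : Type u} [AddCommGroup Y]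
    [Module R Y] [AddCommGroup Z] [Module R Z] (h : Loc R q Z) (hY : ∀ y : Y, y = 0) :
    Loc R q Y :=
  Loc.of_injective (0 : Y →ₗ[R] Z) (fun x y _ => (hY x).trans (hY y).symm) h

/-- direct sums of copies of a module -/
theorem loc_finsupp {A : Type u} [Ring A] [IsNoetherianRing A] {q : ℕ} {Y : Type u}
    [AddCommGroup Y] [Module A Y] (h : Loc A q Y) (X : Type u) : Loc A q (X →₀ Y) := by
  classical
  have key : ∀ S : Finset X, Loc A q (Finsupp.supported Y A (S : Set X)) := by
    intro S
    induction S using Finset.induction_on with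
    | empty =>
      refine loc_of_subsingleton q h ?_
      rintro ⟨x, hx⟩
      refine Subtype.ext ?_
      rw [Finsupp.mem_supported, Finset.coe_empty, Set.subset_empty_iff, Finset.coe_eq_empty,
        Finsupp.support_eq_empty] at hx
      exact hx
    | insert a S ha ih =>
      refine Loc.of_exact (Submodule.inclusion (Finsupp.supported_mono
          (by rw [Finset.coe_insert]; exact Set.subset_insert _ _)))
        ((Finsupp.lapply a).comp (Submodule.subtype _)) ?_ ih h
      rintro ⟨x, hx⟩ hk
      have hk' : x a = 0 := hk
      have hx' : x ∈ Finsupp.supported Y A (S : Set X) := by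
        rw [Finsupp.mem_supported] at hx ⊢
        intro b hb
        have h1 := hx hb
        rw [Finset.coe_insert, Set.mem_insert_iff] at h1
        rcases h1 with rfl | h1
        · exact absurd hk' (Finsupp.mem_support_iff.1 hb)
        · exact h1
      exact ⟨⟨x, hx'⟩, Subtype.ext rfl⟩
  refine Loc.of_union fun N hN => ?_
  obtain ⟨t, rfl⟩ := hN
  refine ⟨Finsupp.supported Y A ((t.biUnion fun f => f.support : Finset X) : Set X), ?_, key _⟩
  rw [Submodule.span_le]
  intro f hf
  change f ∈ Finsupp.supported Y A _
  rw [Finsupp.mem_supported]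
  intro b hb
  exact Finset.mem_biUnion.2 ⟨f, hf, hb⟩

variable {A H : Type u} [CommRing A] [StarRing A] [Group H]

/-- the coefficients of a class, as a finitely supported function -/
noncomputable def cfFun {q : ℕ} (D : IndData A H q) (U : Type u) [AddCommGroup U] [Module A U]
    [Module.Finite A U] : Ra H (ES A[H] q (Ind H U)) →ₗ[A] (H →₀ ES A q U) where
  toFun x := Finsupp.onFinset (D.fin U x).toFinset (fun h => D.cf U h x) (fun h hh => by
    rw [Set.Finite.mem_toFinset]
    exact hh)
  map_add' x y := by
    ext h
    rw [Finsupp.add_apply, Finsupp.onFinset_apply, Finsupp.onFinset_apply, Finsupp.onFinset_apply]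
    exact (D.cf U h).map_add x y
  map_smul' a x := by
    ext h
    rw [RingHom.id_apply, Finsupp.smul_apply, Finsupp.onFinset_apply, Finsupp.onFinset_apply]
    exact (D.cf U h).map_smul a x

theorem cfFun_injective {q : ℕ} (D : IndData A H q) (U : Type u) [AddCommGroup U] [Module A U]
    [Module.Finite A U] : Function.Injective (cfFun D U) := by
  rw [← LinearMap.ker_eq_bot, eq_bot_iff]
  intro x hx
  refine D.ext U x fun h => ?_
  have h1 := DFunLike.congr_fun (LinearMap.mem_ker.1 hx) h
  exact h1

/-- the induced module is a direct sum over `A` -/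
noncomputable def raInd (A H U : Type u) [CommRing A] [Group H] [AddCommGroup U] [Module A U] :
    Ra H (Ind H U) →ₗ[A] (H →₀ U) where
  toFun x := (x : H →₀ U)
  map_add' _ _ := rfl
  map_smul' a x := by
    rw [RingHom.id_apply]
    have h : (DistribSMul.toAddMonoidHom (Ind H U) (single 1 a : A[H])) =
        (DistribSMul.toAddMonoidHom (H →₀ U) a : (H →₀ U) →+ (H →₀ U)) := by
      refine Ind.addHom_ext fun g w => ?_
      change (single 1 a : A[H]) • Ind.mk H g w = a • (Finsupp.single g w : H →₀ U)
      rw [Ind.single_smul, one_mul, Finsupp.smul_single]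
      rfl
    exact DFunLike.congr_fun h x

/-- **ROW IL** -/
theorem rowIL (hI : RowI A H) : RowIL A H := by
  intro hn hA q U _ _ _
  refine ⟨?_, fun hU => ?_⟩
  · obtain ⟨D⟩ := hI hn q
    refine Loc.of_injective (cfFun D U) (cfFun_injective D U) (loc_finsupp ?_ H)
    cases q with
    | zero => exact fun N _ => U1_GE_zero
    | succ p =>
      obtain ⟨T, ⟨r⟩⟩ := exists_res (R := A) U
      exact loc_es hA r p
  · exact Loc.of_injective (raInd A H U) (fun _ _ h => h) (loc_finsupp hU H)

end Pool.Agent.PLS
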