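import Mathlib
import Pool.Agent.Lib.PLS.Defs

/-!
# T4: the plane of the closed surface of Euler characteristic `-1`

For a group `G` with generators `x`, `y`, `z` and the defining relation `x y x⁻¹ y⁻¹ z z = 1` the
Cayley complex is a plane in the sense of `PlaneCx`.
-/

set_option autoImplicit false
set_option linter.unusedSectionVars false
set_option linter.unusedVariables false

open Pool.Agent.UP25

namespace Pool.Agent.PLS.NS

universe u

/-- the edges of the Cayley complex -/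
@[ext] structure Ed (G : Type u) where
  b : G
  i : Fin 3

instance edAct (G : Type u) [Group G] : MulAction G (Ed G) where
  smul h e := ⟨h * e.b, e.i⟩
  one_smul e := Ed.ext (one_mul _) rfl
  mul_smul g h e := Ed.ext (mul_assoc _ _ _) rfl

section
variable {G : Type u} [Group G] (x y z : G)

theorem smul_ed (h k : G) (i : Fin 3) : h • (⟨k, i⟩ : Ed G) = ⟨h * k, i⟩ := rfl

/-- the generators -/
def gn : Fin 3 → G := ![x, y, z]

/-- origin -/
def oE (e : Ed G) : G := e.b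

/-- terminus -/
def tE (e : Ed G) : G := e.b * gn x y z e.i

/-- first side -/
def lE (e : Ed G) : G := e.b * (![1, x⁻¹, y * x * y⁻¹ * x⁻¹] : Fin 3 → G) e.i

/-- second side -/
def rE (e : Ed G) : G := e.b * (![x * y⁻¹ * x⁻¹, y * x * y⁻¹ * x⁻¹, z] : Fin 3 → G) e.i

/-- sign -/
def sE (e : Ed G) : ℤˣ := (![1, 1, -1] : Fin 3 → ℤˣ) e.i

/-- the boundary of chains of dimension 1 -/
noncomputable def dd : (Ed G →₀ ℤ) →+ (G →₀ ℤ) :=
  Finsupp.mapDomain.addMonoidHom (tE x y z) - Finsupp.mapDomain.addMonoidHom oE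

theorem dd_apply (g : Ed G →₀ ℤ) :
    dd x y z g = g.mapDomain (tE x y z) - g.mapDomain oE := rfl

theorem dd_single (h : G) (i : Fin 3) (n : ℤ) : dd x y z (Finsupp.single ⟨h, i⟩ n) =
    Finsupp.single (h * gn x y z i) n - Finsupp.single h n := by
  rw [dd_apply, Finsupp.mapDomain_single, Finsupp.mapDomain_single]
  rfl

/-- exactness at the vertices -/
theorem ex0 (hgen : Subgroup.closure (Set.range (gn x y z)) = ⊤) (f : G →₀ ℤ)
    (hf : (f.sum fun _ n => n) = 0) :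
    ∃ g : Ed G →₀ ℤ, g.mapDomain (tE x y z) - g.mapDomain oE = f := by
  have key : ∀ s : G, ∀ h : G, Finsupp.single (h * s) (1 : ℤ) - Finsupp.single h 1 ∈
      (dd x y z).range := by
    intro s
    have hs : s ∈ Subgroup.closure (Set.range (gn x y z)) := by rw [hgen]; trivial
    induction hs using Subgroup.closure_induction with
    | mem s hs =>
      obtain ⟨i, rfl⟩ := hs
      intro h
      exact ⟨Finsupp.single ⟨h, i⟩ 1, dd_single x y z h i 1⟩
    | one => intro h; rw [mul_one, sub_self]; exact zero_mem _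
    | mul s s' _ _ hs hs' =>
      intro h
      have h1 := add_mem (hs h) (hs' (h * s))
      rw [← mul_assoc]
      have h2 : Finsupp.single (h * s * s') (1 : ℤ) - Finsupp.single h 1 =
        (Finsupp.single (h * s) 1 - Finsupp.single h 1) +
          (Finsupp.single (h * s * s') 1 - Finsupp.single (h * s) 1) := by abel
      rw [h2]
      exact h1
    | inv s _ hs =>
      intro h
      have h1 := neg_mem (hs (h * s⁻¹))
      rw [inv_mul_cancel_right, neg_sub] at h1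
      exact h1
  have h2 : f ∈ (dd x y z).range := by
    have h3 : ∀ f : G →₀ ℤ, f - Finsupp.single 1 (f.sum fun _ n => n) ∈ (dd x y z).range := by
      intro f
      induction f using Finsupp.induction_linear with
      | zero => rw [Finsupp.sum_zero_index, Finsupp.single_zero, sub_zero]; exact zero_mem _
      | add f g hf hg =>
        have h4 := add_mem hf hg
        rw [Finsupp.sum_add_index' (fun _ => rfl) (fun _ _ _ => rfl), Finsupp.single_add]
        rw [sub_add_sub_comm] at h4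
        exact h4
      | single h n =>
        rw [Finsupp.sum_single_index rfl]
        have h4 := zsmul_mem (key h 1) n
        rw [one_mul, smul_sub, Finsupp.smul_single, Finsupp.smul_single, smul_eq_mul, mul_one] at h4
        exact h4
    have h4 := h3 f
    rwa [hf, Finsupp.single_zero, sub_zero] at h4
  exact h2

/-! ### exactness at the edges -/

/-- the boundaries of the chains of dimension 2 -/
def Bd : AddSubgroup (Ed G →₀ ℤ) where
  carrier := {g | ∃ c : G →₀ ℤ, ∀ e, g e = c (lE x y e) - (sE e : ℤ) * c (rE x y z e)}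
  add_mem' := by
    rintro g g' ⟨c, hc⟩ ⟨c', hc'⟩
    refine ⟨c + c', fun e => ?_⟩
    rw [Finsupp.add_apply, hc, hc', Finsupp.add_apply, Finsupp.add_apply]
    ring
  zero_mem' := ⟨0, fun e => by simp⟩
  neg_mem' := by
    rintro g ⟨c, hc⟩
    refine ⟨-c, fun e => ?_⟩
    rw [Finsupp.neg_apply, hc, Finsupp.neg_apply, Finsupp.neg_apply]
    ring

/-- the class of an edge -/
noncomputable def ce (h : G) (i : Fin 3) : (Ed G →₀ ℤ) ⧸ Bd x y z :=
  QuotientAddGroup.mk (Finsupp.single (⟨h, i⟩ : Ed G) 1)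

/-- the step of the covering space -/
noncomputable def stp (i : Fin 3) : Equiv.Perm (((Ed G →₀ ℤ) ⧸ Bd x y z) × G) where
  toFun p := (p.1 + ce x y z p.2 i, p.2 * gn x y z i)
  invFun p := (p.1 - ce x y z (p.2 * (gn x y z i)⁻¹) i, p.2 * (gn x y z i)⁻¹)
  left_inv p := by
    refine Prod.ext ?_ ?_
    · change p.1 + ce x y z p.2 i - ce x y z (p.2 * gn x y z i * (gn x y z i)⁻¹) i = _
      rw [mul_inv_cancel_right, add_sub_cancel_right]
    · exact mul_inv_cancel_right _ _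
  right_inv p := by
    refine Prod.ext ?_ ?_
    · exact sub_add_cancel _ _
    · exact inv_mul_cancel_right _ _

theorem stp_apply (i : Fin 3) (q : (Ed G →₀ ℤ) ⧸ Bd x y z) (h : G) : stp x y z i (q, h) =
    (q + ce x y z h i, h * gn x y z i) := rfl

theorem stp_inv_apply (i : Fin 3) (q : (Ed G →₀ ℤ) ⧸ Bd x y z) (h : G) :
    (stp x y z i)⁻¹ (q, h) = (q - ce x y z (h * (gn x y z i)⁻¹) i, h * (gn x y z i)⁻¹) := rfl

/-- the boundary of a face is zero in the quotient -/
theorem face (hr : x * y * x⁻¹ * y⁻¹ * z * z = 1) (h : G) :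
    ce x y z h 0 + ce x y z (h * x) 1 - ce x y z (h * x * y * x⁻¹) 0 -
      ce x y z (h * x * y * x⁻¹ * y⁻¹) 1 + ce x y z (h * x * y * x⁻¹ * y⁻¹) 2 +
      ce x y z (h * x * y * x⁻¹ * y⁻¹ * z) 2 = 0 := by
  classical
  unfold ce
  rw [← QuotientAddGroup.mk_add, ← QuotientAddGroup.mk_sub, ← QuotientAddGroup.mk_sub,
    ← QuotientAddGroup.mk_add, ← QuotientAddGroup.mk_add, QuotientAddGroup.eq_zero_iff]
  refine ⟨Finsupp.single h 1, ?_⟩
  rintro ⟨k, i⟩
  have e0 : ∀ (a b : G) (i j : Fin 3), ((⟨a, i⟩ : Ed G) = ⟨b, j⟩) ↔ (a = b ∧ i = j) := by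
    intro a b i j
    exact ⟨fun h => ⟨congrArg Ed.b h, congrArg Ed.i h⟩, fun h => Ed.ext h.1 h.2⟩
  simp only [Finsupp.add_apply, Finsupp.sub_apply, Finsupp.single_apply, e0, lE, rE, sE]
  have hz : h * x * y * x⁻¹ * y⁻¹ * z = h * z⁻¹ := by
    have : x * y * x⁻¹ * y⁻¹ * z = z⁻¹ := eq_inv_of_mul_eq_one_left hr
    calc h * x * y * x⁻¹ * y⁻¹ * z = h * (x * y * x⁻¹ * y⁻¹ * z) := by group
      _ = h * z⁻¹ := by rw [this]
  rw [hz]
  have a1 : (h * x * y * x⁻¹ = k) ↔ (h = k * (x * y⁻¹ * x⁻¹)) := by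
    constructor
    · rintro rfl; group
    · rintro rfl; group
  have a2 : (h * x = k) ↔ (h = k * x⁻¹) := by
    constructor
    · rintro rfl; group
    · rintro rfl; group
  have a3 : (h * x * y * x⁻¹ * y⁻¹ = k) ↔ (h = k * (y * x * y⁻¹ * x⁻¹)) := by
    constructor
    · rintro rfl; group
    · rintro rfl; group
  have a4 : (h * z⁻¹ = k) ↔ (h = k * z) := by
    constructor
    · rintro rfl; group
    · rintro rfl; group
  rw [a1, a2, a3, a4]
  fin_cases i
  · simp
  · simp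
  · simp
    split_ifs <;> norm_num

/-- groups with the defining relation `x y x⁻¹ y⁻¹ z z = 1` -/
structure Pres : Prop where
  gen : Subgroup.closure (Set.range (gn x y z)) = ⊤
  rel : x * y * x⁻¹ * y⁻¹ * z * z = 1
  univ : ∀ (K : Type u) [Group K] (a b c : K), a * b * a⁻¹ * b⁻¹ * c * c = 1 →
    ∃ f : G →* K, f x = a ∧ f y = b ∧ f z = c

variable {x y z}

open MulOpposite in
/-- the primitive of the classes of the edges -/
theorem exists_prim (hP : Pres x y z) : ∃ θ : G → (Ed G →₀ ℤ) ⧸ Bd x y z, ∀ (g : G) (i : Fin 3),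
    θ (g * gn x y z i) = θ g + ce x y z g i := by
  obtain ⟨R, h0, h1, h2⟩ := hP.univ (Equiv.Perm (((Ed G →₀ ℤ) ⧸ Bd x y z) × G))ᵐᵒᵖ
    (op (stp x y z 0)) (op (stp x y z 1)) (op (stp x y z 2)) (by
      rw [← op_inv, ← op_inv, ← op_mul, ← op_mul, ← op_mul, ← op_mul, ← op_mul, ← op_one]
      congr 1
      refine Equiv.ext ?_
      rintro ⟨q, h⟩
      change stp x y z 2 (stp x y z 2 ((stp x y z 1)⁻¹ ((stp x y z 0)⁻¹
        (stp x y z 1 (stp x y z 0 (q, h)))))) = (q, h)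
      rw [stp_apply, stp_apply, stp_inv_apply, stp_inv_apply, stp_apply, stp_apply]
      refine Prod.ext ?_ ?_
      · have h3 := face x y z hP.rel h
        change q + ce x y z h 0 + ce x y z (h * x) 1 - ce x y z (h * x * y * x⁻¹) 0 -
          ce x y z (h * x * y * x⁻¹ * y⁻¹) 1 + ce x y z (h * x * y * x⁻¹ * y⁻¹) 2 +
          ce x y z (h * x * y * x⁻¹ * y⁻¹ * z) 2 = q
        calc q + ce x y z h 0 + ce x y z (h * x) 1 - ce x y z (h * x * y * x⁻¹) 0 -
              ce x y z (h * x * y * x⁻¹ * y⁻¹) 1 + ce x y z (h * x * y * x⁻¹ * y⁻¹) 2 +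
              ce x y z (h * x * y * x⁻¹ * y⁻¹ * z) 2 =
            q + (ce x y z h 0 + ce x y z (h * x) 1 - ce x y z (h * x * y * x⁻¹) 0 -
              ce x y z (h * x * y * x⁻¹ * y⁻¹) 1 + ce x y z (h * x * y * x⁻¹ * y⁻¹) 2 +
              ce x y z (h * x * y * x⁻¹ * y⁻¹ * z) 2) := by abel
          _ = q := by rw [h3, add_zero]
      · change h * x * y * x⁻¹ * y⁻¹ * z * z = h
        have h3 := hP.rel
        calc h * x * y * x⁻¹ * y⁻¹ * z * z = h * (x * y * x⁻¹ * y⁻¹ * z * z) := by group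
          _ = h := by rw [h3, mul_one])
  have hR : ∀ i, R (gn x y z i) = op (stp x y z i) := by
    intro i
    fin_cases i
    · exact h0
    · exact h1
    · exact h2
  have key : ∀ g : G, ∀ (q : (Ed G →₀ ℤ) ⧸ Bd x y z) (h : G),
      ((R g).unop (q, h)).2 = h * g := by
    intro g
    have hg : g ∈ Subgroup.closure (Set.range (gn x y z)) := by rw [hP.gen]; trivial
    induction hg using Subgroup.closure_induction with
    | mem g hg =>
      obtain ⟨i, rfl⟩ := hg
      intro q h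
      rw [hR]
      rfl
    | one => intro q h; rw [map_one, mul_one]; rfl
    | mul g g' _ _ hg hg' =>
      intro q h
      rw [map_mul, unop_mul, Equiv.Perm.mul_apply]
      have h3 := hg' ((R g).unop (q, h)).1 ((R g).unop (q, h)).2
      rw [Prod.mk.eta] at h3
      rw [h3, hg, mul_assoc]
    | inv g _ hg =>
      intro q h
      rw [map_inv, unop_inv]
      obtain ⟨p, hp⟩ : ∃ p, p = ((R g).unop)⁻¹ (q, h) := ⟨_, rfl⟩
      have h3 : (R g).unop p = (q, h) := by rw [hp]; exact Equiv.apply_symm_apply _ _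
      have h4 := hg p.1 p.2
      rw [Prod.mk.eta, h3] at h4
      rw [← hp]
      exact (eq_mul_inv_of_mul_eq h4.symm)
  refine ⟨fun g => ((R g).unop (0, 1)).1, fun g i => ?_⟩
  change ((R (g * gn x y z i)).unop (0, 1)).1 = ((R g).unop (0, 1)).1 + ce x y z g i
  rw [map_mul, unop_mul, Equiv.Perm.mul_apply, hR, unop_op]
  have h3 := key g 0 1
  rw [one_mul] at h3
  have h4 : (R g).unop (0, 1) = (((R g).unop (0, 1)).1, g) := Prod.ext rfl h3
  rw [h4, stp_apply]

/-- exactness at the edges -/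
theorem ex1 (hP : Pres x y z) (g : Ed G →₀ ℤ) (hg : g.mapDomain (tE x y z) = g.mapDomain oE) :
    ∃ c : G →₀ ℤ, ∀ e, g e = c (lE x y e) - (sE e : ℤ) * c (rE x y z e) := by
  obtain ⟨θ, hθ⟩ := exists_prim hP
  obtain ⟨Θ, hΘ⟩ : ∃ Θ : (G →₀ ℤ) →+ (Ed G →₀ ℤ) ⧸ Bd x y z, ∀ h n,
      Θ (Finsupp.single h n) = n • θ h :=
    ⟨Finsupp.liftAddHom fun h => (zmultiplesHom _ (θ h)), fun h n =>
      Finsupp.liftAddHom_apply_single _ _ _⟩
  have key : ∀ g : Ed G →₀ ℤ, (QuotientAddGroup.mk g : (Ed G →₀ ℤ) ⧸ Bd x y z) =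
      Θ (g.mapDomain (tE x y z)) - Θ (g.mapDomain oE) := by
    intro g
    induction g using Finsupp.induction_linear with
    | zero => rw [Finsupp.mapDomain_zero, Finsupp.mapDomain_zero, map_zero, sub_zero]; rfl
    | add g g' hg hg' =>
      rw [QuotientAddGroup.mk_add, hg, hg', Finsupp.mapDomain_add, Finsupp.mapDomain_add, map_add,
        map_add]
      abel
    | single e n =>
      rw [Finsupp.mapDomain_single, Finsupp.mapDomain_single, hΘ, hΘ, ← zsmul_sub]
      have h1 : θ (tE x y z e) - θ (oE e) = ce x y z e.b e.i := by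
        change θ (e.b * gn x y z e.i) - θ e.b = _
        rw [hθ, add_sub_cancel_left]
      rw [h1]
      unfold ce
      rw [← QuotientAddGroup.mk_zsmul, Finsupp.smul_single, smul_eq_mul, mul_one]
  have h1 := key g
  rw [hg, sub_self, QuotientAddGroup.eq_zero_iff] at h1
  exact h1

/-! ### the boundary of a boundary -/

theorem map_t (g : Ed G →₀ ℤ) (h : G) :
    (g.mapDomain (tE x y z)) h = ∑ i, g ⟨h * (gn x y z i)⁻¹, i⟩ := by
  classical
  induction g using Finsupp.induction_linear with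
  | zero => simp
  | add g g' hg hg' =>
    rw [Finsupp.mapDomain_add, Finsupp.add_apply, hg, hg', ← Finset.sum_add_distrib]
    rfl
  | single e n =>
    obtain ⟨k, i⟩ := e
    rw [Finsupp.mapDomain_single, Finsupp.single_apply]
    rw [Finset.sum_eq_single i]
    · rw [Finsupp.single_apply]
      refine if_congr ?_ rfl rfl
      change k * gn x y z i = h ↔ _
      constructor
      · rintro rfl
        rw [mul_inv_cancel_right]
      · intro h1
        have h2 : k = h * (gn x y z i)⁻¹ := congrArg Ed.b h1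
        rw [h2]
        exact inv_mul_cancel_right _ _
    · intro j _ hj
      exact Finsupp.single_eq_of_ne fun h1 => hj (congrArg Ed.i h1)
    · intro h1
      exact absurd (Finset.mem_univ i) h1

theorem map_o (g : Ed G →₀ ℤ) (h : G) : (g.mapDomain oE) h = ∑ i, g ⟨h, i⟩ := by
  classical
  induction g using Finsupp.induction_linear with
  | zero => simp
  | add g g' hg hg' =>
    rw [Finsupp.mapDomain_add, Finsupp.add_apply, hg, hg', ← Finset.sum_add_distrib]
    rfl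
  | single e n =>
    obtain ⟨k, i⟩ := e
    rw [Finsupp.mapDomain_single, Finsupp.single_apply]
    rw [Finset.sum_eq_single i]
    · rw [Finsupp.single_apply]
      refine if_congr ?_ rfl rfl
      change k = h ↔ _
      constructor
      · rintro rfl
        rfl
      · intro h1
        exact congrArg Ed.b h1
    · intro j _ hj
      exact Finsupp.single_eq_of_ne fun h1 => hj (congrArg Ed.i h1)
    · intro h1
      exact absurd (Finset.mem_univ i) h1

theorem bd (hr : x * y * x⁻¹ * y⁻¹ * z * z = 1) (c : G →₀ ℤ) (g : Ed G →₀ ℤ)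
    (h : ∀ e, g e = c (lE x y e) - (sE e : ℤ) * c (rE x y z e)) :
    g.mapDomain (tE x y z) = g.mapDomain oE := by
  ext k
  rw [map_t, map_o, Fin.sum_univ_three, Fin.sum_univ_three, h, h, h, h, h, h]
  have e1 : z⁻¹ * (y * x * y⁻¹ * x⁻¹) = z := by
    have h1 : (x * y * x⁻¹ * y⁻¹) * (z * z) = 1 := by rw [← hr]; group
    have h2 : (x * y * x⁻¹ * y⁻¹)⁻¹ = z * z := inv_eq_of_mul_eq_one_right h1
    calc z⁻¹ * (y * x * y⁻¹ * x⁻¹) = z⁻¹ * (x * y * x⁻¹ * y⁻¹)⁻¹ := by group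
      _ = z := by rw [h2, inv_mul_cancel_left]
  have f1 : lE x y (⟨k * (gn x y z 0)⁻¹, 0⟩ : Ed G) = k * x⁻¹ := mul_one _
  have f2 : lE x y (⟨k * (gn x y z 1)⁻¹, 1⟩ : Ed G) = k * y⁻¹ * x⁻¹ := rfl
  have f3 : lE x y (⟨k * (gn x y z 2)⁻¹, 2⟩ : Ed G) = k * z := by
    change k * z⁻¹ * (y * x * y⁻¹ * x⁻¹) = _
    rw [mul_assoc, e1]
  have f4 : rE x y z (⟨k * (gn x y z 0)⁻¹, 0⟩ : Ed G) = k * y⁻¹ * x⁻¹ := by
    change k * x⁻¹ * (x * y⁻¹ * x⁻¹) = _
    group
  have f5 : rE x y z (⟨k * (gn x y z 1)⁻¹, 1⟩ : Ed G) = k * x * y⁻¹ * x⁻¹ := by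
    change k * y⁻¹ * (y * x * y⁻¹ * x⁻¹) = _
    group
  have f6 : rE x y z (⟨k * (gn x y z 2)⁻¹, 2⟩ : Ed G) = k := by
    change k * z⁻¹ * z = _
    group
  have f7 : lE x y (⟨k, 0⟩ : Ed G) = k := mul_one _
  have f8 : lE x y (⟨k, 1⟩ : Ed G) = k * x⁻¹ := rfl
  have f9 : lE x y (⟨k, 2⟩ : Ed G) = k * (y * x * y⁻¹ * x⁻¹) := rfl
  have g1 : rE x y z (⟨k, 0⟩ : Ed G) = k * x * y⁻¹ * x⁻¹ := by
    change k * (x * y⁻¹ * x⁻¹) = _
    group
  have g2 : rE x y z (⟨k, 1⟩ : Ed G) = k * (y * x * y⁻¹ * x⁻¹) := rfl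
  have g3 : rE x y z (⟨k, 2⟩ : Ed G) = k * z := rfl
  rw [f1, f2, f3, f4, f5, f6, f7, f8, f9, g1, g2, g3]
  have s0 : ∀ k : G, ((sE (⟨k, 0⟩ : Ed G) : ℤˣ) : ℤ) = 1 := fun _ => rfl
  have s1 : ∀ k : G, ((sE (⟨k, 1⟩ : Ed G) : ℤˣ) : ℤ) = 1 := fun _ => rfl
  have s2 : ∀ k : G, ((sE (⟨k, 2⟩ : Ed G) : ℤˣ) : ℤ) = -1 := fun _ => rfl
  rw [s0, s1, s2, s0, s1, s2]
  ring

/-! ### connectedness through the edges -/

theorem conn (hP : Pres x y z) (S : Set G) (hne : S.Nonempty)
    (hS : ∀ e, lE x y e ∈ S ↔ rE x y z e ∈ S) : S = Set.univ := by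
  obtain ⟨T, hT⟩ : ∃ T : Subgroup G, ∀ s, s ∈ T ↔ ∀ h, h ∈ S ↔ h * s ∈ S :=
    ⟨{ carrier := {s | ∀ h, h ∈ S ↔ h * s ∈ S}
       one_mem' := fun h => by rw [mul_one]
       mul_mem' := fun {a b} ha hb h => by rw [ha h, hb (h * a), mul_assoc]
       inv_mem' := fun {a} ha h => by rw [ha (h * a⁻¹), inv_mul_cancel_right] }, fun s => Iff.rfl⟩
  have t0 : x * y⁻¹ * x⁻¹ ∈ T := (hT _).2 fun h => by
    have h1 := hS ⟨h, 0⟩
    rw [show lE x y (⟨h, 0⟩ : Ed G) = h from mul_one _] at h1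
    exact h1
  have t1 : x * y * x * y⁻¹ * x⁻¹ ∈ T := (hT _).2 fun h => by
    have h1 := hS ⟨h * x, 1⟩
    have h2 : lE x y (⟨h * x, 1⟩ : Ed G) = h := mul_inv_cancel_right h x
    have h3 : rE x y z (⟨h * x, 1⟩ : Ed G) = h * (x * y * x * y⁻¹ * x⁻¹) := by
      change h * x * (y * x * y⁻¹ * x⁻¹) = _
      group
    rwa [h2, h3] at h1
  have tx : x ∈ T := by
    have h1 := mul_mem (mul_mem t0 t1) (inv_mem t0)
    have h2 : x * y⁻¹ * x⁻¹ * (x * y * x * y⁻¹ * x⁻¹) * (x * y⁻¹ * x⁻¹)⁻¹ = x := by group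
    rwa [h2] at h1
  have ty : y ∈ T := by
    have h1 := inv_mem (mul_mem (mul_mem (inv_mem tx) t0) tx)
    have h2 : (x⁻¹ * (x * y⁻¹ * x⁻¹) * x)⁻¹ = y := by group
    rwa [h2] at h1
  have tz : z ∈ T := by
    have h4 : y * x * y⁻¹ * x⁻¹ ∈ T := mul_mem (mul_mem (mul_mem ty tx) (inv_mem ty)) (inv_mem tx)
    refine (hT _).2 fun h => ?_
    rw [(hT _).1 h4 h]
    exact hS ⟨h, 2⟩
  have hTop : T = ⊤ := by
    rw [eq_top_iff, ← hP.gen, Subgroup.closure_le]
    rintro _ ⟨i, rfl⟩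
    fin_cases i
    · exact tx
    · exact ty
    · exact tz
  obtain ⟨h, hh⟩ := hne
  refine Set.eq_univ_of_forall fun k => ?_
  have h1 : h⁻¹ * k ∈ T := by rw [hTop]; trivial
  have h2 := ((hT _).1 h1 h).1 hh
  rwa [mul_inv_cancel_left] at h2

/-- **the plane** -/
def plane (hP : Pres x y z) : PlaneCx G G (Ed G) G where
  o := oE
  t := tE x y z
  l := lE x y
  r := rE x y z
  s := sE
  ho h e := rfl
  ht h e := mul_assoc _ _ _
  hl h e := mul_assoc _ _ _
  hr h e := mul_assoc _ _ _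
  hs h e := rfl
  freeV h x hx := mul_eq_right.1 hx
  freeE h e he := mul_eq_right.1 (congrArg Ed.b he)
  freeF h x hx := mul_eq_right.1 hx
  finV := by
    refine Finite.of_surjective (fun _ : Unit => (Quotient.mk _ (1 : G) :
      MulAction.orbitRel.Quotient G G)) fun q => ?_
    obtain ⟨g, rfl⟩ := Quotient.exists_rep q
    exact ⟨(), Quotient.sound ⟨g⁻¹, inv_mul_cancel g⟩⟩
  finE := by
    refine Finite.of_surjective (fun i : Fin 3 => (Quotient.mk _ (⟨1, i⟩ : Ed G) :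
      MulAction.orbitRel.Quotient G (Ed G))) fun q => ?_
    obtain ⟨⟨g, i⟩, rfl⟩ := Quotient.exists_rep q
    exact ⟨i, Quotient.sound ⟨g⁻¹, Ed.ext (inv_mul_cancel g) rfl⟩⟩
  finF := by
    refine Finite.of_surjective (fun _ : Unit => (Quotient.mk _ (1 : G) :
      MulAction.orbitRel.Quotient G G)) fun q => ?_
    obtain ⟨g, rfl⟩ := Quotient.exists_rep q
    exact ⟨(), Quotient.sound ⟨g⁻¹, inv_mul_cancel g⟩⟩
  ne := ⟨1⟩
  ex0 := ex0 x y z hP.gen
  ex1 := ex1 hP
  bd := bd hP.rel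
  connF := conn hP

end

end Pool.Agent.PLS.NS
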