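import Mathlib
import Pool.Agent.Lib.PLS.InstPlane
import Pool.Agent.Lib.UP25.ClassT
import Pool.Agent.Lib.MP_98022b_hn.HNNTree

/-!
# T4: the closed surface of Euler characteristic `-1`: the tree of a cyclic splitting

The group with generators `x`, `y`, `z` and the defining relation `x y x⁻¹ y⁻¹ z z = 1` is an HNN
extension of the free group on `y`, `z` with stable letter `x` and `x y x⁻¹ = z⁻¹ z⁻¹ y`.
-/

set_option autoImplicit false
set_option linter.unusedSectionVars false
set_option linter.unusedVariables false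

open Pool.Agent.UP Pool.Agent.UP25 Pool.Agent.HN HNNExtension

namespace Pool.Agent.PLS.NS

/-- the free group on `y`, `z` -/
abbrev F2 : Type := FreeGroup (Fin 2)

/-- the letters -/
def ly : F2 := FreeGroup.of 0

/-- the letters -/
def lz : F2 := FreeGroup.of 1

/-- `y ↦ z⁻¹ z⁻¹ y`, `z ↦ z` -/
def al : F2 →* F2 := FreeGroup.lift ![lz⁻¹ * lz⁻¹ * ly, lz]

/-- `y ↦ z z y`, `z ↦ z` -/
def al' : F2 →* F2 := FreeGroup.lift ![lz * lz * ly, lz]

theorem al_y : al ly = lz⁻¹ * lz⁻¹ * ly := FreeGroup.lift_apply_of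

theorem al_z : al lz = lz := FreeGroup.lift_apply_of

theorem al'_y : al' ly = lz * lz * ly := FreeGroup.lift_apply_of

theorem al'_z : al' lz = lz := FreeGroup.lift_apply_of

theorem al_inj : Function.Injective al := by
  have h : al'.comp al = MonoidHom.id F2 := by
    refine FreeGroup.ext_hom _ _ fun i => ?_
    fin_cases i
    · change al' (al ly) = ly
      rw [al_y, map_mul, map_mul, map_inv, al'_z, al'_y]
      group
    · change al' (al lz) = lz
      rw [al_z, al'_z]
  intro a b hab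
  have h1 : al' (al a) = a := DFunLike.congr_fun h a
  have h2 : al' (al b) = b := DFunLike.congr_fun h b
  rw [← h1, hab, h2]

/-- the first edge group -/
abbrev gA : Subgroup F2 := Subgroup.zpowers ly

/-- the second edge group -/
abbrev gB : Subgroup F2 := gA.map al

/-- the isomorphism -/
noncomputable def ph : gA ≃* gB := gA.equivMapOfInjective al al_inj

theorem ph_coe (a : gA) : (ph a : F2) = al a := rfl

/-- the HNN extension -/
abbrev N0 : Type := HNNExtension F2 gA gB ph

/-- the generators -/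
noncomputable def gx : N0 := t

/-- the generators -/
noncomputable def gy : N0 := of ly

/-- the generators -/
noncomputable def gz : N0 := of lz

theorem rel0 : gx * gy * gx⁻¹ * gy⁻¹ * gz * gz = 1 := by
  have h1 : (of (ph ⟨ly, Subgroup.mem_zpowers ly⟩ : F2) : N0) = t * of ly * t⁻¹ :=
    equiv_eq_conj ⟨ly, Subgroup.mem_zpowers ly⟩
  rw [ph_coe, al_y, map_mul, map_mul, map_inv] at h1
  have h2 : gx * gy * gx⁻¹ = gz⁻¹ * gz⁻¹ * gy := h1.symm
  rw [h2]
  group

theorem pres0 : Pres gx gy gz where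
  gen := by
    obtain ⟨S, hS⟩ : ∃ S, S = Subgroup.closure (Set.range (gn gx gy gz)) := ⟨_, rfl⟩
    have hx : gx ∈ S := by rw [hS]; exact Subgroup.subset_closure ⟨0, rfl⟩
    have hy : gy ∈ S := by rw [hS]; exact Subgroup.subset_closure ⟨1, rfl⟩
    have hz : gz ∈ S := by rw [hS]; exact Subgroup.subset_closure ⟨2, rfl⟩
    have hF : ∀ f : F2, (of f : N0) ∈ S := by
      intro f
      induction f using FreeGroup.induction_on with
      | C1 => rw [map_one]; exact one_mem _
      | of i =>
        fin_cases i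
        · exact hy
        · exact hz
      | inv_of i hi => rw [map_inv]; exact inv_mem hi
      | mul a b ha hb => rw [map_mul]; exact mul_mem ha hb
    rw [← hS, eq_top_iff]
    intro g _
    induction g using HNNExtension.induction_on with
    | of f => exact hF f
    | t => exact hx
    | mul a b ha hb => exact mul_mem (ha trivial) (hb trivial)
    | inv a ha => exact inv_mem (ha trivial)
  rel := rel0
  univ := by
    intro K _ a b c hr
    have h1 : a * b * a⁻¹ = c⁻¹ * c⁻¹ * b := by
      have h2 : a * b * a⁻¹ * (b⁻¹ * (c * c)) = 1 := by rw [← hr]; group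
      rw [eq_inv_of_mul_eq_one_left h2]
      group
    obtain ⟨f, hf⟩ : ∃ f : F2 →* K, f = FreeGroup.lift ![b, c] := ⟨_, rfl⟩
    have fy : f ly = b := by rw [hf]; exact FreeGroup.lift_apply_of
    have fz : f lz = c := by rw [hf]; exact FreeGroup.lift_apply_of
    refine ⟨HNNExtension.lift f a ?_, HNNExtension.lift_t _ _ _, ?_, ?_⟩
    · rintro ⟨_, n, rfl⟩
      rw [ph_coe]
      change a * f (ly ^ n) = f (al (ly ^ n)) * a
      rw [map_zpow, map_zpow, map_zpow, al_y, map_mul, map_mul, map_inv, fy, fz, ← h1, conj_zpow]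
      group
    · change HNNExtension.lift f a _ (of ly) = b
      rw [HNNExtension.lift_of, fy]
    · change HNNExtension.lift f a _ (of lz) = c
      rw [HNNExtension.lift_of, fz]

/-! ### the tree -/

/-- the degree of `y` -/
theorem exists_chi : ∃ χ : N0 →* Multiplicative ℤ, χ gy = Multiplicative.ofAdd 1 ∧ χ gz = 1 := by
  obtain ⟨f, -, h1, h2⟩ := pres0.univ (Multiplicative ℤ) 1 (Multiplicative.ofAdd 1) 1 (by simp)
  exact ⟨f, h1, h2⟩

theorem inf0 : Infinite N0 := by
  obtain ⟨χ, h1, -⟩ := exists_chi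
  refine Infinite.of_surjective χ fun n => ⟨gy ^ (Multiplicative.toAdd n), ?_⟩
  rw [map_zpow, h1]
  exact (Int.ofAdd_mul (1 : ℤ) _).symm.trans (by rw [one_mul]; rfl)

/-- the orientation -/
noncomputable def ori : Orient (hT ph) where
  P u v := ∃ g : N0, u = vx g ∧ v = vx (g * t)
  tot := by
    rintro u v ⟨g, e, rfl, rfl⟩
    rcases Int.units_eq_one_or e with rfl | rfl
    · exact Or.inl ⟨g, rfl, by rw [Units.val_one, zpow_one]⟩
    · refine Or.inr ⟨g * t ^ (((-1 : ℤˣ)) : ℤ), rfl, ?_⟩
      rw [Units.val_neg, Units.val_one, zpow_neg, zpow_one, inv_mul_cancel_right]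
  asym := by
    rintro u v - ⟨g, rfl, rfl⟩ ⟨g', h1, h2⟩
    obtain ⟨b, hb⟩ := vx_eq.1 h1
    obtain ⟨b', hb'⟩ := vx_eq.1 h2
    have e1 := congrArg (expo (φ := ph)) hb
    have e2 := congrArg (expo (φ := ph)) hb'
    rw [map_mul, map_mul, expo_of, expo_t, mul_one] at e1
    rw [map_mul, map_mul, expo_of, expo_t, e1] at e2
    have e3 := congrArg Multiplicative.toAdd e2
    simp only [toAdd_mul, toAdd_ofAdd, toAdd_one] at e3
    omega

/-- the action on the tree -/
noncomputable def tree : WAct N0 (HV ph) where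
  Γ := hT ph
  tree := hT_isTree
  adj h x y hxy := hT_smul h hxy
  or := ori
  orP := by
    rintro h _ _ ⟨g, rfl, rfl⟩
    exact ⟨h * g, rfl, by rw [mul_assoc]; rfl⟩
  finV := by
    refine Finite.of_surjective (fun _ : Unit => (Quotient.mk _ (vx (1 : N0)) :
      MulAction.orbitRel.Quotient N0 (HV ph))) fun q => ?_
    obtain ⟨v, rfl⟩ := Quotient.exists_rep q
    obtain ⟨g, rfl⟩ : ∃ g, vx g = v := QuotientGroup.mk_surjective v
    refine ⟨(), Quotient.sound ⟨g⁻¹, ?_⟩⟩
    change vx (g⁻¹ * g) = vx (1 : N0)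
    rw [inv_mul_cancel]

theorem finE : Finite (MulAction.orbitRel.Quotient N0 tree.E) := by
  have h0 : (hT ph).Adj (vx (1 : N0)) (vx (1 * t)) := by
    have h := hT_adj_t (φ := ph) 1 1
    rwa [Units.val_one, zpow_one] at h
  refine Finite.of_surjective (fun _ : Unit => (Quotient.mk _
    (⟨(vx (1 : N0), vx (1 * t)), h0, 1, rfl, rfl⟩ : tree.E) :
      MulAction.orbitRel.Quotient N0 tree.E)) fun q => ?_
  obtain ⟨⟨⟨u, v⟩, ha, g, h1, h2⟩, rfl⟩ := Quotient.exists_rep q
  dsimp only at h1 h2
  subst h1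
  subst h2
  refine ⟨(), Quotient.sound ⟨g⁻¹, Subtype.ext (Prod.ext ?_ ?_)⟩⟩
  · change vx (g⁻¹ * g) = vx (1 : N0)
    rw [inv_mul_cancel]
  · change vx (g⁻¹ * (g * t)) = vx (1 * t)
    rw [inv_mul_cancel_left, one_mul]

/-- Britton lemma -/
theorem mem_gB {b b' : F2} (h : (of b : N0) = t * of b' * t⁻¹) : b' ∈ gA := by
  by_contra hc
  let w : NormalWord.ReducedWord F2 gA gB := ⟨1, [(1, b'), (-1, 1)], by
    rw [List.isChain_cons_cons]
    exact ⟨fun h0 => absurd h0 hc, List.isChain_singleton _⟩⟩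
  have hw : w.prod ph = of b := by
    rw [h]
    simp only [w, NormalWord.ReducedWord.prod, List.map_cons, List.prod_cons, List.map_nil,
      List.prod_nil, map_one, one_mul, mul_one, Units.val_neg, Units.val_one, zpow_one, zpow_neg]
  have h6 := ReducedWord.toList_eq_nil_of_mem_of_range (φ := ph) w (by rw [hw]; exact ⟨b, rfl⟩)
  exact List.cons_ne_nil _ _ h6

theorem stabE (e : tree.E) : VPZ 1 (MulAction.stabilizer N0 e) := by
  obtain ⟨χ, hy, hz⟩ := exists_chi
  refine ⟨⊤, inferInstance, PolyZ.subgroup ?_ ⊤⟩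
  refine ⟨χ.comp (MulAction.stabilizer N0 e).subtype, ?_⟩
  change Subsingleton _
  refine ⟨fun a b => ?_⟩
  have key : ∀ a : (χ.comp (MulAction.stabilizer N0 e).subtype).ker, a.1.1 = 1 := by
    rintro ⟨⟨s, hs⟩, h0⟩
    change χ s = 1 at h0
    change s = 1
    obtain ⟨⟨u, v⟩, ha, g, h1, h2⟩ := e
    dsimp only at h1 h2
    subst h1
    subst h2
    have s1 : s • (vx g : HV ph) = vx g := congrArg (fun f : tree.E => f.1.1) hs
    have s2 : s • (vx (g * t) : HV ph) = vx (g * t) := congrArg (fun f : tree.E => f.1.2) hs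
    obtain ⟨b, hb⟩ := stab_vx.1 s1
    obtain ⟨b', hb'⟩ := stab_vx.1 s2
    have h3 : (of b : N0) = t * of b' * t⁻¹ := by
      have h4 : g * of b * g⁻¹ = g * t * of b' * (g * t)⁻¹ := by rw [← hb, ← hb']
      have h5 : g⁻¹ * (g * of b * g⁻¹) * g = g⁻¹ * (g * t * of b' * (g * t)⁻¹) * g := by rw [h4]
      have h6 : g⁻¹ * (g * of b * g⁻¹) * g = of b := by group
      have h7 : g⁻¹ * (g * t * of b' * (g * t)⁻¹) * g = t * of b' * t⁻¹ := by group
      rw [← h6, h5, h7]
    obtain ⟨n, hn⟩ := mem_gB h3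
    have hn' : b' = ly ^ n := hn.symm
    have h8 : χ s = χ (of b') := by
      rw [hb', map_mul, map_mul, map_inv, mul_comm, inv_mul_cancel_left]
    rw [h8, hn', map_zpow, map_zpow, show χ (of ly) = Multiplicative.ofAdd 1 from hy] at h0
    have h9 := congrArg Multiplicative.toAdd h0
    rw [toAdd_zpow, toAdd_ofAdd, toAdd_one, smul_eq_mul, mul_one] at h9
    rw [hb', hn', h9, zpow_zero, map_one, mul_one, mul_inv_cancel]
  exact Subtype.ext (Subtype.ext ((key a).trans (key b).symm))

theorem vtd_F2 : VTd 1 F2 := by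
  refine VTd.mono (Nat.zero_le 1) (vtd_of_vpfd inferInstance ⟨fun h hh => ?_, ⊤, Fin 2,
    (⊤ : Subgroup F2).subtype, inferInstance, ?_⟩)
  · by_contra h1
    exact not_isOfFinOrder_of_isMulTorsionFree h1 hh
  · change Subsingleton _
    refine ⟨fun a b => ?_⟩
    exact Subtype.ext (Subtype.ext ((show a.1.1 = 1 from a.2).trans (show b.1.1 = 1 from b.2).symm))

theorem stabV (v : HV ph) : Group.FG (MulAction.stabilizer N0 v) ∧
    VTd 1 (MulAction.stabilizer N0 v) := by
  obtain ⟨g, rfl⟩ : ∃ g, vx g = v := QuotientGroup.mk_surjective v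
  let f : F2 →* MulAction.stabilizer N0 (vx g : HV ph) :=
    { toFun := fun b => ⟨g * of b * g⁻¹, stab_vx.2 ⟨b, rfl⟩⟩
      map_one' := Subtype.ext (by
        change g * of 1 * g⁻¹ = 1
        rw [map_one, mul_one, mul_inv_cancel])
      map_mul' := fun a b => Subtype.ext (by
        change g * of (a * b) * g⁻¹ = g * of a * g⁻¹ * (g * of b * g⁻¹)
        rw [map_mul]
        group) }
  have hs : Function.Surjective f := by
    rintro ⟨s, hs⟩
    obtain ⟨b, hb⟩ := stab_vx.1 hs
    exact ⟨b, Subtype.ext hb.symm⟩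
  have hi : Function.Injective f := by
    intro a b hab
    have h1 : g * of a * g⁻¹ = g * of b * g⁻¹ := congrArg Subtype.val hab
    exact HNNExtension.of_injective ph (mul_left_cancel (mul_right_cancel h1))
  refine ⟨Group.fg_of_surjective hs, ?_⟩
  exact VTd.of_injective (MulEquiv.ofBijective f ⟨hi, hs⟩).symm.toMonoidHom
    (MulEquiv.injective _) vtd_F2

/-- the HNN extension is in the class -/
theorem surf0 : Surf 1 N0 :=
  ⟨inf0, ⟨N0, Ed N0, N0, inferInstance, inferInstance, inferInstance, ⟨plane pres0⟩⟩,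
    HV ph, inferInstance, tree, finE, stabE, stabV⟩

/-! ### the presented group -/

/-- the relator -/
def rel3 : FreeGroup (Fin 3) := FreeGroup.of 0 * FreeGroup.of 1 * (FreeGroup.of 0)⁻¹ *
  (FreeGroup.of 1)⁻¹ * FreeGroup.of 2 * FreeGroup.of 2

/-- the fundamental group of the closed non-orientable surface of Euler characteristic `-1` -/
abbrev N3 : Type := PresentedGroup ({rel3} : Set (FreeGroup (Fin 3)))

theorem exists_hom3 : ∃ f : N3 →* N0, Function.Injective f := by
  have h1 : ∀ r ∈ ({rel3} : Set (FreeGroup (Fin 3))), FreeGroup.lift (gn gx gy gz) r = 1 := by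
    intro r hr
    rw [Set.mem_singleton_iff.1 hr]
    unfold rel3
    simp only [map_mul, map_inv, FreeGroup.lift_apply_of]
    exact rel0
  obtain ⟨f, hf⟩ : ∃ f : N3 →* N0, f = PresentedGroup.toGroup h1 := ⟨_, rfl⟩
  have hof : ∀ i, f (PresentedGroup.of i) = gn gx gy gz i := by
    intro i
    rw [hf]
    exact PresentedGroup.toGroup.of h1
  have hrel : (PresentedGroup.of 0 : N3) * PresentedGroup.of 1 * (PresentedGroup.of 0)⁻¹ *
      (PresentedGroup.of 1)⁻¹ * PresentedGroup.of 2 * PresentedGroup.of 2 = 1 :=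
    PresentedGroup.one_of_mem (Set.mem_singleton _)
  obtain ⟨k, k0, k1, k2⟩ := pres0.univ N3 (PresentedGroup.of 0) (PresentedGroup.of 1)
    (PresentedGroup.of 2) hrel
  have h2 : k.comp f = MonoidHom.id N3 := by
    refine PresentedGroup.ext fun i => ?_
    change k (f (PresentedGroup.of i)) = PresentedGroup.of i
    rw [hof]
    fin_cases i
    · exact k0
    · exact k1
    · exact k2
  refine ⟨f, fun a b hab => ?_⟩
  have h3 : k (f a) = a := DFunLike.congr_fun h2 a
  have h4 : k (f b) = b := DFunLike.congr_fun h2 b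
  rw [← h3, hab, h4]

/-- **the subgroups of the surface group are in the class** -/
theorem psd_of_hom {H : Type} [Group H] (j : H →* N3) (hj : Function.Injective j) : PSd 1 H := by
  obtain ⟨f, hf⟩ := exists_hom3
  exact ⟨N0, inferInstance, f.comp j, hf.comp hj, surf0⟩

theorem isPS_of_hom {H : Type} [Group H] (j : H →* N3) (hj : Function.Injective j) : IsPS H :=
  ⟨1, psd_of_hom j hj⟩

end Pool.Agent.PLS.NS
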