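import Mathlib
import Pool.Agent.Lib.PLS.Rows

/-!
# T4: row L (lattices)  (helper93)
-/

set_option autoImplicit false
set_option linter.unusedSectionVars false

open MonoidAlgebra Pool.Agent.UP Pool.Agent.UPV Pool.Agent.UP25

namespace Pool.Agent.PLS

universe u

namespace LL

section
variable {A H : Type u} [CommRing A] [Group H] {W : Type u} [AddCommGroup W] [Module A[H] W]

/-- the action of `g` as an `A`-linear map -/
noncomputable def act (A : Type u) {H : Type u} [CommRing A] [Group H] (W : Type u)
    [AddCommGroup W] [Module A[H] W] (g : H) : Ra H W →ₗ[A] Ra H W where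
  toFun k := toRa H W ((single g 1 : A[H]) • (toRa H W).symm k)
  map_add' a b := by rw [map_add, smul_add, map_add]
  map_smul' a k := by
    change toRa H W ((single g 1 : A[H]) • ((single 1 a : A[H]) • (toRa H W).symm k)) =
      toRa H W ((single 1 a : A[H]) • ((single g 1 : A[H]) • (toRa H W).symm k))
    rw [smul_smul, smul_smul, single_mul_single, single_mul_single, mul_one, one_mul, mul_one,
      one_mul]

theorem act_apply (g : H) (m : W) : act A W g (toRa H W m) = toRa H W ((single g 1 : A[H]) • m) :=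
  rfl

theorem act_act (g h : H) (k : Ra H W) : act A W g (act A W h k) = act A W (g * h) k := by
  change toRa H W ((single g 1 : A[H]) • ((single h 1 : A[H]) • (toRa H W).symm k)) = _
  rw [smul_smul, single_mul_single, mul_one]
  rfl

theorem act_one (k : Ra H W) : act A W 1 k = k := by
  change toRa H W ((1 : A[H]) • (toRa H W).symm k) = k
  rw [one_smul]
  rfl

end

section
variable (H : Type u) [Group H] {X : Type u} [MulAction H X]

/-- the representative of the orbit -/
noncomputable def rp (x : X) : X := (Quotient.mk (MulAction.orbitRel H X) x).out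

theorem exists_gx (x : X) : ∃ g : H, g • rp H x = x := by
  have h : (MulAction.orbitRel H X).r (rp H x) x := Quotient.mk_out x
  obtain ⟨g, hg⟩ := (MulAction.orbitRel H X).symm h
  exact ⟨g, hg⟩

/-- the element which carries the representative to `x` -/
noncomputable def gx (x : X) : H := (exists_gx H x).choose

theorem gx_smul (x : X) : gx H x • rp H x = x := (exists_gx H x).choose_spec

theorem rp_smul (h : H) (x : X) : rp H (h • x) = rp H x := by
  unfold rp
  congr 1
  exact Quotient.sound (s := MulAction.orbitRel H X) ⟨h, rfl⟩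

variable {H}

theorem gx_mul (hf : ∀ (h : H) (x : X), h • x = x → h = 1) (h : H) (x : X) :
    gx H (h • x) = h * gx H x := by
  have h1 := gx_smul H (h • x)
  rw [rp_smul] at h1
  have h2 : (h * gx H x) • rp H x = h • x := by rw [mul_smul, gx_smul]
  have h3 : ((h * gx H x)⁻¹ * gx H (h • x)) • rp H x = rp H x := by
    rw [mul_smul, h1, ← h2, inv_smul_smul]
  have h4 := hf _ _ h3
  rw [inv_mul_eq_one] at h4
  exact h4.symm

end

section
variable {A H : Type u} [CommRing A] [Group H] {X : Type u} [MulAction H X] {W : Type u}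
  [AddCommGroup W] [Module A[H] W]

/-- the family `x ↦ g_x Λ` -/
noncomputable def fam (hf : ∀ (h : H) (x : X), h • x = x → h = 1) (Λ : Submodule A (Ra H W)) :
    EqFam A H X W where
  U x :=
    { carrier := {m | act A W (gx H x)⁻¹ (toRa H W m) ∈ Λ}
      add_mem' := by
        intro a b ha hb
        change act A W (gx H x)⁻¹ (toRa H W (a + b)) ∈ Λ
        rw [map_add, map_add]
        exact Λ.add_mem ha hb
      zero_mem' := by
        change act A W (gx H x)⁻¹ (toRa H W 0) ∈ Λ
        rw [map_zero, map_zero]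
        exact Λ.zero_mem
      neg_mem' := by
        intro a ha
        change act A W (gx H x)⁻¹ (toRa H W (-a)) ∈ Λ
        rw [map_neg, map_neg]
        exact Λ.neg_mem ha }
  mem h a x m hm := by
    change act A W (gx H (h • x))⁻¹ (toRa H W ((single h a : A[H]) • m)) ∈ Λ
    have h1 : toRa H W ((single h a : A[H]) • m) = act A W h (a • toRa H W m) := by
      change _ = toRa H W ((single h 1 : A[H]) • ((single 1 a : A[H]) • m))
      rw [smul_smul, single_mul_single, mul_one, one_mul]
    rw [h1, act_act, gx_mul hf, mul_inv_rev, inv_mul_cancel_right, map_smul]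
    exact Λ.smul_mem a hm

theorem mem_fam (hf : ∀ (h : H) (x : X), h • x = x → h = 1) (Λ : Submodule A (Ra H W)) (x : X)
    (m : W) : m ∈ (fam hf Λ).U x ↔ act A W (gx H x)⁻¹ (toRa H W m) ∈ Λ := Iff.rfl

theorem fib_fam (hf : ∀ (h : H) (x : X), h • x = x → h = 1) (Λ : Submodule A (Ra H W)) (x : X) :
    fib (fam hf Λ) x = Λ.map (act A W (gx H x)) := by
  ext k
  rw [Submodule.mem_map]
  constructor
  · intro h
    refine ⟨act A W (gx H x)⁻¹ k, h, ?_⟩
    rw [act_act, mul_inv_cancel, act_one]
  · rintro ⟨y, hy, rfl⟩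
    change act A W (gx H x)⁻¹ (act A W (gx H x) y) ∈ Λ
    rw [act_act, inv_mul_cancel, act_one]
    exact hy

theorem fib_mono {F F' : EqFam A H X W} {x : X} (h : F.U x ≤ F'.U x) : fib F x ≤ fib F' x :=
  fun _ hk => h hk

theorem fg_of_le [IsNoetherianRing A] {M : Type u} [AddCommGroup M] [Module A M]
    {N N' : Submodule A M} (h : N ≤ N') (hN : N'.FG) : N.FG := by
  have := isNoetherian_of_fg_of_noetherian N' hN
  exact (isNoetherian_submodule.1 this) N h

end

section
variable {A H V E F : Type u} [CommRing A] [Group H] [MulAction H V] [MulAction H E]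
  [MulAction H F] (P : PlaneCx H V E F) {W : Type u} [AddCommGroup W] [Module A[H] W]

/-- the family on the edges -/
noncomputable def famE (Λ : Submodule A (Ra H W)) : EqFam A H E W where
  U e := (fam P.freeV Λ).U (P.o e) ⊓ (fam P.freeV Λ).U (P.t e)
  mem h a e m hm := by
    refine ⟨?_, ?_⟩
    · rw [P.ho]
      exact (fam P.freeV Λ).mem h a _ m hm.1
    · rw [P.ht]
      exact (fam P.freeV Λ).mem h a _ m hm.2

/-- the family on the faces -/
noncomputable def famF (Λ : Submodule A (Ra H W)) : EqFam A H F W where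
  U f := ⨅ e : {e : E // P.l e = f ∨ P.r e = f}, (famE P Λ).U e.1
  mem h a f m hm := by
    rw [AddSubgroup.mem_iInf] at hm ⊢
    rintro ⟨e, he⟩
    have h1 : P.l (h⁻¹ • e) = f ∨ P.r (h⁻¹ • e) = f := by
      rcases he with he | he
      · left
        rw [P.hl, he, inv_smul_smul]
      · right
        rw [P.hr, he, inv_smul_smul]
    have h2 := (famE P Λ).mem h a _ m (hm ⟨h⁻¹ • e, h1⟩)
    rwa [smul_inv_smul] at h2

theorem exists_edge [Infinite H] (f : F) : ∃ e : E, P.l e = f ∨ P.r e = f := by
  by_contra hne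
  push Not at hne
  have h1 := P.connF {f} (Set.singleton_nonempty f) fun e => by
    rw [Set.mem_singleton_iff, Set.mem_singleton_iff]
    exact ⟨fun h => absurd h (hne e).1, fun h => absurd h (hne e).2⟩
  obtain ⟨h, hh⟩ := exists_ne (1 : H)
  apply hh
  apply P.freeF h f
  have h2 : h • f ∈ ({f} : Set F) := by
    rw [h1]
    exact Set.mem_univ _
  exact h2

/-- the lattices given by `Λ` -/
noncomputable def lat [IsNoetherianRing A] [Infinite H] (Λ : Submodule A (Ra H W)) (hΛ : Λ.FG) :
    Latt A P W where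
  fV := fam P.freeV Λ
  fE := famE P Λ
  fF := famF P Λ
  fgV x := by
    rw [fib_fam]
    exact hΛ.map _
  fgE e := by
    refine fg_of_le (N' := fib (fam P.freeV Λ) (P.o e)) (fun k hk => hk.1) ?_
    rw [fib_fam]
    exact hΛ.map _
  fgF f := by
    obtain ⟨e, he⟩ := exists_edge P f
    refine fg_of_le (N' := fib (fam P.freeV Λ) (P.o e)) (fun k hk => ?_) ?_
    · have h1 := (AddSubgroup.mem_iInf.1 hk) ⟨e, he⟩
      exact h1.1
    · rw [fib_fam]
      exact hΛ.map _
  lo e := inf_le_left
  lt e := inf_le_right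
  ll e := iInf_le (fun e' : {e' : E // P.l e' = P.l e ∨ P.r e' = P.l e} => (famE P Λ).U e'.1)
    ⟨e, Or.inl rfl⟩
  lr e := iInf_le (fun e' : {e' : E // P.l e' = P.r e ∨ P.r e' = P.r e} => (famE P Λ).U e'.1)
    ⟨e, Or.inr rfl⟩

end

section
variable {A H : Type u} [CommRing A] [Group H] {W : Type u} [AddCommGroup W] [Module A[H] W]

theorem finite_range {ι : Type*} {M : Type*} [Zero M] (φ : ι → M) (h : {i | φ i ≠ 0}.Finite) :
    (Set.range φ).Finite := by
  refine ((h.image φ).union (Set.finite_singleton 0)).subset ?_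
  rintro _ ⟨i, rfl⟩
  by_cases hi : φ i = 0
  · exact Or.inr hi
  · exact Or.inl ⟨i, hi, rfl⟩

theorem finite_val {X : Type u} [MulAction H X] (x : Tw A H X W) : {y | val y x ≠ 0}.Finite := by
  refine (Finsupp.hasFiniteSupport (x : X →₀ W)).subset ?_
  intro y hy
  exact hy

theorem finite_fibre {E F : Type u} [MulAction H E] [MulAction H F] (l : E → F)
    (hl : ∀ (h : H) (e : E), l (h • e) = h • l e) (freeF : ∀ (h : H) (x : F), h • x = x → h = 1)
    (finE : Finite (MulAction.orbitRel.Quotient H E)) (f : F) : {e | l e = f}.Finite := by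
  have h1 : Function.Injective fun e : {e | l e = f} =>
      (Quotient.mk (MulAction.orbitRel H E) e.1 : MulAction.orbitRel.Quotient H E) := by
    rintro ⟨e, he⟩ ⟨e', he'⟩ h
    obtain ⟨g, hg⟩ := (Quotient.exact h : (MulAction.orbitRel H E).r e e')
    have hg' : g • e' = e := hg
    have h2 : g • f = f := by
      have h3 := hl g e'
      rw [hg'] at h3
      have he1 : l e = f := he
      have he2 : l e' = f := he'
      rw [he1, he2] at h3
      exact h3.symm
    have h4 := freeF g f h2
    rw [h4, one_smul] at hg'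
    exact Subtype.ext hg'.symm
  have := Finite.of_injective _ h1
  exact Set.toFinite _

theorem finite_pre {X Y : Type*} (s : Y → X) (hs : ∀ x, {y | s y = x}.Finite) {S : Set X}
    (hS : S.Finite) : {y | s y ∈ S}.Finite := by
  have h : {y | s y ∈ S} = ⋃ x ∈ S, {y | s y = x} := by
    ext y
    simp
  rw [h]
  exact hS.biUnion fun x _ => hs x

end

end LL

open LL

/-- **ROW L** -/
theorem rowL (A : Type u) {H V E F : Type u} [CommRing A] [StarRing A] [Group H] [MulAction H V]
    [MulAction H E] [MulAction H F] (P : PlaneCx H V E F) (W : Type u) [AddCommGroup W]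
    [Module A[H] W] : RowL A P W := by
  intro hA hH
  refine ⟨⟨lat P ⊥ Submodule.fg_bot⟩, ?_⟩
  intro L sV sE sF
  -- the finite set of elements
  let nm : V → W → Ra H W := fun v m => act A W (gx H v)⁻¹ (toRa H W m)
  have nm0 : ∀ v, nm v 0 = 0 := fun v => by
    change act A W (gx H v)⁻¹ (toRa H W 0) = 0
    rw [map_zero, map_zero]
  let G1 : Set (Ra H W) := ⋃ x ∈ sV, Set.range fun v : V => nm v (val v x)
  let G2 : Set (Ra H W) := ⋃ x ∈ sE, ((Set.range fun e : E => nm (P.o e) (val e x)) ∪
    Set.range fun e : E => nm (P.t e) (val e x))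
  let G3 : Set (Ra H W) := ⋃ x ∈ sF, ((((Set.range fun e : E => nm (P.o e) (val (P.l e) x)) ∪
    Set.range fun e : E => nm (P.t e) (val (P.l e) x)) ∪
    Set.range fun e : E => nm (P.o e) (val (P.r e) x)) ∪
    Set.range fun e : E => nm (P.t e) (val (P.r e) x))
  have hl : ∀ x : Tw A H F W, {e | val (P.l e) x ≠ 0}.Finite := fun x =>
    finite_pre P.l (finite_fibre (H := H) P.l P.hl P.freeF P.finE) (finite_val x)
  have hr : ∀ x : Tw A H F W, {e | val (P.r e) x ≠ 0}.Finite := fun x =>
    finite_pre P.r (finite_fibre (H := H) P.r P.hr P.freeF P.finE) (finite_val x)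
  have hG1 : G1.Finite := by
    refine sV.finite_toSet.biUnion fun x _ => finite_range _ ?_
    refine (finite_val x).subset ?_
    intro v hv h
    exact hv (by simp only [h, nm0])
  have hG2 : G2.Finite := by
    refine sE.finite_toSet.biUnion fun x _ => ?_
    refine (finite_range _ ?_).union (finite_range _ ?_)
    · refine (finite_val x).subset ?_
      intro v hv h
      exact hv (by simp only [h, nm0])
    · refine (finite_val x).subset ?_
      intro v hv h
      exact hv (by simp only [h, nm0])
  have hG3 : G3.Finite := by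
    refine sF.finite_toSet.biUnion fun x _ => ?_
    refine (((finite_range _ ?_).union (finite_range _ ?_)).union (finite_range _ ?_)).union
      (finite_range _ ?_)
    · refine (hl x).subset ?_
      intro v hv h
      exact hv (by simp only [h, nm0])
    · refine (hl x).subset ?_
      intro v hv h
      exact hv (by simp only [h, nm0])
    · refine (hr x).subset ?_
      intro v hv h
      exact hv (by simp only [h, nm0])
    · refine (hr x).subset ?_
      intro v hv h
      exact hv (by simp only [h, nm0])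
  have hfin := P.finV
  let Λ : Submodule A (Ra H W) := Submodule.span A (G1 ∪ G2 ∪ G3) ⊔
    ⨆ q : MulAction.orbitRel.Quotient H V, fib L.fV q.out
  have hΛ : Λ.FG := by
    refine Submodule.FG.sup ?_ ?_
    · exact Submodule.fg_span ((hG1.union hG2).union hG3)
    · exact Submodule.fg_iSup _ fun q => L.fgV _
  have hsp : ∀ y, y ∈ G1 ∨ y ∈ G2 ∨ y ∈ G3 → y ∈ Λ := by
    intro y hy
    refine Submodule.mem_sup_left (Submodule.subset_span ?_)
    rcases hy with hy | hy | hy
    · exact Or.inl (Or.inl hy)
    · exact Or.inl (Or.inr hy)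
    · exact Or.inr hy
  have hV : ∀ x, L.fV.U x ≤ (lat P Λ hΛ).fV.U x := by
    intro x m hm
    change act A W (gx H x)⁻¹ (toRa H W m) ∈ Λ
    refine Submodule.mem_sup_right ?_
    refine Submodule.mem_iSup_of_mem (Quotient.mk (MulAction.orbitRel H V) x) ?_
    change (toRa H W).symm (act A W (gx H x)⁻¹ (toRa H W m)) ∈ L.fV.U (rp H x)
    have h1 := L.fV.mem (gx H x)⁻¹ 1 x m hm
    have h2 : (gx H x)⁻¹ • x = rp H x := by
      rw [inv_smul_eq_iff, gx_smul]
    rw [h2] at h1
    exact h1
  have hE : ∀ e, L.fE.U e ≤ (lat P Λ hΛ).fE.U e := fun e =>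
    le_inf ((L.lo e).trans (hV _)) ((L.lt e).trans (hV _))
  have hF : ∀ f, L.fF.U f ≤ (lat P Λ hΛ).fF.U f := by
    intro f
    refine le_iInf ?_
    rintro ⟨e, he⟩
    rcases he with he | he
    · subst he
      exact (L.ll e).trans (hE e)
    · subst he
      exact (L.lr e).trans (hE e)
  refine ⟨lat P Λ hΛ, ⟨hV, hE, hF⟩, ?_, ?_, ?_⟩
  · intro x hx v
    change nm v (val v x) ∈ Λ
    refine hsp _ (Or.inl ?_)
    exact Set.mem_biUnion hx ⟨v, rfl⟩
  · intro x hx e
    refine ⟨?_, ?_⟩
    · change nm (P.o e) (val e x) ∈ Λ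
      exact hsp _ (Or.inr (Or.inl (Set.mem_biUnion hx (Or.inl ⟨e, rfl⟩))))
    · change nm (P.t e) (val e x) ∈ Λ
      exact hsp _ (Or.inr (Or.inl (Set.mem_biUnion hx (Or.inr ⟨e, rfl⟩))))
  · intro x hx f
    change val f x ∈ (famF P Λ).U f
    refine AddSubgroup.mem_iInf.2 ?_
    rintro ⟨e, he⟩
    rcases he with he | he
    · subst he
      refine ⟨?_, ?_⟩
      · change nm (P.o e) (val (P.l e) x) ∈ Λ
        exact hsp _ (Or.inr (Or.inr (Set.mem_biUnion hx (Or.inl (Or.inl (Or.inl ⟨e, rfl⟩))))))
      · change nm (P.t e) (val (P.l e) x) ∈ Λ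
        exact hsp _ (Or.inr (Or.inr (Set.mem_biUnion hx (Or.inl (Or.inl (Or.inr ⟨e, rfl⟩))))))
    · subst he
      refine ⟨?_, ?_⟩
      · change nm (P.o e) (val (P.r e) x) ∈ Λ
        exact hsp _ (Or.inr (Or.inr (Set.mem_biUnion hx (Or.inl (Or.inr ⟨e, rfl⟩)))))
      · change nm (P.t e) (val (P.r e) x) ∈ Λ
        exact hsp _ (Or.inr (Or.inr (Set.mem_biUnion hx (Or.inr ⟨e, rfl⟩))))

end Pool.Agent.PLS
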