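import Mathlib
import Pool.Agent.Lib.PLS.Rows

/-!
# T4, row M: the maps of the chain complex of a plane (helper69)
-/

set_option autoImplicit false
set_option linter.unusedSectionVars false
set_option linter.unusedVariables false

open MonoidAlgebra Pool.Agent.UP Pool.Agent.UPV Pool.Agent.UP25

namespace Pool.Agent.PLS

universe u

/-- the fibres of an equivariant map to a free set are finite, if there are finitely many orbits -/
theorem rowM_fibre {H X Y : Type u} [Group H] [MulAction H X] [MulAction H Y] (f : X → Y)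
    (hf : ∀ (h : H) (x : X), f (h • x) = h • f x) (free : ∀ (h : H) (y : Y), h • y = y → h = 1)
    (fin : Finite (MulAction.orbitRel.Quotient H X)) (y : Y) : {x | f x = y}.Finite := by
  refine Set.Finite.of_injOn (f := fun x => (Quotient.mk'' x : MulAction.orbitRel.Quotient H X))
    (t := Set.univ) (fun _ _ => Set.mem_univ _) ?_ (Set.finite_univ)
  intro x hx x' hx' hxx
  have h1 : MulAction.orbitRel H X x x' := Quotient.eq''.1 hxx
  obtain ⟨h, hh⟩ := h1
  replace hh : h • x' = x := hh
  have h2 : h • y = y := by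
    have h3 : f (h • x') = h • f x' := hf h x'
    rw [hh, show f x = y from hx, show f x' = y from hx'] at h3
    exact h3.symm
  rw [free h y h2, one_smul] at hh
  exact hh.symm

section
variable {A : Type u} {H V E F : Type u} [CommRing A] [Group H] [MulAction H V] [MulAction H E]
  [MulAction H F]

/-- the additive map `w ↦ [x] w` -/
noncomputable def rowM_mk (A H : Type u) {X W : Type u} [AddCommGroup W] (x : X) :
    W →+ Tw A H X W where
  toFun := Tw.mk A H x
  map_zero' := Finsupp.single_zero x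
  map_add' := Tw.mk_add A H x

theorem rowM_mk_apply {X W : Type u} [AddCommGroup W] (x : X) (w : W) :
    rowM_mk A H x w = Tw.mk A H x w := rfl

variable (P : PlaneCx H V E F)

/-- the edges with `l e = f` -/
noncomputable def rowM_L (f : F) : Finset E :=
  (rowM_fibre P.l P.hl P.freeF P.finE f).toFinset

/-- the edges with `r e = f` -/
noncomputable def rowM_R (f : F) : Finset E :=
  (rowM_fibre P.r P.hr P.freeF P.finE f).toFinset

theorem mem_rowM_L (f : F) (e : E) : e ∈ rowM_L P f ↔ P.l e = f := by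
  unfold rowM_L
  rw [Set.Finite.mem_toFinset]
  exact Iff.rfl

theorem mem_rowM_R (f : F) (e : E) : e ∈ rowM_R P f ↔ P.r e = f := by
  unfold rowM_R
  rw [Set.Finite.mem_toFinset]
  exact Iff.rfl

variable {W : Type u} [AddCommGroup W] [Module A[H] W]

variable (A W) in
/-- the boundary of a face -/
noncomputable def rowM_d2 (f : F) : W →+ Tw A H E W :=
  ∑ e ∈ rowM_L P f, rowM_mk A H e - ∑ e ∈ rowM_R P f, (P.s e : ℤ) • rowM_mk A H e

theorem rowM_d2_apply (f : F) (w : W) : rowM_d2 A P W f w =
    ∑ e ∈ rowM_L P f, Tw.mk A H e w - ∑ e ∈ rowM_R P f, (P.s e : ℤ) • Tw.mk A H e w := by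
  unfold rowM_d2
  rw [AddMonoidHom.sub_apply, AddMonoidHom.finsetSum_apply, AddMonoidHom.finsetSum_apply]
  rfl

theorem rowM_d2_equiv (g : H) (a : A) (f : F) (w : W) :
    rowM_d2 A P W (g • f) ((single g a : A[H]) • w) = (single g a : A[H]) • rowM_d2 A P W f w := by
  rw [rowM_d2_apply, rowM_d2_apply, smul_sub, Finset.smul_sum, Finset.smul_sum]
  congr 1
  · refine (Finset.sum_bij (fun e _ => g • e) (fun e he => ?_) (fun e _ e' _ h => ?_)
      (fun e he => ⟨g⁻¹ • e, ?_, ?_⟩) (fun e _ => ?_)).symm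
    · rw [mem_rowM_L] at he ⊢
      rw [P.hl, he]
    · exact MulAction.injective g h
    · rw [mem_rowM_L] at he ⊢
      rw [P.hl, he, inv_smul_smul]
    · exact smul_inv_smul g e
    · exact Tw.single_smul A H g a e w
  · refine (Finset.sum_bij (fun e _ => g • e) (fun e he => ?_) (fun e _ e' _ h => ?_)
      (fun e he => ⟨g⁻¹ • e, ?_, ?_⟩) (fun e _ => ?_)).symm
    · rw [mem_rowM_R] at he ⊢
      rw [P.hr, he]
    · exact MulAction.injective g h
    · rw [mem_rowM_R] at he ⊢
      rw [P.hr, he, inv_smul_smul]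
    · exact smul_inv_smul g e
    · rw [smul_comm, Tw.single_smul, P.hs]

theorem rowM_val_mk [DecidableEq E] (e e' : E) (w : W) :
    val e (Tw.mk A H e' w) = if e' = e then w else 0 := by
  by_cases h : e' = e
  · subst h
    rw [if_pos rfl]
    exact val_mk_same e' w
  · rw [if_neg h]
    exact val_mk_ne h w

theorem rowM_val_d2 (f : F) (w : W) (e : E) : val e (rowM_d2 A P W f w) =
    val (P.l e) (Tw.mk A H f w) - (P.s e : ℤ) • val (P.r e) (Tw.mk A H f w) := by
  classical
  rw [rowM_d2_apply, map_sub, map_sum, map_sum]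
  congr 1
  · simp only [rowM_val_mk]
    rw [Finset.sum_ite_eq' (rowM_L P f) e (fun _ => w)]
    by_cases h : P.l e = f
    · rw [if_pos ((mem_rowM_L P f e).2 h), if_pos h.symm]
    · rw [if_neg (fun h2 => h ((mem_rowM_L P f e).1 h2)), if_neg (Ne.symm h)]
  · simp only [map_zsmul, rowM_val_mk, smul_ite, smul_zero]
    rw [Finset.sum_ite_eq' (rowM_R P f) e (fun e => (P.s e : ℤ) • w)]
    by_cases h : P.r e = f
    · rw [if_pos ((mem_rowM_R P f e).2 h), if_pos h.symm]
    · rw [if_neg (fun h2 => h ((mem_rowM_R P f e).1 h2)), if_neg (Ne.symm h)]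

end

/-- **ROW M** -/
theorem rowM (A : Type u) {H V E F : Type u} [CommRing A] [Group H] [MulAction H V]
    [MulAction H E] [MulAction H F] (P : PlaneCx H V E F) (W : Type u) [AddCommGroup W]
    [Module A[H] W] : RowM A P W := by
  have h1 : ∀ (g : H) (a : A) (e : E) (w : W),
      (rowM_mk A H (P.t (g • e)) - rowM_mk A H (P.o (g • e)) : W →+ Tw A H V W)
        ((single g a : A[H]) • w) =
      (single g a : A[H]) • (rowM_mk A H (P.t e) - rowM_mk A H (P.o e) : W →+ Tw A H V W) w := by
    intro g a e w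
    rw [AddMonoidHom.sub_apply, AddMonoidHom.sub_apply, smul_sub, P.ht, P.ho]
    change Tw.mk A H (g • P.t e) _ - Tw.mk A H (g • P.o e) _ = (single g a : A[H]) •
      Tw.mk A H (P.t e) w - (single g a : A[H]) • Tw.mk A H (P.o e) w
    rw [Tw.single_smul, Tw.single_smul]
  refine ⟨{
    ε := Tw.lift A H (fun _ : V => AddMonoidHom.id W) (fun _ _ _ _ => rfl)
    d1 := Tw.lift A H (fun e : E => rowM_mk A H (P.t e) - rowM_mk A H (P.o e)) h1
    d2 := Tw.lift A H (rowM_d2 A P W) (rowM_d2_equiv P)
    hε := fun x w => Tw.lift_mk A H (fun _ : V => AddMonoidHom.id W) (fun _ _ _ _ => rfl) x w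
    hd1 := fun e w => Tw.lift_mk A H _ h1 e w
    hd2 := fun c e => ?_ }⟩
  have h2 : (val e : Tw A H E W →+ W).comp
      (Tw.lift A H (rowM_d2 A P W) (rowM_d2_equiv P)).toAddMonoidHom =
      (val (P.l e) : Tw A H F W →+ W) - (P.s e : ℤ) • (val (P.r e) : Tw A H F W →+ W) := by
    refine Tw.addHom_ext (A := A) (H := H) fun f w => ?_
    change val e (Tw.lift A H (rowM_d2 A P W) (rowM_d2_equiv P) (Tw.mk A H f w)) = _
    rw [Tw.lift_mk, rowM_val_d2]
    rfl
  exact DFunLike.congr_fun h2 c

end Pool.Agent.PLS
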