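import Mathlib
import Pool.Agent.Lib.PLS.RowsMain
import Pool.Agent.Lib.PLS.F2

/-!
# T4, row MAIN (helper36): the main theorem for `IsVT` together with an arbitrary class
-/

set_option autoImplicit false
set_option linter.unusedSectionVars false
set_option linter.unusedVariables false

open MonoidAlgebra Pool.Agent.UP Pool.Agent.UPV Pool.Agent.UP25
open Pool.Agent.Lib.MP_98022b_UM Pool.Agent.Lib.MP_98022b_UM.UF

namespace Pool.Agent.PLS

universe u v w

/-- the facts are monotone in the bound -/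
theorem facts4_mono {S : Type u} [Ring S] {g g' : ℕ} (hg : g ≤ g')
    (h : Facts4 S g) : Facts4 S g' :=
  ⟨h.coh, h.pd, h.aus1, h.ausW, h.func, fun K _ _ deg e d i₀ h1 h2 j hj =>
    h.fin K deg e d i₀ h1 h2 j (by omega)⟩

/-- **the main theorem for `IsVT` together with a class `Q`** which is monotone, closed under
injective homomorphisms, and whose finitely generated members have the facts -/
theorem main_vt_or {A : Type u} [CommRing A] [StarRing A]
    {Q : ℕ → (H : Type v) → [Group H] → Prop}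
    (qmono : ∀ {d e : ℕ} (H : Type v) [Group H], d ≤ e → Q d H → Q e H)
    (qinj : ∀ {d : ℕ} {H K : Type v} [Group H] [Group K] (f : K →* H), Function.Injective f →
      Q d H → Q d K)
    (qfacts : ∀ d : ℕ, ∃ g : ℕ, ∀ (H : Type v) [Group H], Group.FG H → Q d H →
      Facts4 (MonoidAlgebra A H) g)
    [IsNoetherianRing A] (hA : AR A) {g : ℕ} (hg : FL A g)
    {Ω G : Type v} [Group G] {E : BSys Ω G} {χ : G →* ℤˣ} {ε : ℤ} (hG : E.Geo) (hN : E.NoInv)
    (hε : ε = 1 ∨ ε = -1)
    (hE : ∀ ω, ∀ H : Subgroup G, H ≤ E.F ω → H.FG → IsVT H ∨ ∃ d, Q d H)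
    (X : BF E (Pool.Agent.Lib.MP_98022b_UN.barStr (A := A) χ) ε) : X.SMetab := by
  refine main_cls (P := fun d H _ => VTd d H ∨ Q d H) ?_ ?_ ?_ hG hN hε ?_ X
  · rintro d e H _ hde (h | h)
    · exact Or.inl (h.mono hde)
    · exact Or.inr (qmono H hde h)
  · rintro d H K _ _ f hf (h | h)
    · exact Or.inl (h.of_injective f hf)
    · exact Or.inr (qinj f hf h)
  · intro d
    obtain ⟨g', hg'⟩ := qfacts d
    refine ⟨max (g + d + 3) g', ?_⟩
    rintro H _ hfg (h | h)
    · exact facts4_mono (le_max_left _ _) (h.facts hA hg hfg)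
    · exact facts4_mono (le_max_right _ _) (hg' H hfg h)
  · intro ω H h1 h2
    rcases hE ω H h1 h2 with h | ⟨d, h⟩
    · obtain ⟨d, hd⟩ := isVT_iff.1 h
      exact ⟨d, Or.inl hd⟩
    · exact ⟨d, Or.inr h⟩

/-- `RowMain` for an arbitrary class `C` of groups -/
def RowMainC (C : (H : Type u) → [Group H] → Prop) (A : Type u) [CommRing A] [StarRing A] : Prop :=
  IsNoetherianRing A → AR A → ∀ g, FL A g → ∀ {Ω G : Type u} [Group G]
    {E : BSys Ω G} {χ : G →* ℤˣ} {ε : ℤ}, E.Geo → E.NoInv → (ε = 1 ∨ ε = -1) →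
    (∀ ω, ∀ H : Subgroup G, H ≤ E.F ω → H.FG → C H) →
    ∀ X : BF E (Pool.Agent.Lib.MP_98022b_UN.barStr (A := A) χ) ε,
      X.SMetab

/-- **ROW MAIN for `IsVT` together with a class `Q`** -/
theorem rowMainC {Q : ℕ → (H : Type u) → [Group H] → Prop}
    (qmono : ∀ {d e : ℕ} (H : Type u) [Group H], d ≤ e → Q d H → Q e H)
    (qinj : ∀ {d : ℕ} {H K : Type u} [Group H] [Group K] (f : K →* H), Function.Injective f →
      Q d H → Q d K)
    {A : Type u} [CommRing A] [StarRing A]
    (qfacts : IsNoetherianRing A → AR A → ∀ g, FL A g → ∀ d : ℕ, ∃ g' : ℕ,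
      ∀ (H : Type u) [Group H], Group.FG H → Q d H → Facts4 (MonoidAlgebra A H) g') :
    RowMainC (fun H _ => IsVT H ∨ ∃ d, Q d H) A := by
  intro hn hA g hg Ω G _ E χ ε hG hN hε hE X
  exact main_vt_or (Q := Q) qmono qinj (qfacts hn hA g hg) hA hg hG hN hε hE X

theorem PSd.mono {d e : ℕ} (hde : d ≤ e) {H : Type u} [Group H] (h : PSd d H) : PSd e H := by
  obtain ⟨H₀, i, φ, h1, h2⟩ := h
  exact ⟨H₀, i, φ, h1, h2.mono hde⟩

theorem PSd.of_injective {d : ℕ} {H K : Type u} [Group H] [Group K] (f : K →* H)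
    (hf : Function.Injective f) (h : PSd d H) : PSd d K := by
  obtain ⟨H₀, i, φ, h1, h2⟩ := h
  exact ⟨H₀, i, φ.comp f, h1.comp hf, h2⟩

theorem IsPS.of_injective {H K : Type u} [Group H] [Group K] (f : K →* H)
    (hf : Function.Injective f) (h : IsPS H) : IsPS K := by
  obtain ⟨d, hd⟩ := h
  exact ⟨d, hd.of_injective f hf⟩

theorem IsPZ.of_injective {H K : Type u} [Group H] [Group K] (f : K →* H)
    (hf : Function.Injective f) (h : IsPZ H) : IsPZ K := by
  obtain ⟨d, hd⟩ := h
  exact ⟨d, hd.of_injective f hf⟩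

/-- **ROW MAIN** for subgroups of surface groups -/
theorem rowMain {A : Type u} [CommRing A] [StarRing A] (hF : RowF A) : RowMain A :=
  rowMainC (Q := fun d H _ => PSd d H) (fun _ _ hde h => h.mono hde)
    (fun f hf h => h.of_injective f hf)
    (fun hn hA g hg d => ⟨g + d + 4, fun H _ _ h => hF hn hA g hg d H h⟩)

/-- **ROW MAIN** for subgroups of (surface group) x (poly-`ℤ` abelian group) -/
theorem rowMainZ (hS : SurfFacts.{u}) {A : Type u} [CommRing A] [StarRing A]
    (hSC : ∀ (H K : Type u) [Group H] [Group K], RowSC A H K)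
    (hSF : ∀ (H K : Type u) [Group H] [Group K], RowSF A H K)
    (hSA : ∀ (H K : Type u) [Group H] [Group K], RowSA A H K) :
    RowMainC (fun H _ => IsVT H ∨ IsPZ H) A :=
  rowMainC (Q := fun d H _ => PZd d H) (fun _ _ hde h => h.mono hde)
    (fun f hf h => h.of_injective f hf)
    (fun hn hA g hg d => ⟨g + d + d + 4, fun H _ _ h => h.facts hS hSC hSF hSA hn hA hg⟩)

end Pool.Agent.PLS
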