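import Mathlib
import Pool.Agent.Lib.PLS.Rows

/-!
# T4, row N: naturality of the connecting homomorphism
-/

set_option autoImplicit false
set_option linter.unusedSectionVars false

open CategoryTheory CategoryTheory.Abelian Pool.Agent.UP

namespace Pool.Agent.PLS

universe u

/-- naturality of the connecting homomorphism -/
theorem deltaX_natural {R : Type u} [Ring R] {S S' : ShortComplex (ModuleCat.{u} R)}
    (hS : S.ShortExact) (hS' : S'.ShortExact) (φ : S ⟶ S') {l : ℕ}
    (x : Ext.{u} S'.X₁ (ModuleCat.of R R) l) :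
    Pool.UP.mapX (p := l + 1) φ.τ₃ (Pool.UP.deltaX hS' x) =
      Pool.UP.deltaX hS (Pool.UP.mapX (p := l) φ.τ₁ x) := by
  unfold Pool.UP.mapX Pool.UP.deltaX
  rw [← Ext.comp_assoc (Ext.mk₀ φ.τ₃) hS'.extClass x (zero_add 1) (add_comm 1 l)
    (by omega), ← ShortComplex.ShortExact.extClass_naturality hS hS' φ,
    Ext.comp_assoc hS.extClass (Ext.mk₀ φ.τ₁) x (add_zero 1) (zero_add l) (by omega)]

theorem esDelta_natural {R : Type u} [Ring R] [StarRing R]
    {N K Q N' K' Q' : Type u} [AddCommGroup N] [Module R N] [AddCommGroup K] [Module R K]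
    [AddCommGroup Q] [Module R Q] [AddCommGroup N'] [Module R N'] [AddCommGroup K'] [Module R K']
    [AddCommGroup Q'] [Module R Q']
    (f : N →ₗ[R] K) (g : K →ₗ[R] Q) (hf : Function.Injective f) (hg : Function.Surjective g)
    (h : Function.Exact f g)
    (f' : N' →ₗ[R] K') (g' : K' →ₗ[R] Q') (hf' : Function.Injective f')
    (hg' : Function.Surjective g') (h' : Function.Exact f' g')
    (a : N →ₗ[R] N') (b : K →ₗ[R] K') (c : Q →ₗ[R] Q') (hab : f'.comp a = b.comp f)
    (hbc : g'.comp b = c.comp g) (l : ℕ) (x : ES R l N') :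
    esMap (l + 1) c (esDelta l f' g' hf' hg' h' x) = esDelta l f g hf hg h (esMap l a x) := by
  let φ : ShortComplex.mk (ModuleCat.ofHom f) (ModuleCat.ofHom g) (Pool.UP.sesZ f g h) ⟶
      ShortComplex.mk (ModuleCat.ofHom f') (ModuleCat.ofHom g') (Pool.UP.sesZ f' g' h') :=
    { τ₁ := ModuleCat.ofHom a
      τ₂ := ModuleCat.ofHom b
      τ₃ := ModuleCat.ofHom c
      comm₁₂ := by
        change ModuleCat.ofHom a ≫ ModuleCat.ofHom f' = ModuleCat.ofHom f ≫ ModuleCat.ofHom b
        rw [← ModuleCat.ofHom_comp, ← ModuleCat.ofHom_comp, hab]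
      comm₂₃ := by
        change ModuleCat.ofHom b ≫ ModuleCat.ofHom g' = ModuleCat.ofHom g ≫ ModuleCat.ofHom c
        rw [← ModuleCat.ofHom_comp, ← ModuleCat.ofHom_comp, hbc] }
  exact deltaX_natural (Pool.UP.sesOf' f g hf hg h) (Pool.UP.sesOf' f' g' hf' hg' h') φ x

/-- **ROW N** -/
theorem rowN (R : Type u) [Ring R] [StarRing R] : RowN R :=
  fun f g hf hg h f' g' hf' hg' h' a b c hab hbc l x =>
    esDelta_natural f g hf hg h f' g' hf' hg' h' a b c hab hbc l x

end Pool.Agent.PLS
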