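import Pool.Agent.Lib.PLS.Rows

/-!
# T4: row P, the map `Φ`
-/

set_option autoImplicit false
set_option linter.unusedSectionVars false
set_option linter.unusedVariables false

open Pool.Agent.UP Pool.Agent.UPV Pool.Agent.UP25

namespace Pool.Agent.PLS

universe u

namespace Px

variable {R : Type u} [Ring R]

section seq

variable {T T' : Type u} [AddCommGroup T] [Module R T] [AddCommGroup T'] [Module R T']
  (d : T →ₗ[R] T') (C : Submodule R T)

/-- the kernel of `d` on `C` -/
def kr : Submodule R T := C ⊓ LinearMap.ker d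

theorem kr_le : kr d C ≤ C := inf_le_left

theorem inc_inj {C C' : Submodule R T} (h : C ≤ C') :
    Function.Injective (Submodule.inclusion h) := Submodule.inclusion_injective h

/-- `kr d C → C → W` is exact, `W` the whole target -/
theorem exact_w : Function.Exact (Submodule.inclusion (kr_le d C)) (d.domRestrict C) := by
  intro x
  constructor
  · intro hx
    exact ⟨⟨x.1, x.2, hx⟩, rfl⟩
  · rintro ⟨z, rfl⟩
    exact z.2.2

/-- `kr d C → C → d C` is exact -/
theorem exact_m : Function.Exact (Submodule.inclusion (kr_le d C)) (d.submoduleMap C) := by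
  intro x
  constructor
  · intro hx
    exact ⟨⟨x.1, x.2, congrArg Subtype.val hx⟩, rfl⟩
  · rintro ⟨z, rfl⟩
    exact Subtype.ext z.2.2

end seq

/-- `G` of a quotient by the kernel of a map -/
theorem g_ker {G : ∀ (M : Type u) [AddCommGroup M] [Module R M], Prop}
    (hsub : ∀ (M M' : Type u) [AddCommGroup M] [Module R M] [AddCommGroup M'] [Module R M']
      (f : M →ₗ[R] M'), Function.Injective f → G M' → G M)
    {M M' : Type u} [AddCommGroup M] [Module R M] [AddCommGroup M'] [Module R M']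
    (f : M →ₗ[R] M') (h : G M') : G (M ⧸ LinearMap.ker f) := by
  refine hsub _ _ ((LinearMap.ker f).liftQ f le_rfl) ?_ h
  rw [← LinearMap.ker_eq_bot]
  exact Submodule.ker_liftQ_eq_bot _ _ _ le_rfl

end Px

open Px

/-- **Row P.** -/
theorem rowP {R : Type u} [Ring R] [StarRing R] (hN : RowN R) : RowP R := by
  intro G hsub hquo hext T0 T1 T2 W _ _ _ _ _ _ _ _ ε d1 d2 C0 C0'' C1' C1'' C2'' q h2 hεd hdd
    hinj h00 h11 hε h1 hex0 hex1 hG0 hG1
  -- the submodules
  have hε'' : Function.Surjective (ε.domRestrict C0'') := fun w => by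
    obtain ⟨x, hx, hxw⟩ := hε w
    exact ⟨⟨x, h00 hx⟩, hxw⟩
  have hε0 : Function.Surjective (ε.domRestrict C0) := fun w => by
    obtain ⟨x, hx, hxw⟩ := hε w
    exact ⟨⟨x, hx⟩, hxw⟩
  have hZB : kr ε C0 ≤ C1'.map d1 := by
    rintro x ⟨hx, hx0⟩
    obtain ⟨y, hy, hyx⟩ := hex0 x hx hx0
    exact ⟨y, hy, hyx⟩
  have hBB : C1'.map d1 ≤ C1''.map d1 := Submodule.map_mono h11
  have hBZ : C1''.map d1 ≤ kr ε C0'' := by
    rintro _ ⟨y, hy, rfl⟩
    exact ⟨h1 y hy, hεd y⟩
  have hZZ : kr ε C0 ≤ kr ε C0'' := inf_le_inf_right _ h00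
  have hNN : kr d1 C1' ≤ kr d1 C1'' := inf_le_inf_right _ h11
  -- the section `κ`
  have hinj2 : Function.Injective (d2.domRestrict C2'') := fun a b hab =>
    Subtype.ext (hinj hab)
  have hNr : kr d1 C1' ≤ LinearMap.range (d2.domRestrict C2'') := by
    rintro x ⟨hx, hx0⟩
    obtain ⟨y, hy, hyx⟩ := hex1 x hx hx0
    exact ⟨⟨y, hy⟩, hyx⟩
  let κ : kr d1 C1' →ₗ[R] C2'' :=
    (LinearEquiv.ofInjective (d2.domRestrict C2'') hinj2).symm.toLinearMap.comp
      (Submodule.inclusion hNr)
  have hκ : ∀ x : kr d1 C1', d2 (κ x).1 = x.1 := by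
    intro x
    have h3 := LinearEquiv.apply_symm_apply (LinearEquiv.ofInjective (d2.domRestrict C2'') hinj2)
      (Submodule.inclusion hNr x)
    exact congrArg Subtype.val h3
  -- the map `C2'' → N''`
  have hd2N : ∀ x ∈ C2'', d2 x ∈ kr d1 C1'' := fun x hx => ⟨h2 x hx, hdd x⟩
  let e2 : C2'' →ₗ[R] kr d1 C1'' := d2.restrict hd2N
  -- the connecting maps
  let δa : ES R q (kr d1 C1') →ₗ[R] ES R (q + 1) (C1'.map d1) :=
    esDelta q (Submodule.inclusion (kr_le d1 C1')) (d1.submoduleMap C1') (inc_inj _)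
      (LinearMap.submoduleMap_surjective d1 C1') (exact_m d1 C1')
  let δc : ES R q (kr d1 C1'') →ₗ[R] ES R (q + 1) (C1''.map d1) :=
    esDelta q (Submodule.inclusion (kr_le d1 C1'')) (d1.submoduleMap C1'') (inc_inj _)
      (LinearMap.submoduleMap_surjective d1 C1'') (exact_m d1 C1'')
  let δb : ES R (q + 1) (kr ε C0) →ₗ[R] ES R (q + 2) W :=
    esDelta (q + 1) (Submodule.inclusion (kr_le ε C0)) (ε.domRestrict C0) (inc_inj _) hε0
      (exact_w ε C0)
  let δd : ES R (q + 1) (kr ε C0'') →ₗ[R] ES R (q + 2) W :=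
    esDelta (q + 1) (Submodule.inclusion (kr_le ε C0'')) (ε.domRestrict C0'') (inc_inj _) hε''
      (exact_w ε C0'')
  let Φ : ES R q C2'' →ₗ[R] ES R (q + 2) W :=
    δb.comp ((esMap (q + 1) (Submodule.inclusion hZB)).comp (δa.comp (esMap q κ)))
  -- naturality
  have nac : ∀ z, esMap (q + 1) (Submodule.inclusion hBB) (δc z) =
      δa (esMap q (Submodule.inclusion hNN) z) := by
    intro z
    exact hN (Submodule.inclusion (kr_le d1 C1')) (d1.submoduleMap C1') (inc_inj _)
      (LinearMap.submoduleMap_surjective d1 C1') (exact_m d1 C1')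
      (Submodule.inclusion (kr_le d1 C1'')) (d1.submoduleMap C1'') (inc_inj _)
      (LinearMap.submoduleMap_surjective d1 C1'') (exact_m d1 C1'')
      (Submodule.inclusion hNN) (Submodule.inclusion h11) (Submodule.inclusion hBB)
      (by ext x; rfl) (by ext x; rfl) q z
  have nbd : ∀ y, δd y = δb (esMap (q + 1) (Submodule.inclusion hZZ) y) := by
    intro y
    have h3 := hN (Submodule.inclusion (kr_le ε C0)) (ε.domRestrict C0) (inc_inj _)
      hε0 (exact_w ε C0)
      (Submodule.inclusion (kr_le ε C0'')) (ε.domRestrict C0'') (inc_inj _)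
      hε'' (exact_w ε C0'')
      (Submodule.inclusion hZZ) (Submodule.inclusion h00) LinearMap.id
      (by ext x; rfl) (by ext x; rfl) (q + 1) y
    rw [esMap_id] at h3
    exact h3
  have hΨ : ∀ z, Φ (esMap q e2 z) =
      δb (esMap (q + 1) (Submodule.inclusion (hZB.trans hBB)) (δc z)) := by
    intro z
    change δb (esMap (q + 1) (Submodule.inclusion hZB) (δa (esMap q κ (esMap q e2 z)))) = _
    rw [← esMap_comp]
    have h3 : e2.comp κ = Submodule.inclusion hNN := by
      refine LinearMap.ext fun x => Subtype.ext ?_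
      exact hκ x
    rw [h3, ← nac, ← esMap_comp]
    rfl
  refine ⟨Φ, ?_, ?_⟩
  · intro y
    change δb (esMap (q + 1) (Submodule.inclusion hZB)
      (δa (esMap q κ (esMap q (d2.restrict h2) y)))) = 0
    rw [← esMap_comp]
    have h3 : (d2.restrict h2).comp κ =
        (Submodule.inclusion h11).comp (Submodule.inclusion (kr_le d1 C1')) := by
      refine LinearMap.ext fun x => Subtype.ext ?_
      exact hκ x
    rw [h3, esMap_comp]
    have h4 : δa (esMap q (Submodule.inclusion (kr_le d1 C1'))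
        (esMap q (Submodule.inclusion h11) y)) = 0 :=
      (es_exact_left (Submodule.inclusion (kr_le d1 C1')) (d1.submoduleMap C1') (inc_inj _)
        (LinearMap.submoduleMap_surjective d1 C1') (exact_m d1 C1') q).apply_apply_eq_zero _
    rw [h4, map_zero, map_zero]
  · -- the quotient by the image of `Φ`
    let α : ES R (q + 1) (kr ε C0'') →ₗ[R] ES R (q + 1) C1'' :=
      esMap (q + 1) ((Submodule.inclusion hBZ).comp (d1.submoduleMap C1''))
    have hα : LinearMap.ker α ≤ LinearMap.ker ((LinearMap.range Φ).mkQ.comp δd) := by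
      intro y hy
      rw [LinearMap.mem_ker] at hy ⊢
      have h3 : esMap (q + 1) (d1.submoduleMap C1'')
          (esMap (q + 1) (Submodule.inclusion hBZ) y) = 0 := by
        rw [← esMap_comp]
        exact hy
      obtain ⟨z, hz⟩ := ((es_exact_right (Submodule.inclusion (kr_le d1 C1''))
        (d1.submoduleMap C1'') (inc_inj _) (LinearMap.submoduleMap_surjective d1 C1'')
        (exact_m d1 C1'') q) _).1 h3
      change (LinearMap.range Φ).mkQ (δd y) = 0
      rw [Submodule.mkQ_apply, Submodule.Quotient.mk_eq_zero]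
      refine ⟨esMap q e2 z, ?_⟩
      rw [hΨ, nbd]
      change δb (esMap (q + 1) (Submodule.inclusion (hZB.trans hBB)) (esDelta q _ _ _ _ _ z)) = _
      rw [hz, ← esMap_comp]
      rfl
    let f : (ES R (q + 1) (kr ε C0'') ⧸ LinearMap.ker α) →ₗ[R]
        (ES R (q + 2) W ⧸ LinearMap.range Φ) :=
      (LinearMap.ker α).liftQ ((LinearMap.range Φ).mkQ.comp δd) hα
    refine hext _ _ _ f (LinearMap.range f).mkQ (LinearMap.exact_iff.2 (Submodule.ker_mkQ _))
      (g_ker hsub α hG1) ?_
    -- the quotient by the image of `f` is a quotient of `M / X`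
    have hX : LinearMap.ker (esMap (q + 2) (ε.domRestrict C0'')) ≤
        LinearMap.ker ((LinearMap.range f).mkQ.comp (LinearMap.range Φ).mkQ) := by
      intro x hx
      obtain ⟨y, rfl⟩ := ((es_exact_right (Submodule.inclusion (kr_le ε C0''))
        (ε.domRestrict C0'') (inc_inj _) hε'' (exact_w ε C0'') (q + 1)) _).1 hx
      rw [LinearMap.mem_ker]
      change (LinearMap.range f).mkQ _ = 0
      rw [Submodule.mkQ_apply, Submodule.Quotient.mk_eq_zero]
      exact ⟨(LinearMap.ker α).mkQ y, rfl⟩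
    refine hquo _ _ ((LinearMap.ker (esMap (q + 2) (ε.domRestrict C0''))).liftQ _ hX) ?_
      (g_ker hsub (esMap (q + 2) (ε.domRestrict C0'')) hG0)
    intro z
    obtain ⟨z, rfl⟩ := Submodule.mkQ_surjective _ z
    obtain ⟨z, rfl⟩ := Submodule.mkQ_surjective _ z
    exact ⟨(LinearMap.ker (esMap (q + 2) (ε.domRestrict C0''))).mkQ z, rfl⟩

end Pool.Agent.PLS
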