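import Mathlib
import Pool.Agent.Lib.PLS.Rows
import Pool.Agent.Lib.UP25.Ses

/-!
# T4, ROW T: the total module of a family over a free `H`-set is a sum of induced modules
-/

set_option autoImplicit false
set_option linter.unusedSectionVars false
set_option linter.unusedVariables false

open MonoidAlgebra Pool.Agent.UP Pool.Agent.UPV Pool.Agent.UP25

namespace Pool.Agent.PLS

universe u

attribute [local instance] starMA

section basic
variable {A H X W : Type u} [CommRing A] [Group H] [MulAction H X] [AddCommGroup W]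
  [Module A[H] W]

theorem T_val_smul (g : H) (a : A) (c : Tw A H X W) (y : X) :
    val y ((single g a : A[H]) • c) = (single g a : A[H]) • val (g⁻¹ • y) c := by
  have h : (val y : Tw A H X W →+ W).comp
      (DistribSMul.toAddMonoidHom (Tw A H X W) (single g a : A[H])) =
      (DistribSMul.toAddMonoidHom W (single g a : A[H])).comp (val (g⁻¹ • y)) := by
    refine Tw.addHom_ext (A := A) (H := H) fun z m => ?_
    change val y ((single g a : A[H]) • Tw.mk A H z m) =
      (single g a : A[H]) • val (g⁻¹ • y) (Tw.mk A H z m)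
    rw [Tw.single_smul]
    by_cases hz : g • z = y
    · subst hz
      rw [inv_smul_smul, val_mk_same, val_mk_same]
    · have hz' : z ≠ g⁻¹ • y := by
        intro h
        apply hz
        rw [h, smul_inv_smul]
      rw [val_mk_ne hz, val_mk_ne hz', smul_zero]
  exact DFunLike.congr_fun h c

theorem T_ind_val_mk {U : Type u} [AddCommGroup U] (h : H) (w : U) :
    Ind.val h (Ind.mk H h w) = w := Finsupp.single_eq_same

theorem T_ind_val_mk_ne {U : Type u} [AddCommGroup U] {g h : H} (hg : g ≠ h) (w : U) :
    Ind.val h (Ind.mk H g w) = 0 := Finsupp.single_eq_of_ne (Ne.symm hg)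

theorem T_ind_ext {U : Type u} [AddCommGroup U] {f g : Ind H U}
    (h : ∀ k, Ind.val k f = Ind.val k g) : f = g := Finsupp.ext h

theorem T_ind_val_smul {U : Type u} [AddCommGroup U] [Module A U] (g : H) (a : A) (f : Ind H U)
    (h : H) : Ind.val h ((single g a : A[H]) • f) = a • Ind.val (g⁻¹ * h) f := by
  have hh : (Ind.val h : Ind H U →+ U).comp
      (DistribSMul.toAddMonoidHom (Ind H U) (single g a : A[H])) =
      (DistribSMul.toAddMonoidHom U a).comp (Ind.val (g⁻¹ * h)) := by
    refine Ind.addHom_ext fun k w => ?_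
    change Ind.val h ((single g a : A[H]) • Ind.mk H k w) = a • Ind.val (g⁻¹ * h) (Ind.mk H k w)
    rw [Ind.single_smul]
    by_cases hk : g * k = h
    · subst hk
      rw [inv_mul_cancel_left, T_ind_val_mk, T_ind_val_mk]
    · have hk' : k ≠ g⁻¹ * h := by
        intro e
        apply hk
        rw [e, mul_inv_cancel_left]
      rw [T_ind_val_mk_ne hk, T_ind_val_mk_ne hk', smul_zero]
  exact DFunLike.congr_fun hh f

theorem T_esMap_sum {R : Type u} [Ring R] [StarRing R] {M M' : Type u} [AddCommGroup M]
    [Module R M] [AddCommGroup M'] [Module R M'] (p : ℕ) {ι : Type*} (s : Finset ι)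
    (f : ι → M →ₗ[R] M') (x : ES R p M') :
    esMap p (∑ i ∈ s, f i) x = ∑ i ∈ s, esMap p (f i) x := by
  classical
  induction s using Finset.induction_on with
  | empty => rw [Finset.sum_empty, Finset.sum_empty, esMap_zero]
  | insert i s hi ih => rw [Finset.sum_insert hi, Finset.sum_insert hi, esMap_add, ih]

end basic

section ev
variable {A H X W : Type u} [CommRing A] [Group H] [MulAction H X] [AddCommGroup W]
  [Module A[H] W] (hfree : ∀ (h : H) (x : X), h • x = x → h = 1) (F : EqFam A H X W)

/-- the value of the projection -/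
noncomputable def T_evf (x : X) (c : F.tot) (h : H) : fib F x :=
  ⟨toRa H W ((single h⁻¹ 1 : A[H]) • val (h • x) c.1), F.mem_inv h (c.2 (h • x))⟩

theorem T_evf_add (x : X) (c c' : F.tot) (h : H) :
    T_evf F x (c + c') h = T_evf F x c h + T_evf F x c' h := by
  apply Subtype.ext
  change toRa H W ((single h⁻¹ 1 : A[H]) • val (h • x) (c.1 + c'.1)) =
    toRa H W ((single h⁻¹ 1 : A[H]) • val (h • x) c.1) +
    toRa H W ((single h⁻¹ 1 : A[H]) • val (h • x) c'.1)
  rw [map_add, smul_add, map_add]

include hfree in
theorem T_evf_fin (x : X) (c : F.tot) : (Function.support (T_evf F x c)).Finite := by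
  have h1 : Function.Injective (fun h : H => h • x) := by
    intro g h hgh
    have h2 : (h⁻¹ * g) • x = x := by
      rw [mul_smul, show g • x = h • x from hgh, inv_smul_smul]
    have h3 := hfree _ _ h2
    rw [inv_mul_eq_one] at h3
    exact h3.symm
  refine Set.Finite.subset (((c.1 : X →₀ W).hasFiniteSupport).preimage (h1.injOn)) ?_
  intro h hh
  rw [Function.mem_support] at hh
  rw [Set.mem_preimage, Function.mem_support]
  intro h0
  apply hh
  apply Subtype.ext
  change toRa H W ((single h⁻¹ 1 : A[H]) • val (h • x) c.1) = 0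
  have h4 : val (h • x) c.1 = 0 := h0
  rw [h4, smul_zero, map_zero]

/-- the projection -/
noncomputable def T_ev (x : X) : F.tot →ₗ[A[H]] Ind H (fib F x) where
  toFun c := Finsupp.ofSupportFinite (T_evf F x c) (T_evf_fin hfree F x c)
  map_add' c c' := T_ind_ext fun h => T_evf_add F x c c' h
  map_smul' r c := by
    rw [RingHom.id_apply]
    induction r using MonoidAlgebra.induction_linear with
    | zero =>
      rw [zero_smul, zero_smul]
      refine T_ind_ext fun h => ?_
      rw [map_zero]
      change T_evf F x 0 h = 0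
      apply Subtype.ext
      change toRa H W ((single h⁻¹ 1 : A[H]) • val (h • x) (0 : Tw A H X W)) = 0
      rw [map_zero, smul_zero, map_zero]
    | add p q hp hq =>
      rw [add_smul, add_smul, ← hp, ← hq]
      exact T_ind_ext fun h => T_evf_add F x (p • c) (q • c) h
    | single g a =>
      refine T_ind_ext fun h => ?_
      rw [T_ind_val_smul]
      change T_evf F x ((single g a : A[H]) • c) h = a • T_evf F x c (g⁻¹ * h)
      apply Subtype.ext
      change toRa H W ((single h⁻¹ 1 : A[H]) • val (h • x) ((single g a : A[H]) • c.1)) =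
        a • toRa H W ((single (g⁻¹ * h)⁻¹ 1 : A[H]) • val ((g⁻¹ * h) • x) c.1)
      rw [T_val_smul, toRa_smul, ← mul_smul (single h⁻¹ 1 : A[H]) (single g a : A[H]),
        ← mul_smul (single 1 a : A[H]) (single (g⁻¹ * h)⁻¹ 1 : A[H]), single_mul_single,
        single_mul_single, mul_smul g⁻¹ h x]
      simp only [mul_inv_rev, inv_inv, one_mul, mul_one]

theorem T_ev_val (x : X) (c : F.tot) (h : H) :
    ((Ind.val h (T_ev hfree F x c) : fib F x) : Ra H W) =
      toRa H W ((single h⁻¹ 1 : A[H]) • val (h • x) c.1) := rfl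

/-- the inclusion -/
noncomputable def T_sec (x : X) : Ind H (fib F x) →ₗ[A[H]] F.tot :=
  indLift (N := F.tot)
    { toFun := fun w => toRa H F.tot ⟨Tw.mk A H x ((toRa H W).symm w.1), F.mk_mem w.2⟩
      map_add' := fun w w' => by
        rw [← map_add]
        congr 1
        apply Subtype.ext
        exact Tw.mk_add A H x _ _
      map_smul' := fun a w => by
        rw [RingHom.id_apply, toRa_smul]
        congr 1
        apply Subtype.ext
        change Tw.mk A H x ((single 1 a : A[H]) • (toRa H W).symm w.1) =
          (single 1 a : A[H]) • Tw.mk A H x ((toRa H W).symm w.1)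
        rw [Tw.single_smul, one_smul] }

theorem T_sec_mk (x : X) (h : H) (w : fib F x) :
    ((T_sec F x (Ind.mk H h w) : F.tot) : Tw A H X W) =
      Tw.mk A H (h • x) ((single h 1 : A[H]) • (toRa H W).symm w.1) := by
  unfold T_sec
  rw [indLift_mk]
  change (single h 1 : A[H]) • Tw.mk A H x ((toRa H W).symm w.1) = _
  rw [Tw.single_smul]

include hfree in
/-- the value at `g • x` of `sec x f` -/
theorem T_sec_val (x : X) (g : H) (f : Ind H (fib F x)) :
    val (g • x) ((T_sec F x f : F.tot) : Tw A H X W) =
      (single g 1 : A[H]) • (toRa H W).symm (Ind.val g f).1 := by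
  have hh : (val (g • x) : Tw A H X W →+ W).comp ((F.tot.subtype.toAddMonoidHom).comp
      (T_sec F x).toAddMonoidHom) = ((DistribSMul.toAddMonoidHom W (single g 1 : A[H])).comp
      ((toRa H W).symm.toAddMonoidHom.comp ((fib F x).subtype.toAddMonoidHom))).comp
      (Ind.val g) := by
    refine Ind.addHom_ext fun h w => ?_
    change val (g • x) ((T_sec F x (Ind.mk H h w) : F.tot) : Tw A H X W) =
      (single g 1 : A[H]) • (toRa H W).symm (Ind.val g (Ind.mk H h w)).1
    rw [T_sec_mk]
    by_cases hk : h = g
    · subst hk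
      rw [val_mk_same, T_ind_val_mk]
    · have h1 : h • x ≠ g • x := by
        intro e
        apply hk
        have h2 : (g⁻¹ * h) • x = x := by rw [mul_smul, e, inv_smul_smul]
        have h3 := hfree _ _ h2
        rw [inv_mul_eq_one] at h3
        exact h3.symm
      rw [val_mk_ne h1, T_ind_val_mk_ne hk]
      change 0 = (single g 1 : A[H]) • (0 : W)
      rw [smul_zero]
  exact DFunLike.congr_fun hh f

theorem T_sec_val_ne (x y : X) (hy : ∀ h : H, h • x ≠ y) (f : Ind H (fib F x)) :
    val y ((T_sec F x f : F.tot) : Tw A H X W) = 0 := by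
  have hh : (val y : Tw A H X W →+ W).comp ((F.tot.subtype.toAddMonoidHom).comp
      (T_sec F x).toAddMonoidHom) = 0 := by
    refine Ind.addHom_ext fun h w => ?_
    change val y ((T_sec F x (Ind.mk H h w) : F.tot) : Tw A H X W) = 0
    rw [T_sec_mk, val_mk_ne (hy h)]
  exact DFunLike.congr_fun hh f

theorem T_sum_id {n : ℕ} (x : Fin n → X) (hx1 : ∀ z : X, ∃ (i : Fin n) (h : H), h • x i = z)
    (hx2 : ∀ (i j : Fin n) (h : H), h • x i = x j → i = j) :
    ∑ i, (T_sec F (x i)).comp (T_ev hfree F (x i)) = LinearMap.id := by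
  refine LinearMap.ext fun c => ?_
  apply Subtype.ext
  refine tw_ext fun y => ?_
  obtain ⟨i, g, rfl⟩ := hx1 y
  rw [LinearMap.sum_apply, LinearMap.id_apply, AddSubmonoidClass.coe_finsetSum, map_sum,
    Finset.sum_eq_single i]
  · rw [LinearMap.comp_apply, T_sec_val hfree, T_ev_val, AddEquiv.symm_apply_apply, smul_smul,
      single_mul_single, mul_inv_cancel, one_mul]
    change (1 : A[H]) • _ = _
    rw [one_smul]
  · intro j _ hj
    rw [LinearMap.comp_apply]
    refine T_sec_val_ne F (x j) (g • x i) (fun h hh => hj (hx2 j i (g⁻¹ * h) ?_)) _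
    rw [mul_smul, hh, inv_smul_smul]
  · intro h
    exact absurd (Finset.mem_univ i) h

end ev

section fp
variable {A H X W : Type u} [CommRing A] [Group H] [MulAction H X] [AddCommGroup W]
  [Module A[H] W]

theorem T_noeth [IsNoetherianRing A] (L : Subgroup H) (hL : ∀ h ∈ L, h = 1) :
    IsNoetherianRing A[L] := by
  refine isNoetherianRing_of_surjective A A[L] (singleOneRingHom : A →+* A[L]) fun r => ?_
  induction r using MonoidAlgebra.induction_linear with
  | zero => exact ⟨0, map_zero _⟩
  | add p q hp hq =>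
    obtain ⟨a, rfl⟩ := hp
    obtain ⟨b, rfl⟩ := hq
    exact ⟨a + b, map_add _ a b⟩
  | single g a =>
    have h1 : g = 1 := Subtype.ext (hL g.1 g.2)
    subst h1
    exact ⟨a, rfl⟩

theorem T_loc_fg (F : EqFam A H X W) (L : Subgroup H) (x : X) (hx : ∀ h ∈ L, h • x = x)
    (h : (fib F x).FG) : (F.loc L x hx).FG := by
  classical
  obtain ⟨s, hs⟩ := h
  let e : Ra H W ≃+ Rs L W := (toRa H W).symm.trans (toRs L W)
  refine ⟨s.image e, ?_⟩
  rw [Finset.coe_image]
  apply le_antisymm
  · rw [Submodule.span_le]
    rintro _ ⟨k, hk, rfl⟩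
    have h1 : k ∈ fib F x := by
      rw [← hs]
      exact Submodule.subset_span hk
    exact h1
  · intro k hk
    have h1 : e.symm k ∈ Submodule.span A (s : Set (Ra H W)) := by
      rw [hs]
      exact hk
    have h2 : ∀ z : Ra H W, z ∈ Submodule.span A (s : Set (Ra H W)) →
        e z ∈ Submodule.span A[L] (e '' (s : Set (Ra H W))) := by
      intro z hz
      induction hz using Submodule.span_induction with
      | mem z hz => exact Submodule.subset_span ⟨z, hz, rfl⟩
      | zero =>
        rw [map_zero]
        exact Submodule.zero_mem _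
      | add y z _ _ hy hz =>
        rw [map_add]
        exact Submodule.add_mem _ hy hz
      | smul a z _ hz =>
        have h2 : e (a • z) = (single 1 a : A[L]) • e z := by
          change (single 1 a : A[H]) • (toRa H W).symm z =
            iotaN L (single 1 a) • (toRa H W).symm z
          rw [iotaN_single]
          rfl
        rw [h2]
        exact Submodule.smul_mem _ _ hz
    have h3 := h2 _ h1
    rwa [AddEquiv.apply_symm_apply] at h3

end fp

/-- **ROW T** -/
theorem rowT {A H X W : Type u} [CommRing A] [StarRing A] [Group H] [MulAction H X]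
    [AddCommGroup W] [Module A[H] W] : RowT A H X W := by
  intro hA _ hfree hfin F hF
  have hst : ∀ x : X, ∀ h ∈ MulAction.stabilizer H x, h = 1 := fun x h hh => hfree h x hh
  obtain ⟨n, x, hx1, hx2⟩ := exists_orbit_reps H X hfin
  obtain ⟨T, hT, hR⟩ := exists_tot F x hx1 hx2 (fun i => T_noeth _ (hst (x i)))
    (fun i => T_loc_fg F _ (x i) (stab_fix _) (hF (x i)))
  obtain ⟨r⟩ := hR
  refine ⟨{ ev := T_ev hfree F, ev_val := T_ev_val hfree F, fp := fp_of_res r, gen := ?_ }⟩
  intro q ξ
  refine ⟨n, x, fun i => esMap q (T_sec F (x i)) ξ, ?_⟩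
  have h1 : esMap q (∑ i, (T_sec F (x i)).comp (T_ev hfree F (x i))) ξ = ξ := by
    rw [T_sum_id hfree F x hx1 hx2, esMap_id]
  rw [T_esMap_sum] at h1
  rw [← h1]
  refine Finset.sum_congr rfl fun i _ => ?_
  rw [esMap_comp, h1]

end Pool.Agent.PLS
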