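import Mathlib
import Pool.Agent.Lib.PLS.Rows
import Pool.Agent.Lib.PLS.T
import Pool.Agent.Lib.UP.F2
import Pool.Agent.Lib.UP.F5b
import Pool.Agent.Lib.UP25.S1a

/-!
# T4, ROW R: the lattice of `Ext^(q+2)`
-/

set_option autoImplicit false
set_option linter.unusedSectionVars false
set_option linter.unusedVariables false

open MonoidAlgebra Pool.Agent.UP Pool.Agent.UPV Pool.Agent.UP25

namespace Pool.Agent.PLS

universe u

attribute [local instance] starMA

/-! ### General lemmas -/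

section gen
variable {S : Type u} [Ring S] {M N K : Type u} [AddCommGroup M] [Module S M] [AddCommGroup N]
  [Module S N] [AddCommGroup K] [Module S K]

/-- over a coherent ring the kernels of maps from finitely generated modules to finitely presented
modules are finitely generated -/
theorem R_ker_fg (hc : CohT S) [Module.Finite S M] [Module.FinitePresentation S N]
    (f : M →ₗ[S] N) : (LinearMap.ker f).FG := by
  have hr : (LinearMap.range f).FG := by
    rw [LinearMap.range_eq_map]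
    exact Module.Finite.fg_top.map f
  have := fp_submodule hc (LinearMap.range f) hr
  have h := Module.FinitePresentation.fg_ker f.rangeRestrict f.surjective_rangeRestrict
  rwa [LinearMap.ker_rangeRestrict] at h

/-- the elements of `C` in the kernel of `f` are images of elements of each submodule which
contains a certain finite set -/
theorem R_lift (f : M →ₗ[S] N) (g : K →ₗ[S] M) (hex : ∀ x, f x = 0 → ∃ y, g y = x)
    (C : Submodule S M) (hC : (LinearMap.ker (f.domRestrict C)).FG) :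
    ∃ s : Finset K, ∀ D : Submodule S K, (∀ y ∈ s, y ∈ D) →
      ∀ x ∈ C, f x = 0 → ∃ y ∈ D, g y = x := by
  classical
  obtain ⟨t, ht⟩ := hC
  have h1 : ∀ z : t, ∃ y, g y = ((z : C) : M) := by
    intro z
    refine hex _ ?_
    have hz : (z : C) ∈ LinearMap.ker (f.domRestrict C) := by
      rw [← ht]
      exact Submodule.subset_span z.2
    exact hz
  choose y hy using h1
  refine ⟨Finset.univ.image y, fun D hD x hx hfx => ?_⟩
  have hx' : (⟨x, hx⟩ : C) ∈ Submodule.span S (t : Set C) := by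
    rw [ht]
    exact hfx
  have hle : Submodule.span S (t : Set C) ≤ (D.map g).comap C.subtype := by
    rw [Submodule.span_le]
    intro z hz
    exact ⟨y ⟨z, hz⟩, hD _ (Finset.mem_image_of_mem _ (Finset.mem_univ _)), hy ⟨z, hz⟩⟩
  obtain ⟨w, hw, hwx⟩ := hle hx'
  exact ⟨w, hw, hwx⟩

theorem R_onto (f : K →ₗ[S] M) (hf : Function.Surjective f) [Module.Finite S M] :
    ∃ s : Finset K, ∀ D : Submodule S K, (∀ y ∈ s, y ∈ D) → ∀ w, ∃ x ∈ D, f x = w := by
  classical
  obtain ⟨t, ht⟩ := (Module.Finite.fg_top : (⊤ : Submodule S M).FG)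
  choose y hy using hf
  refine ⟨t.image y, fun D hD w => ?_⟩
  have hw : w ∈ Submodule.span S (t : Set M) := by
    rw [ht]
    trivial
  have hle : Submodule.span S (t : Set M) ≤ D.map f := by
    rw [Submodule.span_le]
    intro z hz
    exact ⟨y z, hD _ (Finset.mem_image_of_mem _ hz), hy z⟩
  obtain ⟨x, hx, hxw⟩ := hle hw
  exact ⟨x, hx, hxw⟩

end gen

/-! ### The classes `G_q` -/

section cls
variable {A H : Type u} [CommRing A] [Group H] {q : ℕ} {M M' M'' : Type u} [AddCommGroup M]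
  [Module A[H] M] [AddCommGroup M'] [Module A[H] M'] [AddCommGroup M''] [Module A[H] M'']

theorem R_gq_sub (f : M →ₗ[A[H]] M') (hf : Function.Injective f) (h : GQ A H q M') :
    GQ A H q M := by
  refine Loc.of_injective (raMap f) ?_ h
  intro a b hab
  exact (toRa H M).symm.injective (hf ((toRa H M').injective hab))

theorem R_gq_quo [IsNoetherianRing A] (f : M →ₗ[A[H]] M') (hf : Function.Surjective f)
    (h : GQ A H q M) : GQ A H q M' := by
  refine Loc.of_surjective (raMap f) ?_ h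
  intro b
  obtain ⟨a, ha⟩ := hf ((toRa H M').symm b)
  exact ⟨toRa H M a, ha⟩

theorem R_gq_ext [IsNoetherianRing A] (f : M →ₗ[A[H]] M') (g : M' →ₗ[A[H]] M'')
    (hfg : ∀ x, g x = 0 → ∃ y, f y = x) (h1 : GQ A H q M) (h2 : GQ A H q M'') :
    GQ A H q M' := by
  refine Loc.of_exact (raMap f) (raMap g) ?_ h1 h2
  intro x hx
  obtain ⟨y, hy⟩ := hfg ((toRa H M').symm x) hx
  exact ⟨toRa H M y, hy⟩

theorem R_gq_mono {p : ℕ} (h : p ≤ q) (hM : GQ A H q M) : GQ A H p M := Loc.mono h hM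

end cls

section tot
variable {A H X : Type u} [CommRing A] [StarRing A] [Group H] [MulAction H X] {W : Type u}
  [AddCommGroup W] [Module A[H] W]

/-- the classes of the total module of a family -/
theorem R_gq_tot (hIL : RowIL A H) (hn : IsNoetherianRing A) (har : AR A) (q : ℕ)
    (F : EqFam A H X W) (hF : ∀ x, (fib F x).FG) (td : TotData F) :
    GQ A H q (ES A[H] q F.tot) := by
  intro N hN
  have hfin : ∀ x, Module.Finite A (fib F x) := fun x => Module.Finite.iff_fg.2 (hF x)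
  refine ge_of_le_iSup
    (fun x : X => LinearMap.range (raMap (esMap q (td.ev x)))) (fun x => ?_)
    (hIL hn har q PUnit.{u + 1}).1 N hN ?_
  · exact Loc.of_surjective (raMap (esMap q (td.ev x))).rangeRestrict
      (raMap (esMap q (td.ev x))).surjective_rangeRestrict (hIL hn har q (fib F x)).1
  · intro ξ _
    obtain ⟨n, x, η, hξ⟩ := td.gen q ((toRa H _).symm ξ)
    have h1 : ξ = ∑ i, raMap (esMap q (td.ev (x i))) (toRa H _ (η i)) := by
      have h2 : toRa H _ ((toRa H _).symm ξ) = toRa H _ (∑ i, esMap q (td.ev (x i)) (η i)) :=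
        congrArg _ hξ
      rw [map_sum] at h2
      exact h2
    rw [h1]
    exact Submodule.sum_mem _ fun i _ => Submodule.mem_iSup_of_mem (x i) ⟨_, rfl⟩

end tot

/-! ### The row -/

section row
variable {A H V E F : Type u} [CommRing A] [StarRing A] [Group H] [MulAction H V] [MulAction H E]
  [MulAction H F] {P : PlaneCx H V E F} {W : Type u} [AddCommGroup W] [Module A[H] W]

theorem R_d1 (m : PMaps A P W) (L : Latt A P W) (x : Tw A H E W) (hx : x ∈ L.fE.tot) :
    m.d1 x ∈ L.fV.tot := by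
  obtain ⟨S, hS⟩ := tw_sum x
  rw [hS, map_sum]
  refine Submodule.sum_mem _ fun e _ => ?_
  rw [m.hd1]
  exact Submodule.sub_mem _ (L.fV.mk_mem (L.lt e (hx e))) (L.fV.mk_mem (L.lo e (hx e)))

theorem R_d2 (m : PMaps A P W) (L : Latt A P W) (x : Tw A H F W) (hx : x ∈ L.fF.tot) :
    m.d2 x ∈ L.fE.tot := by
  intro e
  rw [m.hd2]
  exact (L.fE.U e).sub_mem (L.ll e (hx _)) ((L.fE.U e).zsmul_mem (L.lr e (hx _)) _)

end row

/-- **ROW R** -/
theorem rowR {A H : Type u} [CommRing A] [StarRing A] [Group H]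
    (hM : ∀ {V E F : Type u} [MulAction H V] [MulAction H E] [MulAction H F]
      (P : PlaneCx H V E F) (W : Type u) [AddCommGroup W] [Module A[H] W], RowM A P W)
    (hE : ∀ {V E F : Type u} [MulAction H V] [MulAction H E] [MulAction H F]
      (P : PlaneCx H V E F) (W : Type u) [AddCommGroup W] [Module A[H] W], RowE A P W)
    (hL : ∀ {V E F : Type u} [MulAction H V] [MulAction H E] [MulAction H F]
      (P : PlaneCx H V E F) (W : Type u) [AddCommGroup W] [Module A[H] W], RowL A P W)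
    (hA : ∀ {V E F : Type u} [MulAction H V] [MulAction H E] [MulAction H F]
      (P : PlaneCx H V E F) (W : Type u) [AddCommGroup W] [Module A[H] W], RowA A P W)
    (hP : RowP A[H]) (hIL : RowIL A H) : RowR A H := by
  intro hn har hc hi V E F _ _ _ P W _ _ _ q
  obtain ⟨m⟩ := hM P W
  obtain ⟨hε, hex0, hex1, hinj⟩ := hE P W hi m
  obtain ⟨⟨L0⟩, hinc⟩ := hL P W hn hi
  -- the first lattice
  obtain ⟨s0, hs0⟩ := R_onto m.ε hε
  obtain ⟨L, hL0, hsL, -, -⟩ := hinc L0 s0 ∅ ∅
  have hont := hs0 L.fV.tot hsL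
  obtain ⟨tV⟩ := rowT hn hc P.freeV P.finV L.fV L.fgV
  have hfpV : Module.FinitePresentation A[H] L.fV.tot := tV.fp
  have hk0 : (LinearMap.ker (m.ε.domRestrict L.fV.tot)).FG := R_ker_fg hc _
  obtain ⟨s1, hs1⟩ := R_lift m.ε m.d1 (fun x hx => (hex0 x).1 hx) L.fV.tot hk0
  -- the second lattice
  obtain ⟨L', hLL', -, hsE, -⟩ := hinc L ∅ s1 ∅
  have h1 := hs1 L'.fE.tot hsE
  obtain ⟨tV'⟩ := rowT hn hc P.freeV P.finV L'.fV L'.fgV
  have hfpV' : Module.FinitePresentation A[H] L'.fV.tot := tV'.fp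
  obtain ⟨tE'⟩ := rowT hn hc P.freeE P.finE L'.fE L'.fgE
  have hfpE' : Module.FinitePresentation A[H] L'.fE.tot := tE'.fp
  have hk1 : (LinearMap.ker (m.d1.domRestrict L'.fE.tot)).FG := by
    have h := R_ker_fg hc (m.d1.restrict (R_d1 m L'))
    have h3 : LinearMap.ker (m.d1.restrict (R_d1 m L')) =
        LinearMap.ker (m.d1.domRestrict L'.fE.tot) := by
      ext x
      rw [LinearMap.mem_ker, LinearMap.mem_ker]
      constructor
      · intro hx
        exact congrArg Subtype.val hx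
      · intro hx
        exact Subtype.ext hx
    rwa [h3] at h
  obtain ⟨s2, hs2⟩ := R_lift m.d1 m.d2 (fun x hx => (hex1 x).1 hx) L'.fE.tot hk1
  -- the third lattice
  obtain ⟨L'', hL'', -, -, hsF⟩ := hinc L' ∅ ∅ s2
  have h2ex := hs2 L''.fF.tot hsF
  obtain ⟨tV''⟩ := rowT hn hc P.freeV P.finV L''.fV L''.fgV
  obtain ⟨tE''⟩ := rowT hn hc P.freeE P.finE L''.fE L''.fgE
  obtain ⟨tF''⟩ := rowT hn hc P.freeF P.finF L''.fF L''.fgF
  have hG2 : GQ A H (q + 1) (ES A[H] (q + 2) L''.fV.tot) :=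
    R_gq_mono (Nat.le_succ _) (R_gq_tot hIL hn har (q + 2) L''.fV L''.fgV tV'')
  have hG1 : GQ A H (q + 1) (ES A[H] (q + 1) L''.fE.tot) :=
    R_gq_tot hIL hn har (q + 1) L''.fE L''.fgE tE''
  have hG0 : GQ A H q (ES A[H] q L''.fF.tot) := R_gq_tot hIL hn har q L''.fF L''.fgF tF''
  obtain ⟨Φ, hΦ0, hΦq⟩ := hP (fun M _ _ => GQ A H (q + 1) M)
    (fun M M' _ _ _ _ f hf h => R_gq_sub f hf h) (fun M M' _ _ _ _ f hf h => R_gq_quo f hf h)
    (fun M M' M'' _ _ _ _ _ _ f g hfg h h' => R_gq_ext f g (fun x hx => (hfg x).1 hx) h h')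
    (Tw A H V W) (Tw A H E W) (Tw A H F W) W m.ε m.d1 m.d2 L.fV.tot L''.fV.tot L'.fE.tot
    L''.fE.tot L''.fF.tot q (R_d2 m L'') (fun x => (hex0 _).2 ⟨x, rfl⟩)
    (fun x => (hex1 _).2 ⟨x, rfl⟩) hinj
    (fun f hf x => hL''.1 x (hLL'.1 x (hf x))) (fun f hf x => hL''.2.1 x (hf x)) hont
    (R_d1 m L'') h1 h2ex hG2 hG1
  obtain ⟨L₀, hfg, hle, hloc⟩ := hA P W hn har hc hi m L'' (R_d2 m L'') q (ES A[H] (q + 2) W) Φ hΦ0
  refine ⟨?_, L₀, hfg, ?_⟩
  · refine R_gq_ext Φ (LinearMap.range Φ).mkQ (fun x hx => ?_) hG0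
      (R_gq_mono (Nat.le_succ _) hΦq)
    rw [Submodule.mkQ_apply, Submodule.Quotient.mk_eq_zero] at hx
    exact hx
  · let f : (LinearMap.range (raMap Φ) ⧸ L₀.comap (LinearMap.range (raMap Φ)).subtype) →ₗ[A]
        (Ra H (ES A[H] (q + 2) W) ⧸ L₀) :=
      Submodule.mapQ _ _ (LinearMap.range (raMap Φ)).subtype le_rfl
    have hker : L₀ ≤ LinearMap.ker (raMap (H := H) (LinearMap.range Φ).mkQ) := by
      intro x hx
      obtain ⟨y, hy⟩ := hle hx
      have h3 : (LinearMap.range Φ).mkQ ((toRa H _).symm x) = 0 := by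
        rw [Submodule.mkQ_apply, Submodule.Quotient.mk_eq_zero]
        exact ⟨(toRa H _).symm y, hy⟩
      exact h3
    let g : (Ra H (ES A[H] (q + 2) W) ⧸ L₀) →ₗ[A] Ra H (ES A[H] (q + 2) W ⧸ LinearMap.range Φ) :=
      L₀.liftQ (raMap (LinearMap.range Φ).mkQ) hker
    refine Loc.of_exact f g ?_ hloc hΦq
    intro z hz
    obtain ⟨x, rfl⟩ := Submodule.mkQ_surjective _ z
    have h3 : (LinearMap.range Φ).mkQ ((toRa H _).symm x) = 0 := hz
    rw [Submodule.mkQ_apply, Submodule.Quotient.mk_eq_zero] at h3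
    obtain ⟨y, hy⟩ := h3
    exact ⟨Submodule.Quotient.mk ⟨x, ⟨toRa H _ y, hy⟩⟩, rfl⟩

end Pool.Agent.PLS
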