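import Mathlib
import Pool.Agent.Lib.PLS.Rows
import Pool.Agent.Lib.T4S.WaldB

/-!
# T4, row W: coherence (Waldhausen)
-/

set_option autoImplicit false

open MonoidAlgebra Pool.Agent.UP Pool.Agent.UPV Pool.Agent.UP25

namespace Pool.Agent.PLS

universe u

theorem rowW (A H : Type u) [CommRing A] [Group H] : RowW A H := by
  intro X _ T hfin hn hc
  let T' : Pool.Agent.T4S.WAct H X := ⟨T.Γ, T.tree, T.adj, T.or, T.orP, T.finV⟩
  exact Pool.Agent.T4S.coh_wald T' hfin hn hc

end Pool.Agent.PLS
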