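import Mathlib
import Pool.Agent.Lib.PLS.C

/-!
# T4, row S: the support argument  (helper44)
-/

set_option autoImplicit false
set_option linter.unusedSectionVars false
set_option linter.unusedVariables false

open MonoidAlgebra Pool.Agent.UP Pool.Agent.UPV Pool.Agent.UP25

namespace Pool.Agent.PLS

universe u

attribute [local instance] starMA

section
variable {A : Type u} [CommRing A] [StarRing A]

/-- restriction to a submodule is injective on `Ext^q` if the quotient is in `G_(q+1)` -/
theorem esInj_of_loc {q : ℕ} {M M' : Type u} [AddCommGroup M] [Module A M] [AddCommGroup M']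
    [Module A M'] [Module.Finite A M'] (f : M →ₗ[A] M') (hf : Function.Injective f)
    (hQ : Loc A (q + 1) (M' ⧸ LinearMap.range f)) : Function.Injective (esMap q f) := by
  have hex : Function.Exact f (LinearMap.range f).mkQ := by
    intro x
    rw [← LinearMap.mem_ker, Submodule.ker_mkQ]
    rfl
  have hE := es_exact_mid f (LinearMap.range f).mkQ hf (Submodule.mkQ_surjective _) hex q
  have h0 : Subsingleton (ES A q (M' ⧸ LinearMap.range f)) := (Loc.ge hQ) q (Nat.lt_succ_self q)
  rw [injective_iff_map_eq_zero]
  intro x hx
  obtain ⟨y, rfl⟩ := (hE x).1 hx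
  rw [Subsingleton.elim y 0, map_zero]

end

section
variable {A H : Type u} [CommRing A] [StarRing A] [Group H] {N : Type u} [AddCommGroup N]
  [Module A[H] N]

/-- the action of `g`, an `A`-linear map -/
noncomputable def actA (A : Type u) {H : Type u} [CommRing A] [Group H] {N : Type u}
    [AddCommGroup N] [Module A[H] N] (g : H) : Ra H N →ₗ[A] Ra H N where
  toFun n := toRa H N ((single g 1 : A[H]) • (toRa H N).symm n)
  map_add' a b := by rw [map_add, smul_add, map_add]
  map_smul' r k := by
    change toRa H N ((single g 1 : A[H]) • ((single 1 r : A[H]) • (toRa H N).symm k)) =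
      toRa H N ((single 1 r : A[H]) • ((single g 1 : A[H]) • (toRa H N).symm k))
    rw [smul_smul, smul_smul, single_mul_single, single_mul_single, one_mul, mul_one, mul_one,
      one_mul]

theorem actA_apply (g : H) (n : Ra H N) :
    actA A g n = toRa H N ((single g 1 : A[H]) • (toRa H N).symm n) := rfl

theorem actA_one (n : Ra H N) : actA A (1 : H) n = n := by
  rw [actA_apply]
  have : ((single 1 1 : A[H]) • (toRa H N).symm n) = (toRa H N).symm n := one_smul _ _
  rw [this]
  exact (toRa H N).apply_symm_apply n

theorem actA_mul (g h : H) (n : Ra H N) : actA A (g * h) n = actA A g (actA A h n) := by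
  rw [actA_apply, actA_apply, actA_apply, (toRa H N).symm_apply_apply, smul_smul,
    single_mul_single, mul_one]

theorem actA_surjective (g : H) : Function.Surjective (actA (N := N) A g) := fun n =>
  ⟨actA A g⁻¹ n, by rw [← actA_mul, mul_inv_cancel, actA_one]⟩

theorem actA_injective (g : H) : Function.Injective (actA (N := N) A g) := fun a b h => by
  have h1 := congrArg (actA A g⁻¹) h
  rwa [← actA_mul, ← actA_mul, inv_mul_cancel, actA_one, actA_one] at h1

/-- the map `w ↦ g w` between submodules -/
noncomputable def actR (g : H) (L L' : Submodule A (Ra H N)) (h : L.map (actA A g) ≤ L') :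
    L →ₗ[A] L' :=
  ((actA A g).comp L.subtype).codRestrict L' fun w => h ⟨w, w.2, rfl⟩

theorem actR_coe (g : H) (L L' : Submodule A (Ra H N)) (h : L.map (actA A g) ≤ L') (w : L) :
    ((actR g L L' h w : L') : Ra H N) = actA A g (w : Ra H N) := rfl

theorem actR_injective (g : H) (L L' : Submodule A (Ra H N)) (h : L.map (actA A g) ≤ L') :
    Function.Injective (actR g L L' h) := fun a b hab =>
  Subtype.ext (actA_injective g (congrArg Subtype.val hab))

/-- `actR g` is injective on `Ext^q` if `N / L0` is in `G_(q+1)` and `L0 ≤ L` -/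
theorem es_actR_injective [IsNoetherianRing A] {q : ℕ} (g : H) (L0 L L' : Submodule A (Ra H N))
    (h0 : L0 ≤ L) (h : L.map (actA A g) ≤ L') [Module.Finite A L']
    (hQ : Loc A (q + 1) (Ra H N ⧸ L0)) :
    Function.Injective (esMap (R := A) q (actR g L L' h)) := by
  refine esInj_of_loc _ (actR_injective g L L' h) ?_
  -- `N / L0 → N / g L`
  have h1 : L0 ≤ (L.map (actA A g)).comap (actA A g) := fun w hw => ⟨w, h0 hw, rfl⟩
  have h2 : Loc A (q + 1) (Ra H N ⧸ L.map (actA A g)) := by
    refine Loc.of_surjective (Submodule.mapQ L0 (L.map (actA A g)) (actA A g) h1) ?_ hQ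
    intro x
    obtain ⟨y, rfl⟩ := Submodule.mkQ_surjective _ x
    obtain ⟨z, rfl⟩ := actA_surjective (A := A) g y
    exact ⟨Submodule.Quotient.mk z, rfl⟩
  have h3 : LinearMap.range (actR g L L' h) ≤ (L.map (actA A g)).comap L'.subtype := by
    rintro _ ⟨w, rfl⟩
    exact ⟨w, w.2, rfl⟩
  refine Loc.of_injective (Submodule.mapQ _ (L.map (actA A g)) L'.subtype h3) ?_ h2
  rw [← LinearMap.ker_eq_bot, LinearMap.ker_eq_bot']
  intro x hx
  obtain ⟨y, rfl⟩ := Submodule.mkQ_surjective _ x
  have h4 : (y : Ra H N) ∈ L.map (actA A g) :=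
    (Submodule.Quotient.mk_eq_zero _).1 hx
  obtain ⟨w, hw, hwy⟩ := h4
  refine (Submodule.Quotient.mk_eq_zero _).2 ⟨⟨w, hw⟩, Subtype.ext hwy⟩

/-- the two factorisations -/
theorem indLift_actR (g : H) (L L' : Submodule A (Ra H N)) (h : L.map (actA A g) ≤ L') :
    (indLift (N := N) L'.subtype).comp (indMap 1 (actR g L L' h)) =
      (indLift (N := N) L.subtype).comp (indMap g LinearMap.id) := by
  refine LinearMap.ext fun z => ?_
  have key : ((indLift (N := N) L'.subtype).comp
      (indMap 1 (actR g L L' h))).toAddMonoidHom =
      ((indLift (N := N) L.subtype).comp (indMap g LinearMap.id)).toAddMonoidHom := by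
    refine Ind.addHom_ext fun x w => ?_
    change indLift (N := N) L'.subtype (indMap 1 (actR g L L' h) (Ind.mk H x w)) =
      indLift (N := N) L.subtype (indMap g LinearMap.id (Ind.mk H x w))
    rw [indMap_mk, indMap_mk, indLift_mk, indLift_mk, mul_one]
    change (single x 1 : A[H]) • ((single g 1 : A[H]) • (toRa H N).symm w) =
      (single (x * g) 1 : A[H]) • (toRa H N).symm w
    rw [smul_smul, single_mul_single, mul_one]
  exact DFunLike.congr_fun key z

/-- **row S** -/
theorem rowS (hI : RowI A H) (hIL : RowIL A H) : RowS A H := by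
  intro hNo hAR hc hInf q N _ _ _ L0 hL0 hN hQ l hl
  rcases Nat.lt_succ_iff_lt_or_eq.1 hl with hl | rfl
  · exact claim1 hI hIL hNo hAR hc q l hl N hN
  change Subsingleton (ES A[H] l N)
  obtain ⟨s, hs⟩ := (Module.Finite.fg_top : (⊤ : Submodule A[H] N).FG)
  -- the lattice
  let L : Submodule A (Ra H N) := L0 ⊔ Submodule.span A (toRa H N '' (s : Set N))
  have hL : L.FG := hL0.sup (Submodule.fg_span (s.finite_toSet.image _))
  have : Module.Finite A L := Module.Finite.iff_fg.2 hL
  let c : Ind H L →ₗ[A[H]] N := indLift L.subtype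
  have hcs : Function.Surjective c := by
    rw [← LinearMap.range_eq_top, eq_top_iff, ← hs, Submodule.span_le]
    intro x hx
    refine ⟨Ind.mk H 1 ⟨toRa H N x,
      (le_sup_right : _ ≤ L) (Submodule.subset_span ⟨x, hx, rfl⟩)⟩, ?_⟩
    rw [indLift_mk]
    change (single 1 1 : A[H]) • x = x
    exact one_smul _ _
  -- `c^*` is injective on `Ext^l`
  have hcinj : Function.Injective (esMap l c) := by
    cases l with
    | zero => exact esMap_zero_injective c hcs
    | succ l =>
      have hLq : Loc A (l + 1) L := Loc.of_injective L.subtype Subtype.val_injective hN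
      have : Module.Finite A[H] (Ind H L) := ind_finite
      have : Module.FinitePresentation A[H] (Ind H L) := ind_fp
      have hKfg : (LinearMap.ker c).FG := Module.FinitePresentation.fg_ker c hcs
      have : Module.FinitePresentation A[H] (LinearMap.ker c) := fp_submodule hc _ hKfg
      have hKq : GQ A H (l + 1) (LinearMap.ker c) :=
        Loc.of_injective (raMap (LinearMap.ker c).subtype)
          (fun a b hab => Subtype.val_injective hab) ((hIL hNo hAR (l + 1) L).2 hLq)
      have h2 : Subsingleton (ES A[H] l (LinearMap.ker c)) :=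
        claim1 hI hIL hNo hAR hc (l + 1) l (Nat.lt_succ_self l) (LinearMap.ker c) hKq
      have hex : Function.Exact (LinearMap.ker c).subtype c := by
        intro x
        constructor
        · intro hx
          exact ⟨⟨x, hx⟩, rfl⟩
        · rintro ⟨y, rfl⟩
          exact y.2
      have hE := es_exact_right (LinearMap.ker c).subtype c Subtype.val_injective hcs hex l
      rw [injective_iff_map_eq_zero]
      intro x hx
      obtain ⟨y, rfl⟩ := (hE x).1 hx
      rw [Subsingleton.elim y 0, map_zero]
  obtain ⟨D⟩ := hI hNo l
  -- all classes vanish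
  have key : ∀ ξ : ES A[H] l N, ξ = 0 := by
    intro ξ
    by_contra hξ
    set x : ES A[H] l (Ind H L) := esMap l c ξ with hx
    have hx0 : x ≠ 0 := fun h => hξ (hcinj (by rw [← hx, h, map_zero]))
    have h1 : ∃ h, D.cf L h x ≠ 0 := by
      by_contra hcon
      push Not at hcon
      exact hx0 (D.ext L x hcon)
    obtain ⟨h, hh⟩ := h1
    -- translation
    have htr : ∀ g : H, D.cf L (h * g) x ≠ 0 := by
      intro g
      let L' : Submodule A (Ra H N) := L ⊔ L.map (actA A g)
      have hL' : L'.FG := hL.sup (hL.map _)
      have : Module.Finite A L' := Module.Finite.iff_fg.2 hL'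
      have e1 : L.map (actA A (1 : H)) ≤ L' := by
        rintro _ ⟨w, hw, rfl⟩
        rw [actA_one]
        exact (le_sup_left : L ≤ L') hw
      have eg : L.map (actA A g) ≤ L' := le_sup_right
      let y : ES A[H] l (Ind H L') := esMap l (indLift (N := N) L'.subtype) ξ
      have hk : ∀ (k : H) (ek : L.map (actA A k) ≤ L'),
          D.cf L (h * k) x = esMap l (actR k L L' ek) (D.cf L' h y) := by
        intro k ek
        have e2 : esMap l (indMap 1 (actR k L L' ek)) y =
            esMap l (indMap k LinearMap.id) x := by
          rw [← esMap_comp, indLift_actR, esMap_comp]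
        have e3 := D.cf_map L L' 1 (actR k L L' ek) h y
        have e4 := D.cf_map L L k LinearMap.id h x
        rw [e2, e4, esMap_id, mul_one] at e3
        exact e3
      have hy : D.cf L' h y ≠ 0 := by
        intro h0
        have := hk 1 e1
        rw [h0, map_zero, mul_one] at this
        exact hh this
      intro h0
      have h5 := hk g eg
      rw [h0] at h5
      exact hy (es_actR_injective g L0 L L' le_sup_left eg hQ (by rw [← h5, map_zero]))
    have hfin := D.fin L x
    have : (Set.univ : Set H) ⊆ (fun k => h⁻¹ * k) '' {k | D.cf L k x ≠ 0} := by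
      intro g _
      exact ⟨h * g, htr g, by simp⟩
    exact Set.infinite_univ ((hfin.image _).subset this)
  exact ⟨fun a b => (key a).trans (key b).symm⟩

end

end Pool.Agent.PLS
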