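import Mathlib
import Pool.Agent.Lib.PLS.Rows
import Pool.Agent.Lib.T4S.Sub

/-!
# T4: row SC (helper50)
-/

set_option autoImplicit false

open MonoidAlgebra Pool.Agent.UP

namespace Pool.Agent.PLS

universe u

theorem rowSC (A H K : Type u) [CommRing A] [Group H] [Group K] : RowSC A H K :=
  fun φ hφ h => T4S.coh_sub φ hφ h

end Pool.Agent.PLS
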