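import Mathlib
import Pool.Agent.Lib.PLS.Rows
import Pool.Agent.Lib.T4S.Coh

/-!
# T4, row W (helper45): coherence (Waldhausen)
-/

set_option autoImplicit false

open MonoidAlgebra Pool.Agent.UP Pool.Agent.UPV Pool.Agent.UP25 Pool.Agent.T4S

namespace Pool.Agent.PLS

universe u

/-- an action on a tree without the finiteness of the orbits -/
def WAct.toTA {H : Type u} [Group H] {X : Type u} [MulAction H X] (T : WAct H X) : TA H X where
  Γ := T.Γ
  tree := T.tree
  adj := T.adj
  or := T.or
  orP := T.orP

/-- **row W** -/
theorem rowW (A H : Type u) [CommRing A] [Group H] : RowW A H := fun _ _ T hE hn hc =>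
  coh_of_tree (A := A) T.toTA T.finV hE hn hc

end Pool.Agent.PLS
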