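import Mathlib
import Pool.Agent.Lib.PLS.Rows
import Pool.Agent.Lib.T4S.Coef

/-!
# T4, row X: exactness with coefficients of the complex of a plane
-/

set_option autoImplicit false

open Pool.Agent.T4S

namespace Pool.Agent.PLS

universe u

section
variable {V E F : Type*} (o t : E → V) (l r : E → F) (s : E → ℤˣ)

/-- `g = c ∘ l - s (c ∘ r)` -/
def IsBdS {K : Type*} [AddCommGroup K] (c : F →₀ K) (g : E →₀ K) : Prop :=
  ∀ e, g e = c (l e) - (s e : ℤ) • c (r e)

theorem isBdS_cof {K : Type*} [AddCommGroup K] (k : K) {c : F →₀ ℤ} {g : E →₀ ℤ}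
    (h : IsBdS l r s c g) : IsBdS l r s (cof k c) (cof k g) := by
  intro e
  rw [cof_apply, cof_apply, cof_apply, h e, sub_smul, smul_smul, smul_eq_mul]

variable {l r s} in
theorem IsBdS.add {K : Type*} [AddCommGroup K] {c c' : F →₀ K} {g g' : E →₀ K}
    (h : IsBdS l r s c g) (h' : IsBdS l r s c' g') : IsBdS l r s (c + c') (g + g') := by
  intro e
  rw [Finsupp.add_apply, Finsupp.add_apply, Finsupp.add_apply, h e, h' e, smul_add]
  abel

variable {l r s} in
theorem IsBdS.eq {K : Type*} [AddCommGroup K] {c : F →₀ K} {g g' : E →₀ K}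
    (h : IsBdS l r s c g) (h' : IsBdS l r s c g') : g = g' := by
  ext e
  rw [h e, h' e]

theorem isBdS_zero {K : Type*} [AddCommGroup K] : IsBdS l r s (0 : F →₀ K) (0 : E →₀ K) := by
  intro e
  simp

/-- exactness at the edges with coefficients -/
theorem coefS1 (h0 : ∀ f : V →₀ ℤ, (f.sum fun _ n => n) = 0 → ∃ g : E →₀ ℤ, bd1 o t ℤ g = f)
    (h1 : ∀ g : E →₀ ℤ, bd1 o t ℤ g = 0 → ∃ c : F →₀ ℤ, IsBdS l r s c g)
    {K : Type*} [AddCommGroup K] (g : E →₀ K) (hg : bd1 o t K g = 0) :
    ∃ c : F →₀ K, IsBdS l r s c g := by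
  classical
  by_cases hV : Nonempty V
  swap
  · refine ⟨0, fun e => absurd ⟨o e⟩ hV⟩
  obtain ⟨v0⟩ := hV
  have h2 : ∀ v, ∃ g : E →₀ ℤ, bd1 o t ℤ g = Finsupp.single v 1 - Finsupp.single v0 1 := by
    intro v
    refine h0 _ ?_
    rw [Finsupp.sum_sub_index (fun _ _ _ => rfl), Finsupp.sum_single_index rfl,
      Finsupp.sum_single_index rfl, sub_self]
  choose y hy using h2
  have h3 : ∀ e, ∃ c : F →₀ ℤ, IsBdS l r s c (Finsupp.single e 1 - y (t e) + y (o e)) := by
    intro e
    refine h1 _ ?_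
    rw [map_add, map_sub, bd1_single, hy, hy]
    abel
  choose c hc using h3
  refine ⟨ext0 c K g, ?_⟩
  have key : ∀ g : E →₀ K, IsBdS l r s (ext0 c K g) (g - ext0 y K (bd1 o t K g)) := by
    intro g
    induction g using Finsupp.induction_linear with
    | zero =>
      rw [map_zero, map_zero, map_zero, sub_zero]
      exact isBdS_zero l r s
    | add f g hf hg =>
      have h4 := hf.add hg
      rw [map_add, map_add, map_add]
      have h5 : f + g - (ext0 y K (bd1 o t K f) + ext0 y K (bd1 o t K g)) =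
          f - ext0 y K (bd1 o t K f) + (g - ext0 y K (bd1 o t K g)) := by abel
      rw [h5]
      exact h4
    | single e k =>
      have h4 := isBdS_cof l r s k (hc e)
      rw [ext0_single, bd1_single, map_sub, ext0_single, ext0_single]
      have h5 : Finsupp.single e k - (cof k (y (t e)) - cof k (y (o e))) =
          cof k (Finsupp.single e 1 - y (t e) + y (o e)) := by
        rw [map_add, map_sub, cof_single, one_smul]
        abel
      rw [h5]
      exact h4
  have h4 := key g
  rw [hg, map_zero, sub_zero] at h4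
  exact h4

/-- the fibres of the sides are finite: the boundary of a chain of faces exists -/
theorem exists_bdS (hl : ∀ f, {e | l e = f}.Finite) (hr : ∀ f, {e | r e = f}.Finite)
    {K : Type*} [AddCommGroup K] (c : F →₀ K) : ∃ g : E →₀ K, IsBdS l r s c g := by
  classical
  have hfin : {e | c (l e) - (s e : ℤ) • c (r e) ≠ 0}.Finite := by
    refine Set.Finite.subset (Set.Finite.union (c.support.finite_toSet.biUnion fun f _ => hl f)
      (c.support.finite_toSet.biUnion fun f _ => hr f)) ?_
    intro e he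
    by_cases h1 : c (l e) = 0
    · have h2 : c (r e) ≠ 0 := fun h2 => he (by rw [h1, h2, smul_zero, sub_zero])
      exact Or.inr (Set.mem_biUnion (Finset.mem_coe.2 (Finsupp.mem_support_iff.2 h2)) rfl)
    · exact Or.inl (Set.mem_biUnion (Finset.mem_coe.2 (Finsupp.mem_support_iff.2 h1)) rfl)
  exact ⟨Finsupp.onFinset hfin.toFinset (fun e => c (l e) - (s e : ℤ) • c (r e)) fun e he =>
    hfin.mem_toFinset.2 he, fun e => rfl⟩

/-- the boundary of a boundary with coefficients is zero -/
theorem coefS1' (hl : ∀ f, {e | l e = f}.Finite) (hr : ∀ f, {e | r e = f}.Finite)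
    (h1 : ∀ (c : F →₀ ℤ) (g : E →₀ ℤ), IsBdS l r s c g → bd1 o t ℤ g = 0)
    {K : Type*} [AddCommGroup K] (c : F →₀ K) (g : E →₀ K) (hg : IsBdS l r s c g) :
    bd1 o t K g = 0 := by
  classical
  have key : ∀ c : F →₀ K, ∃ g : E →₀ K, IsBdS l r s c g ∧ bd1 o t K g = 0 := by
    intro c
    induction c using Finsupp.induction_linear with
    | zero => exact ⟨0, isBdS_zero l r s, map_zero _⟩
    | add c c' hc hc' =>
      obtain ⟨g, h2, h3⟩ := hc
      obtain ⟨g', h2', h3'⟩ := hc'
      exact ⟨g + g', h2.add h2', by rw [map_add, h3, h3', add_zero]⟩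
    | single f k =>
      obtain ⟨g, h2⟩ := exists_bdS l r s hl hr (Finsupp.single f (1 : ℤ))
      refine ⟨cof k g, ?_, ?_⟩
      · have h3 := isBdS_cof l r s k h2
        rwa [cof_single, one_smul] at h3
      · rw [bd1_cof, h1 _ _ h2, map_zero]
  obtain ⟨g', h2, h3⟩ := key c
  rw [hg.eq h2, h3]

end

section
variable {H V E F : Type u} [Group H] [MulAction H V] [MulAction H E] [MulAction H F]

/-- an equivariant map from a set with finitely many orbits to a free set has finite fibres -/
theorem finite_fibre (hE : Finite (MulAction.orbitRel.Quotient H E))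
    (freeF : ∀ (h : H) (x : F), h • x = x → h = 1) (l : E → F)
    (hl : ∀ (h : H) (e : E), l (h • e) = h • l e) (f : F) : {e | l e = f}.Finite := by
  classical
  have hinj : Set.InjOn (fun e : E => (Quotient.mk'' e : MulAction.orbitRel.Quotient H E))
      {e | l e = f} := by
    intro e he e' he' h
    have h1 : MulAction.orbitRel H E e e' := Quotient.exact h
    obtain ⟨g, hg⟩ := MulAction.orbitRel_apply.1 h1
    have h2 : g • e' = e := hg
    have h3 : g • f = f := by
      have h4 : l (g • e') = g • l e' := hl g e'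
      rw [h2] at h4
      have h5 : l e = f := he
      have h6 : l e' = f := he'
      rw [h5, h6] at h4
      exact h4.symm
    rw [freeF g f h3, one_smul] at h2
    exact h2.symm
  exact Set.Finite.of_finite_image (Set.toFinite _) hinj

/-- **ROW X** -/
theorem rowX (P : PlaneCx H V E F) : RowX P := by
  classical
  intro K _
  have e0 : ∀ (K : Type u) [AddCommGroup K] (g : E →₀ K),
      bd1 P.o P.t K g = g.mapDomain P.t - g.mapDomain P.o := fun K _ g => rfl
  have e0Z : ∀ (g : E →₀ ℤ), bd1 P.o P.t ℤ g = g.mapDomain P.t - g.mapDomain P.o := fun g => rfl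
  have h0 : ∀ f : V →₀ ℤ, (f.sum fun _ n => n) = 0 → ∃ g : E →₀ ℤ, bd1 P.o P.t ℤ g = f :=
    fun f hf => P.ex0 f hf
  have h1 : ∀ g : E →₀ ℤ, bd1 P.o P.t ℤ g = 0 → ∃ c : F →₀ ℤ, IsBdS P.l P.r P.s c g := by
    intro g hg
    obtain ⟨c, hc⟩ := P.ex1 g (sub_eq_zero.1 ((e0Z g).symm.trans hg))
    exact ⟨c, fun e => by rw [hc e, smul_eq_mul]⟩
  have h2 : ∀ (c : F →₀ ℤ) (g : E →₀ ℤ), IsBdS P.l P.r P.s c g → bd1 P.o P.t ℤ g = 0 := by
    intro c g h
    rw [e0Z, P.bd c g (fun e => by rw [h e, smul_eq_mul]), sub_self]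
  have hl := finite_fibre P.finE P.freeF P.l P.hl
  have hr := finite_fibre P.finE P.freeF P.r P.hr
  refine ⟨fun f hf => coef0 P.o P.t P.ne h0 f hf, fun g hg => ?_, fun c g hc => ?_,
    fun hH c hc => ?_⟩
  · exact coefS1 P.o P.t P.l P.r P.s h0 h1 g (by rw [e0, hg, sub_self])
  · have h3 := coefS1' P.o P.t P.l P.r P.s hl hr h2 c g hc
    rw [e0] at h3
    exact sub_eq_zero.1 h3
  · by_contra hne
    have h3 : ∀ e, c (P.l e) = (P.s e : ℤ) • c (P.r e) := fun e => sub_eq_zero.1 (hc e)
    have h4 : ∀ (n : ℤˣ) (k : K), (n : ℤ) • k = 0 ↔ k = 0 := by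
      intro n k
      rcases Int.units_eq_one_or n with h | h
      · rw [h]; simp
      · rw [h]; simp
    obtain ⟨f0, hf0⟩ : ∃ f, c f ≠ 0 := by
      by_contra hcon
      push Not at hcon
      exact hne (Finsupp.ext hcon)
    have h5 := P.connF {f | c f ≠ 0} ⟨f0, hf0⟩ (fun e => by
      change c (P.l e) ≠ 0 ↔ c (P.r e) ≠ 0
      rw [h3 e, Ne, h4, Ne])
    have h6 : (Set.univ : Set F).Finite := by
      rw [← h5]
      exact c.support.finite_toSet.subset fun f hf => Finset.mem_coe.2 (Finsupp.mem_support_iff.2 hf)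
    have h7 : Finite F := Set.finite_univ_iff.1 h6
    have h8 : Function.Injective (fun h : H => h • f0) := by
      intro a b hab
      have h9 : a • f0 = b • f0 := hab
      have h10 : (b⁻¹ * a) • f0 = f0 := by
        rw [mul_smul, h9, inv_smul_smul]
      exact (inv_mul_eq_one.1 (P.freeF _ _ h10)).symm
    exact (Finite.of_injective _ h8).false

end

end Pool.Agent.PLS
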